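import Mathlib

set_option autoImplicit false

/-!
# Gradings on quotients and affine charts of `Proj`

* `quotGrading 𝒜 I`, the grading on `A ⧸ I` for a homogeneous ideal `I`;
* `chartEquiv`, the isomorphism `A[1/s]_0 ≃ A ⧸ (s - 1)` for `s` of degree one.
-/

namespace Pool.MP_602153_ag

open DirectSum

section Quot

variable {R A : Type*} [CommRing R] [CommRing A] [Algebra R A]

/-- The images of the graded pieces in the quotient. -/
def quotGrading (𝒜 : ℕ → Submodule R A) (I : Ideal A) : ℕ → Submodule R (A ⧸ I) :=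
  fun i => (𝒜 i).map (Ideal.Quotient.mkₐ R I).toLinearMap

theorem mem_quotGrading {𝒜 : ℕ → Submodule R A} {I : Ideal A} {i : ℕ} {x : A ⧸ I} :
    x ∈ quotGrading 𝒜 I i ↔ ∃ a ∈ 𝒜 i, Ideal.Quotient.mk I a = x := by
  simp [quotGrading, Submodule.mem_map]

theorem mk_mem_quotGrading {𝒜 : ℕ → Submodule R A} {I : Ideal A} {i : ℕ} {a : A} (ha : a ∈ 𝒜 i) :
    Ideal.Quotient.mk I a ∈ quotGrading 𝒜 I i :=
  mem_quotGrading.2 ⟨a, ha, rfl⟩

variable (𝒜 : ℕ → Submodule R A) [GradedAlgebra 𝒜] (I : Ideal A)

theorem isInternal_quotGrading (hI : I.IsHomogeneous 𝒜) :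
    DirectSum.IsInternal (quotGrading 𝒜 I) := by
  classical
  constructor
  · -- injectivity
    rw [injective_iff_map_eq_zero]
    intro x hx
    have hch : ∀ i, ∃ a ∈ 𝒜 i, Ideal.Quotient.mk I a = (x i : A ⧸ I) := fun i =>
      mem_quotGrading.1 (x i).2
    choose a ha hax using hch
    have hsum : Ideal.Quotient.mk I (∑ i ∈ DFinsupp.support x, a i) = 0 := by
      rw [map_sum, Finset.sum_congr rfl (fun i _ => hax i)]
      rw [DirectSum.coeAddMonoidHom_eq_dfinsuppSum] at hx
      exact hx
    rw [Ideal.Quotient.eq_zero_iff_mem] at hsum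
    ext i
    by_cases hi : i ∈ DFinsupp.support x
    · have h1 := hI i hsum
      rw [DirectSum.decompose_sum] at h1
      have h2 : ((∑ j ∈ DFinsupp.support x, DirectSum.decompose 𝒜 (a j)) i : 𝒜 i) =
          (⟨a i, ha i⟩ : 𝒜 i) := by
        rw [DirectSum.sum_apply, Finset.sum_eq_single i]
        · rw [DirectSum.decompose_of_mem _ (ha i), DirectSum.of_eq_same]
        · intro j _ hj
          rw [DirectSum.decompose_of_mem _ (ha j), DirectSum.of_eq_of_ne _ _ _ hj.symm]
        · intro h
          exact absurd hi h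
      rw [h2] at h1
      rw [← hax i]
      have : Ideal.Quotient.mk I (a i) = 0 := Ideal.Quotient.eq_zero_iff_mem.2 h1
      rw [this]
      simp
    · rw [DFinsupp.notMem_support_iff] at hi
      rw [hi]
      rfl
  · -- surjectivity
    intro y
    obtain ⟨b, rfl⟩ := Ideal.Quotient.mk_surjective y
    refine ⟨∑ i ∈ (DirectSum.decompose 𝒜 b).support, DirectSum.of
      (fun i => quotGrading 𝒜 I i) i ⟨Ideal.Quotient.mk I (DirectSum.decompose 𝒜 b i : A),
        mk_mem_quotGrading (DirectSum.decompose 𝒜 b i).2⟩, ?_⟩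
    rw [map_sum]
    simp only [DirectSum.coeAddMonoidHom_of]
    rw [← map_sum, DirectSum.sum_support_decompose]

/-- The quotient of a graded algebra by a homogeneous ideal is a graded algebra. -/
@[reducible] noncomputable def quotGraded (hI : I.IsHomogeneous 𝒜) :
    GradedAlgebra (quotGrading 𝒜 I) :=
  { one_mem := mk_mem_quotGrading (𝒜 := 𝒜) SetLike.GradedOne.one_mem
    mul_mem := by
      intro i j x y hx hy
      obtain ⟨a, ha, rfl⟩ := mem_quotGrading.1 hx
      obtain ⟨b, hb, rfl⟩ := mem_quotGrading.1 hy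
      rw [← map_mul]
      exact mk_mem_quotGrading (SetLike.GradedMul.mul_mem ha hb)
    toDecomposition := (isInternal_quotGrading 𝒜 I hI).chooseDecomposition }

end Quot

section Chart

open HomogeneousLocalization

variable {R A : Type*} [CommRing R] [CommRing A] [Algebra R A]
variable (𝒜 : ℕ → Submodule R A) [GradedAlgebra 𝒜] {s : A} (hs : s ∈ 𝒜 1)

/-- The element `a / s ^ i` for `a` homogeneous of degree `i`. -/
noncomputable def frac (i : ℕ) : 𝒜 i →+ Away 𝒜 s where
  toFun a := Away.mk 𝒜 hs i (a : A) (by simp)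
  map_zero' := by
    apply HomogeneousLocalization.val_injective
    rw [Away.val_mk, HomogeneousLocalization.val_zero]
    exact Localization.mk_zero _
  map_add' a b := by
    apply HomogeneousLocalization.val_injective
    rw [HomogeneousLocalization.val_add, Away.val_mk, Away.val_mk, Away.val_mk]
    rw [Localization.add_mk_self]
    rfl

theorem frac_val (i : ℕ) (a : 𝒜 i) :
    (frac 𝒜 hs i a).val = Localization.mk (a : A) ⟨s ^ i, by use i⟩ := rfl

/-- Dehomogenisation: `a ↦ ∑ a_i / s ^ i`. -/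
noncomputable def dehom : A →+* Away 𝒜 s :=
  (DirectSum.toSemiring (fun i => frac 𝒜 hs i)
    (by
      apply HomogeneousLocalization.val_injective
      rw [frac_val, HomogeneousLocalization.val_one, ← Localization.mk_one]
      congr 1
      exact Subtype.ext (pow_zero s))
    (by
      intro i j a b
      apply HomogeneousLocalization.val_injective
      rw [HomogeneousLocalization.val_mul, frac_val, frac_val, frac_val, Localization.mk_mul]
      congr 1
      exact Subtype.ext (pow_add s i j))).comp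
    (DirectSum.decomposeRingEquiv 𝒜 : A →+* ⨁ i, 𝒜 i)

theorem dehom_apply {i : ℕ} {a : A} (ha : a ∈ 𝒜 i) :
    dehom 𝒜 hs a = frac 𝒜 hs i ⟨a, ha⟩ := by
  unfold dehom
  rw [RingHom.comp_apply]
  have : (DirectSum.decomposeRingEquiv 𝒜 : A →+* ⨁ i, 𝒜 i) a =
      DirectSum.of (fun i => 𝒜 i) i ⟨a, ha⟩ := by
    change DirectSum.decompose 𝒜 a = _
    exact DirectSum.decompose_of_mem _ ha
  rw [this, DirectSum.toSemiring_of]

theorem dehom_self : dehom 𝒜 hs s = 1 := by
  rw [dehom_apply 𝒜 hs hs]
  apply HomogeneousLocalization.val_injective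
  rw [frac_val, HomogeneousLocalization.val_one]
  have : (⟨s ^ 1, by use 1⟩ : Submonoid.powers s) = ⟨s, by use 1; simp⟩ :=
    Subtype.ext (pow_one s)
  rw [this]
  exact Localization.mk_self (⟨s, by use 1; simp⟩ : Submonoid.powers s)

/-- The evaluation `A[1/s]_0 → A ⧸ (s - 1)`. -/
noncomputable def toQuot : Away 𝒜 s →+* A ⧸ Ideal.span {s - 1} :=
  (Localization.awayLift (Ideal.Quotient.mk (Ideal.span {s - 1})) s (by
    have : Ideal.Quotient.mk (Ideal.span {s - 1}) s = 1 := by
      rw [← map_one (Ideal.Quotient.mk (Ideal.span {s - 1}))]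
      exact Ideal.Quotient.eq.2 (Ideal.subset_span rfl)
    rw [this]
    exact isUnit_one)).comp (algebraMap (Away 𝒜 s) (Localization.Away s))

theorem toQuot_frac (i : ℕ) (a : 𝒜 i) :
    toQuot 𝒜 (s := s) (frac 𝒜 hs i a) = Ideal.Quotient.mk _ (a : A) := by
  unfold toQuot
  rw [RingHom.comp_apply, HomogeneousLocalization.algebraMap_apply, frac_val]
  rw [Localization.awayLift_mk (v := 1)]
  · simp
  · rw [mul_one, ← map_one (Ideal.Quotient.mk (Ideal.span {s - 1}))]
    exact Ideal.Quotient.eq.2 (Ideal.subset_span rfl)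

theorem dehom_mem (a : A) (ha : a ∈ Ideal.span {s - 1}) : dehom 𝒜 hs a = 0 := by
  have hle : Ideal.span {s - 1} ≤ RingHom.ker (dehom 𝒜 hs) := by
    rw [Ideal.span_le]
    intro x hx
    rw [Set.mem_singleton_iff] at hx
    rw [hx]
    simp [RingHom.mem_ker, dehom_self]
  exact hle ha

/-- The inverse of `toQuot`. -/
noncomputable def fromQuot : A ⧸ Ideal.span {s - 1} →+* Away 𝒜 s :=
  Ideal.Quotient.lift (Ideal.span {s - 1}) (dehom 𝒜 hs) (dehom_mem 𝒜 hs)

theorem fromQuot_mk (a : A) : fromQuot 𝒜 hs (Ideal.Quotient.mk _ a) = dehom 𝒜 hs a := rfl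

/-- The standard chart as a quotient ring. -/
noncomputable def chartEquiv : Away 𝒜 s ≃+* A ⧸ Ideal.span {s - 1} :=
  RingEquiv.ofRingHom (toQuot 𝒜) (fromQuot 𝒜 hs)
    (by
      apply Ideal.Quotient.ringHom_ext
      ext a
      simp only [RingHom.comp_apply, fromQuot_mk, RingHom.id_apply]
      induction a using DirectSum.Decomposition.inductionOn 𝒜 with
      | zero => simp
      | homogeneous m => rw [dehom_apply 𝒜 hs m.2, toQuot_frac]
      | add m m' h1 h2 => rw [map_add, map_add, h1, h2, map_add])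
    (by
      ext x
      obtain ⟨n, a, ha, rfl⟩ := HomogeneousLocalization.Away.mk_surjective 𝒜 hs x
      have ha' : a ∈ 𝒜 n := by simpa using ha
      have : Away.mk 𝒜 hs n a ha = frac 𝒜 hs n ⟨a, ha'⟩ := rfl
      rw [this]
      simp only [RingHom.comp_apply, RingHom.id_apply]
      rw [toQuot_frac]
      rw [fromQuot_mk, dehom_apply 𝒜 hs ha'])

end Chart

end Pool.MP_602153_ag
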