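import Mathlib
import Pool.Agent.MP_602153_ag.Graded

set_option autoImplicit false

/-!
# Integrality, flatness and regularity of `Proj` through degree one charts
-/

namespace Pool.MP_602153_ag

open AlgebraicGeometry CategoryTheory CategoryTheory.Limits HomogeneousLocalization TopologicalSpace

section Regular

/-- Regularity of all stalks gives the regularity condition on all affine opens. -/
theorem regular_affine_of_stalk (Y : Scheme.{0})
    (h : ∀ y : Y, IsRegularLocalRing (Y.presheaf.stalk y))
    (U : Y.affineOpens) (p : PrimeSpectrum (Y.presheaf.obj (Opposite.op U.1))) :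
    ringKrullDim (Localization.AtPrime p.asIdeal) =
      (((Module.finrank (IsLocalRing.ResidueField (Localization.AtPrime p.asIdeal))
        (IsLocalRing.CotangentSpace (Localization.AtPrime p.asIdeal)) : ℕ) : ℕ∞) :
          WithBot ℕ∞) := by
  have hU := U.2
  have hy : hU.fromSpec p ∈ U.1 := by
    have : hU.fromSpec p ∈ Set.range hU.fromSpec := ⟨p, rfl⟩
    rwa [hU.range_fromSpec] at this
  let _ : Algebra Γ(Y, U.1) (Y.presheaf.stalk (hU.fromSpec p)) :=
    (Y.presheaf.germ U.1 (hU.fromSpec p) hy).hom.toAlgebra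
  have hloc : IsLocalization.AtPrime (Y.presheaf.stalk (hU.fromSpec p)) p.asIdeal :=
    hU.isLocalization_stalk' p hy
  let e : Y.presheaf.stalk (hU.fromSpec p) ≃+* Localization.AtPrime p.asIdeal :=
    (IsLocalization.algEquiv p.asIdeal.primeCompl (Y.presheaf.stalk (hU.fromSpec p))
      (Localization.AtPrime p.asIdeal)).toRingEquiv
  have := h (hU.fromSpec p)
  have : IsRegularLocalRing (Localization.AtPrime p.asIdeal) := IsRegularLocalRing.of_ringEquiv e
  exact ((IsRegularLocalRing.iff_finrank_cotangentSpace _).1 inferInstance).symm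

theorem regular_stalk_spec (R : CommRingCat.{0}) [IsRegularRing R] (q : Spec R) :
    IsRegularLocalRing ((Spec R).presheaf.stalk q) := by
  let x : PrimeSpectrum R := q
  have : IsRegularLocalRing (Localization.AtPrime x.asIdeal) := inferInstance
  exact IsRegularLocalRing.of_ringEquiv (Spec.stalkIso R x).commRingCatIsoToRingEquiv.symm

theorem regular_stalk_of_openImmersion {Y : Scheme.{0}} (R : CommRingCat.{0}) [IsRegularRing R]
    (j : Spec R ⟶ Y) [IsOpenImmersion j] (q : Spec R) :
    IsRegularLocalRing (Y.presheaf.stalk (j q)) := by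
  have := regular_stalk_spec R q
  exact IsRegularLocalRing.of_ringEquiv (asIso (j.stalkMap q)).commRingCatIsoToRingEquiv.symm

/-- The stalks of a scheme covered by spectra of regular rings are regular. -/
theorem regular_stalk_of_cover {Y : Scheme.{0}} (𝒰 : Y.AffineOpenCover)
    (h : ∀ i, IsRegularRing (𝒰.X i)) (y : Y) : IsRegularLocalRing (Y.presheaf.stalk y) := by
  obtain ⟨q, hq⟩ := 𝒰.covers y
  have := h (𝒰.idx y)
  rw [← hq]
  exact regular_stalk_of_openImmersion (𝒰.X (𝒰.idx y)) (𝒰.f (𝒰.idx y)) q

end Regular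

section ProjSec

variable {R A : Type} [CommRing R] [CommRing A] [Algebra R A] (𝒜 : ℕ → Submodule R A)
  [GradedAlgebra 𝒜]

/-- The generic point of `Proj` of a graded domain. -/
noncomputable def genericPt [IsDomain A] (s : A) (hs : s ∈ 𝒜 1) (h0 : s ≠ 0) :
    ProjectiveSpectrum 𝒜 where
  asHomogeneousIdeal := ⊥
  isPrime := by
    rw [HomogeneousIdeal.toIdeal_bot]
    exact Ideal.isPrime_bot
  not_irrelevant_le := by
    intro h
    have h1 : s ∈ HomogeneousIdeal.irrelevant 𝒜 := by
      rw [HomogeneousIdeal.mem_irrelevant_iff]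
      rw [GradedRing.proj_apply, DirectSum.decompose_of_mem_ne 𝒜 hs (by norm_num)]
    have h2 : s ∈ (⊥ : HomogeneousIdeal 𝒜).toIdeal := h h1
    rw [HomogeneousIdeal.toIdeal_bot] at h2
    exact h0 (Ideal.mem_bot.1 h2)

theorem irreducibleSpace_proj [IsDomain A] (s : A) (hs : s ∈ 𝒜 1) (h0 : s ≠ 0) :
    IrreducibleSpace (Proj 𝒜) := by
  let x : ProjectiveSpectrum 𝒜 := genericPt 𝒜 s hs h0
  have hx : closure ({x} : Set (ProjectiveSpectrum 𝒜)) = Set.univ := by
    ext y
    simp only [Set.mem_univ, iff_true]
    rw [← ProjectiveSpectrum.le_iff_mem_closure]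
    rw [← ProjectiveSpectrum.as_ideal_le_as_ideal]
    exact bot_le
  have : IrreducibleSpace (ProjectiveSpectrum 𝒜) := by
    rw [irreducibleSpace_def]
    change IsIrreducible (Set.univ : Set (ProjectiveSpectrum 𝒜))
    rw [← hx]
    exact isIrreducible_singleton.closure
  exact this

theorem isDomain_away [IsDomain A] (s : A) (h0 : s ≠ 0) : IsDomain (Away 𝒜 s) := by
  have h1 : Submonoid.powers s ≤ nonZeroDivisors A := by
    rintro _ ⟨n, rfl⟩
    exact mem_nonZeroDivisors_of_ne_zero (pow_ne_zero n h0)
  have : IsDomain (Localization.Away s) := IsLocalization.isDomain_localization h1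
  exact Function.Injective.isDomain (algebraMap (Away 𝒜 s) (Localization.Away s))
    (HomogeneousLocalization.val_injective _)

theorem isReduced_away [IsDomain A] (s : A) : _root_.IsReduced (Away 𝒜 s) := by
  by_cases h0 : s = 0
  · have : Subsingleton (Away 𝒜 s) :=
      HomogeneousLocalization.subsingleton 𝒜 (by rw [h0]; exact Submonoid.mem_powers 0)
    infer_instance
  · have := isDomain_away 𝒜 s h0
    infer_instance

variable {ι : Type} (f : ι → A) (hf : ∀ i, f i ∈ 𝒜 1)
  (hspan : (HomogeneousIdeal.irrelevant 𝒜).toIdeal ≤ Ideal.span (Set.range f))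

/-- The cover of `Proj` by the degree one charts. -/
noncomputable def cover : (Proj 𝒜).AffineOpenCover :=
  Proj.affineOpenCoverOfIrrelevantLESpan 𝒜 f hf (fun _ => one_pos) hspan

theorem isReduced_proj [IsDomain A] : AlgebraicGeometry.IsReduced (Proj 𝒜) := by
  have (i : (Proj.affineOpenCover 𝒜).openCover.I₀) :
      AlgebraicGeometry.IsReduced ((Proj.affineOpenCover 𝒜).openCover.X i) := by
    have h := isReduced_away 𝒜 (i.2 : A)
    change AlgebraicGeometry.IsReduced (Spec (.of (Away 𝒜 (i.2 : A))))
    have : _root_.IsReduced (CommRingCat.of (Away 𝒜 (i.2 : A))) := h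
    infer_instance
  exact IsReduced.of_openCover _ (Proj.affineOpenCover 𝒜).openCover

theorem isIntegral_proj [IsDomain A] (s : A) (hs : s ∈ 𝒜 1) (h0 : s ≠ 0) :
    IsIntegral (Proj 𝒜) := by
  have := isReduced_proj 𝒜
  have := irreducibleSpace_proj 𝒜 s hs h0
  exact isIntegral_of_irreducibleSpace_of_isReduced _

include hf in
theorem isRegularRing_away (h : ∀ i, IsRegularRing (A ⧸ Ideal.span {f i - 1})) (i : ι) :
    IsRegularRing (Away 𝒜 (f i)) := by
  have := h i
  exact IsRegularRing.of_ringEquiv (chartEquiv 𝒜 (hf i)).symm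

include hf hspan in
theorem isLocallyNoetherian_proj (h : ∀ i, IsNoetherianRing (A ⧸ Ideal.span {f i - 1})) :
    IsLocallyNoetherian (Proj 𝒜) := by
  rw [isLocallyNoetherian_iff_openCover (cover 𝒜 f hf hspan).openCover]
  intro i
  have h1 : IsNoetherianRing (A ⧸ Ideal.span {f i - 1}) := h i
  have h2 : IsNoetherianRing (Away 𝒜 (f i)) :=
    isNoetherianRing_of_ringEquiv _ (chartEquiv 𝒜 (hf i)).symm
  change IsLocallyNoetherian (Spec (.of (Away 𝒜 (f i))))
  rw [isLocallyNoetherian_Spec]
  exact h2

include hf hspan in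
theorem regular_proj (h : ∀ i, IsRegularRing (A ⧸ Ideal.span {f i - 1}))
    (U : (Proj 𝒜).affineOpens) (p : PrimeSpectrum ((Proj 𝒜).presheaf.obj (Opposite.op U.1))) :
    ringKrullDim (Localization.AtPrime p.asIdeal) =
      (((Module.finrank (IsLocalRing.ResidueField (Localization.AtPrime p.asIdeal))
        (IsLocalRing.CotangentSpace (Localization.AtPrime p.asIdeal)) : ℕ) : ℕ∞) :
          WithBot ℕ∞) := by
  apply regular_affine_of_stalk
  exact regular_stalk_of_cover (cover 𝒜 f hf hspan) (isRegularRing_away 𝒜 f hf h)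

theorem flat_away [IsDomain A] [CharZero A] (s : A) :
    Flat (Spec.map (CommRingCat.ofHom (Int.castRingHom (Away 𝒜 s)))) := by
  rw [Flat.SpecMap_iff]
  change (Int.castRingHom (Away 𝒜 s)).Flat
  by_cases h0 : s = 0
  · have : Subsingleton (Away 𝒜 s) :=
      HomogeneousLocalization.subsingleton 𝒜 (by rw [h0]; exact Submonoid.mem_powers 0)
    rw [← algebraMap_int_eq, RingHom.flat_algebraMap_iff]
    infer_instance
  · have h1 := isDomain_away 𝒜 s h0
    have h2 : CharZero (Away 𝒜 s) := by
      have h3 : Submonoid.powers s ≤ nonZeroDivisors A := by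
        rintro _ ⟨n, rfl⟩
        exact mem_nonZeroDivisors_of_ne_zero (pow_ne_zero n h0)
      have h4 : CharZero (Localization.Away s) :=
        charZero_of_injective_ringHom (IsLocalization.injective (Localization.Away s) h3)
      exact RingHom.charZero (algebraMap (Away 𝒜 s) (Localization.Away s))
    rw [← algebraMap_int_eq, RingHom.flat_algebraMap_iff]
    rw [Module.Flat.flat_iff_torsion_eq_bot_of_isBezout,
      ← Submodule.isTorsionFree_iff_torsion_eq_bot]
    infer_instance

theorem flat_proj [IsDomain A] [CharZero A] : Flat (specZIsTerminal.from (Proj 𝒜)) := by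
  have hloc : IsZariskiLocalAtSource @Flat.{0} :=
    HasRingHomProperty.instIsZariskiLocalAtSource (Q := RingHom.Flat)
  rw [IsZariskiLocalAtSource.iff_of_openCover (P := @Flat.{0}) (Proj.affineOpenCover 𝒜).openCover]
  intro i
  have : (Proj.affineOpenCover 𝒜).openCover.f i ≫ specZIsTerminal.from (Proj 𝒜) =
      Spec.map (CommRingCat.ofHom (Int.castRingHom (Away 𝒜 (i.2 : A)))) :=
    specZIsTerminal.hom_ext _ _
  rw [this]
  exact flat_away 𝒜 _

end ProjSec

end Pool.MP_602153_ag
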