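import Mathlib
import Pool.Agent.MP_602153_ag.ProjFacts

set_option autoImplicit false

/-!
# The generic fibre of `Proj` of a graded ring over the integers
-/

namespace Pool.MP_602153_ag

open AlgebraicGeometry CategoryTheory CategoryTheory.Limits HomogeneousLocalization TopologicalSpace

section Q

/-- There is at most one morphism to the spectrum of the rationals. -/
theorem specQ_ext {X : Scheme.{0}} (g h : X ⟶ Spec (CommRingCat.of ℚ)) : g = h := by
  apply ext_to_Spec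
  apply CommRingCat.hom_ext
  exact Subsingleton.elim (α := ℚ →+* _) _ _

end Q

section Gen

variable {A B : Type} [CommRing A] [CommRing B] [Algebra ℚ B]
  {𝒜 : ℕ → Submodule ℤ A} [GradedAlgebra 𝒜] {ℬ : ℕ → Submodule ℚ B} [GradedAlgebra ℬ]

/-- The graded ring `B` is the localisation of `A` at the nonzero integers. -/
structure IsGeneric (ρ : 𝒜 →+*ᵍ ℬ) : Prop where
  surj : ∀ b : B, ∃ N : ℤ, N ≠ 0 ∧ ∃ a : A, ρ a = (N : B) * b
  inj : ∀ a : A, ρ a = 0 → ∃ N : ℤ, N ≠ 0 ∧ (N : A) * a = 0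

variable {ρ : 𝒜 →+*ᵍ ℬ}

theorem IsGeneric.surj_hom (h : IsGeneric ρ) {n : ℕ} {b : B} (hb : b ∈ ℬ n) :
    ∃ N : ℤ, N ≠ 0 ∧ ∃ a ∈ 𝒜 n, ρ a = (N : B) * b := by
  obtain ⟨N, hN, a, ha⟩ := h.surj b
  refine ⟨N, hN, DirectSum.decompose 𝒜 a n, (DirectSum.decompose 𝒜 a n).2, ?_⟩
  rw [ρ.map_directSumDecompose, ha]
  have hb' : (N : B) * b ∈ ℬ n := by
    rw [← zsmul_eq_mul]
    exact zsmul_mem hb N
  rw [DirectSum.decompose_of_mem_same _ hb']

theorem isUnit_intCast {N : ℤ} (hN : N ≠ 0) : IsUnit (N : B) := by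
  have h1 : IsUnit (N : ℚ) := isUnit_iff_ne_zero.2 (by exact_mod_cast hN)
  have := h1.map (algebraMap ℚ B)
  simpa using this

theorem IsGeneric.irrelevant_le (h : IsGeneric ρ) :
    HomogeneousIdeal.irrelevant ℬ ≤ (HomogeneousIdeal.irrelevant 𝒜).map ρ := by
  rw [HomogeneousIdeal.irrelevant_le]
  intro i hi b hb
  obtain ⟨N, hN, a, ha, hab⟩ := h.surj_hom hb
  obtain ⟨u, hu⟩ := isUnit_intCast (B := B) hN
  have h1 : ρ a ∈ (HomogeneousIdeal.irrelevant 𝒜).map ρ :=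
    Ideal.mem_map_of_mem _ (HomogeneousIdeal.mem_irrelevant_of_mem _ hi ha)
  have h2 : b = (↑u⁻¹ : B) * ρ a := by
    rw [hab, ← hu, Units.inv_mul_cancel_left]
  rw [h2]
  exact Ideal.mul_mem_left _ _ h1

/-- The rational numbers act on the charts. -/
noncomputable def ratAway (s : B) : ℚ →+* Away ℬ s :=
  (fromZeroRingHom ℬ _).comp (algebraMap ℚ (ℬ 0))

/-- The structure morphism to the spectrum of the rationals. -/
noncomputable def toSpecQ (ℬ : ℕ → Submodule ℚ B) [GradedAlgebra ℬ] :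
    Proj ℬ ⟶ Spec (CommRingCat.of ℚ) :=
  Proj.toSpecZero ℬ ≫ Spec.map (CommRingCat.ofHom (algebraMap ℚ (ℬ 0)))

theorem val_mk_eq_zero {R C : Type} [CommRing R] [CommRing C] [Algebra R C]
    {𝒞 : ℕ → Submodule R C} [GradedAlgebra 𝒞] {s : C} (hs : s ∈ 𝒞 1) (n : ℕ) (a : C)
    (ha : a ∈ 𝒞 (n • 1)) :
    Away.mk 𝒞 hs n a ha = 0 ↔ ∃ k : ℕ, s ^ k * a = 0 := by
  rw [← (HomogeneousLocalization.val_injective (𝒜 := 𝒞) (Submonoid.powers s)).eq_iff,
    Away.val_mk, HomogeneousLocalization.val_zero, Localization.mk_eq_mk',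
    IsLocalization.mk'_eq_zero_iff]
  constructor
  · rintro ⟨⟨_, k, rfl⟩, hk⟩
    exact ⟨k, hk⟩
  · rintro ⟨k, hk⟩
    exact ⟨⟨_, k, rfl⟩, hk⟩

theorem intCast_mul_mk {R C : Type} [CommRing R] [CommRing C] [Algebra R C]
    {𝒞 : ℕ → Submodule R C} [GradedAlgebra 𝒞] {s : C} (hs : s ∈ 𝒞 1) (n : ℕ) (a : C)
    (ha : a ∈ 𝒞 (n • 1)) (N : ℤ) (ha' : (N : C) * a ∈ 𝒞 (n • 1)) :
    (N : Away 𝒞 s) * Away.mk 𝒞 hs n a ha = Away.mk 𝒞 hs n ((N : C) * a) ha' := by
  apply HomogeneousLocalization.val_injective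
  rw [HomogeneousLocalization.val_mul, Away.val_mk, Away.val_mk,
    HomogeneousLocalization.val_intCast, Localization.mk_eq_mk',
    ← IsLocalization.mul_mk'_eq_mk'_of_mul, map_intCast]

theorem IsGeneric.isPushout_away (h : IsGeneric ρ) (s : A) (hs : s ∈ 𝒜 1) :
    IsPushout (CommRingCat.ofHom (Int.castRingHom (Away 𝒜 s)))
      (CommRingCat.ofHom (algebraMap ℤ ℚ))
      (CommRingCat.ofHom (Away.map ρ s)) (CommRingCat.ofHom (ratAway (ℬ := ℬ) (ρ s))) := by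
  have hρs : ρ s ∈ ℬ 1 := ρ.map_mem hs
  let _ : Algebra (Away 𝒜 s) (Away ℬ (ρ s)) := (Away.map ρ s).toAlgebra
  have hmap : algebraMap (Away 𝒜 s) (Away ℬ (ρ s)) = Away.map ρ s := rfl
  have : IsLocalization ((nonZeroDivisors ℤ).map (Int.castRingHom (Away 𝒜 s)))
      (Away ℬ (ρ s)) := by
    rw [isLocalization_iff]
    refine ⟨?_, ?_, ?_⟩
    · rintro ⟨_, N, hN, rfl⟩
      have hN0 : N ≠ 0 := nonZeroDivisors.ne_zero hN
      have h1 : IsUnit (N : ℚ) := isUnit_iff_ne_zero.2 (by exact_mod_cast hN0)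
      have h2 := h1.map (ratAway (ℬ := ℬ) (ρ s))
      simpa using h2
    · intro z
      obtain ⟨n, b, hb, rfl⟩ := HomogeneousLocalization.Away.mk_surjective ℬ hρs z
      obtain ⟨N, hN, a, ha, hab⟩ := h.surj_hom hb
      refine ⟨(Away.mk 𝒜 hs n a ha, ⟨(N : Away 𝒜 s), N, mem_nonZeroDivisors_of_ne_zero hN,
        by simp⟩), ?_⟩
      rw [hmap]
      simp only [map_intCast, Away.map_mk]
      rw [mul_comm, intCast_mul_mk (𝒞 := ℬ) hρs n b hb N (hab ▸ ρ.map_mem ha)]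
      congr 1
      exact hab.symm
    · intro x y hxy
      rw [hmap] at hxy
      have h0 : Away.map ρ s (x - y) = 0 := by rw [map_sub, hxy, sub_self]
      obtain ⟨n, a, ha, hz⟩ := HomogeneousLocalization.Away.mk_surjective 𝒜 hs (x - y)
      rw [← hz, Away.map_mk, val_mk_eq_zero] at h0
      obtain ⟨k, hk⟩ := h0
      rw [← map_pow, ← map_mul] at hk
      obtain ⟨N, hN, hNa⟩ := h.inj _ hk
      refine ⟨⟨(N : Away 𝒜 s), N, mem_nonZeroDivisors_of_ne_zero hN, by simp⟩, ?_⟩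
      rw [← sub_eq_zero]
      change (N : Away 𝒜 s) * x - (N : Away 𝒜 s) * y = 0
      rw [← mul_sub, ← hz, intCast_mul_mk (𝒞 := 𝒜) hs n a ha N
        (by rw [← zsmul_eq_mul]; exact zsmul_mem ha N), val_mk_eq_zero]
      refine ⟨k, ?_⟩
      rw [← hNa]
      ring
  exact CommRingCat.isPushout_of_isLocalization (Int.castRingHom (Away 𝒜 s))
    (ratAway (ℬ := ℬ) (ρ s)) (RingHom.ext_int _ _) (nonZeroDivisors ℤ)

/-- The generic fibre of `Proj 𝒜` is `Proj ℬ`. -/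
theorem IsGeneric.isPullback (h : IsGeneric ρ) {ι : Type} (f : ι → A) (hf : ∀ i, f i ∈ 𝒜 1)
    (hspan : (HomogeneousIdeal.irrelevant 𝒜).toIdeal ≤ Ideal.span (Set.range f)) :
    IsPullback (Proj.map ρ h.irrelevant_le) (toSpecQ ℬ) (specZIsTerminal.from (Proj 𝒜))
      (specZIsTerminal.from (Spec (CommRingCat.of ℚ))) := by
  apply Scheme.isPullback_of_openCover _ _ _ _ (cover 𝒜 f hf hspan).openCover
  intro i
  have h1 : IsPullback (Spec.map (CommRingCat.ofHom (Away.map ρ (f i))))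
      (Spec.map (CommRingCat.ofHom (ratAway (ℬ := ℬ) (ρ (f i)))))
      (Spec.map (CommRingCat.ofHom (Int.castRingHom (Away 𝒜 (f i)))))
      (Spec.map (CommRingCat.ofHom (algebraMap ℤ ℚ))) :=
    isPullback_SpecMap_of_isPushout _ _ _ _ (h.isPushout_away (f i) (hf i))
  have h2 : IsPullback (Spec.map (CommRingCat.ofHom (Away.map ρ (f i))))
      (Proj.awayι ℬ (ρ (f i)) (ρ.map_mem (hf i)) one_pos)
      (Proj.awayι 𝒜 (f i) (hf i) one_pos) (Proj.map ρ h.irrelevant_le) := by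
    apply IsOpenImmersion.isPullback
    · exact Proj.awayι_comp_map ρ h.irrelevant_le one_pos (f i) (hf i)
    · rw [Proj.opensRange_awayι, Proj.opensRange_awayι]
      rfl
  refine h1.of_iso (e₁ := h2.flip.isoPullback) (Iso.refl _) (Iso.refl _) (Iso.refl _) ?_ ?_ ?_ ?_
  · exact (Category.comp_id _).trans h2.flip.isoPullback_hom_snd.symm
  · exact specQ_ext _ _
  · exact specZIsTerminal.hom_ext _ _
  · exact specZIsTerminal.hom_ext _ _

/-- The generic fibre of `Proj 𝒜` is isomorphic to `Proj ℬ`. -/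
theorem IsGeneric.nonempty_iso (h : IsGeneric ρ) {ι : Type} (f : ι → A) (hf : ∀ i, f i ∈ 𝒜 1)
    (hspan : (HomogeneousIdeal.irrelevant 𝒜).toIdeal ≤ Ideal.span (Set.range f)) :
    Nonempty (pullback (specZIsTerminal.from (Proj 𝒜))
      (specZIsTerminal.from (Spec (CommRingCat.of ℚ))) ≅ Proj ℬ) :=
  ⟨(h.isPullback f hf hspan).isoPullback.symm⟩

end Gen

end Pool.MP_602153_ag
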