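import Mathlib
import Pool.Agent.MP_602153_ag.Generic

set_option autoImplicit false

/-!
# Projective models of hypersurfaces
-/

namespace Pool.MP_602153_ag

open AlgebraicGeometry CategoryTheory CategoryTheory.Limits MvPolynomial

attribute [local instance] MvPolynomial.gradedAlgebra

section Coord

variable {R : Type} [CommRing R] {n : ℕ}

/-- homogeneous coordinate ring of the hypersurface `F = 0` -/
noncomputable abbrev Coord (F : MvPolynomial (Fin n) R) : Type :=
  MvPolynomial (Fin n) R ⧸ Ideal.span {F}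

/-- the grading of the homogeneous coordinate ring: images of the homogeneous polynomials -/
noncomputable def grad (F : MvPolynomial (Fin n) R) : ℕ → Submodule R (Coord F) :=
  fun i => (homogeneousSubmodule (Fin n) R i).map
    (Ideal.Quotient.mkₐ R (Ideal.span {F})).toLinearMap

theorem isHomogeneous_span {F : MvPolynomial (Fin n) R} {d : ℕ} (hF : F.IsHomogeneous d) :
    (Ideal.span {F}).IsHomogeneous (homogeneousSubmodule (Fin n) R) := by
  apply Ideal.homogeneous_span
  intro x hx
  rw [Set.mem_singleton_iff] at hx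
  exact ⟨d, by rw [hx]; exact hF⟩

/-- the homogeneous coordinate ring is a graded algebra -/
@[reducible] noncomputable def coordGraded (F : MvPolynomial (Fin n) R) {d : ℕ}
    (hF : F.IsHomogeneous d) : GradedAlgebra (grad F) :=
  quotGraded (homogeneousSubmodule (Fin n) R) (Ideal.span {F}) (isHomogeneous_span hF)

theorem mem_grad {F : MvPolynomial (Fin n) R} {i : ℕ} {x : Coord F} :
    x ∈ grad F i ↔ ∃ a : MvPolynomial (Fin n) R, a.IsHomogeneous i ∧
      Ideal.Quotient.mk (Ideal.span {F}) a = x :=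
  mem_quotGrading

theorem grad_zero {F : MvPolynomial (Fin n) R} {x : Coord F} (hx : x ∈ grad F 0) :
    ∃ r : R, algebraMap R (Coord F) r = x := by
  obtain ⟨a, ha, rfl⟩ := mem_grad.1 hx
  rw [← totalDegree_zero_iff_isHomogeneous, totalDegree_eq_zero_iff_eq_C] at ha
  exact ⟨coeff 0 a, by rw [ha]; simp; rfl⟩

/-- the images of the variables -/
noncomputable def coordX (F : MvPolynomial (Fin n) R) (i : Fin n) : Coord F :=
  Ideal.Quotient.mk (Ideal.span {F}) (X i)

theorem coordX_mem (F : MvPolynomial (Fin n) R) (i : Fin n) : coordX F i ∈ grad F 1 :=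
  mem_grad.2 ⟨X i, isHomogeneous_X _ _, rfl⟩

theorem adjoin_coordX (F : MvPolynomial (Fin n) R) :
    Algebra.adjoin R (Set.range (coordX F)) = ⊤ := by
  have h1 : Set.range (coordX F) = (Ideal.Quotient.mkₐ R (Ideal.span {F})) '' Set.range X := by
    rw [← Set.range_comp]
    rfl
  rw [h1, ← AlgHom.map_adjoin, adjoin_range_X, Algebra.map_top]
  exact (AlgHom.range_eq_top _).2 (Ideal.Quotient.mkₐ_surjective R _)

theorem irrelevant_le_coordX (F : MvPolynomial (Fin n) R) {d : ℕ} (hF : F.IsHomogeneous d) :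
    letI := coordGraded F hF
    (HomogeneousIdeal.irrelevant (grad F)).toIdeal ≤ Ideal.span (Set.range (coordX F)) := by
  let _ := coordGraded F hF
  rw [HomogeneousIdeal.toIdeal_irrelevant_le]
  intro i hi x hx
  obtain ⟨a, ha, rfl⟩ := mem_grad.1 hx
  have h1 : a ∈ Ideal.span (X '' (Set.univ : Set (Fin n)) : Set (MvPolynomial (Fin n) R)) := by
    rw [mem_ideal_span_X_image]
    intro m hm
    by_contra hcon
    push Not at hcon
    have hm0 : m = 0 := by
      ext j
      exact hcon j (Set.mem_univ j)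
    have := ha (mem_support_iff.1 hm)
    rw [hm0] at this
    simp at this
    omega
  have h2 := Ideal.mem_map_of_mem (Ideal.Quotient.mk (Ideal.span {F})) h1
  rw [Ideal.map_span, Set.image_univ, ← Set.range_comp] at h2
  exact h2

end Coord

section Subst

variable {R : Type} [CommRing R] {n : ℕ}

/-- linear substitution `x_j ↦ ∑ k, T j k x_k` -/
noncomputable def lin (T : Matrix (Fin n) (Fin n) R) :
    MvPolynomial (Fin n) R →ₐ[R] MvPolynomial (Fin n) R :=
  aeval (fun j => ∑ k, C (T j k) * X k)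

theorem lin_X (T : Matrix (Fin n) (Fin n) R) (j : Fin n) :
    lin T (X j) = ∑ k, C (T j k) * X k := by
  rw [lin, aeval_X]

theorem lin_comp (S T : Matrix (Fin n) (Fin n) R) : (lin T).comp (lin S) = lin (S * T) := by
  apply MvPolynomial.algHom_ext
  intro j
  rw [AlgHom.comp_apply, lin_X, lin_X, map_sum]
  simp only [map_mul, lin_X, algHom_C, algebraMap_eq]
  simp only [Matrix.mul_apply, map_sum, Finset.mul_sum, Finset.sum_mul, C_mul]
  rw [Finset.sum_comm]
  refine Finset.sum_congr rfl fun k _ => Finset.sum_congr rfl fun l _ => ?_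
  ring

theorem lin_one : lin (1 : Matrix (Fin n) (Fin n) R) = AlgHom.id R _ := by
  apply MvPolynomial.algHom_ext
  intro j
  rw [lin_X]
  simp [Matrix.one_apply]

theorem lin_lin (S T : Matrix (Fin n) (Fin n) R) (p : MvPolynomial (Fin n) R) :
    lin T (lin S p) = lin (S * T) p := by
  rw [← lin_comp, AlgHom.comp_apply]

theorem lin_homogeneous (T : Matrix (Fin n) (Fin n) R) {p : MvPolynomial (Fin n) R} {d : ℕ}
    (hp : p.IsHomogeneous d) : (lin T p).IsHomogeneous d := by
  have := hp.aeval (fun j => ∑ k, C (T j k) * X k) (n := 1) (fun j => by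
    apply IsHomogeneous.sum
    intro k _
    have := (isHomogeneous_C (Fin n) (T j k)).mul (isHomogeneous_X R k)
    simpa using this)
  simpa [lin] using this

end Subst

section GenericFibre

variable {n d : ℕ} {F : MvPolynomial (Fin n) ℤ} {G : MvPolynomial (Fin n) ℚ}
  {c : ℚ} {T : Matrix (Fin n) (Fin n) ℚ}

/-- The integral polynomial ring maps to the rational coordinate ring. -/
noncomputable def preRho (G : MvPolynomial (Fin n) ℚ) (T : Matrix (Fin n) (Fin n) ℚ) :
    MvPolynomial (Fin n) ℤ →+* Coord G :=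
  (Ideal.Quotient.mk (Ideal.span {G})).comp
    ((lin T : MvPolynomial (Fin n) ℚ →+* MvPolynomial (Fin n) ℚ).comp (map (algebraMap ℤ ℚ)))

theorem preRho_apply (p : MvPolynomial (Fin n) ℤ) :
    preRho G T p = Ideal.Quotient.mk (Ideal.span {G}) (lin T (map (algebraMap ℤ ℚ) p)) := rfl

/-- The map from the integral to the rational coordinate ring. -/
noncomputable def rhoHom (hFG : lin T (map (algebraMap ℤ ℚ) F) = C c * G) :
    Coord F →+* Coord G :=
  Ideal.Quotient.lift (Ideal.span {F}) (preRho G T) (by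
    intro a ha
    have hle : Ideal.span {F} ≤ RingHom.ker (preRho G T) := by
      rw [Ideal.span_le]
      intro x hx
      rw [Set.mem_singleton_iff] at hx
      rw [hx, SetLike.mem_coe, RingHom.mem_ker, preRho_apply, hFG, Ideal.Quotient.eq_zero_iff_mem]
      exact Ideal.mul_mem_left _ _ (Ideal.subset_span rfl)
    exact hle ha)

theorem rhoHom_mk (hFG : lin T (map (algebraMap ℤ ℚ) F) = C c * G) (p : MvPolynomial (Fin n) ℤ) :
    rhoHom hFG (Ideal.Quotient.mk _ p) =
      Ideal.Quotient.mk (Ideal.span {G}) (lin T (map (algebraMap ℤ ℚ) p)) := rfl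

/-- The graded map from the integral to the rational coordinate ring. -/
noncomputable def rho (hFG : lin T (map (algebraMap ℤ ℚ) F) = C c * G) :
    grad F →+*ᵍ grad G where
  toRingHom := rhoHom hFG
  map_mem := by
    intro i x hx
    obtain ⟨a, ha, rfl⟩ := mem_grad.1 hx
    exact mem_grad.2 ⟨lin T (map (algebraMap ℤ ℚ) a), lin_homogeneous T (ha.map _),
      (rhoHom_mk hFG a).symm⟩

theorem rho_mk (hFG : lin T (map (algebraMap ℤ ℚ) F) = C c * G) (p : MvPolynomial (Fin n) ℤ) :
    rho hFG (Ideal.Quotient.mk _ p) =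
      Ideal.Quotient.mk (Ideal.span {G}) (lin T (map (algebraMap ℤ ℚ) p)) := rfl

attribute [local instance] MvPolynomial.algebraMvPolynomial in
/-- Clearing denominators. -/
theorem exists_clear (p : MvPolynomial (Fin n) ℚ) :
    ∃ N : ℤ, N ≠ 0 ∧ ∃ q : MvPolynomial (Fin n) ℤ,
      map (algebraMap ℤ ℚ) q = (N : MvPolynomial (Fin n) ℚ) * p := by
  obtain ⟨⟨q, ⟨_, N, hN, rfl⟩⟩, hq⟩ := IsLocalization.surj
    ((nonZeroDivisors ℤ).map (C (σ := Fin n) : ℤ →+* MvPolynomial (Fin n) ℤ)) p
  refine ⟨N, nonZeroDivisors.ne_zero hN, q, ?_⟩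
  simp only [algebraMap_def] at hq
  rw [← hq, map_C, mul_comm]
  simp

theorem isGeneric_rho (hc : c ≠ 0) (hT : T.det ≠ 0) (hF : F.IsHomogeneous d)
    (hG : G.IsHomogeneous d)
    (hFG : lin T (map (algebraMap ℤ ℚ) F) = C c * G) :
    letI := coordGraded F hF
    letI := coordGraded G hG
    IsGeneric (rho hFG) := by
  let _ := coordGraded F hF
  let _ := coordGraded G hG
  have hTu : IsUnit T.det := isUnit_iff_ne_zero.2 hT
  constructor
  · intro b
    obtain ⟨g, rfl⟩ := Ideal.Quotient.mk_surjective b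
    obtain ⟨N, hN, q, hq⟩ := exists_clear (lin T⁻¹ g)
    refine ⟨N, hN, Ideal.Quotient.mk _ q, ?_⟩
    rw [rho_mk, hq, map_mul, map_mul, lin_lin, Matrix.nonsing_inv_mul _ hTu, lin_one]
    simp
  · intro a ha
    obtain ⟨h, rfl⟩ := Ideal.Quotient.mk_surjective a
    rw [rho_mk, Ideal.Quotient.eq_zero_iff_mem, Ideal.mem_span_singleton] at ha
    obtain ⟨u, hu⟩ := ha
    have h1 : map (algebraMap ℤ ℚ) h = map (algebraMap ℤ ℚ) F * (C c⁻¹ * lin T⁻¹ u) := by
      have h2 : lin T⁻¹ (lin T (map (algebraMap ℤ ℚ) h)) = map (algebraMap ℤ ℚ) h := by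
        rw [lin_lin, Matrix.mul_nonsing_inv _ hTu, lin_one]
        rfl
      have h3 : lin T⁻¹ (lin T (map (algebraMap ℤ ℚ) F)) = map (algebraMap ℤ ℚ) F := by
        rw [lin_lin, Matrix.mul_nonsing_inv _ hTu, lin_one]
        rfl
      rw [hFG, map_mul, algHom_C, algebraMap_eq] at h3
      rw [← h2, hu, map_mul, ← h3]
      have h4 : (C c : MvPolynomial (Fin n) ℚ) * C c⁻¹ = 1 := by
        rw [← C_mul, mul_inv_cancel₀ hc, C_1]
      calc lin T⁻¹ G * lin T⁻¹ u = (C c * C c⁻¹) * (lin T⁻¹ G * lin T⁻¹ u) := by rw [h4, one_mul]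
        _ = _ := by ring
    obtain ⟨N, hN, q, hq⟩ := exists_clear (C c⁻¹ * lin T⁻¹ u)
    refine ⟨N, hN, ?_⟩
    have h5 : map (algebraMap ℤ ℚ) ((N : MvPolynomial (Fin n) ℤ) * h) =
        map (algebraMap ℤ ℚ) (F * q) := by
      rw [map_mul, map_mul, hq, h1]
      simp only [map_intCast]
      ring
    have h6 : (N : MvPolynomial (Fin n) ℤ) * h = F * q :=
      map_injective _ (RingHom.injective_int _) h5
    have h7 : (N : Coord F) * Ideal.Quotient.mk (Ideal.span {F}) h =
        Ideal.Quotient.mk (Ideal.span {F}) ((N : MvPolynomial (Fin n) ℤ) * h) := by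
      rw [map_mul, map_intCast]
    rw [h7, h6, Ideal.Quotient.eq_zero_iff_mem]
    exact Ideal.mul_mem_right _ _ (Ideal.subset_span rfl)

end GenericFibre

section Model

/-- The conclusion of S00205 for a given scheme: it is the generic fibre of an integral, regular,
locally Noetherian scheme which is projective and flat over the integers. -/
def HasModel (X : Scheme) : Prop :=
  ∃ (Y : Scheme),
    IsIntegral Y ∧
    IsLocallyNoetherian Y ∧
    (∀ (U : Y.affineOpens) (p : PrimeSpectrum (Y.presheaf.obj (Opposite.op U.1))),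
      ringKrullDim (Localization.AtPrime p.asIdeal) =
        (((Module.finrank (IsLocalRing.ResidueField (Localization.AtPrime p.asIdeal))
          (IsLocalRing.CotangentSpace (Localization.AtPrime p.asIdeal)) : ℕ) : ℕ∞) :
            WithBot ℕ∞)) ∧
    (∃ (A : Type) (_ : CommRing A) (𝒜 : ℕ → Submodule ℤ A) (_ : GradedAlgebra 𝒜),
      (∀ a ∈ 𝒜 0, ∃ n : ℤ, (n : A) = a) ∧
      (∃ s : Finset A, (∀ a ∈ s, a ∈ 𝒜 1) ∧ Algebra.adjoin ℤ (s : Set A) = ⊤) ∧
      Nonempty (Y ≅ Proj 𝒜)) ∧
    Flat (specZIsTerminal.from Y) ∧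
    Nonempty (pullback (specZIsTerminal.from Y)
        (specZIsTerminal.from (Spec (CommRingCat.of ℚ))) ≅ X)

/-- The quotient ring defining the chart `x_i = 1`. -/
noncomputable def chartIso {n : ℕ} (F : MvPolynomial (Fin n) ℤ) (i : Fin n) :
    (Coord F ⧸ Ideal.span {coordX F i - 1}) ≃+*
      (MvPolynomial (Fin n) ℤ ⧸ Ideal.span {F, X i - 1}) :=
  (Ideal.quotEquivOfEq (by
    rw [Ideal.map_span, Set.image_singleton, map_sub, map_one]
    rfl)).trans ((DoubleQuot.quotQuotEquivQuotSup (Ideal.span {F})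
      (Ideal.span {(X i - 1 : MvPolynomial (Fin n) ℤ)})).trans
    (Ideal.quotEquivOfEq (by
      rw [← Ideal.span_union, Set.singleton_union])))

/-- An integral hypersurface with regular charts is a regular projective flat model of its generic
fibre. -/
theorem model_of_hypersurface {n d : ℕ} (F : MvPolynomial (Fin n) ℤ) (hF : F.IsHomogeneous d)
    (hprime : (Ideal.span {F}).IsPrime)
    (hZ : ∀ m : ℤ, (C m : MvPolynomial (Fin n) ℤ) ∈ Ideal.span {F} → m = 0)
    (hX : ∃ i : Fin n, (X i : MvPolynomial (Fin n) ℤ) ∉ Ideal.span {F})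
    (hreg : ∀ i : Fin n, IsRegularRing (MvPolynomial (Fin n) ℤ ⧸ Ideal.span {F, X i - 1}))
    (G : MvPolynomial (Fin n) ℚ) (hG : G.IsHomogeneous d)
    (c : ℚ) (hc : c ≠ 0) (T : Matrix (Fin n) (Fin n) ℚ) (hT : T.det ≠ 0)
    (hFG : lin T (map (algebraMap ℤ ℚ) F) = C c * G)
    (Z : Scheme) (e : letI := coordGraded G hG; Nonempty (Z ≅ Proj (grad G))) :
    HasModel Z := by
  let _ := coordGraded F hF
  let _ := coordGraded G hG
  obtain ⟨e⟩ := e
  have hdom : IsDomain (Coord F) := Ideal.Quotient.isDomain _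
  have hchar : CharZero (Coord F) := by
    refine charZero_of_injective_ringHom (f := Int.castRingHom (Coord F)) ?_
    rw [injective_iff_map_eq_zero]
    intro m hm
    apply hZ
    rw [← Ideal.Quotient.eq_zero_iff_mem]
    simpa using hm
  have hreg' : ∀ i, IsRegularRing (Coord F ⧸ Ideal.span {coordX F i - 1}) := fun i => by
    have := hreg i
    exact IsRegularRing.of_ringEquiv (chartIso F i).symm
  have hspan := irrelevant_le_coordX F hF
  refine ⟨Proj (grad F), ?_, ?_, ?_, ⟨Coord F, inferInstance, grad F, inferInstance, ?_, ?_,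
    ⟨Iso.refl _⟩⟩, ?_, ?_⟩
  · obtain ⟨i, hi⟩ := hX
    refine isIntegral_proj (grad F) (coordX F i) (coordX_mem F i) ?_
    intro h
    exact hi (Ideal.Quotient.eq_zero_iff_mem.1 h)
  · exact isLocallyNoetherian_proj (grad F) (coordX F) (coordX_mem F) hspan
      (fun i => by have := hreg' i; infer_instance)
  · exact regular_proj (grad F) (coordX F) (coordX_mem F) hspan hreg'
  · intro a ha
    obtain ⟨r, hr⟩ := grad_zero ha
    exact ⟨r, by rw [← hr]; simp⟩
  · classical
    refine ⟨Finset.univ.image (coordX F), ?_, ?_⟩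
    · intro a ha
      obtain ⟨i, _, rfl⟩ := Finset.mem_image.1 ha
      exact coordX_mem F i
    · rw [Finset.coe_image, Finset.coe_univ, Set.image_univ]
      exact adjoin_coordX F
  · exact flat_proj (grad F)
  · obtain ⟨e'⟩ := (isGeneric_rho hc hT hF hG hFG).nonempty_iso (coordX F) (coordX_mem F) hspan
    exact ⟨e' ≪≫ e.symm⟩

end Model

end Pool.MP_602153_ag
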