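import Mathlib
import Pool.Agent.MP_602153_ag.Hyper

set_option autoImplicit false

/-!
# Projective models given by a homogeneous prime ideal, with charts covering up to radical
-/

namespace Pool.MP_602153_ag

open AlgebraicGeometry CategoryTheory CategoryTheory.Limits MvPolynomial HomogeneousLocalization
  TopologicalSpace

attribute [local instance] MvPolynomial.gradedAlgebra

section Clear

variable {σ : Type}

attribute [local instance] MvPolynomial.algebraMvPolynomial in
/-- Clearing denominators. -/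
theorem exists_clear' (p : MvPolynomial σ ℚ) :
    ∃ N : ℤ, N ≠ 0 ∧ ∃ q : MvPolynomial σ ℤ,
      map (algebraMap ℤ ℚ) q = (N : MvPolynomial σ ℚ) * p := by
  obtain ⟨⟨q, ⟨_, N, hN, rfl⟩⟩, hq⟩ := IsLocalization.surj
    ((nonZeroDivisors ℤ).map (C (σ := σ) : ℤ →+* MvPolynomial σ ℤ)) p
  refine ⟨N, nonZeroDivisors.ne_zero hN, q, ?_⟩
  simp only [algebraMap_def] at hq
  rw [← hq, map_C, mul_comm]
  simp

end Clear

section GradedEval

variable {σ B : Type} [CommRing B] [Algebra ℚ B] {ℬ : ℕ → Submodule ℚ B} [GradedAlgebra ℬ]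

theorem pow_le_graded (n : ℕ) : (ℬ 1) ^ n ≤ ℬ n := by
  induction n with
  | zero =>
    rw [pow_zero, Submodule.one_le]
    exact SetLike.GradedOne.one_mem
  | succ n ih =>
    rw [pow_succ]
    refine (Submodule.mul_le.2 ?_)
    intro x hx y hy
    exact SetLike.GradedMul.mul_mem (ih hx) hy

theorem map_mem_graded (ψ : MvPolynomial σ ℚ →ₐ[ℚ] B) (hψ : ∀ s, ψ (X s) ∈ ℬ 1) {n : ℕ}
    {f : MvPolynomial σ ℚ} (hf : f.IsHomogeneous n) : ψ f ∈ ℬ n := by
  have h1 : f ∈ homogeneousSubmodule σ ℚ 1 ^ n := by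
    rw [homogeneousSubmodule_one_pow]
    exact hf
  have h2 : (homogeneousSubmodule σ ℚ 1).map ψ.toLinearMap ≤ ℬ 1 := by
    rw [homogeneousSubmodule_one_eq_span_X, Submodule.map_span, Submodule.span_le]
    rintro _ ⟨_, ⟨s, rfl⟩, rfl⟩
    exact hψ s
  have h3 : ψ f ∈ (homogeneousSubmodule σ ℚ 1 ^ n).map ψ.toLinearMap := ⟨f, h1, rfl⟩
  rw [Submodule.map_pow] at h3
  exact pow_le_graded n (pow_le_pow_left' h2 n h3)

end GradedEval

section IdealCoord

variable {R σ : Type} [CommRing R] (I : Ideal (MvPolynomial σ R))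

/-- the grading of the quotient of a polynomial ring by a homogeneous ideal -/
noncomputable def igrad : ℕ → Submodule R (MvPolynomial σ R ⧸ I) :=
  quotGrading (homogeneousSubmodule σ R) I

/-- the quotient is a graded algebra -/
@[reducible] noncomputable def iGraded (hI : I.IsHomogeneous (homogeneousSubmodule σ R)) :
    GradedAlgebra (igrad I) :=
  quotGraded (homogeneousSubmodule σ R) I hI

/-- the images of the variables -/
noncomputable def icoord (s : σ) : MvPolynomial σ R ⧸ I := Ideal.Quotient.mk I (X s)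

variable {I}

theorem mem_igrad {i : ℕ} {x : MvPolynomial σ R ⧸ I} :
    x ∈ igrad I i ↔ ∃ a : MvPolynomial σ R, a.IsHomogeneous i ∧
      Ideal.Quotient.mk I a = x :=
  mem_quotGrading

theorem igrad_zero {x : MvPolynomial σ R ⧸ I} (hx : x ∈ igrad I 0) :
    ∃ r : R, algebraMap R (MvPolynomial σ R ⧸ I) r = x := by
  obtain ⟨a, ha, rfl⟩ := mem_igrad.1 hx
  rw [← totalDegree_zero_iff_isHomogeneous, totalDegree_eq_zero_iff_eq_C] at ha
  exact ⟨coeff 0 a, by rw [ha]; simp; rfl⟩

theorem icoord_mem (s : σ) : icoord I s ∈ igrad I 1 :=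
  mem_igrad.2 ⟨X s, isHomogeneous_X _ _, rfl⟩

theorem adjoin_icoord : Algebra.adjoin R (Set.range (icoord I)) = ⊤ := by
  have h1 : Set.range (icoord I) = (Ideal.Quotient.mkₐ R I) '' Set.range X := by
    rw [← Set.range_comp]
    rfl
  rw [h1, ← AlgHom.map_adjoin, adjoin_range_X, Algebra.map_top]
  exact (AlgHom.range_eq_top _).2 (Ideal.Quotient.mkₐ_surjective R _)

theorem irrelevant_le_icoord (hI : I.IsHomogeneous (homogeneousSubmodule σ R)) :
    letI := iGraded I hI
    (HomogeneousIdeal.irrelevant (igrad I)).toIdeal ≤ Ideal.span (Set.range (icoord I)) := by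
  let _ := iGraded I hI
  rw [HomogeneousIdeal.toIdeal_irrelevant_le]
  intro i hi x hx
  obtain ⟨a, ha, rfl⟩ := mem_igrad.1 hx
  have h1 : a ∈ Ideal.span (X '' (Set.univ : Set σ) : Set (MvPolynomial σ R)) := by
    rw [mem_ideal_span_X_image]
    intro m hm
    by_contra hcon
    push Not at hcon
    have hm0 : m = 0 := by
      ext j
      exact hcon j (Set.mem_univ j)
    have := ha (mem_support_iff.1 hm)
    rw [hm0] at this
    simp at this
    omega
  have h2 := Ideal.mem_map_of_mem (Ideal.Quotient.mk I) h1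
  rw [Ideal.map_span, Set.image_univ, ← Set.range_comp] at h2
  exact h2

end IdealCoord

section RadCover

variable {R A : Type} [CommRing R] [CommRing A] [Algebra R A] (𝒜 : ℕ → Submodule R A)
  [GradedAlgebra 𝒜]

/-- Regularity of `Proj` from degree one charts which cover up to radical. -/
theorem regular_proj_radical {ι : Type} (f : ι → A) (hf : ∀ i, f i ∈ 𝒜 1)
    (hspan : (HomogeneousIdeal.irrelevant 𝒜).toIdeal ≤ (Ideal.span (Set.range f)).radical)
    (h : ∀ i, IsRegularRing (A ⧸ Ideal.span {f i - 1}))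
    (U : (Proj 𝒜).affineOpens) (p : PrimeSpectrum ((Proj 𝒜).presheaf.obj (Opposite.op U.1))) :
    ringKrullDim (Localization.AtPrime p.asIdeal) =
      (((Module.finrank (IsLocalRing.ResidueField (Localization.AtPrime p.asIdeal))
        (IsLocalRing.CotangentSpace (Localization.AtPrime p.asIdeal)) : ℕ) : ℕ∞) :
          WithBot ℕ∞) := by
  apply regular_affine_of_stalk
  intro y
  have hex : ∃ i, f i ∉ y.asHomogeneousIdeal := by
    by_contra hcon
    push Not at hcon
    apply y.not_irrelevant_le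
    intro a ha
    have h1 : Ideal.span (Set.range f) ≤ y.asHomogeneousIdeal.toIdeal := by
      rw [Ideal.span_le]
      rintro _ ⟨i, rfl⟩
      exact hcon i
    have h2 := (Ideal.radical_mono h1) (hspan ha)
    rw [y.isPrime.radical] at h2
    exact h2
  obtain ⟨i, hi⟩ := hex
  have hy : y ∈ (Proj.awayι 𝒜 (f i) (hf i) one_pos).opensRange := by
    rw [Proj.opensRange_awayι]
    exact hi
  obtain ⟨q, hq⟩ := hy
  have hreg : IsRegularRing (Away 𝒜 (f i)) := by
    have := h i
    exact IsRegularRing.of_ringEquiv (chartEquiv 𝒜 (hf i)).symm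
  have : IsRegularRing (CommRingCat.of (Away 𝒜 (f i))) := hreg
  rw [← hq]
  exact regular_stalk_of_openImmersion (.of (Away 𝒜 (f i))) (Proj.awayι 𝒜 (f i) (hf i) one_pos) q

end RadCover

section Model

variable {σ B : Type} [CommRing B] [Algebra ℚ B] {ℬ : ℕ → Submodule ℚ B} [GradedAlgebra ℬ]
  {I : Ideal (MvPolynomial σ ℤ)} (hI : I.IsHomogeneous (homogeneousSubmodule σ ℤ))
  (ψ : MvPolynomial σ ℚ →ₐ[ℚ] B)
  (hker : ∀ f : MvPolynomial σ ℤ, ψ (map (algebraMap ℤ ℚ) f) = 0 ↔ f ∈ I)

/-- The comparison map of rings. -/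
noncomputable def irhoHom : (MvPolynomial σ ℤ ⧸ I) →+* B :=
  Ideal.Quotient.lift I ((ψ : MvPolynomial σ ℚ →+* B).comp (map (algebraMap ℤ ℚ)))
    (fun f hf => (hker f).2 hf)

theorem irhoHom_mk (f : MvPolynomial σ ℤ) :
    irhoHom ψ hker (Ideal.Quotient.mk I f) = ψ (map (algebraMap ℤ ℚ) f) := rfl

/-- The graded comparison map. -/
noncomputable def irho (hψ : ∀ s, ψ (X s) ∈ ℬ 1) : igrad I →+*ᵍ ℬ where
  toRingHom := irhoHom ψ hker
  map_mem := by
    intro i x hx
    obtain ⟨a, ha, rfl⟩ := mem_igrad.1 hx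
    exact map_mem_graded ψ hψ (ha.map _)

theorem irho_mk (hψ : ∀ s, ψ (X s) ∈ ℬ 1) (f : MvPolynomial σ ℤ) :
    irho ψ hker hψ (Ideal.Quotient.mk I f) = ψ (map (algebraMap ℤ ℚ) f) := rfl

theorem isGeneric_irho (hψ : ∀ s, ψ (X s) ∈ ℬ 1) (hsurj : Function.Surjective ψ) :
    IsGeneric (irho ψ hker hψ) := by
  constructor
  · intro b
    obtain ⟨g, rfl⟩ := hsurj b
    obtain ⟨N, hN, q, hq⟩ := exists_clear' g
    refine ⟨N, hN, Ideal.Quotient.mk _ q, ?_⟩
    rw [irho_mk, hq, map_mul, map_intCast]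
  · intro a ha
    obtain ⟨h, rfl⟩ := Ideal.Quotient.mk_surjective a
    rw [irho_mk, hker] at ha
    refine ⟨1, one_ne_zero, ?_⟩
    rw [Ideal.Quotient.eq_zero_iff_mem.2 ha, mul_zero]

include hI hker in
/-- Models from homogeneous prime ideals. -/
theorem model_of_ideal [Finite σ] [hprime : I.IsPrime]
    (hZ : ∀ m : ℤ, (C m : MvPolynomial σ ℤ) ∈ I → m = 0)
    (hX : ∃ s : σ, (X s : MvPolynomial σ ℤ) ∉ I)
    {ι : Type} (c : ι → σ)
    (hcov : ∀ s, ∃ k : ℕ, (X s : MvPolynomial σ ℤ) ^ k ∈ Ideal.span (Set.range (X ∘ c)) ⊔ I)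
    (hreg : ∀ i, IsRegularRing ((MvPolynomial σ ℤ ⧸ I) ⧸ Ideal.span {icoord I (c i) - 1}))
    (hψ : ∀ s, ψ (X s) ∈ ℬ 1) (hsurj : Function.Surjective ψ)
    (Z : Scheme) (e : Nonempty (Z ≅ Proj ℬ)) :
    HasModel Z := by
  let _ := iGraded I hI
  have _ := Fintype.ofFinite σ
  obtain ⟨e⟩ := e
  have hdom : IsDomain (MvPolynomial σ ℤ ⧸ I) := Ideal.Quotient.isDomain _
  have hchar : CharZero (MvPolynomial σ ℤ ⧸ I) := by
    refine charZero_of_injective_ringHom (f := Int.castRingHom (MvPolynomial σ ℤ ⧸ I)) ?_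
    rw [injective_iff_map_eq_zero]
    intro m hm
    apply hZ
    rw [← Ideal.Quotient.eq_zero_iff_mem]
    simpa using hm
  have hspan := irrelevant_le_icoord hI
  have hrad : (HomogeneousIdeal.irrelevant (igrad I)).toIdeal ≤
      (Ideal.span (Set.range (fun i => icoord I (c i)))).radical := by
    refine hspan.trans ?_
    rw [Ideal.span_le]
    rintro _ ⟨s, rfl⟩
    obtain ⟨k, hk⟩ := hcov s
    refine ⟨k, ?_⟩
    have h1 := Ideal.mem_map_of_mem (Ideal.Quotient.mk I) hk
    rw [Ideal.map_sup, Ideal.map_quotient_self, sup_bot_eq, Ideal.map_span, ← Set.range_comp,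
      map_pow] at h1
    exact h1
  refine ⟨Proj (igrad I), ?_, ?_, ?_, ⟨MvPolynomial σ ℤ ⧸ I, inferInstance, igrad I,
    inferInstance, ?_, ?_, ⟨Iso.refl _⟩⟩, ?_, ?_⟩
  · obtain ⟨s, hs⟩ := hX
    refine isIntegral_proj (igrad I) (icoord I s) (icoord_mem s) ?_
    intro h
    exact hs (Ideal.Quotient.eq_zero_iff_mem.1 h)
  · exact isLocallyNoetherian_proj (igrad I) (icoord I) icoord_mem hspan
      (fun i => inferInstance)
  · exact regular_proj_radical (igrad I) (fun i => icoord I (c i)) (fun i => icoord_mem _)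
      hrad hreg
  · intro a ha
    obtain ⟨r, hr⟩ := igrad_zero ha
    exact ⟨r, by rw [← hr]; simp⟩
  · classical
    refine ⟨Finset.univ.image (icoord I), ?_, ?_⟩
    · intro a ha
      obtain ⟨i, _, rfl⟩ := Finset.mem_image.1 ha
      exact icoord_mem i
    · rw [Finset.coe_image, Finset.coe_univ, Set.image_univ]
      exact adjoin_icoord
  · exact flat_proj (igrad I)
  · obtain ⟨e'⟩ := (isGeneric_irho ψ hker hψ hsurj).nonempty_iso (icoord I) icoord_mem hspan
    exact ⟨e' ≪≫ e.symm⟩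

end Model

end Pool.MP_602153_ag
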