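import Mathlib
import Pool.Agent.MP_602153_ag.IdealModel

set_option autoImplicit false

/-!
# Models given by a homogeneous parametrisation
-/

namespace Pool.MP_602153_ag

open AlgebraicGeometry CategoryTheory CategoryTheory.Limits MvPolynomial

attribute [local instance] MvPolynomial.gradedAlgebra

section Ker

variable {R σ τ : Type} [CommRing R] {e : ℕ} (φ : MvPolynomial σ R →ₐ[R] MvPolynomial τ R)

theorem map_isHomogeneous (hφ : ∀ s, (φ (X s)).IsHomogeneous e) {k : ℕ} {f : MvPolynomial σ R}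
    (hf : f.IsHomogeneous k) : (φ f).IsHomogeneous (e * k) := by
  have h1 : φ = aeval (fun s => φ (X s)) := by
    apply MvPolynomial.algHom_ext
    intro s
    rw [aeval_X]
  rw [h1]
  exact hf.aeval _ hφ

theorem homogeneousComponent_map (he : 0 < e) (hφ : ∀ s, (φ (X s)).IsHomogeneous e)
    (f : MvPolynomial σ R) (k : ℕ) :
    homogeneousComponent (e * k) (φ f) = φ (homogeneousComponent k f) := by
  conv_lhs => rw [← sum_homogeneousComponent f, map_sum, map_sum]
  have h1 : ∀ i, homogeneousComponent (e * k) (φ (homogeneousComponent i f)) =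
      if e * k = e * i then φ (homogeneousComponent i f) else 0 := by
    intro i
    exact homogeneousComponent_of_mem
      (map_isHomogeneous φ hφ (homogeneousComponent_isHomogeneous i f))
  simp only [h1]
  by_cases hk : k ∈ Finset.range (f.totalDegree + 1)
  · rw [Finset.sum_eq_single k]
    · simp
    · intro b _ hb
      rw [if_neg]
      intro h
      exact hb (Nat.eq_of_mul_eq_mul_left he h).symm
    · intro h
      exact absurd hk h
  · rw [Finset.sum_eq_zero]
    · rw [homogeneousComponent_eq_zero, map_zero]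
      rw [Finset.mem_range] at hk
      omega
    · intro i hi
      rw [if_neg]
      intro h
      have := Nat.eq_of_mul_eq_mul_left he h
      rw [this] at hk
      exact hk hi

theorem ker_isHomogeneous (he : 0 < e) (hφ : ∀ s, (φ (X s)).IsHomogeneous e) :
    (RingHom.ker φ).IsHomogeneous (homogeneousSubmodule σ R) := by
  intro k f hf
  rw [RingHom.mem_ker] at hf ⊢
  have h1 : (DirectSum.decompose (homogeneousSubmodule σ R) f k : MvPolynomial σ R) =
      homogeneousComponent k f := MvPolynomial.decomposition.decompose'_apply f k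
  rw [h1, ← homogeneousComponent_map φ he hφ, hf, map_zero]

end Ker

section KerInt

variable {σ τ : Type} {e : ℕ} (φ : MvPolynomial σ ℤ →ₐ[ℤ] MvPolynomial τ ℤ)

theorem scale_hom {T : Type} [CommRing T] (θ ε : MvPolynomial σ ℤ →+* T) (β : T)
    (h : ∀ s, β * θ (X s) = ε (X s)) {k : ℕ} {f : MvPolynomial σ ℤ} (hf : f.IsHomogeneous k) :
    β ^ k * θ f = ε f := by
  conv_lhs => rw [f.as_sum]
  conv_rhs => rw [f.as_sum]
  rw [map_sum, map_sum, Finset.mul_sum]
  refine Finset.sum_congr rfl fun m hm => ?_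
  have hm' : m.degree = k := by
    by_contra hne
    exact (mem_support_iff.1 hm) (hf.coeff_eq_zero hne)
  rw [monomial_eq, map_mul, map_mul, Finsupp.prod, map_prod, map_prod]
  have hC : θ (C (coeff m f)) = ε (C (coeff m f)) :=
    RingHom.congr_fun (RingHom.ext_int (θ.comp C) (ε.comp C)) (coeff m f)
  rw [hC]
  have h2 : ∏ s ∈ m.support, ε (X s ^ m s) = β ^ k * ∏ s ∈ m.support, θ (X s ^ m s) := by
    simp only [map_pow, ← h, mul_pow, Finset.prod_mul_distrib]
    rw [Finset.prod_pow_eq_pow_sum]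
    congr 2
  rw [h2]
  ring

theorem ker_le_ker (he : 0 < e) (hφ : ∀ s, (φ (X s)).IsHomogeneous e)
    {T : Type} [CommRing T] (θ : MvPolynomial σ ℤ →+* T) (ε : MvPolynomial τ ℤ →+* T) (β : T)
    (hβ : β ∈ nonZeroDivisors T) (h : ∀ s, β * θ (X s) = ε (φ (X s))) :
    RingHom.ker φ ≤ RingHom.ker θ := by
  intro f hf
  rw [RingHom.mem_ker] at hf ⊢
  rw [← sum_homogeneousComponent f, map_sum]
  refine Finset.sum_eq_zero fun k _ => ?_
  have h1 := scale_hom θ (ε.comp (φ : MvPolynomial σ ℤ →+* MvPolynomial τ ℤ)) β h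
    (homogeneousComponent_isHomogeneous k f)
  have h2 : (ε.comp (φ : MvPolynomial σ ℤ →+* MvPolynomial τ ℤ)) (homogeneousComponent k f) = 0 := by
    change ε (φ (homogeneousComponent k f)) = 0
    rw [← homogeneousComponent_map φ he hφ, hf, map_zero, map_zero]
  rw [h2] at h1
  have h3 : β ^ k ∈ nonZeroDivisors T := pow_mem hβ k
  exact (mul_left_mem_nonZeroDivisors_eq_zero_iff h3).1 h1

end KerInt

section Chart

variable {σ : Type} {I : Ideal (MvPolynomial σ ℤ)} {T : Type} [CommRing T]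

/-- The chart `x_s = 1`. -/
def ChartRing (I : Ideal (MvPolynomial σ ℤ)) (s : σ) : Type :=
  (MvPolynomial σ ℤ ⧸ I) ⧸ Ideal.span {icoord I s - 1}

noncomputable instance (I : Ideal (MvPolynomial σ ℤ)) (s : σ) : CommRing (ChartRing I s) :=
  inferInstanceAs (CommRing ((MvPolynomial σ ℤ ⧸ I) ⧸ Ideal.span {icoord I s - 1}))

/-- The projection to the chart ring. -/
noncomputable def cproj (I : Ideal (MvPolynomial σ ℤ)) (s : σ) :
    (MvPolynomial σ ℤ ⧸ I) →+* ChartRing I s :=
  Ideal.Quotient.mk (Ideal.span {icoord I s - 1})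

theorem cproj_eq_zero (s : σ) {f : MvPolynomial σ ℤ ⧸ I}
    (hf : f ∈ Ideal.span {icoord I s - 1}) : cproj I s f = 0 :=
  Ideal.Quotient.eq_zero_iff_mem.2 hf

theorem cproj_surjective (s : σ) : Function.Surjective (cproj I s) :=
  Ideal.Quotient.mk_surjective

/-- The coordinate functions on the chart. -/
noncomputable def cmk (I : Ideal (MvPolynomial σ ℤ)) (s : σ) :
    MvPolynomial σ ℤ →+* ChartRing I s :=
  (cproj I s).comp (Ideal.Quotient.mk I)

theorem cmk_surjective (s : σ) : Function.Surjective (cmk I s) :=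
  (cproj_surjective s).comp Ideal.Quotient.mk_surjective

theorem cmk_eq_zero (s : σ) {f : MvPolynomial σ ℤ} (hf : f ∈ I) : cmk I s f = 0 := by
  rw [cmk, RingHom.comp_apply, Ideal.Quotient.eq_zero_iff_mem.2 hf, map_zero]

theorem cmk_eq (s : σ) {f g : MvPolynomial σ ℤ} (h : f - g ∈ I) : cmk I s f = cmk I s g := by
  rw [← sub_eq_zero, ← map_sub]
  exact cmk_eq_zero s h

theorem cmk_self (s : σ) : cmk I s (X s) = 1 := by
  rw [← sub_eq_zero, ← map_one (cmk I s), ← map_sub]
  rw [cmk, RingHom.comp_apply, map_sub, map_one]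
  exact cproj_eq_zero s (Ideal.subset_span rfl)

/-- The map from the chart. -/
noncomputable def cdesc (s : σ) (θ : MvPolynomial σ ℤ →+* T) (hI : I ≤ RingHom.ker θ)
    (h1 : θ (X s) = 1) : ChartRing I s →+* T :=
  Ideal.Quotient.lift _ (Ideal.Quotient.lift I θ (fun a ha => hI ha)) (by
    intro a ha
    have hle : Ideal.span {icoord I s - 1} ≤
        RingHom.ker (Ideal.Quotient.lift I θ (fun a ha => hI ha)) := by
      rw [Ideal.span_le]
      intro x hx
      rw [Set.mem_singleton_iff] at hx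
      rw [hx, SetLike.mem_coe, RingHom.mem_ker, map_sub, map_one, icoord, Ideal.Quotient.lift_mk,
        h1, sub_self]
    exact hle ha)

theorem cdesc_cmk (s : σ) (θ : MvPolynomial σ ℤ →+* T) (hI : I ≤ RingHom.ker θ)
    (h1 : θ (X s) = 1) (f : MvPolynomial σ ℤ) : cdesc s θ hI h1 (cmk I s f) = θ f := rfl

theorem cmk_hom_ext {s : σ} {T' : Type} [CommRing T'] {u v : ChartRing I s →+* T'}
    (h : ∀ t, u (cmk I s (X t)) = v (cmk I s (X t))) : u = v := by
  have h1 : u.comp (cmk I s) = v.comp (cmk I s) := by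
    apply MvPolynomial.ringHom_ext
    · intro m
      exact RingHom.congr_fun (RingHom.ext_int ((u.comp (cmk I s)).comp C)
        ((v.comp (cmk I s)).comp C)) m
    · intro t
      exact h t
  refine RingHom.ext fun x => ?_
  obtain ⟨x, rfl⟩ := cmk_surjective s x
  exact RingHom.congr_fun h1 x

/-- Chart rings are regular if they have a regular presentation. -/
theorem chart_regular [IsRegularRing T] (s : σ) (θ : MvPolynomial σ ℤ →+* T)
    (hI : I ≤ RingHom.ker θ) (h1 : θ (X s) = 1) (η : T →+* ChartRing I s)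
    (h : ∀ t, η (θ (X t)) = cmk I s (X t))
    (h' : ∀ D : ChartRing I s →+* T, (∀ f, D (cmk I s f) = θ f) → D.comp η = RingHom.id T) :
    IsRegularRing (ChartRing I s) := by
  let E : T ≃+* ChartRing I s := RingEquiv.ofRingHom η (cdesc s θ hI h1)
    (by
      apply cmk_hom_ext
      intro t
      rw [RingHom.comp_apply, cdesc_cmk, h]
      rfl) (h' _ (cdesc_cmk s θ hI h1))
  exact IsRegularRing.of_ringEquiv E

end Chart

section Model

variable {σ τ : Type} [Finite σ] {e : ℕ} (φ : MvPolynomial σ ℤ →ₐ[ℤ] MvPolynomial τ ℤ)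

/-- The model attached to a homogeneous parametrisation, the generic fibre being described by
functions. -/
theorem model_of_param (he : 0 < e) (hφ : ∀ s, (φ (X s)).IsHomogeneous e)
    (hX : ∃ s, φ (X s) ≠ 0) {ι : Type} (c : ι → σ)
    (hcov : ∀ s, ∃ k : ℕ, (X s : MvPolynomial σ ℤ) ^ k ∈
      Ideal.span (Set.range (X ∘ c)) ⊔ RingHom.ker φ)
    (hreg : ∀ i, IsRegularRing (ChartRing (RingHom.ker φ) (c i)))
    {V : Type} (coord : V → τ → ℚ) (hcoord : Function.Surjective coord)
    (B : Type) [CommRing B] [Algebra ℚ B] (ℬ : ℕ → Submodule ℚ B) [GradedAlgebra ℬ]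
    (j : B →ₐ[ℚ] (V → ℚ)) (hj : Function.Injective j)
    (hgen : Algebra.adjoin ℚ (ℬ 1 : Set B) = ⊤)
    (hspan : Submodule.map j.toLinearMap (ℬ 1) = Submodule.span ℚ
      (Set.range fun (s : σ) (v : V) => aeval (coord v) (φ (X s))))
    (Z : Scheme) (e : Nonempty (Z ≅ Proj ℬ)) : HasModel Z := by
  have hch : ∀ s, ∃ b ∈ ℬ 1, ∀ v, j b v = aeval (coord v) (φ (X s)) := by
    intro s
    have h1 : (fun (v : V) => aeval (coord v) (φ (X s))) ∈ Submodule.map j.toLinearMap (ℬ 1) := by
      rw [hspan]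
      exact Submodule.subset_span ⟨s, rfl⟩
    obtain ⟨b, hb, hbv⟩ := h1
    exact ⟨b, hb, fun v => congrFun hbv v⟩
  choose b hb hbv using hch
  let ψ : MvPolynomial σ ℚ →ₐ[ℚ] B := aeval b
  have hψ : ∀ s, ψ (X s) ∈ ℬ 1 := by
    intro s
    simp only [ψ, aeval_X]
    exact hb s
  have hsurj : Function.Surjective ψ := by
    rw [← AlgHom.range_eq_top, eq_top_iff, ← hgen, Algebra.adjoin_le_iff]
    intro x hx
    have h1 : j x ∈ Submodule.map j.toLinearMap (ℬ 1) := ⟨x, hx, rfl⟩
    rw [hspan] at h1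
    have h2 : Submodule.span ℚ (Set.range fun (s : σ) (v : V) => aeval (coord v) (φ (X s))) ≤
        Submodule.map j.toLinearMap (Subalgebra.toSubmodule ψ.range) := by
      rw [Submodule.span_le]
      rintro _ ⟨s, rfl⟩
      refine ⟨ψ (X s), ⟨X s, rfl⟩, ?_⟩
      funext v
      simp only [ψ, aeval_X]
      exact hbv s v
    obtain ⟨y, hy, hyx⟩ := h2 h1
    have : y = x := hj hyx
    rw [← this]
    exact hy
  have heval : ∀ (f : MvPolynomial σ ℤ) (v : V),
      j (ψ (map (algebraMap ℤ ℚ) f)) v = aeval (coord v) (φ f) := by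
    intro f v
    have : ((Pi.evalRingHom (fun _ : V => ℚ) v).comp ((j : B →+* (V → ℚ)).comp
        ((ψ : MvPolynomial σ ℚ →+* B).comp (map (algebraMap ℤ ℚ))))) =
        ((aeval (coord v) : MvPolynomial τ ℤ →ₐ[ℤ] ℚ) : MvPolynomial τ ℤ →+* ℚ).comp
          (φ : MvPolynomial σ ℤ →+* MvPolynomial τ ℤ) := by
      apply MvPolynomial.ringHom_ext
      · intro m
        simp
      · intro s
        simp [ψ, hbv]
    exact RingHom.congr_fun this f
  have hker : ∀ f : MvPolynomial σ ℤ,
      ψ (map (algebraMap ℤ ℚ) f) = 0 ↔ f ∈ RingHom.ker φ := by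
    intro f
    rw [RingHom.mem_ker]
    constructor
    · intro h
      have h1 : ∀ x : τ → ℚ, eval x (map (algebraMap ℤ ℚ) (φ f)) = 0 := by
        intro x
        obtain ⟨v, rfl⟩ := hcoord x
        have h2 := heval f v
        rw [h, map_zero] at h2
        rw [MvPolynomial.eval_map, ← aeval_def, ← h2]
        rfl
      have h3 : map (algebraMap ℤ ℚ) (φ f) = 0 := by
        apply MvPolynomial.funext
        intro x
        rw [h1, map_zero]
      exact map_injective _ (RingHom.injective_int _) (by rw [h3, map_zero])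
    · intro h
      apply hj
      rw [map_zero]
      funext v
      rw [heval, h, map_zero]
      rfl
  have hprime : (RingHom.ker φ).IsPrime := RingHom.ker_isPrime _
  refine model_of_ideal (ker_isHomogeneous φ he hφ) ψ hker ?_ ?_ c hcov hreg hψ hsurj Z e
  · intro m hm
    rw [RingHom.mem_ker, ← algebraMap_eq, AlgHom.commutes, algebraMap_eq] at hm
    rwa [C_eq_zero] at hm
  · obtain ⟨s, hs⟩ := hX
    exact ⟨s, hs⟩

end Model

section NonVacuous

/-- The homogeneous coordinate ring of the generic fibre exists. -/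
theorem exists_coordinate_ring {σ τ : Type} {e : ℕ} (φ : MvPolynomial σ ℤ →ₐ[ℤ] MvPolynomial τ ℤ)
    (he : 0 < e) (hφ : ∀ s, (φ (X s)).IsHomogeneous e)
    {V : Type} (coord : V → τ → ℚ) (hcoord : Function.Surjective coord) :
    ∃ (B : Type) (_ : CommRing B) (_ : Algebra ℚ B) (ℬ : ℕ → Submodule ℚ B) (_ : GradedAlgebra ℬ)
      (j : B →ₐ[ℚ] (V → ℚ)), Function.Injective j ∧ Algebra.adjoin ℚ (ℬ 1 : Set B) = ⊤ ∧
      Submodule.map j.toLinearMap (ℬ 1) = Submodule.span ℚ
        (Set.range fun (s : σ) (v : V) => aeval (coord v) (φ (X s))) := by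
  let g : σ → MvPolynomial τ ℚ := fun s => map (algebraMap ℤ ℚ) (φ (X s))
  let φQ : MvPolynomial σ ℚ →ₐ[ℚ] MvPolynomial τ ℚ := aeval g
  have hφQ : ∀ s, (φQ (X s)).IsHomogeneous e := by
    intro s
    simp only [φQ, aeval_X]
    exact (hφ s).map _
  have hI := ker_isHomogeneous φQ he hφQ
  let ev : MvPolynomial τ ℚ →ₐ[ℚ] (V → ℚ) := AlgHom.pi (fun v => aeval (coord v))
  have hev : Function.Injective ev := by
    rw [injective_iff_map_eq_zero]
    intro f hf
    apply MvPolynomial.funext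
    intro x
    obtain ⟨v, rfl⟩ := hcoord x
    have h1 : aeval (coord v) f = 0 := congrFun hf v
    rw [map_zero, ← coe_aeval_eq_eval]
    exact h1
  let j0 : MvPolynomial σ ℚ →ₐ[ℚ] (V → ℚ) := ev.comp φQ
  have hj0 : ∀ f, j0 f = 0 ↔ f ∈ RingHom.ker φQ := by
    intro f
    rw [RingHom.mem_ker]
    change ev (φQ f) = 0 ↔ _
    rw [← map_zero ev, hev.eq_iff]
  let j : (MvPolynomial σ ℚ ⧸ RingHom.ker φQ) →ₐ[ℚ] (V → ℚ) :=
    Ideal.Quotient.liftₐ (RingHom.ker φQ) j0 (fun a ha => (hj0 a).2 ha)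
  have hjmk : ∀ f, j (Ideal.Quotient.mk _ f) = j0 f := fun f => rfl
  have hjX : ∀ (s : σ) (v : V), j (Ideal.Quotient.mk _ (X s)) v = aeval (coord v) (φ (X s)) := by
    intro s v
    rw [hjmk]
    change aeval (coord v) (φQ (X s)) = _
    simp only [φQ, aeval_X, g]
    rw [aeval_def, eval₂_map, aeval_def]
    congr 1
  refine ⟨_, inferInstance, inferInstance, igrad (RingHom.ker φQ), iGraded _ hI, j, ?_, ?_, ?_⟩
  · rw [injective_iff_map_eq_zero]
    intro a ha
    obtain ⟨f, rfl⟩ := Ideal.Quotient.mk_surjective a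
    rw [hjmk, hj0] at ha
    exact Ideal.Quotient.eq_zero_iff_mem.2 ha
  · rw [eq_top_iff, ← adjoin_icoord]
    apply Algebra.adjoin_mono
    rintro _ ⟨s, rfl⟩
    exact icoord_mem s
  · apply le_antisymm
    · rw [Submodule.map_le_iff_le_comap]
      have h1 : igrad (RingHom.ker φQ) 1 = (homogeneousSubmodule σ ℚ 1).map
          (Ideal.Quotient.mkₐ ℚ (RingHom.ker φQ)).toLinearMap := rfl
      rw [h1, homogeneousSubmodule_one_eq_span_X, Submodule.map_span, Submodule.span_le]
      rintro _ ⟨_, ⟨s, rfl⟩, rfl⟩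
      refine Submodule.subset_span ⟨s, ?_⟩
      funext v
      exact (hjX s v).symm
    · rw [Submodule.span_le]
      rintro _ ⟨s, rfl⟩
      refine ⟨Ideal.Quotient.mk _ (X s), icoord_mem s, ?_⟩
      funext v
      exact hjX s v

end NonVacuous

end Pool.MP_602153_ag
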