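import Mathlib

set_option autoImplicit false

/-!
# Integral quadratic forms with small singular radicals
-/

namespace Pool.MP_602153_ag

open MvPolynomial Matrix

/-- the quadratic form `∑ i j, B i j x_i x_j` -/
noncomputable def quad {R : Type} [CommRing R] {n : ℕ} (B : Matrix (Fin n) (Fin n) R) :
    MvPolynomial (Fin n) R := ∑ i, ∑ j, C (B i j) * X i * X j

/-- The integral quadratic form `Q(v) = v ⬝ᵥ B v` with Gram matrix `B + Bᵀ` is good if it is
nondegenerate and, modulo every prime, its singular radical has dimension at most one and consists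
of vectors whose value is not divisible by the square of the prime. -/
structure Good {n : ℕ} (B : Matrix (Fin n) (Fin n) ℤ) : Prop where
  det_ne : (B + Bᵀ).det ≠ 0
  nosq : ∀ p : ℕ, p.Prime → ∀ w : Fin n → ℤ, (∃ i, ¬ (p : ℤ) ∣ w i) →
    (∀ i, (p : ℤ) ∣ (B + Bᵀ).mulVec w i) → ¬ ((p : ℤ) ^ 2 ∣ w ⬝ᵥ B.mulVec w)
  rad_le : ∀ p : ℕ, p.Prime → ∀ v w : Fin n → ℤ,
    (∀ i, (p : ℤ) ∣ (B + Bᵀ).mulVec v i) → (p : ℤ) ∣ v ⬝ᵥ B.mulVec v →
    (∀ i, (p : ℤ) ∣ (B + Bᵀ).mulVec w i) → (p : ℤ) ∣ w ⬝ᵥ B.mulVec w →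
    ∃ a b : ℤ, (¬ (p : ℤ) ∣ a ∨ ¬ (p : ℤ) ∣ b) ∧ ∀ i, (p : ℤ) ∣ a * v i + b * w i

section Field

variable {n : ℕ} {κ : Type*} [CommRing κ]

/-- the value of the form on a vector -/
def val (B : Matrix (Fin n) (Fin n) ℤ) (v : Fin n → κ) : κ := v ⬝ᵥ (B.map (Int.cast : ℤ → κ)).mulVec v

/-- the Gram matrix applied to a vector -/
def gram (B : Matrix (Fin n) (Fin n) ℤ) (v : Fin n → κ) : Fin n → κ :=
  ((B + Bᵀ).map (Int.cast : ℤ → κ)).mulVec v

theorem gram_add (B : Matrix (Fin n) (Fin n) ℤ) (v w : Fin n → κ) :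
    gram B (v + w) = gram B v + gram B w := by
  rw [gram, Matrix.mulVec_add]; rfl

theorem gram_smul (B : Matrix (Fin n) (Fin n) ℤ) (t : κ) (v : Fin n → κ) :
    gram B (t • v) = t • gram B v := by
  rw [gram, Matrix.mulVec_smul]; rfl

theorem val_smul (B : Matrix (Fin n) (Fin n) ℤ) (t : κ) (v : Fin n → κ) :
    val B (t • v) = t ^ 2 * val B v := by
  rw [val, Matrix.mulVec_smul, dotProduct_smul, smul_dotProduct, val]
  simp only [smul_eq_mul]
  ring

theorem val_add (B : Matrix (Fin n) (Fin n) ℤ) (v w : Fin n → κ) :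
    val B (v + w) = val B v + val B w + v ⬝ᵥ gram B w := by
  rw [val, val, val, gram, Matrix.mulVec_add, dotProduct_add, add_dotProduct, add_dotProduct]
  have h1 : (B + Bᵀ).map (Int.cast : ℤ → κ) = B.map (Int.cast : ℤ → κ) +
      (B.map (Int.cast : ℤ → κ))ᵀ := by
    ext i j
    simp
  rw [h1, Matrix.add_mulVec, dotProduct_add]
  have h2 : v ⬝ᵥ (B.map (Int.cast : ℤ → κ))ᵀ.mulVec w = w ⬝ᵥ (B.map (Int.cast : ℤ → κ)).mulVec v := by
    rw [Matrix.mulVec_transpose, dotProduct_comm, Matrix.dotProduct_mulVec]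
  rw [h2]
  ring

theorem two_val (B : Matrix (Fin n) (Fin n) ℤ) (v : Fin n → κ) :
    2 * val B v = v ⬝ᵥ gram B v := by
  have h := val_add B v v
  have h2 : val B (v + v) = 4 * val B v := by
    rw [← two_smul κ v, val_smul]
    ring
  rw [h2] at h
  linear_combination h

theorem val_map {κ' : Type*} [CommRing κ'] (f : κ →+* κ') (B : Matrix (Fin n) (Fin n) ℤ)
    (v : Fin n → κ) : val B (fun j => f (v j)) = f (val B v) := by
  simp only [val, dotProduct, Matrix.mulVec, map_sum, map_mul, Matrix.map_apply, map_intCast]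

theorem gram_map {κ' : Type*} [CommRing κ'] (f : κ →+* κ') (B : Matrix (Fin n) (Fin n) ℤ)
    (v : Fin n → κ) : gram B (fun j => f (v j)) = fun j => f (gram B v j) := by
  ext j
  simp only [gram, dotProduct, Matrix.mulVec, map_sum, map_mul, Matrix.map_apply, map_intCast]

end Field

end Pool.MP_602153_ag
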