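import Mathlib
import Pool.Agent.MP_602153_ag.Quad

set_option autoImplicit false

/-!
# Singular points of the reductions of a good form are rational
-/

namespace Pool.MP_602153_ag

open Matrix

variable {n : ℕ} {B : Matrix (Fin n) (Fin n) ℤ}

theorem val_int (B : Matrix (Fin n) (Fin n) ℤ) (v : Fin n → ℤ) : val B v = v ⬝ᵥ B.mulVec v := by
  simp only [val, dotProduct, Matrix.mulVec, Matrix.map_apply, Int.cast_id]

theorem gram_int (B : Matrix (Fin n) (Fin n) ℤ) (v : Fin n → ℤ) :
    gram B v = (B + Bᵀ).mulVec v := by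
  ext i
  simp only [gram, dotProduct, Matrix.mulVec, Matrix.map_apply, Int.cast_id]

theorem val_intCast {κ : Type*} [CommRing κ] (B : Matrix (Fin n) (Fin n) ℤ) (v : Fin n → ℤ) :
    val B (fun j => (v j : κ)) = ((v ⬝ᵥ B.mulVec v : ℤ) : κ) := by
  rw [← val_int]
  exact val_map (Int.castRingHom κ) B v

theorem gram_intCast {κ : Type*} [CommRing κ] (B : Matrix (Fin n) (Fin n) ℤ) (v : Fin n → ℤ) :
    gram B (fun j => (v j : κ)) = fun j => (((B + Bᵀ).mulVec v j : ℤ) : κ) := by
  rw [← gram_int]
  exact gram_map (Int.castRingHom κ) B v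

theorem char_of_kernel (hdet : (B + Bᵀ).det ≠ 0) {κ : Type*} [Field κ] (v : Fin n → κ) (i : Fin n)
    (hvi : v i = 1) (hG : gram B v = 0) : ∃ p : ℕ, p.Prime ∧ CharP κ p := by
  have h1 : (((B + Bᵀ).det : ℤ) : κ) = 0 := by
    have h2 : ((B + Bᵀ).map (Int.cast : ℤ → κ)).det • v = 0 := by
      have h3 := congrArg (((B + Bᵀ).map (Int.cast : ℤ → κ)).adjugate.mulVec) hG
      rw [gram, Matrix.mulVec_mulVec, Matrix.adjugate_mul, Matrix.smul_mulVec, Matrix.one_mulVec,
        Matrix.mulVec_zero] at h3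
      exact h3
    have h4 := congrFun h2 i
    simp only [Pi.smul_apply, hvi, smul_eq_mul, mul_one, Pi.zero_apply] at h4
    rw [← h4]
    exact RingHom.map_det (Int.castRingHom κ) (B + Bᵀ)
  obtain ⟨p, hp⟩ := CharP.exists κ
  rcases CharP.char_is_prime_or_zero κ p with h | h
  · exact ⟨p, h, hp⟩
  · exfalso
    subst h
    have : CharZero κ := CharP.charP_to_charZero κ
    exact hdet (by exact_mod_cast h1)

theorem rad_zmod (hB : Good B) (p : ℕ) [hp : Fact p.Prime] (v w : Fin n → ZMod p)
    (hv : gram B v = 0) (hv' : val B v = 0) (hw : gram B w = 0) (hw' : val B w = 0) :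
    ∃ a b : ZMod p, (a ≠ 0 ∨ b ≠ 0) ∧ ∀ j, a * v j + b * w j = 0 := by
  let V : Fin n → ℤ := fun j => ((v j).val : ℤ)
  let W : Fin n → ℤ := fun j => ((w j).val : ℤ)
  have hV : (fun j => ((V j : ℤ) : ZMod p)) = v := by
    ext j; simp [V]
  have hW : (fun j => ((W j : ℤ) : ZMod p)) = w := by
    ext j; simp [W]
  obtain ⟨a, b, hab, h⟩ := hB.rad_le p hp.out V W
    (fun i => by
      rw [← ZMod.intCast_zmod_eq_zero_iff_dvd]
      have := congrFun (gram_intCast (κ := ZMod p) B V) i
      rw [hV, hv] at this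
      exact this.symm)
    (by
      rw [← ZMod.intCast_zmod_eq_zero_iff_dvd, ← val_intCast, hV, hv'])
    (fun i => by
      rw [← ZMod.intCast_zmod_eq_zero_iff_dvd]
      have := congrFun (gram_intCast (κ := ZMod p) B W) i
      rw [hW, hw] at this
      exact this.symm)
    (by
      rw [← ZMod.intCast_zmod_eq_zero_iff_dvd, ← val_intCast, hW, hw'])
  refine ⟨a, b, ?_, ?_⟩
  · rcases hab with h | h
    · left; rwa [Ne, ZMod.intCast_zmod_eq_zero_iff_dvd]
    · right; rwa [Ne, ZMod.intCast_zmod_eq_zero_iff_dvd]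
  · intro j
    have := (ZMod.intCast_zmod_eq_zero_iff_dvd _ p).2 (h j)
    push_cast at this
    rw [congrFun hV j, congrFun hW j] at this
    exact this

theorem val_sum {κ : Type*} [CommRing κ] {ι : Type*} (s : Finset ι) (u : ι → Fin n → κ)
    (hu : ∀ α ∈ s, gram B (u α) = 0) :
    gram B (∑ α ∈ s, u α) = 0 ∧ val B (∑ α ∈ s, u α) = ∑ α ∈ s, val B (u α) := by
  classical
  induction s using Finset.induction_on with
  | empty =>
    constructor
    · simp [gram]
    · simp [val]
  | insert a s ha ih =>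
    obtain ⟨h1, h2⟩ := ih (fun α hα => hu α (Finset.mem_insert_of_mem hα))
    rw [Finset.sum_insert ha, Finset.sum_insert ha]
    constructor
    · rw [gram_add, h1, hu a (Finset.mem_insert_self _ _), add_zero]
    · rw [val_add, h1, h2]
      simp

theorem exists_point (hB : Good B) {κ : Type*} [Field κ] (v : Fin n → κ) (i : Fin n)
    (hvi : v i = 1) (hG : gram B v = 0) (hQ : val B v = 0) :
    ∃ p : ℕ, p.Prime ∧ CharP κ p ∧ ∃ V : Fin n → ℤ, V i = 1 ∧ ∀ j, (V j : κ) = v j := by
  classical
  obtain ⟨p, hp, hchar⟩ := char_of_kernel hB.det_ne v i hvi hG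
  refine ⟨p, hp, hchar, ?_⟩
  have hpf : Fact p.Prime := ⟨hp⟩
  let _ : Algebra (ZMod p) κ := ZMod.algebra κ p
  let E : Submodule (ZMod p) κ := Submodule.span (ZMod p) (Set.range v)
  have hfin : FiniteDimensional (ZMod p) E :=
    FiniteDimensional.span_of_finite (ZMod p) (Set.finite_range v)
  let b := Module.finBasis (ZMod p) E
  let τ : Fin (Module.finrank (ZMod p) E) → κ := fun α => (b α : κ)
  let vE : Fin n → E := fun j => ⟨v j, Submodule.subset_span ⟨j, rfl⟩⟩
  let w : Fin (Module.finrank (ZMod p) E) → Fin n → ZMod p := fun α j => b.repr (vE j) α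
  have hcast : ∀ x : ZMod p, algebraMap (ZMod p) κ x = ((x.val : ℤ) : κ) := by
    intro x
    conv_lhs => rw [← ZMod.natCast_zmod_val x]
    rw [map_natCast, Int.cast_natCast]
  have hvw : ∀ j, v j = ∑ α, algebraMap (ZMod p) κ (w α j) * τ α := by
    intro j
    have h1 := b.sum_repr (vE j)
    have h2 := congrArg (Submodule.subtype E) h1
    rw [map_sum] at h2
    have h3 : v j = Submodule.subtype E (vE j) := rfl
    rw [h3, ← h2]
    refine Finset.sum_congr rfl fun α _ => ?_
    rw [map_smul, Algebra.smul_def]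
    rfl
  have hτ : ∀ f : Fin (Module.finrank (ZMod p) E) → ZMod p,
      ∑ α, algebraMap (ZMod p) κ (f α) * τ α = 0 → ∀ α, f α = 0 := by
    intro f hf
    have h1 : ∑ α, f α • b α = 0 := by
      apply Subtype.ext
      refine Eq.trans ?_ hf
      change Submodule.subtype E (∑ α, f α • b α) = _
      rw [map_sum]
      refine Finset.sum_congr rfl fun α _ => ?_
      rw [map_smul, Algebra.smul_def]
      rfl
    exact (Fintype.linearIndependent_iff.1 b.linearIndependent) f h1
  have hgw : ∀ α, gram B (w α) = 0 := by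
    intro α
    ext k
    revert α
    apply hτ
    have h1 := congrFun hG k
    rw [gram, Matrix.mulVec, dotProduct] at h1
    simp only [Matrix.map_apply, hvw, Finset.mul_sum] at h1
    rw [Finset.sum_comm] at h1
    rw [← Pi.zero_apply (M := fun _ => κ) k, ← h1]
    refine Finset.sum_congr rfl fun α _ => ?_
    simp only [gram, Matrix.mulVec, dotProduct, Matrix.map_apply, map_sum, map_mul, map_intCast,
      Finset.sum_mul]
    refine Finset.sum_congr rfl fun j _ => ?_
    ring
  -- the value of the form on the coordinate vectors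
  have hvsum : v = ∑ α, τ α • (fun j => algebraMap (ZMod p) κ (w α j)) := by
    ext j
    rw [hvw j, Finset.sum_apply]
    refine Finset.sum_congr rfl fun α _ => ?_
    simp only [Pi.smul_apply, smul_eq_mul]
    ring
  have hgu : ∀ α ∈ Finset.univ, gram B (τ α • (fun j => algebraMap (ZMod p) κ (w α j))) = 0 := by
    intro α _
    rw [gram_smul, gram_map (algebraMap (ZMod p) κ), hgw α]
    ext j
    simp
  have hval : ∑ α, τ α ^ 2 * algebraMap (ZMod p) κ (val B (w α)) = 0 := by
    rw [← hQ, hvsum, (val_sum Finset.univ _ hgu).2]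
    refine Finset.sum_congr rfl fun α _ => ?_
    rw [val_smul, val_map (algebraMap (ZMod p) κ)]
  have hqw : ∀ α, val B (w α) = 0 := by
    by_cases hp2 : p = 2
    · subst hp2
      apply hτ
      have h1 : (∑ α, algebraMap (ZMod 2) κ (val B (w α)) * τ α) ^ 2 = 0 := by
        rw [CharTwo.sum_sq, ← hval]
        refine Finset.sum_congr rfl fun α _ => ?_
        rw [mul_pow, ← map_pow, ZMod.pow_card, mul_comm]
      exact pow_eq_zero_iff (two_ne_zero) |>.1 h1
    · intro α
      have h1 := two_val B (w α)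
      rw [hgw α, dotProduct_zero] at h1
      have h2 : (2 : ZMod p) ≠ 0 := by
        intro h
        have h3 : ((2 : ℕ) : ZMod p) = 0 := by exact_mod_cast h
        rw [ZMod.natCast_eq_zero_iff] at h3
        exact hp2 ((Nat.prime_dvd_prime_iff_eq hp Nat.prime_two).1 h3)
      exact (mul_eq_zero.1 h1).resolve_left h2
  -- a coordinate vector with nonzero entry
  have hex : ∃ α₀, w α₀ i ≠ 0 := by
    by_contra hcon
    push Not at hcon
    have h1 := hvw i
    rw [hvi, Finset.sum_eq_zero] at h1
    · exact one_ne_zero h1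
    · intro α _
      rw [hcon α, map_zero, zero_mul]
  obtain ⟨α₀, hα₀⟩ := hex
  have hcross : ∀ α j, w α₀ i * w α j = w α₀ j * w α i := by
    intro α j
    obtain ⟨a, c, hac, h⟩ := rad_zmod hB p (w α) (w α₀) (hgw α) (hqw α) (hgw α₀) (hqw α₀)
    have ha : a ≠ 0 := by
      intro ha
      have h1 := h i
      rw [ha, zero_mul, zero_add] at h1
      rcases hac with h2 | h2
      · exact h2 ha
      · exact (mul_ne_zero h2 hα₀) h1
    have h1 := h i
    have h2 := h j
    apply mul_left_cancel₀ ha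
    linear_combination (w α₀ i) * h2 - (w α₀ j) * h1
  have hv0 : ∀ j, algebraMap (ZMod p) κ (w α₀ i) * v j = algebraMap (ZMod p) κ (w α₀ j) := by
    intro j
    have h1 : algebraMap (ZMod p) κ (w α₀ j) = algebraMap (ZMod p) κ (w α₀ j) * v i := by
      rw [hvi, mul_one]
    rw [h1, hvw j, hvw i, Finset.mul_sum, Finset.mul_sum]
    refine Finset.sum_congr rfl fun α _ => ?_
    rw [← mul_assoc, ← mul_assoc, ← map_mul, ← map_mul, hcross]
  have hne : algebraMap (ZMod p) κ (w α₀ i) ≠ 0 := by
    rw [Ne, map_eq_zero]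
    exact hα₀
  have hvj : ∀ j, v j = algebraMap (ZMod p) κ (w α₀ j / w α₀ i) := by
    intro j
    rw [map_div₀, eq_div_iff hne, mul_comm]
    exact hv0 j
  refine ⟨fun j => if j = i then 1 else ((w α₀ j / w α₀ i).val : ℤ), by simp, ?_⟩
  intro j
  by_cases hj : j = i
  · subst hj
    simp [hvi]
  · rw [hvj j, hcast]
    simp [hj]

end Pool.MP_602153_ag
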