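import Mathlib

set_option autoImplicit false

/-!
# Quotients of regular local rings by an element outside the square of the maximal ideal
-/

namespace Pool.MP_602153_ag

open IsLocalRing

section

variable {R : Type*} [CommRing R]

theorem exists_generators [IsLocalRing R] [IsNoetherianRing R] (x : R)
    (hx : x ∈ maximalIdeal R) (hx2 : x ∉ maximalIdeal R ^ 2) :
    ∃ s : Set R, s.Finite ∧ s.ncard + 1 ≤ (maximalIdeal R).spanFinrank ∧
      maximalIdeal R = Ideal.span (insert x s) := by
  classical
  set v : CotangentSpace R := (maximalIdeal R).toCotangent ⟨x, hx⟩ with hv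
  have hv0 : v ≠ 0 := by
    intro h
    rw [hv, Ideal.toCotangent_eq_zero] at h
    exact hx2 h
  have hli : LinearIndepOn (ResidueField R) id ({v} : Set (CotangentSpace R)) :=
    .singleton hv0
  set B : Set (CotangentSpace R) := hli.extend (Set.subset_univ {v}) with hB
  have hvB : v ∈ B := hli.subset_extend (Set.subset_univ _) rfl
  let b : Module.Basis B (ResidueField R) (CotangentSpace R) := Module.Basis.extend hli
  have hBfin : Finite B := Module.Finite.finite_basis b
  have hBcard : B.ncard = (maximalIdeal R).spanFinrank := by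
    rw [spanFinrank_maximalIdeal_eq_finrank_cotangentSpace,
      Module.finrank_eq_nat_card_basis b]
    rfl
  have hBspan : Submodule.span (ResidueField R) B = ⊤ := by
    have := b.span_eq
    rwa [Module.Basis.range_extend] at this
  obtain ⟨g, hg⟩ := (maximalIdeal R).toCotangent_surjective.hasRightInverse
  let f : CotangentSpace R → maximalIdeal R := Function.update g v ⟨x, hx⟩
  have hf : ∀ u, (maximalIdeal R).toCotangent (f u) = u := by
    intro u
    by_cases huv : u = v
    · subst huv
      simp [f, hv]
    · simp only [f, Function.update_of_ne huv]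
      exact hg u
  have himg : (maximalIdeal R).toCotangent '' (f '' B) = B := by
    rw [← Set.image_comp]
    have : (⇑(maximalIdeal R).toCotangent ∘ f) = id := funext hf
    rw [this, Set.image_id]
  have hspan : Submodule.span R (f '' B) = ⊤ := by
    rw [← CotangentSpace.span_image_eq_top_iff, himg, hBspan]
  refine ⟨(fun u => (f u : R)) '' (B \ {v}), ?_, ?_, ?_⟩
  · exact (Set.Finite.subset (Set.toFinite B) Set.sdiff_subset).image _
  · rw [← hBcard]
    have h1 : ((fun u => (f u : R)) '' (B \ {v})).ncard ≤ (B \ {v}).ncard :=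
      Set.ncard_image_le (Set.Finite.subset (Set.toFinite B) Set.sdiff_subset)
    have h2 := Set.ncard_sdiff_singleton_add_one hvB (Set.toFinite B)
    omega
  · have h1 : insert x ((fun u => (f u : R)) '' (B \ {v})) = (fun u => (f u : R)) '' B := by
      have h2 : B = insert v (B \ {v}) := by
        rw [Set.insert_sdiff_singleton, Set.insert_eq_of_mem hvB]
      conv_rhs => rw [h2, Set.image_insert_eq]
      congr 1
      simp [f]
    rw [h1]
    have h3 : (Submodule.span R (f '' B)).map (maximalIdeal R).subtype = maximalIdeal R := by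
      rw [hspan, Submodule.map_top, Submodule.range_subtype]
    rw [Submodule.map_span, ← Set.image_comp] at h3
    exact h3.symm

theorem regular_quotient [IsRegularLocalRing R] (x : R)
    (hx : x ∈ maximalIdeal R) (hx2 : x ∉ maximalIdeal R ^ 2) :
    IsRegularLocalRing (R ⧸ Ideal.span {x}) := by
  have hne : Ideal.span {x} ≠ ⊤ := by
    intro h
    have : Ideal.span {x} ≤ maximalIdeal R := by
      rw [Ideal.span_le]
      simpa using hx
    rw [h, top_le_iff] at this
    exact Ideal.IsPrime.ne_top' this
  have hnt : Nontrivial (R ⧸ Ideal.span {x}) := Ideal.Quotient.nontrivial_iff.2 hne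
  have hloc : IsLocalRing (R ⧸ Ideal.span {x}) :=
    IsLocalRing.of_surjective' (Ideal.Quotient.mk _) Ideal.Quotient.mk_surjective
  apply IsRegularLocalRing.of_spanFinrank_maximalIdeal_le
  obtain ⟨s, hs, hcard, hspan⟩ := exists_generators x hx hx2
  have hmax : maximalIdeal (R ⧸ Ideal.span {x}) =
      Ideal.span (Ideal.Quotient.mk (Ideal.span {x}) '' s) := by
    have h1 : maximalIdeal (R ⧸ Ideal.span {x}) =
        (maximalIdeal R).map (Ideal.Quotient.mk (Ideal.span {x})) :=
      (IsLocalRing.map_maximalIdeal_of_surjective (Ideal.Quotient.mk (Ideal.span {x}))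
        Ideal.Quotient.mk_surjective).symm
    rw [h1, hspan, Ideal.map_span, Set.image_insert_eq]
    have h2 : Ideal.Quotient.mk (Ideal.span {x}) x = 0 :=
      Ideal.Quotient.eq_zero_iff_mem.2 (Ideal.subset_span rfl)
    rw [h2]
    exact Ideal.span_insert_zero
  have h3 : (maximalIdeal (R ⧸ Ideal.span {x})).spanFinrank ≤ s.ncard := by
    rw [hmax]
    exact (Submodule.spanFinrank_span_le_ncard_of_finite (hs.image _)).trans
      (Set.ncard_image_le hs)
  have h4 : ringKrullDim R ≤ ringKrullDim (R ⧸ Ideal.span {x}) + 1 := by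
    have := ringKrullDim_le_ringKrullDim_quotient_add_encard ({x} : Set R) (by
      rw [IsLocalRing.ringJacobson_eq_maximalIdeal]
      simpa using hx)
    simpa using this
  have h5 := (isRegularLocalRing_iff R).1 inferInstance
  rw [← h5] at h4
  have h6 : ((maximalIdeal (R ⧸ Ideal.span {x})).spanFinrank : WithBot ℕ∞) + (1 : ℕ) ≤
      ringKrullDim (R ⧸ Ideal.span {x}) + (1 : ℕ) := by
    refine le_trans ?_ (by simpa using h4)
    have : (maximalIdeal (R ⧸ Ideal.span {x})).spanFinrank + 1 ≤ (maximalIdeal R).spanFinrank :=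
      (Nat.add_le_add_right h3 1).trans hcard
    exact_mod_cast this
  exact ENat.WithBot.add_le_add_natCast_right_iff.1 h6

/-- A quotient of a regular ring by one element is regular if the element is not, at any prime
containing it, in the square of the maximal ideal. -/
theorem regularRing_quotient [IsRegularRing R] (g : R)
    (hg : ∀ P : Ideal R, P.IsPrime → g ∈ P → ∀ b : R, b * g ∈ P ^ 2 → b ∈ P) :
    IsRegularRing (R ⧸ Ideal.span {g}) := by
  rw [isRegularRing_iff]
  intro Q hQ
  let P : Ideal R := Q.comap (Ideal.Quotient.mk (Ideal.span {g}))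
  have hP : P.IsPrime := inferInstance
  have hgP : g ∈ P := by
    change Ideal.Quotient.mk (Ideal.span {g}) g ∈ Q
    have h2 : Ideal.Quotient.mk (Ideal.span {g}) g = 0 :=
      Ideal.Quotient.eq_zero_iff_mem.2 (Ideal.subset_span rfl)
    rw [h2]
    exact Q.zero_mem
  let S := Localization.AtPrime P
  have hreg : IsRegularLocalRing S := inferInstance
  have hmax : maximalIdeal S = P.map (algebraMap R S) :=
    (Localization.AtPrime.map_eq_maximalIdeal (I := P)).symm
  have hx : algebraMap R S g ∈ maximalIdeal S := by
    rw [hmax]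
    exact Ideal.mem_map_of_mem _ hgP
  have hx2 : algebraMap R S g ∉ maximalIdeal S ^ 2 := by
    rw [hmax, ← Ideal.map_pow, IsLocalization.algebraMap_mem_map_algebraMap_iff P.primeCompl]
    rintro ⟨m, hm, hmg⟩
    exact hm (hg P hP hgP m hmg)
  have h1 : IsRegularLocalRing (S ⧸ Ideal.span {algebraMap R S g}) :=
    regular_quotient _ hx hx2
  have hI : (Ideal.span {g}).map (algebraMap R S) = Ideal.span {algebraMap R S g} := by
    rw [Ideal.map_span, Set.image_singleton]
  have h2 : IsRegularLocalRing (S ⧸ (Ideal.span {g}).map (algebraMap R S)) :=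
    IsRegularLocalRing.of_ringEquiv (Ideal.quotEquivOfEq hI.symm)
  have hM : Algebra.algebraMapSubmonoid (R ⧸ Ideal.span {g}) P.primeCompl = Q.primeCompl := by
    exact Q.map_primeCompl_comap_of_surjective (Ideal.Quotient.mk (Ideal.span {g}))
      Ideal.Quotient.mk_surjective
  have h3 : IsLocalization (Algebra.algebraMapSubmonoid (R ⧸ Ideal.span {g}) P.primeCompl)
      (S ⧸ (Ideal.span {g}).map (algebraMap R S)) := inferInstance
  rw [hM] at h3
  exact IsRegularLocalRing.of_ringEquiv
    (IsLocalization.algEquiv Q.primeCompl (S ⧸ (Ideal.span {g}).map (algebraMap R S))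
      (Localization.AtPrime Q)).toRingEquiv

/-- Two element version. -/
theorem regularRing_quotient_pair [IsRegularRing R] (g h : R)
    (hh : ∀ P : Ideal R, P.IsPrime → h ∈ P → ∀ b : R, b * h ∈ P ^ 2 → b ∈ P)
    (hg : ∀ P : Ideal R, P.IsPrime → g ∈ P → h ∈ P → ∀ a b : R, a * h + b * g ∈ P ^ 2 → b ∈ P) :
    IsRegularRing (R ⧸ Ideal.span {g, h}) := by
  have h1 : IsRegularRing (R ⧸ Ideal.span {h}) := regularRing_quotient h hh
  have h2 : IsRegularRing ((R ⧸ Ideal.span {h}) ⧸
      Ideal.span {Ideal.Quotient.mk (Ideal.span {h}) g}) := by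
    apply regularRing_quotient
    intro Q hQ hgQ b hb
    obtain ⟨b, rfl⟩ := Ideal.Quotient.mk_surjective b
    let P : Ideal R := Q.comap (Ideal.Quotient.mk (Ideal.span {h}))
    have hP : P.IsPrime := inferInstance
    have hhP : h ∈ P := by
      change Ideal.Quotient.mk (Ideal.span {h}) h ∈ Q
      have h2 : Ideal.Quotient.mk (Ideal.span {h}) h = 0 :=
        Ideal.Quotient.eq_zero_iff_mem.2 (Ideal.subset_span rfl)
      rw [h2]
      exact Q.zero_mem
    have hQP : Q = P.map (Ideal.Quotient.mk (Ideal.span {h})) :=
      (Ideal.map_comap_of_surjective _ Ideal.Quotient.mk_surjective Q).symm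
    rw [← map_mul, hQP, ← Ideal.map_pow, Ideal.mem_map_iff_of_surjective _
      Ideal.Quotient.mk_surjective] at hb
    obtain ⟨z, hz, hzb⟩ := hb
    rw [Ideal.Quotient.eq, Ideal.mem_span_singleton] at hzb
    obtain ⟨a, ha⟩ := hzb
    have h3 : a * h + b * g ∈ P ^ 2 := by
      have : a * h + b * g = z := by
        rw [mul_comm a h, ← ha]
        ring
      rw [this]
      exact hz
    exact hg P hP hgQ hhP a b h3
  have e : ((R ⧸ Ideal.span {h}) ⧸ Ideal.span {Ideal.Quotient.mk (Ideal.span {h}) g}) ≃+*
      (R ⧸ Ideal.span {g, h}) :=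
    (Ideal.quotEquivOfEq (by
      rw [Ideal.map_span, Set.image_singleton])).trans
      ((DoubleQuot.quotQuotEquivQuotSup (Ideal.span {h}) (Ideal.span {g})).trans
        (Ideal.quotEquivOfEq (by
          rw [← Ideal.span_union, Set.singleton_union, Set.pair_comm])))
  exact IsRegularRing.of_ringEquiv e

end

end Pool.MP_602153_ag
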