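import Mathlib
import Pool.Agent.MP_602153_ag.Point
import Pool.Agent.MP_602153_ag.RegLocal

set_option autoImplicit false

/-!
# Regularity of the charts of the quadric of a good form
-/

namespace Pool.MP_602153_ag

open Matrix MvPolynomial

variable {n : ℕ} {B : Matrix (Fin n) (Fin n) ℤ}

theorem quad_map {κ : Type*} [CommRing κ] (φ : MvPolynomial (Fin n) ℤ →+* κ) :
    φ (quad B) = val B (fun j => φ (X j)) := by
  simp only [quad, val, dotProduct, Matrix.mulVec, map_sum, map_mul, Matrix.map_apply,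
    Finset.mul_sum]
  refine Finset.sum_congr rfl fun i _ => Finset.sum_congr rfl fun j _ => ?_
  have : φ (C (B i j)) = ((B i j : ℤ) : κ) := by
    have := map_intCast φ (B i j)
    rw [← this]
    simp
  rw [this]
  ring

theorem pderiv_quad_map {κ : Type*} [CommRing κ] (φ : MvPolynomial (Fin n) ℤ →+* κ) (k : Fin n) :
    φ (pderiv k (quad B)) = gram B (fun j => φ (X j)) k := by
  have hC : ∀ m : ℤ, φ (C m) = (m : κ) := by
    intro m
    rw [← map_intCast φ m]
    simp
  have h1 : pderiv k (quad B) = ∑ i, ∑ j, (C (B i j) * X i * pderiv k (X j) +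
      C (B i j) * X j * pderiv k (X i)) := by
    simp only [quad, map_sum]
    refine Finset.sum_congr rfl fun i _ => Finset.sum_congr rfl fun j _ => ?_
    rw [pderiv_mul, pderiv_C_mul]
    ring
  rw [h1]
  simp only [map_sum, map_add, map_mul, hC, pderiv_X]
  simp only [gram, Matrix.mulVec, dotProduct, Matrix.map_apply, Matrix.add_apply,
    Matrix.transpose_apply, Int.cast_add]
  simp only [Finset.sum_add_distrib, add_mul]
  rw [add_comm]
  congr 1
  · rw [Finset.sum_eq_single k]
    · refine Finset.sum_congr rfl fun j _ => ?_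
      simp
    · intro b _ hb
      simp [hb]
    · simp
  · rw [Finset.sum_comm, Finset.sum_eq_single k]
    · refine Finset.sum_congr rfl fun j _ => ?_
      simp
    · intro b _ hb
      simp [hb]
    · simp

theorem deriv_sq {R C : Type*} [CommRing R] [CommRing C] [Algebra R C] (D : Derivation R C C)
    {P : Ideal C} {x : C}
    (hx : x ∈ P ^ 2) : D x ∈ P := by
  rw [pow_two] at hx
  induction hx using Submodule.mul_induction_on' with
  | mem_mul_mem a ha b hb =>
    rw [D.leibniz]
    exact P.add_mem (P.mul_mem_right _ ha) (P.mul_mem_right _ hb)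
  | add x _ y _ hx hy =>
    rw [map_add]
    exact P.add_mem hx hy

theorem coord_not_sq (i : Fin n) (P : Ideal (MvPolynomial (Fin n) ℤ)) (hP : P.IsPrime)
    (hi : (X i - 1 : MvPolynomial (Fin n) ℤ) ∈ P) (b : MvPolynomial (Fin n) ℤ)
    (hb : b * (X i - 1) ∈ P ^ 2) : b ∈ P := by
  have h1 := deriv_sq (pderiv i) hb
  rw [pderiv_mul, map_sub, pderiv_X_self, pderiv_one, sub_zero, mul_one] at h1
  exact (P.add_mem_iff_right (P.mul_mem_left _ hi)).1 h1

theorem quad_not_sq (hB : Good B) (i : Fin n) (P : Ideal (MvPolynomial (Fin n) ℤ))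
    (hP : P.IsPrime) (hF : quad B ∈ P) (hi : (X i - 1 : MvPolynomial (Fin n) ℤ) ∈ P)
    (a b : MvPolynomial (Fin n) ℤ) (hab : a * (X i - 1) + b * quad B ∈ P ^ 2) : b ∈ P := by
  by_contra hb
  let κ := FractionRing (MvPolynomial (Fin n) ℤ ⧸ P)
  let φ : MvPolynomial (Fin n) ℤ →+* κ :=
    (algebraMap (MvPolynomial (Fin n) ℤ ⧸ P) κ).comp (Ideal.Quotient.mk P)
  have hker : ∀ x, φ x = 0 ↔ x ∈ P := by
    intro x
    change algebraMap (MvPolynomial (Fin n) ℤ ⧸ P) κ (Ideal.Quotient.mk P x) = 0 ↔ _
    rw [← map_zero (algebraMap (MvPolynomial (Fin n) ℤ ⧸ P) κ),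
      (IsFractionRing.injective (MvPolynomial (Fin n) ℤ ⧸ P) κ).eq_iff,
      Ideal.Quotient.eq_zero_iff_mem]
  let v : Fin n → κ := fun j => φ (X j)
  have hvi : v i = 1 := by
    have h1 := (hker _).2 hi
    rw [map_sub, map_one, sub_eq_zero] at h1
    exact h1
  have hQ : val B v = 0 := by
    rw [← quad_map φ]
    exact (hker _).2 hF
  have hφb : φ b ≠ 0 := fun h => hb ((hker b).1 h)
  have hGj : ∀ j, j ≠ i → gram B v j = 0 := by
    intro j hj
    have h1 := (hker _).2 (deriv_sq (pderiv j) hab)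
    rw [map_add, pderiv_mul, pderiv_mul, map_sub, pderiv_one, pderiv_X_of_ne hj.symm] at h1
    simp only [map_add, map_mul, map_sub, map_zero, map_one, sub_zero, mul_zero, add_zero] at h1
    rw [(hker _).2 hF, pderiv_quad_map φ] at h1
    have h2 : φ (X i) = 1 := hvi
    rw [h2, sub_self, mul_zero, mul_zero, zero_add, zero_add] at h1
    exact (mul_eq_zero.1 h1).resolve_left hφb
  have hG : gram B v = 0 := by
    have h1 := two_val B v
    rw [hQ, mul_zero, dotProduct, Finset.sum_eq_single i] at h1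
    · rw [hvi, one_mul] at h1
      ext j
      by_cases hj : j = i
      · rw [hj, ← h1]
        rfl
      · exact hGj j hj
    · intro j _ hj
      rw [hGj j hj, mul_zero]
    · simp
  obtain ⟨p, hp, hchar, V, hVi, hV⟩ := exists_point hB v i hvi hG hQ
  let ev : MvPolynomial (Fin n) ℤ →+* ℤ := eval V
  have hev : ∀ c, φ c = ((ev c : ℤ) : κ) := by
    intro c
    have : φ = (Int.castRingHom κ).comp ev := by
      apply MvPolynomial.ringHom_ext
      · intro m
        simp [ev, φ]
      · intro j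
        simp only [RingHom.comp_apply, ev, eval_X]
        exact (hV j).symm
    rw [this]
    rfl
  have hdvd : ∀ c ∈ P, (p : ℤ) ∣ ev c := by
    intro c hc
    have h1 := (hker c).2 hc
    rw [hev, CharP.intCast_eq_zero_iff κ p] at h1
    exact h1
  have hdvd2 : ∀ c ∈ P ^ 2, (p : ℤ) ^ 2 ∣ ev c := by
    intro c hc
    rw [pow_two] at hc
    induction hc using Submodule.mul_induction_on' with
    | mem_mul_mem a ha b hb =>
      change (p : ℤ) ^ 2 ∣ ev (a * b)
      rw [map_mul, pow_two]
      exact mul_dvd_mul (hdvd a ha) (hdvd b hb)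
    | add x _ y _ hx hy =>
      rw [map_add]
      exact dvd_add hx hy
  have h1 := hdvd2 _ hab
  have hevi : ev (X i) = 1 := by
    simp only [ev, eval_X]
    exact hVi
  have hevF : ev (quad B) = V ⬝ᵥ B.mulVec V := by
    rw [quad_map ev, ← val_int]
    simp [ev]
  rw [map_add, map_mul, map_mul, map_sub, map_one, hevi, sub_self, mul_zero, zero_add, hevF] at h1
  have hpb : ¬ (p : ℤ) ∣ ev b := by
    intro h
    rw [← CharP.intCast_eq_zero_iff κ p, ← hev] at h
    exact hφb h
  have hcop : IsCoprime ((p : ℤ) ^ 2) (ev b) := by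
    apply IsCoprime.pow_left
    exact (Nat.prime_iff_prime_int.1 hp).coprime_iff_not_dvd.2 hpb
  have h2 : (p : ℤ) ^ 2 ∣ V ⬝ᵥ B.mulVec V := hcop.dvd_of_dvd_mul_left h1
  refine hB.nosq p hp V ⟨i, ?_⟩ ?_ h2
  · rw [hVi]
    intro h
    have := Int.natCast_dvd_natCast.1 (by simpa using h : ((p : ℕ) : ℤ) ∣ ((1 : ℕ) : ℤ))
    exact hp.one_lt.ne' (Nat.dvd_one.1 this)
  · intro j
    have hVv : (fun j => ((V j : ℤ) : κ)) = v := funext hV
    have h3 := congrFun (gram_intCast (κ := κ) B V) j
    rw [hVv, hG] at h3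
    rw [← CharP.intCast_eq_zero_iff κ p]
    exact h3.symm

/-- All charts of the quadric of a good form are regular. -/
theorem good_regular (B : Matrix (Fin n) (Fin n) ℤ) (hB : Good B) (i : Fin n) :
    IsRegularRing (MvPolynomial (Fin n) ℤ ⧸ Ideal.span {quad B, X i - 1}) :=
  regularRing_quotient_pair (quad B) (X i - 1) (fun P hP hi b hb => coord_not_sq i P hP hi b hb)
    (fun P hP hF hi a b hab => quad_not_sq hB i P hP hF hi a b hab)

end Pool.MP_602153_ag
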