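import Mathlib
import Pool.Agent.MP_602153_ag.Chart

set_option autoImplicit false

/-!
# The threefold singularity `αβ = g(x)` over the integers
-/

namespace Pool.MP_602153_ag

open MvPolynomial

section Root

/-- Evaluation of an integral polynomial in a commutative ring. -/
noncomputable def zev {A : Type} [CommRing A] (x : A) : Polynomial ℤ →+* A :=
  Polynomial.eval₂RingHom (Int.castRingHom A) x

theorem zev_X {A : Type} [CommRing A] (x : A) : zev x Polynomial.X = x := by
  simp [zev]

theorem zev_C {A : Type} [CommRing A] (x : A) (n : ℤ) : zev x (Polynomial.C n) = (n : A) := by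
  simp [zev]

theorem zev_map {A B : Type} [CommRing A] [CommRing B] (φ : A →+* B) (x : A) (f : Polynomial ℤ) :
    φ (zev x f) = zev (φ x) f := by
  have : φ.comp (zev x) = zev (φ x) := by
    apply Polynomial.ringHom_ext
    · intro n
      rw [RingHom.comp_apply, zev_C, zev_C, map_intCast]
    · rw [RingHom.comp_apply, zev_X, zev_X]
  exact RingHom.congr_fun this f

theorem zev_int (x : ℤ) (f : Polynomial ℤ) : zev x f = f.eval x := by
  have : zev x = Polynomial.evalRingHom x := by
    apply Polynomial.ringHom_ext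
    · intro n
      rw [zev_C]
      simp
    · rw [zev_X]
      simp
  rw [this]
  rfl

theorem zev_self (f : Polynomial ℤ) : zev Polynomial.X f = f := by
  have : zev Polynomial.X = RingHom.id (Polynomial ℤ) := by
    apply Polynomial.ringHom_ext
    · intro n
      rw [zev_C]
      simp
    · rw [zev_X]
      simp
  rw [this]
  rfl

theorem root_rational {κ : Type} [Field κ] {p : ℕ} [hp : Fact p.Prime] [CharP κ p]
    (g : Polynomial ℤ) (hdeg : g.natDegree ≤ 3)
    (hg : g.map (Int.castRingHom (ZMod p)) ≠ 0) (ξ : κ)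
    (h0 : zev ξ g = 0) (h1 : zev ξ (Polynomial.derivative g) = 0) :
    ∃ x : ℤ, ξ = (x : κ) := by
  let _ : Algebra (ZMod p) κ := ZMod.algebra κ p
  have hz : ∀ f : Polynomial ℤ, Polynomial.aeval ξ (f.map (Int.castRingHom (ZMod p))) =
      zev ξ f := by
    intro f
    rw [Polynomial.aeval_def, Polynomial.eval₂_map]
    have : (algebraMap (ZMod p) κ).comp (Int.castRingHom (ZMod p)) = Int.castRingHom κ :=
      RingHom.ext_int _ _
    rw [this]
    rfl
  have hb0 : Polynomial.aeval ξ (g.map (Int.castRingHom (ZMod p))) = 0 := by rw [hz, h0]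
  have hb1 : Polynomial.aeval ξ (Polynomial.derivative (g.map (Int.castRingHom (ZMod p)))) = 0 := by
    rw [Polynomial.derivative_map, hz, h1]
  have hint : IsIntegral (ZMod p) ξ := by
    rw [← isAlgebraic_iff_isIntegral]
    exact ⟨_, hg, hb0⟩
  have hirr := minpoly.irreducible hint
  have hsep : (minpoly (ZMod p) ξ).Separable := PerfectField.separable_of_irreducible hirr
  obtain ⟨h, hh⟩ := minpoly.dvd (ZMod p) ξ hb0
  have hd := minpoly.dvd (ZMod p) ξ hb1
  rw [hh, Polynomial.derivative_mul] at hd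
  have hd2 : minpoly (ZMod p) ξ ∣ Polynomial.derivative (minpoly (ZMod p) ξ) * h :=
    (dvd_add_left (dvd_mul_right _ _)).1 hd
  have hd3 : minpoly (ZMod p) ξ ∣ h := IsCoprime.dvd_of_dvd_mul_left hsep hd2
  obtain ⟨k, hk⟩ := hd3
  have hdegb : (g.map (Int.castRingHom (ZMod p))).natDegree ≤ 3 :=
    (Polynomial.natDegree_map_le).trans hdeg
  have hne : minpoly (ZMod p) ξ ≠ 0 := minpoly.ne_zero hint
  have hk0 : k ≠ 0 := by
    rintro rfl
    rw [hk, mul_zero, mul_zero] at hh
    exact hg hh
  rw [hh, hk, Polynomial.natDegree_mul hne (mul_ne_zero hne hk0),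
    Polynomial.natDegree_mul hne hk0] at hdegb
  have hpos := minpoly.natDegree_pos hint
  have hone : (minpoly (ZMod p) ξ).natDegree = 1 := by omega
  obtain ⟨x, hx⟩ := minpoly.natDegree_eq_one_iff.1 hone
  obtain ⟨y, rfl⟩ := ZMod.intCast_surjective x
  exact ⟨y, by rw [← hx, map_intCast]⟩

end Root

section Surf

/-- The polynomial `αβ - g(x)`. -/
noncomputable def srel (g : Polynomial ℤ) : MvPolynomial (Fin 3) ℤ :=
  X 0 * X 1 - zev (X 2) g

/-- The arithmetic conditions which make `αβ = g(x)` regular. -/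
structure Nice (g : Polynomial ℤ) : Prop where
  deg : g.natDegree ≤ 3
  prim : ∀ p : ℕ, p.Prime → g.map (Int.castRingHom (ZMod p)) ≠ 0
  sep : ∃ N : ℤ, N ≠ 0 ∧ ∃ u v : Polynomial ℤ, u * g + v * Polynomial.derivative g =
    Polynomial.C N
  nosq : ∀ p : ℕ, p.Prime → ∀ x : ℤ, (p : ℤ) ^ 2 ∣ g.eval x →
    (p : ℤ) ∣ (Polynomial.derivative g).eval x → False

theorem pderiv_zev (i : Fin 3) (f : Polynomial ℤ) :
    pderiv i (zev (X 2 : MvPolynomial (Fin 3) ℤ) f) =
      zev (X 2) (Polynomial.derivative f) * pderiv i (X 2) := by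
  induction f using Polynomial.induction_on' with
  | add p q hp hq => rw [map_add, map_add, hp, hq, map_add, map_add, add_mul]
  | monomial n a =>
    have h1 : ∀ (m : ℕ) (b : ℤ), zev (X 2 : MvPolynomial (Fin 3) ℤ) (Polynomial.monomial m b) =
        (b : MvPolynomial (Fin 3) ℤ) * X 2 ^ m := by
      intro m b
      simp [zev]
    rw [Polynomial.derivative_monomial, h1, h1, Derivation.leibniz, Derivation.leibniz_pow]
    simp only [Derivation.map_intCast, smul_eq_mul, nsmul_eq_mul,
      Int.cast_mul, Int.cast_natCast]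
    ring

theorem exists_residue {R : Type} [CommRing R] (P : Ideal R) (hP : P.IsPrime) :
    ∃ (κ : Type) (_ : Field κ) (φ : R →+* κ), ∀ x, φ x = 0 ↔ x ∈ P := by
  refine ⟨FractionRing (R ⧸ P), inferInstance,
    (algebraMap (R ⧸ P) (FractionRing (R ⧸ P))).comp (Ideal.Quotient.mk P), ?_⟩
  intro x
  rw [RingHom.comp_apply, ← map_zero (algebraMap (R ⧸ P) (FractionRing (R ⧸ P))),
    (IsFractionRing.injective (R ⧸ P) (FractionRing (R ⧸ P))).eq_iff,
    Ideal.Quotient.eq_zero_iff_mem]

theorem surf_not_sq {g : Polynomial ℤ} (hg : Nice g) (P : Ideal (MvPolynomial (Fin 3) ℤ))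
    (hP : P.IsPrime) (hgP : srel g ∈ P) (b : MvPolynomial (Fin 3) ℤ) (hb : b * srel g ∈ P ^ 2) :
    b ∈ P := by
  by_contra hbP
  obtain ⟨κ, _, φ, hker⟩ := exists_residue P hP
  have hφb : φ b ≠ 0 := fun h => hbP ((hker b).1 h)
  have hφr : φ (srel g) = 0 := (hker _).2 hgP
  have hD : ∀ i, φ (pderiv i (srel g)) = 0 := by
    intro i
    have h1 := (hker _).2 (deriv_sq (pderiv i) hb)
    rw [pderiv_mul, map_add, map_mul, map_mul, hφr, mul_zero, zero_add] at h1
    exact (mul_eq_zero.1 h1).resolve_left hφb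
  have hd0 : pderiv 0 (srel g) = X 1 := by
    rw [srel, map_sub, pderiv_mul, pderiv_zev, pderiv_X_self, pderiv_X_of_ne (by decide),
      pderiv_X_of_ne (by decide)]
    ring
  have hd1 : pderiv 1 (srel g) = X 0 := by
    rw [srel, map_sub, pderiv_mul, pderiv_zev, pderiv_X_self, pderiv_X_of_ne (by decide),
      pderiv_X_of_ne (by decide)]
    ring
  have hd2 : pderiv 2 (srel g) = - zev (X 2) (Polynomial.derivative g) := by
    rw [srel, map_sub, pderiv_mul, pderiv_zev, pderiv_X_self, pderiv_X_of_ne (by decide),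
      pderiv_X_of_ne (by decide)]
    ring
  have hX1 : φ (X 1) = 0 := by rw [← hd0]; exact hD 0
  have hX0 : φ (X 0) = 0 := by rw [← hd1]; exact hD 1
  have hg1 : zev (φ (X 2)) (Polynomial.derivative g) = 0 := by
    have := hD 2
    rw [hd2, map_neg, neg_eq_zero, zev_map] at this
    exact this
  have hg0 : zev (φ (X 2)) g = 0 := by
    have := hφr
    rw [srel, map_sub, map_mul, hX0, zero_mul, zero_sub, neg_eq_zero, zev_map] at this
    exact this
  obtain ⟨N, hN, u, v, huv⟩ := hg.sep
  have hNκ : ((N : ℤ) : κ) = 0 := by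
    have := congrArg (zev (φ (X 2))) huv
    rw [map_add, map_mul, map_mul, hg0, hg1, mul_zero, mul_zero, add_zero, zev_C] at this
    exact this.symm
  obtain ⟨p, hpchar⟩ := CharP.exists κ
  have hp0 : p ≠ 0 := by
    rintro rfl
    have : CharZero κ := CharP.charP_to_charZero κ
    exact hN (by exact_mod_cast hNκ)
  have hp : p.Prime := (CharP.char_is_prime_or_zero κ p).resolve_right hp0
  have : Fact p.Prime := ⟨hp⟩
  obtain ⟨x, hx⟩ := root_rational g hg.deg (hg.prim p hp) (φ (X 2)) hg0 hg1
  let V : Fin 3 → ℤ := ![0, 0, x]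
  let ev : MvPolynomial (Fin 3) ℤ →+* ℤ := eval V
  have hev : ∀ c, φ c = ((ev c : ℤ) : κ) := by
    intro c
    have : φ = (Int.castRingHom κ).comp ev := by
      apply MvPolynomial.ringHom_ext
      · intro m
        simp [ev]
      · intro j
        simp only [RingHom.comp_apply, ev, eval_X]
        fin_cases j
        · simpa [V] using hX0
        · simpa [V] using hX1
        · simpa [V] using hx
    rw [this]
    rfl
  have hdvd : ∀ c ∈ P, (p : ℤ) ∣ ev c := by
    intro c hc
    have h1 := (hker c).2 hc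
    rw [hev, CharP.intCast_eq_zero_iff κ p] at h1
    exact h1
  have hdvd2 : ∀ c ∈ P ^ 2, (p : ℤ) ^ 2 ∣ ev c := by
    intro c hc
    rw [pow_two] at hc
    induction hc using Submodule.mul_induction_on' with
    | mem_mul_mem a ha b hb =>
      change (p : ℤ) ^ 2 ∣ ev (a * b)
      rw [map_mul, pow_two]
      exact mul_dvd_mul (hdvd a ha) (hdvd b hb)
    | add x _ y _ hx hy =>
      rw [map_add]
      exact dvd_add hx hy
  have h1 := hdvd2 _ hb
  have hevX : ∀ j, ev (X j) = V j := fun j => eval_X j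
  have hevr : ev (srel g) = - g.eval x := by
    rw [srel, map_sub, map_mul, zev_map, hevX, hevX, hevX]
    have hV2 : V 2 = x := rfl
    have hV0 : V 0 = 0 := rfl
    rw [hV2, hV0, zev_int]
    ring
  rw [map_mul, hevr] at h1
  have hpb : ¬ (p : ℤ) ∣ ev b := by
    intro h
    rw [← CharP.intCast_eq_zero_iff κ p, ← hev] at h
    exact hφb h
  have hcop : IsCoprime ((p : ℤ) ^ 2) (ev b) := by
    apply IsCoprime.pow_left
    exact (Nat.prime_iff_prime_int.1 hp).coprime_iff_not_dvd.2 hpb
  have h2 : (p : ℤ) ^ 2 ∣ g.eval x := (dvd_neg).1 (hcop.dvd_of_dvd_mul_left h1)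
  refine hg.nosq p hp x h2 ?_
  rw [← CharP.intCast_eq_zero_iff κ p]
  rw [hx] at hg1
  rw [← hg1, ← zev_int]
  exact zev_map (Int.castRingHom κ) x _

theorem surf_regular' {g : Polynomial ℤ} (hg : Nice g) :
    IsRegularRing (MvPolynomial (Fin 3) ℤ ⧸ Ideal.span {srel g}) :=
  regularRing_quotient _ (surf_not_sq hg)

/-- The ring `ℤ[α, β, x] / (αβ - g(x))`. -/
def Surf (g : Polynomial ℤ) : Type :=
  MvPolynomial (Fin 3) ℤ ⧸ Ideal.span {srel g}

noncomputable instance (g : Polynomial ℤ) : CommRing (Surf g) :=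
  inferInstanceAs (CommRing (MvPolynomial (Fin 3) ℤ ⧸ Ideal.span {srel g}))

/-- The projection from the polynomial ring. -/
noncomputable def smk (g : Polynomial ℤ) : MvPolynomial (Fin 3) ℤ →+* Surf g :=
  Ideal.Quotient.mk (Ideal.span {srel g})

theorem smk_eq_zero {g : Polynomial ℤ} {f : MvPolynomial (Fin 3) ℤ} :
    smk g f = 0 ↔ srel g ∣ f := by
  rw [← Ideal.mem_span_singleton]
  exact Ideal.Quotient.eq_zero_iff_mem

theorem smk_surjective (g : Polynomial ℤ) : Function.Surjective (smk g) :=
  Ideal.Quotient.mk_surjective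

theorem surf_regular {g : Polynomial ℤ} (hg : Nice g) : IsRegularRing (Surf g) :=
  surf_regular' hg

/-- The element `α`. -/
noncomputable def sA (g : Polynomial ℤ) : Surf g := smk g (X 0)
/-- The element `β`. -/
noncomputable def sB (g : Polynomial ℤ) : Surf g := smk g (X 1)
/-- The element `x`. -/
noncomputable def sX (g : Polynomial ℤ) : Surf g := smk g (X 2)

theorem s_rel (g : Polynomial ℤ) : sA g * sB g = zev (sX g) g := by
  rw [sA, sB, sX, ← map_mul, ← zev_map, ← sub_eq_zero, ← map_sub, smk_eq_zero]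
  exact dvd_rfl

section Lift

variable {g : Polynomial ℤ} {T : Type} [CommRing T]

/-- The universal property of `Surf g`. -/
noncomputable def slift (a b x : T) (h : a * b = zev x g) : Surf g →+* T :=
  Ideal.Quotient.lift (Ideal.span {srel g})
    (eval₂Hom (Int.castRingHom T) ![a, b, x]) (by
    intro r hr
    have hle : Ideal.span {srel g} ≤ RingHom.ker (eval₂Hom (Int.castRingHom T) ![a, b, x]) := by
      rw [Ideal.span_le]
      intro r hr
      rw [Set.mem_singleton_iff] at hr
      rw [hr, SetLike.mem_coe, RingHom.mem_ker, srel, map_sub, map_mul, zev_map]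
      simp only [coe_eval₂Hom, eval₂_X]
      change a * b - zev x g = 0
      rw [h, sub_self]
    exact hle hr)

theorem slift_smk (a b x : T) (h : a * b = zev x g) (f : MvPolynomial (Fin 3) ℤ) :
    slift a b x h (smk g f) = eval₂Hom (Int.castRingHom T) ![a, b, x] f := rfl

theorem slift_A (a b x : T) (h : a * b = zev x g) : slift a b x h (sA g) = a := by
  rw [sA, slift_smk]
  simp

theorem slift_B (a b x : T) (h : a * b = zev x g) : slift a b x h (sB g) = b := by
  rw [sB, slift_smk]
  simp

theorem slift_X (a b x : T) (h : a * b = zev x g) : slift a b x h (sX g) = x := by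
  rw [sX, slift_smk]
  simp

theorem surf_hom_ext {u v : Surf g →+* T} (hA : u (sA g) = v (sA g)) (hB : u (sB g) = v (sB g))
    (hX : u (sX g) = v (sX g)) : u = v := by
  have h1 : u.comp (smk g) = v.comp (smk g) := by
    apply MvPolynomial.ringHom_ext
    · intro m
      exact RingHom.congr_fun (RingHom.ext_int ((u.comp (smk g)).comp C)
        ((v.comp (smk g)).comp C)) m
    · intro q
      fin_cases q
      · exact hA
      · exact hB
      · exact hX
  refine RingHom.ext fun x => ?_
  obtain ⟨x, rfl⟩ := smk_surjective g x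
  exact RingHom.congr_fun h1 x

theorem mvSurf_hom_ext {κ : Type} {u v : MvPolynomial κ (Surf g) →+* T}
    (hA : u (C (sA g)) = v (C (sA g))) (hB : u (C (sB g)) = v (C (sB g)))
    (hX : u (C (sX g)) = v (C (sX g))) (hk : ∀ k, u (X k) = v (X k)) : u = v := by
  have h1 : u.comp C = v.comp C := surf_hom_ext hA hB hX
  apply MvPolynomial.ringHom_ext
  · intro r
    exact RingHom.congr_fun h1 r
  · exact hk

end Lift

/-- In `ℤ[α, β, x] / (αβ - g(x))` the element `β` is not a zero divisor. -/
theorem surf_nonZeroDivisor {g : Polynomial ℤ} (hg : g ≠ 0) :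
    sB g ∈ nonZeroDivisors (Surf g) := by
  rw [mem_nonZeroDivisors_iff_right]
  intro f hf
  obtain ⟨f, rfl⟩ := smk_surjective g f
  rw [sB, ← map_mul, smk_eq_zero] at hf
  obtain ⟨h, hh⟩ := hf
  have hprime : Prime (X 1 : MvPolynomial (Fin 3) ℤ) := X_prime
  have h1 : (X 1 : MvPolynomial (Fin 3) ℤ) ∣ zev (X 2) g * h := by
    have : zev (X 2 : MvPolynomial (Fin 3) ℤ) g * h = X 1 * (X 0 * h - f) := by
      have h2 : f * X 1 = (X 0 * X 1 - zev (X 2) g) * h := hh
      linear_combination h2
    rw [this]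
    exact dvd_mul_right _ _
  have hnd : ¬ (X 1 : MvPolynomial (Fin 3) ℤ) ∣ zev (X 2) g := by
    rintro ⟨k, hk⟩
    let ev : MvPolynomial (Fin 3) ℤ →+* Polynomial ℤ :=
      eval₂Hom (Int.castRingHom (Polynomial ℤ)) ![0, 0, Polynomial.X]
    have h3 := congrArg ev hk
    rw [zev_map, map_mul] at h3
    have h4 : ev (X 1) = 0 := by simp [ev]
    have h5 : ev (X 2) = Polynomial.X := by simp [ev]
    rw [h4, h5, zero_mul, zev_self] at h3
    exact hg h3
  obtain ⟨k, hk⟩ := (hprime.dvd_or_dvd h1).resolve_left hnd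
  have h6 : f = srel g * k := by
    have h7 : X 1 * f = X 1 * (srel g * k) := by
      rw [mul_comm, hh, hk]
      ring
    exact mul_left_cancel₀ hprime.ne_zero h7
  rw [smk_eq_zero, h6]
  exact dvd_mul_right _ _

/-- The same in a polynomial ring over it. -/
theorem surf_nonZeroDivisor' {g : Polynomial ℤ} (hg : g ≠ 0) (κ : Type) :
    (C (sB g) : MvPolynomial κ (Surf g)) ∈ nonZeroDivisors (MvPolynomial κ (Surf g)) := by
  rw [mem_nonZeroDivisors_iff_right]
  intro f hf
  ext m
  have h1 := congrArg (coeff m) hf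
  rw [mul_comm, coeff_C_mul, coeff_zero, mul_comm] at h1
  rw [coeff_zero]
  exact (mem_nonZeroDivisors_iff_right.1 (surf_nonZeroDivisor hg)) _ h1

end Surf

end Pool.MP_602153_ag
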