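import Mathlib
import Pool.Agent.MP_602153_ag.ParamModel
import Pool.Agent.MP_602153_ag.SurfReg

set_option autoImplicit false

/-!
# The model of the Weil restriction of projective space along a quadratic extension
-/

namespace Pool.MP_602153_ag

namespace WeilQuad

open MvPolynomial

variable {ι : Type} (t m : ℤ)

/-- Index set of the coordinates: `inl (i, j)` is `x_ij` and `inr (i, j)` is `y_ij`. -/
abbrev Idx (ι : Type) : Type := (ι × ι) ⊕ (ι × ι)

/-- Index set of the parameters: `inl i` is `a_i` and `inr i` is `b_i`. -/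
abbrev Par (ι : Type) : Type := ι ⊕ ι

/-- `x_ij` as a polynomial -/
noncomputable def px (i j : ι) : MvPolynomial (Idx ι) ℤ := X (Sum.inl (i, j))
/-- `y_ij` as a polynomial -/
noncomputable def py (i j : ι) : MvPolynomial (Idx ι) ℤ := X (Sum.inr (i, j))
/-- `a_i` as a polynomial -/
noncomputable def pa (i : ι) : MvPolynomial (Par ι) ℤ := X (Sum.inl i)
/-- `b_i` as a polynomial -/
noncomputable def pb (i : ι) : MvPolynomial (Par ι) ℤ := X (Sum.inr i)

/-- The coordinates of `v_i * conj v_j`, in any commutative ring. -/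
def gen {A : Type} [CommRing A] (t m : ℤ) (a b : ι → A) : Idx ι → A :=
  Sum.elim (fun q => a q.1 * a q.2 + (t : A) * a q.1 * b q.2 + (m : A) * b q.1 * b q.2)
    (fun q => b q.1 * a q.2 - a q.1 * b q.2)

/-- The parametrisation. -/
noncomputable def phi : MvPolynomial (Idx ι) ℤ →ₐ[ℤ] MvPolynomial (Par ι) ℤ :=
  aeval (gen t m pa pb)

theorem phi_px (i j : ι) : phi t m (px i j) =
    pa i * pa j + (t : MvPolynomial (Par ι) ℤ) * pa i * pb j +
      (m : MvPolynomial (Par ι) ℤ) * pb i * pb j := by
  rw [phi, px, aeval_X]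
  rfl

theorem phi_py (i j : ι) : phi t m (py i j) = pb i * pa j - pa i * pb j := by
  rw [phi, py, aeval_X]
  rfl

theorem phi_homogeneous (s : Idx ι) : (phi t m (X s)).IsHomogeneous 2 := by
  have ha : ∀ i : ι, (pa i).IsHomogeneous 1 := fun i => isHomogeneous_X _ _
  have hb : ∀ i : ι, (pb i).IsHomogeneous 1 := fun i => isHomogeneous_X _ _
  have hC : ∀ z : ℤ, (z : MvPolynomial (Par ι) ℤ).IsHomogeneous 0 := by
    intro z
    have := isHomogeneous_C (Par ι) z
    simpa using this
  rcases s with ⟨i, j⟩ | ⟨i, j⟩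
  · change (phi t m (px i j)).IsHomogeneous 2
    rw [phi_px]
    refine IsHomogeneous.add (IsHomogeneous.add ?_ ?_) ?_
    · exact (ha i).mul (ha j)
    · exact ((hC t).mul (ha i)).mul (hb j)
    · exact ((hC m).mul (hb i)).mul (hb j)
  · change (phi t m (py i j)).IsHomogeneous 2
    rw [phi_py]
    exact IsHomogeneous.sub ((hb i).mul (ha j)) ((ha i).mul (hb j))

/-- The polynomial `x^2 + t x + m`. -/
noncomputable def gpol : Polynomial ℤ :=
  Polynomial.X ^ 2 + Polynomial.C t * Polynomial.X + Polynomial.C m

theorem zev_gpol {A : Type} [CommRing A] (x : A) :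
    zev x (gpol t m) = x ^ 2 + (t : A) * x + (m : A) := by
  rw [gpol, map_add, map_add, map_mul, map_pow, zev_X, zev_C, zev_C]

theorem gpol_monic : (gpol t m).Monic := by
  rw [gpol]
  monicity!

theorem gpol_natDegree : (gpol t m).natDegree = 2 := by
  rw [gpol]
  compute_degree!

theorem gpol_ne_zero : gpol t m ≠ 0 := (gpol_monic t m).ne_zero

theorem cmk_yii (s : Idx ι) (i : ι) : cmk (RingHom.ker (phi (ι := ι) t m)) s (py i i) = 0 := by
  apply cmk_eq_zero
  rw [RingHom.mem_ker, phi_py]
  ring

section ChartA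

variable [DecidableEq ι] (i : ι)

/-- The ring of the chart `x_ii = 1`. -/
abbrev TA (i : ι) : Type := MvPolynomial ({k : ι // k ≠ i} × Bool) ℤ

/-- `x_ik` on the chart, `1` for `k = i` -/
noncomputable def xA (k : ι) : TA i := if h : k ≠ i then X (⟨k, h⟩, false) else 1
/-- `y_ik` on the chart, `0` for `k = i` -/
noncomputable def yA (k : ι) : TA i := if h : k ≠ i then X (⟨k, h⟩, true) else 0

/-- `a_k` on the chart -/
noncomputable def aA (k : ι) : TA i := xA i k + (t : TA i) * yA i k
/-- `b_k` on the chart -/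
noncomputable def bA (k : ι) : TA i := - yA i k

/-- The map to the ring of the chart. -/
noncomputable def thetaA : MvPolynomial (Idx ι) ℤ →+* TA i :=
  eval₂Hom (Int.castRingHom _) (gen t m (aA t i) (bA i))

/-- The comparison map to the ring of the chart. -/
noncomputable def epsA : MvPolynomial (Par ι) ℤ →+* TA i :=
  eval₂Hom (Int.castRingHom _) (Sum.elim (aA t i) (bA i))

/-- The inverse map. -/
noncomputable def etaA : TA i →+* ChartRing (RingHom.ker (phi (ι := ι) t m)) (Sum.inl (i, i)) :=
  eval₂Hom (Int.castRingHom _) (fun q : {k : ι // k ≠ i} × Bool => if q.2 then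
    cmk (RingHom.ker (phi (ι := ι) t m)) (Sum.inl (i, i)) (py i q.1) else
    cmk (RingHom.ker (phi (ι := ι) t m)) (Sum.inl (i, i)) (px i q.1))

theorem kerA : RingHom.ker (phi (ι := ι) t m) ≤ RingHom.ker (thetaA t m i) := by
  refine ker_le_ker (phi t m) (e := 2) (by norm_num) (phi_homogeneous t m) (thetaA t m i)
    (epsA t i) 1 (Submonoid.one_mem _) ?_
  have ha : ∀ k, epsA t i (pa k) = aA t i k := by
    intro k
    simp [epsA, pa]
  have hb : ∀ k, epsA t i (pb k) = bA i k := by
    intro k
    simp [epsA, pb]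
  rintro (⟨k, l⟩ | ⟨k, l⟩)
  · change 1 * thetaA t m i (X (Sum.inl (k, l))) = epsA t i (phi t m (px k l))
    rw [phi_px]
    simp only [map_add, map_mul, map_intCast, ha, hb]
    simp [thetaA, gen]
  · change 1 * thetaA t m i (X (Sum.inr (k, l))) = epsA t i (phi t m (py k l))
    rw [phi_py]
    simp only [map_sub, map_mul, ha, hb]
    simp [thetaA, gen]

theorem regularA [Finite ι] :
    IsRegularRing (ChartRing (RingHom.ker (phi (ι := ι) t m)) (Sum.inl (i, i))) := by
  have hxi : xA i i = 1 := by simp [xA]
  have hyi : yA i i = 0 := by simp [yA]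
  have hθx : ∀ k l, thetaA t m i (px k l) = aA t i k * aA t i l +
      (t : TA i) * aA t i k * bA i l + (m : TA i) * bA i k * bA i l := by
    intro k l
    simp [thetaA, gen, px]
  have hθy : ∀ k l, thetaA t m i (py k l) = bA i k * aA t i l - aA t i k * bA i l := by
    intro k l
    simp [thetaA, gen, py]
  have h1 : thetaA t m i (X (Sum.inl (i, i))) = 1 := by
    change thetaA t m i (px i i) = 1
    rw [hθx, aA, bA, hxi, hyi]
    ring
  let M := cmk (RingHom.ker (phi (ι := ι) t m)) (Sum.inl (i, i))
  have hηx : ∀ k, etaA t m i (xA i k) = M (px i k) := by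
    intro k
    by_cases hk : k = i
    · subst hk
      rw [hxi, map_one]
      exact (cmk_self _).symm
    · simp [xA, hk, etaA, M]
  have hηy : ∀ k, etaA t m i (yA i k) = M (py i k) := by
    intro k
    by_cases hk : k = i
    · subst hk
      rw [hyi, map_zero]
      exact (cmk_yii t m _ _).symm
    · simp [yA, hk, etaA, M]
  have hM1 : M (px i i) = 1 := cmk_self _
  refine chart_regular (T := TA i) (Sum.inl (i, i)) (thetaA t m i) (kerA t m i) h1
    (etaA t m i) ?_ ?_
  · rintro (⟨k, l⟩ | ⟨k, l⟩)
    · change etaA t m i (thetaA t m i (px k l)) = M (px k l)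
      rw [hθx]
      simp only [aA, bA, map_add, map_mul, map_neg, map_intCast, hηx, hηy]
      have h2 : M (px k l) = M (px k l * px i i) := by rw [map_mul, hM1, mul_one]
      rw [h2]
      simp only [← map_mul, ← map_add, ← map_neg, ← map_intCast M]
      apply cmk_eq
      rw [RingHom.mem_ker]
      simp only [map_sub, map_add, map_mul, map_neg, map_intCast, phi_px, phi_py]
      ring
    · change etaA t m i (thetaA t m i (py k l)) = M (py k l)
      rw [hθy]
      simp only [aA, bA, map_sub, map_add, map_mul, map_neg, map_intCast, hηx, hηy]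
      have h2 : M (py k l) = M (py k l * px i i) := by rw [map_mul, hM1, mul_one]
      rw [h2]
      simp only [← map_mul, ← map_add, ← map_neg, ← map_sub, ← map_intCast M]
      apply cmk_eq
      rw [RingHom.mem_ker]
      simp only [map_sub, map_add, map_mul, map_neg, map_intCast, phi_px, phi_py]
      ring
  · intro D hD
    apply MvPolynomial.ringHom_ext
    · intro z
      simp
    · rintro ⟨⟨k, hk⟩, b⟩
      rw [RingHom.comp_apply, RingHom.id_apply]
      cases b
      · have h2 : etaA t m i (X (⟨k, hk⟩, false)) = M (px i k) := by simp [etaA, M]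
        rw [h2, hD, hθx]
        simp only [aA, bA, hxi, hyi]
        simp only [xA, yA, dif_pos hk]
        ring
      · have h2 : etaA t m i (X (⟨k, hk⟩, true)) = M (py i k) := by simp [etaA, M]
        rw [h2, hD, hθy]
        simp only [aA, bA, hxi, hyi]
        simp only [xA, yA, dif_pos hk]
        ring

end ChartA

section ChartB

variable [DecidableEq ι] (i j : ι)

/-- The ring of the chart `y_ij = 1`. -/
abbrev TB (t m : ℤ) (i j : ι) : Type :=
  MvPolynomial ({k : ι // k ≠ i ∧ k ≠ j} × Bool) (Surf (gpol t m))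

/-- `λ_k` -/
noncomputable def lamB (k : ι) : TB t m i j :=
  if h : k ≠ i ∧ k ≠ j then X (⟨k, h⟩, false) else if k = i then 1 else 0
/-- `μ_k` -/
noncomputable def muB (k : ι) : TB t m i j :=
  if h : k ≠ i ∧ k ≠ j then X (⟨k, h⟩, true) else if k = i then 0 else 1

/-- `α` -/
noncomputable def cα : TB t m i j := C (sA (gpol t m))
/-- `β` -/
noncomputable def cβ : TB t m i j := C (sB (gpol t m))
/-- `x` -/
noncomputable def cx : TB t m i j := C (sX (gpol t m))

theorem c_rel : cα t m i j * cβ t m i j = cx t m i j ^ 2 + (t : TB t m i j) * cx t m i j +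
    (m : TB t m i j) := by
  rw [← zev_gpol, cα, cβ, cx, ← zev_map, ← s_rel, map_mul]

/-- images of the coordinates -/
noncomputable def genB : Idx ι → TB t m i j :=
  Sum.elim (fun q => lamB t m i j q.1 * lamB t m i j q.2 * cα t m i j +
      muB t m i j q.1 * muB t m i j q.2 * cβ t m i j +
      lamB t m i j q.1 * muB t m i j q.2 * cx t m i j +
      muB t m i j q.1 * lamB t m i j q.2 * (cx t m i j + (t : TB t m i j)))
    (fun q => lamB t m i j q.1 * muB t m i j q.2 - muB t m i j q.1 * lamB t m i j q.2)

/-- The map to the ring of the chart. -/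
noncomputable def thetaB : MvPolynomial (Idx ι) ℤ →+* TB t m i j :=
  eval₂Hom (Int.castRingHom (TB t m i j)) (genB t m i j)

/-- The comparison map to the ring of the chart. -/
noncomputable def epsB : MvPolynomial (Par ι) ℤ →+* TB t m i j :=
  eval₂Hom (Int.castRingHom (TB t m i j))
    (Sum.elim (fun k => lamB t m i j k * cx t m i j + muB t m i j k * cβ t m i j)
      (fun k => lamB t m i j k))

theorem thetaB_px (k l : ι) : thetaB t m i j (px k l) =
    lamB t m i j k * lamB t m i j l * cα t m i j +
      muB t m i j k * muB t m i j l * cβ t m i j +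
      lamB t m i j k * muB t m i j l * cx t m i j +
      muB t m i j k * lamB t m i j l * (cx t m i j + (t : TB t m i j)) := by
  rw [thetaB, px, coe_eval₂Hom, eval₂_X]
  rfl

theorem thetaB_py (k l : ι) : thetaB t m i j (py k l) =
    lamB t m i j k * muB t m i j l - muB t m i j k * lamB t m i j l := by
  rw [thetaB, py, coe_eval₂Hom, eval₂_X]
  rfl

theorem epsB_pa (k : ι) : epsB t m i j (pa k) =
    lamB t m i j k * cx t m i j + muB t m i j k * cβ t m i j := by
  rw [epsB, pa, coe_eval₂Hom, eval₂_X]
  rfl

theorem epsB_pb (k : ι) : epsB t m i j (pb k) = lamB t m i j k := by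
  rw [epsB, pb, coe_eval₂Hom, eval₂_X]
  rfl

theorem kerB : RingHom.ker (phi (ι := ι) t m) ≤ RingHom.ker (thetaB t m i j) := by
  refine ker_le_ker (phi t m) (e := 2) (by norm_num) (phi_homogeneous t m) (thetaB t m i j)
    (epsB t m i j) (cβ t m i j) (surf_nonZeroDivisor' (gpol_ne_zero t m) _) ?_
  have hrel := c_rel t m i j
  rintro (⟨k, l⟩ | ⟨k, l⟩)
  · change cβ t m i j * thetaB t m i j (px k l) = epsB t m i j (phi t m (px k l))
    rw [phi_px, thetaB_px]
    simp only [map_add, map_mul, map_intCast, epsB_pa, epsB_pb]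
    linear_combination (lamB t m i j k * lamB t m i j l) * hrel
  · change cβ t m i j * thetaB t m i j (py k l) = epsB t m i j (phi t m (py k l))
    rw [phi_py, thetaB_py]
    simp only [map_sub, map_mul, epsB_pa, epsB_pb]
    ring

/-- The chart ring `y_ij = 1`. -/
abbrev CB (t m : ℤ) (i j : ι) : Type :=
  ChartRing (RingHom.ker (phi (ι := ι) t m)) (Sum.inr (i, j))

/-- coordinates on the chart -/
noncomputable def cmB : MvPolynomial (Idx ι) ℤ →+* CB t m i j :=
  cmk (RingHom.ker (phi (ι := ι) t m)) (Sum.inr (i, j))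

omit [DecidableEq ι] in
theorem cmB_one : cmB t m i j (py i j) = 1 := cmk_self _

omit [DecidableEq ι] in
theorem cmB_eq {f g : MvPolynomial (Idx ι) ℤ} (h : phi t m f = phi t m g) :
    cmB t m i j f = cmB t m i j g :=
  cmk_eq _ (by rw [RingHom.mem_ker, map_sub, h, sub_self])

omit [DecidableEq ι] in
theorem cmB_yii (k : ι) : cmB t m i j (py k k) = 0 := cmk_yii t m _ _

omit [DecidableEq ι] in
theorem cmB_rel : cmB t m i j (px i i) * cmB t m i j (px j j) =
    zev (cmB t m i j (px i j)) (gpol t m) := by
  rw [zev_gpol]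
  have h1 := cmB_one t m i j
  have h2 := cmB_eq t m i j (f := px i i * px j j) (g := px i j ^ 2 +
      (t : MvPolynomial (Idx ι) ℤ) * px i j * py i j +
      (m : MvPolynomial (Idx ι) ℤ) * py i j ^ 2) (by
    simp only [map_add, map_mul, map_pow, map_intCast, phi_px, phi_py]
    ring)
  simp only [map_add, map_mul, map_pow, map_intCast, h1] at h2
  linear_combination h2

/-- The inverse map. -/
noncomputable def etaB : TB t m i j →+* CB t m i j :=
  eval₂Hom (slift (cmB t m i j (px i i)) (cmB t m i j (px j j)) (cmB t m i j (px i j))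
    (cmB_rel t m i j))
  (fun q : {k : ι // k ≠ i ∧ k ≠ j} × Bool => if q.2 then
    cmB t m i j (py i q.1) else cmB t m i j (py q.1 j))

theorem etaB_α : etaB t m i j (cα t m i j) = cmB t m i j (px i i) := by
  rw [etaB, cα, coe_eval₂Hom, eval₂_C, slift_A]

theorem etaB_β : etaB t m i j (cβ t m i j) = cmB t m i j (px j j) := by
  rw [etaB, cβ, coe_eval₂Hom, eval₂_C, slift_B]

theorem etaB_x : etaB t m i j (cx t m i j) = cmB t m i j (px i j) := by
  rw [etaB, cx, coe_eval₂Hom, eval₂_C, slift_X]

theorem lam_i : lamB t m i j i = 1 := by simp [lamB]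
theorem mu_i : muB t m i j i = 0 := by simp [muB]

variable {i j}

theorem lam_j (hij : i ≠ j) : lamB t m i j j = 0 := by simp [lamB, hij.symm]
theorem mu_j (hij : i ≠ j) : muB t m i j j = 1 := by simp [muB, hij.symm]

theorem etaB_lam (hij : i ≠ j) (k : ι) : etaB t m i j (lamB t m i j k) = cmB t m i j (py k j) := by
  by_cases hk : k ≠ i ∧ k ≠ j
  · rw [lamB, dif_pos hk, etaB, coe_eval₂Hom, eval₂_X]
    rfl
  · by_cases hki : k = i
    · subst hki
      rw [lam_i, map_one, cmB_one]
    · have hkj : k = j := by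
        by_contra h
        exact hk ⟨hki, h⟩
      subst hkj
      rw [lam_j t m hij, map_zero, cmB_yii]

theorem etaB_mu (hij : i ≠ j) (k : ι) : etaB t m i j (muB t m i j k) = cmB t m i j (py i k) := by
  by_cases hk : k ≠ i ∧ k ≠ j
  · rw [muB, dif_pos hk, etaB, coe_eval₂Hom, eval₂_X]
    rfl
  · by_cases hki : k = i
    · subst hki
      rw [mu_i, map_zero, cmB_yii]
    · have hkj : k = j := by
        by_contra h
        exact hk ⟨hki, h⟩
      subst hkj
      rw [mu_j t m hij, map_one, cmB_one]

theorem regularB [Finite ι] (hg : Nice (gpol t m)) (hij : i ≠ j) :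
    IsRegularRing (CB t m i j) := by
  have h1 : thetaB t m i j (X (Sum.inr (i, j))) = 1 := by
    change thetaB t m i j (py i j) = 1
    rw [thetaB_py, lam_i, lam_j t m hij, mu_i, mu_j t m hij]
    ring
  have hsurf := surf_regular hg
  have hM1 := cmB_one t m i j
  refine chart_regular (T := TB t m i j) (Sum.inr (i, j)) (thetaB t m i j) (kerB t m i j) h1
    (etaB t m i j) ?_ ?_
  · rintro (⟨k, l⟩ | ⟨k, l⟩)
    · change etaB t m i j (thetaB t m i j (px k l)) = cmB t m i j (px k l)
      rw [thetaB_px]
      simp only [map_add, map_mul, map_intCast, etaB_lam t m hij, etaB_mu t m hij, etaB_α,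
        etaB_β, etaB_x]
      have h2 : cmB t m i j (px k l) = cmB t m i j (px k l * py i j ^ 2) := by
        rw [map_mul, map_pow, hM1, one_pow, mul_one]
      have h3 : cmB t m i j (px i j) + ((t : ℤ) : CB t m i j) =
          cmB t m i j (px i j + (t : MvPolynomial (Idx ι) ℤ) * py i j) := by
        rw [map_add, map_mul, hM1, map_intCast, mul_one]
      rw [h2, h3]
      simp only [← map_mul, ← map_add]
      apply cmB_eq
      simp only [map_add, map_mul, map_pow, map_intCast, phi_px, phi_py]
      ring
    · change etaB t m i j (thetaB t m i j (py k l)) = cmB t m i j (py k l)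
      rw [thetaB_py]
      simp only [map_sub, map_mul, etaB_lam t m hij, etaB_mu t m hij]
      have h2 : cmB t m i j (py k l) = cmB t m i j (py k l * py i j) := by
        rw [map_mul, hM1, mul_one]
      rw [h2]
      simp only [← map_mul, ← map_sub]
      apply cmB_eq
      simp only [map_sub, map_mul, phi_py]
      ring
  · intro D hD
    have hD' : ∀ f, D (cmB t m i j f) = thetaB t m i j f := hD
    apply mvSurf_hom_ext
    · change D (etaB t m i j (cα t m i j)) = cα t m i j
      rw [etaB_α, hD', thetaB_px, lam_i, mu_i]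
      ring
    · change D (etaB t m i j (cβ t m i j)) = cβ t m i j
      rw [etaB_β, hD', thetaB_px, lam_j t m hij, mu_j t m hij]
      ring
    · change D (etaB t m i j (cx t m i j)) = cx t m i j
      rw [etaB_x, hD', thetaB_px, lam_i, mu_i, lam_j t m hij, mu_j t m hij]
      ring
    · rintro ⟨⟨k, hk⟩, b⟩
      rw [RingHom.comp_apply, RingHom.id_apply]
      cases b
      · have h2 : (X (⟨k, hk⟩, false) : TB t m i j) = lamB t m i j k := by rw [lamB, dif_pos hk]
        rw [h2, etaB_lam t m hij, hD', thetaB_py, lam_j t m hij, mu_j t m hij]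
        ring
      · have h2 : (X (⟨k, hk⟩, true) : TB t m i j) = muB t m i j k := by rw [muB, dif_pos hk]
        rw [h2, etaB_mu t m hij, hD', thetaB_py, lam_i, mu_i]
        ring

end ChartB

end WeilQuad

end Pool.MP_602153_ag
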