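import Mathlib
import Pool.Agent.MP_602153_ag.WeilQuad

set_option autoImplicit false

/-!
# Quadratic fields: a generator of minimal discriminant, the norm form
-/

namespace Pool.MP_602153_ag

namespace WeilQuad

section Field

variable (K : Type) [Field K] [Algebra ℚ K]

/-- `ω` generates `K` and `ω ^ 2 = t ω - m`. -/
structure IsGen (t m : ℤ) (ω : K) : Prop where
  not_rat : ∀ q : ℚ, algebraMap ℚ K q ≠ ω
  eq : ω ^ 2 = (t : K) * ω - (m : K)

variable {K}

theorem exists_integral (hK : 1 < Module.finrank ℚ K) :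
    ∃ α : K, IsIntegral ℤ α ∧ ∀ q : ℚ, algebraMap ℚ K q ≠ α := by
  have hfin : FiniteDimensional ℚ K := Module.finite_of_finrank_pos (by omega)
  have h1 : ∃ α : K, ∀ q : ℚ, algebraMap ℚ K q ≠ α := by
    by_contra hcon
    push Not at hcon
    have h2 : (⊥ : Subalgebra ℚ K) = ⊤ := by
      rw [eq_top_iff]
      intro x _
      obtain ⟨q, hq⟩ := hcon x
      exact ⟨q, hq⟩
    rw [Subalgebra.bot_eq_top_iff_finrank_eq_one] at h2
    omega
  obtain ⟨α, hα⟩ := h1
  have h3 : IsAlgebraic ℤ α := by
    have h4 : IsAlgebraic ℚ α := Algebra.IsAlgebraic.isAlgebraic α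
    exact (IsFractionRing.isAlgebraic_iff ℤ ℚ K).2 h4
  obtain ⟨y, hy, hy2⟩ := h3.exists_integral_multiple
  refine ⟨y • α, hy2, ?_⟩
  intro q hq
  apply hα (q / y)
  have hyK : ((y : ℤ) : K) ≠ 0 := by
    have : CharZero K := algebraRat.charZero K
    exact_mod_cast hy
  rw [map_div₀, hq, map_intCast, zsmul_eq_mul, mul_div_cancel_left₀ _ hyK]

theorem exists_isGen (hK : Module.finrank ℚ K = 2) : ∃ (t m : ℤ) (ω : K), IsGen K t m ω := by
  have hfin : FiniteDimensional ℚ K := Module.finite_of_finrank_pos (by omega)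
  obtain ⟨α, hint, hα⟩ := exists_integral (K := K) (by omega)
  have h1 : minpoly ℚ α = (minpoly ℤ α).map (algebraMap ℤ ℚ) :=
    minpoly.isIntegrallyClosed_eq_field_fractions' ℚ hint
  have h2 : (minpoly ℤ α).natDegree = (minpoly ℚ α).natDegree := by
    rw [h1, Polynomial.natDegree_map_eq_of_injective (RingHom.injective_int _)]
  have h3 : (minpoly ℚ α).natDegree ≤ 2 := by
    rw [← hK]
    exact minpoly.natDegree_le α
  have h4 : (minpoly ℚ α).natDegree ≠ 1 := by
    intro h
    obtain ⟨q, hq⟩ := minpoly.natDegree_eq_one_iff.1 h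
    exact hα q hq
  have h5 := minpoly.natDegree_pos (Algebra.IsIntegral.isIntegral (R := ℚ) α)
  have h6 : (minpoly ℤ α).natDegree = 2 := by omega
  have h7 : (minpoly ℤ α).Monic := minpoly.monic hint
  have h8 := minpoly.aeval ℤ α
  rw [Polynomial.aeval_eq_sum_range, h6] at h8
  have h9 : (minpoly ℤ α).coeff 2 = 1 := by
    have := h7.coeff_natDegree
    rwa [h6] at this
  rw [Finset.sum_range_succ, Finset.sum_range_succ, Finset.sum_range_one, h9] at h8
  simp only [zsmul_eq_mul, pow_zero, mul_one, pow_one, Int.cast_one, one_mul] at h8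
  refine ⟨-(minpoly ℤ α).coeff 1, (minpoly ℤ α).coeff 0, α, hα, ?_⟩
  push_cast
  linear_combination h8

theorem IsGen.disc_ne {t m : ℤ} {ω : K} (h : IsGen K t m ω) : t ^ 2 - 4 * m ≠ 0 := by
  intro h0
  have : CharZero K := algebraRat.charZero K
  apply h.not_rat (t / 2)
  have h1 : (2 * ω - t) ^ 2 = 0 := by
    have h2 : ((t ^ 2 - 4 * m : ℤ) : K) = 0 := by rw [h0]; simp
    push_cast at h2
    linear_combination 4 * h.eq + h2
  have h3 : 2 * ω - t = 0 := by
    rwa [pow_eq_zero_iff (by norm_num)] at h1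
  rw [map_div₀, map_intCast]
  have h4 : (algebraMap ℚ K 2) = 2 := by simp
  rw [h4]
  rw [div_eq_iff (by norm_num)]
  linear_combination - h3

/-- There is a generator which makes `x^2 + t x + m` nice. -/
theorem exists_nice (hK : Module.finrank ℚ K = 2) :
    ∃ (t m : ℤ) (ω : K), IsGen K t m ω ∧ Nice (gpol t m) := by
  classical
  have : CharZero K := algebraRat.charZero K
  have hex : ∃ N : ℕ, ∃ (t m : ℤ) (ω : K), IsGen K t m ω ∧ (t ^ 2 - 4 * m).natAbs = N := by
    obtain ⟨t, m, ω, h⟩ := exists_isGen hK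
    exact ⟨_, t, m, ω, h, rfl⟩
  obtain ⟨t, m, ω, h, hN⟩ := Nat.find_spec hex
  refine ⟨t, m, ω, h, ?_⟩
  have hder : Polynomial.derivative (gpol t m) = 2 * Polynomial.X + Polynomial.C t := by
    rw [gpol]
    simp
  constructor
  · rw [gpol_natDegree]
    norm_num
  · intro p hp
    have : Fact p.Prime := ⟨hp⟩
    exact ((gpol_monic t m).map _).ne_zero
  · refine ⟨t ^ 2 - 4 * m, h.disc_ne, -4, Polynomial.derivative (gpol t m), ?_⟩
    rw [hder, gpol]
    simp only [map_sub, map_pow, map_mul, eq_intCast, Int.cast_ofNat]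
    ring
  · intro p hp x h1 h2
    have hg1 : (gpol t m).eval x = x ^ 2 + t * x + m := by
      rw [gpol]
      simp
    have hg2 : (Polynomial.derivative (gpol t m)).eval x = 2 * x + t := by
      rw [hder]
      simp
    rw [hg1] at h1
    rw [hg2] at h2
    obtain ⟨m', hm'⟩ := h1
    obtain ⟨t', ht'⟩ := h2
    have hpK : ((p : ℤ) : K) ≠ 0 := by exact_mod_cast hp.ne_zero
    have hnew : IsGen K t' m' ((ω + x) / p) := by
      constructor
      · intro q hq
        apply h.not_rat (q * p - x)
        rw [map_sub, map_mul, hq]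
        have e1 : algebraMap ℚ K (p : ℚ) = (p : K) := map_natCast _ _
        have e2 : algebraMap ℚ K (x : ℚ) = (x : K) := map_intCast _ _
        have e3 : (p : K) ≠ 0 := by exact_mod_cast hp.ne_zero
        rw [e1, e2, div_mul_cancel₀ _ e3]
        ring
      · have e3 : (p : K) ≠ 0 := by exact_mod_cast hp.ne_zero
        have e4 : (x : K) ^ 2 + t * x + m = (p : K) ^ 2 * m' := by exact_mod_cast hm'
        have e5 : 2 * (x : K) + t = p * t' := by exact_mod_cast ht'
        have e6 := h.eq
        have e7 : (p : K) ^ 2 * (((ω + x) / p) ^ 2) = (p : K) ^ 2 * (t' * ((ω + x) / p) - m') := by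
          have e8 : (p : K) ^ 2 * (((ω + x) / p) ^ 2) = (ω + x) ^ 2 := by
            rw [← mul_pow, mul_div_cancel₀ _ e3]
          have e9 : (p : K) ^ 2 * (t' * ((ω + x) / p) - m') =
              (p * t') * (ω + x) - (p : K) ^ 2 * m' := by
            field_simp
          rw [e8, e9, ← e4, ← e5]
          linear_combination e6
        exact mul_left_cancel₀ (pow_ne_zero 2 e3) e7
    have hle := Nat.find_min' hex ⟨t', m', _, hnew, rfl⟩
    rw [← hN] at hle
    have hdisc : t ^ 2 - 4 * m = (p : ℤ) ^ 2 * (t' ^ 2 - 4 * m') := by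
      linear_combination (2 * x + t + (p : ℤ) * t') * ht' - 4 * hm'
    have hd0 := hnew.disc_ne
    rw [hdisc, Int.natAbs_mul] at hle
    have hpos : 0 < (t' ^ 2 - 4 * m').natAbs := Int.natAbs_pos.2 hd0
    have hp2 : 4 ≤ ((p : ℤ) ^ 2).natAbs := by
      rw [Int.natAbs_pow, Int.natAbs_natCast]
      have := hp.two_le
      nlinarith
    nlinarith

end Field

section Coord

variable {K : Type} [Field K] [Algebra ℚ K] (hK : Module.finrank ℚ K = 2) {t m : ℤ} {ω : K}
  (h : IsGen K t m ω)

theorem linInd (h : IsGen K t m ω) : LinearIndependent ℚ ![(1 : K), ω] := by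
  rw [LinearIndependent.pair_iff]
  intro a b hab
  have hb : b = 0 := by
    by_contra hb
    apply h.not_rat (-a / b)
    have e1 : algebraMap ℚ K b ≠ 0 := by
      rw [Ne, FaithfulSMul.algebraMap_eq_zero_iff]
      exact hb
    rw [map_div₀, div_eq_iff e1, map_neg]
    rw [Algebra.smul_def, Algebra.smul_def] at hab
    linear_combination -hab
  subst hb
  rw [zero_smul, add_zero, Algebra.smul_def, mul_one, FaithfulSMul.algebraMap_eq_zero_iff] at hab
  exact ⟨hab, rfl⟩

/-- The basis `1, ω`. -/
noncomputable def bas (hK : Module.finrank ℚ K = 2) (h : IsGen K t m ω) :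
    Module.Basis (Fin 2) ℚ K :=
  basisOfLinearIndependentOfCardEqFinrank (linInd h) (by rw [hK]; rfl)

theorem bas_zero : bas hK h 0 = 1 := by
  rw [bas, coe_basisOfLinearIndependentOfCardEqFinrank]
  rfl

theorem bas_one : bas hK h 1 = ω := by
  rw [bas, coe_basisOfLinearIndependentOfCardEqFinrank]
  rfl

/-- first coordinate -/
noncomputable def re (hK : Module.finrank ℚ K = 2) (h : IsGen K t m ω) (z : K) : ℚ :=
  (bas hK h).repr z 0

/-- second coordinate -/
noncomputable def im (hK : Module.finrank ℚ K = 2) (h : IsGen K t m ω) (z : K) : ℚ :=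
  (bas hK h).repr z 1

theorem eq_re_im (z : K) : z = algebraMap ℚ K (re hK h z) + algebraMap ℚ K (im hK h z) * ω := by
  have h1 := (bas hK h).sum_repr z
  rw [Fin.sum_univ_two, bas_zero, bas_one, Algebra.smul_def, Algebra.smul_def, mul_one] at h1
  exact h1.symm

theorem re_add_mul (x y : ℚ) : re hK h (algebraMap ℚ K x + algebraMap ℚ K y * ω) = x := by
  have e : algebraMap ℚ K x + algebraMap ℚ K y * ω = x • bas hK h 0 + y • bas hK h 1 := by
    rw [bas_zero, bas_one, Algebra.smul_def, Algebra.smul_def, mul_one]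
  rw [e, re, map_add, map_smul, map_smul, Module.Basis.repr_self, Module.Basis.repr_self]
  simp

theorem im_add_mul (x y : ℚ) : im hK h (algebraMap ℚ K x + algebraMap ℚ K y * ω) = y := by
  have e : algebraMap ℚ K x + algebraMap ℚ K y * ω = x • bas hK h 0 + y • bas hK h 1 := by
    rw [bas_zero, bas_one, Algebra.smul_def, Algebra.smul_def, mul_one]
  rw [e, im, map_add, map_smul, map_smul, Module.Basis.repr_self, Module.Basis.repr_self]
  simp

theorem mul_eq (z w : K) : z * w =
    algebraMap ℚ K (re hK h z * re hK h w - m * (im hK h z * im hK h w)) +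
    algebraMap ℚ K (re hK h z * im hK h w + im hK h z * re hK h w +
      t * (im hK h z * im hK h w)) * ω := by
  have h1 := eq_re_im hK h z
  have h2 := eq_re_im hK h w
  have h3 := h.eq
  have e1 : algebraMap ℚ K (t : ℚ) = (t : K) := map_intCast _ _
  have e2 : algebraMap ℚ K (m : ℚ) = (m : K) := map_intCast _ _
  simp only [map_sub, map_add, map_mul, e1, e2]
  conv_lhs => rw [h1, h2]
  linear_combination (algebraMap ℚ K (im hK h z) * algebraMap ℚ K (im hK h w)) * h3

theorem re_mul (z w : K) : re hK h (z * w) =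
    re hK h z * re hK h w - m * (im hK h z * im hK h w) := by
  rw [mul_eq hK h z w, re_add_mul]

theorem im_mul (z w : K) : im hK h (z * w) =
    re hK h z * im hK h w + im hK h z * re hK h w + t * (im hK h z * im hK h w) := by
  rw [mul_eq hK h z w, im_add_mul]

theorem re_add (z w : K) : re hK h (z + w) = re hK h z + re hK h w := by
  simp [re]

theorem im_add (z w : K) : im hK h (z + w) = im hK h z + im hK h w := by
  simp [im]

theorem re_sum {ι : Type} (s : Finset ι) (f : ι → K) :
    re hK h (∑ i ∈ s, f i) = ∑ i ∈ s, re hK h (f i) := by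
  simp [re, map_sum, Finsupp.finsetSum_apply]

theorem im_sum {ι : Type} (s : Finset ι) (f : ι → K) :
    im hK h (∑ i ∈ s, f i) = ∑ i ∈ s, im hK h (f i) := by
  simp [im, map_sum, Finsupp.finsetSum_apply]

theorem re_one : re hK h 1 = 1 := by
  have := re_add_mul hK h 1 0
  simpa using this

theorem im_one : im hK h 1 = 0 := by
  have := im_add_mul hK h 1 0
  simpa using this

theorem re_gen : re hK h ω = 0 := by
  have := re_add_mul hK h 0 1
  simpa using this

theorem im_gen : im hK h ω = 1 := by
  have := im_add_mul hK h 0 1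
  simpa using this

theorem norm_eq (z : K) : Algebra.norm ℚ z =
    re hK h z ^ 2 + t * re hK h z * im hK h z + m * im hK h z ^ 2 := by
  rw [Algebra.norm_eq_matrix_det (bas hK h) z, Matrix.det_fin_two]
  have e1 : ∀ i j, Algebra.leftMulMatrix (bas hK h) z i j = (bas hK h).repr (z * bas hK h j) i :=
    fun i j => Algebra.leftMulMatrix_eq_repr_mul _ _ _ _
  rw [e1, e1, e1, e1, bas_zero, bas_one]
  change re hK h (z * 1) * im hK h (z * ω) - re hK h (z * ω) * im hK h (z * 1) = _
  rw [mul_one, re_mul, im_mul, re_gen, im_gen]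
  ring

end Coord

end WeilQuad

end Pool.MP_602153_ag
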