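import Mathlib
import Pool.Agent.MP_602153_ag.QuadField

set_option autoImplicit false

/-!
# Models of Weil restrictions of projective spaces along quadratic fields
-/

namespace Pool.MP_602153_ag

namespace WeilQuad

open MvPolynomial AlgebraicGeometry

section Cover

variable {ι : Type} (t m : ℤ)

/-- The charts. -/
abbrev ChIdx (ι : Type) : Type := ι ⊕ {q : ι × ι // q.1 ≠ q.2}

/-- The coordinates which are inverted on the charts. -/
def ch : ChIdx ι → Idx ι := Sum.elim (fun i => Sum.inl (i, i)) (fun q => Sum.inr q.1)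

theorem cover_px (s : Idx ι) : ∃ k : ℕ, (X s : MvPolynomial (Idx ι) ℤ) ^ k ∈
    Ideal.span (Set.range ((X : Idx ι → MvPolynomial (Idx ι) ℤ) ∘ ch)) ⊔
      RingHom.ker (phi (ι := ι) t m) := by
  classical
  have hd : ∀ i, (px i i : MvPolynomial (Idx ι) ℤ) ∈
      Ideal.span (Set.range ((X : Idx ι → MvPolynomial (Idx ι) ℤ) ∘ ch)) ⊔
      RingHom.ker (phi (ι := ι) t m) := by
    intro i
    exact Ideal.mem_sup_left (Ideal.subset_span ⟨Sum.inl i, rfl⟩)
  have hy : ∀ i j, (py i j : MvPolynomial (Idx ι) ℤ) ∈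
      Ideal.span (Set.range ((X : Idx ι → MvPolynomial (Idx ι) ℤ) ∘ ch)) ⊔
      RingHom.ker (phi (ι := ι) t m) := by
    intro i j
    by_cases hij : i = j
    · subst hij
      apply Ideal.mem_sup_right
      rw [RingHom.mem_ker, phi_py]
      ring
    · exact Ideal.mem_sup_left (Ideal.subset_span ⟨Sum.inr ⟨(i, j), hij⟩, rfl⟩)
  rcases s with ⟨i, j⟩ | ⟨i, j⟩
  · refine ⟨2, ?_⟩
    change (px i j) ^ 2 ∈ _
    have h1 : px i j ^ 2 = (px i i * px j j - (t : MvPolynomial (Idx ι) ℤ) * px i j * py i j -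
        (m : MvPolynomial (Idx ι) ℤ) * py i j * py i j) +
        (px i j ^ 2 - (px i i * px j j - (t : MvPolynomial (Idx ι) ℤ) * px i j * py i j -
        (m : MvPolynomial (Idx ι) ℤ) * py i j * py i j)) := by ring
    rw [h1]
    refine Ideal.add_mem _ (Ideal.sub_mem _ (Ideal.sub_mem _ ?_ ?_) ?_) ?_
    · exact Ideal.mul_mem_left _ _ (hd j)
    · exact Ideal.mul_mem_left _ _ (hy i j)
    · exact Ideal.mul_mem_left _ _ (hy i j)
    · apply Ideal.mem_sup_right
      rw [RingHom.mem_ker]
      simp only [map_sub, map_mul, map_pow, map_intCast, phi_px, phi_py]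
      ring
  · exact ⟨1, by rw [pow_one]; exact hy i j⟩

end Cover

section Functions

variable {ι K : Type} [Fintype ι] [Field K] [Algebra ℚ K] (hK : Module.finrank ℚ K = 2) {t m : ℤ}
  {ω : K} (h : IsGen K t m ω)

/-- The rational coordinates of a vector over `K`. -/
noncomputable def coord (hK : Module.finrank ℚ K = 2) (h : IsGen K t m ω) (v : ι → K) :
    Par ι → ℚ :=
  Sum.elim (fun i => re hK h (v i)) (fun i => im hK h (v i))

omit [Fintype ι] in
theorem coord_surjective : Function.Surjective (coord (ι := ι) hK h) := by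
  intro x
  refine ⟨fun i => algebraMap ℚ K (x (Sum.inl i)) + algebraMap ℚ K (x (Sum.inr i)) * ω, ?_⟩
  funext s
  rcases s with i | i
  · exact re_add_mul hK h _ _
  · exact im_add_mul hK h _ _

/-- The function `x_ij` or `y_ij`. -/
noncomputable def fn (hK : Module.finrank ℚ K = 2) (h : IsGen K t m ω) (s : Idx ι)
    (v : ι → K) : ℚ := aeval (coord hK h v) (phi t m (X s))

omit [Fintype ι] in
theorem fn_inl (i j : ι) (v : ι → K) : fn hK h (Sum.inl (i, j)) v =
    re hK h (v i) * re hK h (v j) + t * re hK h (v i) * im hK h (v j) +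
      m * im hK h (v i) * im hK h (v j) := by
  have h1 := phi_px t m i j
  rw [px] at h1
  rw [fn, h1]
  simp [pa, pb, coord]

omit [Fintype ι] in
theorem fn_inr (i j : ι) (v : ι → K) : fn hK h (Sum.inr (i, j)) v =
    im hK h (v i) * re hK h (v j) - re hK h (v i) * im hK h (v j) := by
  have h1 := phi_py t m i j
  rw [py] at h1
  rw [fn, h1]
  simp [pa, pb, coord]

/-- The norm of a linear form, as a function. -/
noncomputable def normFn (u v : ι → K) : ℚ := Algebra.norm ℚ (∑ i, u i * v i)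

theorem normFn_mem (u : ι → K) : normFn u ∈
    Submodule.span ℚ (Set.range (fn (ι := ι) hK h)) := by
  have hsum : normFn u = ∑ i, ∑ j,
      ((re hK h (u i) * re hK h (u j) + t * re hK h (u i) * im hK h (u j) +
        m * im hK h (u i) * im hK h (u j)) • fn hK h (Sum.inl (i, j)) -
       (m * (im hK h (u i) * re hK h (u j) - re hK h (u i) * im hK h (u j))) •
        fn hK h (Sum.inr (i, j))) := by
    funext v
    simp only [Finset.sum_apply, Pi.sub_apply, Pi.smul_apply, smul_eq_mul]
    rw [normFn, norm_eq hK h, re_sum, im_sum]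
    have e1 : ∀ f g : ι → ℚ, (∑ i, f i) ^ 2 + t * (∑ i, f i) * (∑ i, g i) +
        m * (∑ i, g i) ^ 2 = ∑ i, ∑ j, (f i * f j + t * f i * g j + m * g i * g j) := by
      intro f g
      have e2 : ∀ a b : ι → ℚ, (∑ i, a i) * (∑ i, b i) = ∑ i, ∑ j, a i * b j :=
        fun a b => Finset.sum_mul_sum _ _ _ _
      rw [pow_two, pow_two, mul_assoc, e2, e2, e2, Finset.mul_sum, Finset.mul_sum,
        ← Finset.sum_add_distrib, ← Finset.sum_add_distrib]
      refine Finset.sum_congr rfl fun i _ => ?_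
      rw [Finset.mul_sum, Finset.mul_sum, ← Finset.sum_add_distrib, ← Finset.sum_add_distrib]
      refine Finset.sum_congr rfl fun j _ => ?_
      ring
    rw [e1]
    refine Finset.sum_congr rfl fun i _ => Finset.sum_congr rfl fun j _ => ?_
    rw [re_mul, im_mul, re_mul, im_mul, fn_inl, fn_inr]
    ring
  rw [hsum]
  refine Submodule.sum_mem _ fun i _ => Submodule.sum_mem _ fun j _ => Submodule.sub_mem _ ?_ ?_
  · exact Submodule.smul_mem _ _ (Submodule.subset_span ⟨_, rfl⟩)
  · exact Submodule.smul_mem _ _ (Submodule.subset_span ⟨_, rfl⟩)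

theorem fn_mem (s : Idx ι) : fn hK h s ∈
    Submodule.span ℚ (Set.range (normFn : (ι → K) → (ι → K) → ℚ)) := by
  classical
  have hN : ∀ u : ι → K, normFn u ∈
      Submodule.span ℚ (Set.range (normFn : (ι → K) → (ι → K) → ℚ)) :=
    fun u => Submodule.subset_span ⟨u, rfl⟩
  have hs : ∀ (i : ι) (c : K) (v : ι → K), ∑ k, (Pi.single i c : ι → K) k * v k = c * v i := by
    intro i c v
    rw [Finset.sum_eq_single i]
    · simp
    · intro b _ hb
      simp [hb]
    · simp
  -- the polarised norm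
  have hpol : ∀ (i j : ι) (c : K), (fun v : ι → K => Algebra.norm ℚ (v i + c * v j) -
      Algebra.norm ℚ (v i) - Algebra.norm ℚ (c * v j)) ∈
      Submodule.span ℚ (Set.range (normFn : (ι → K) → (ι → K) → ℚ)) := by
    intro i j c
    have e1 : (fun v : ι → K => Algebra.norm ℚ (v i + c * v j) -
        Algebra.norm ℚ (v i) - Algebra.norm ℚ (c * v j)) =
        normFn (Pi.single i 1 + Pi.single j c) - normFn (Pi.single i 1) -
          normFn (Pi.single j c) := by
      funext v
      simp only [Pi.sub_apply, normFn]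
      rw [hs, hs, one_mul]
      have e2 : ∑ k, (Pi.single i 1 + Pi.single j c : ι → K) k * v k = v i + c * v j := by
        simp only [Pi.add_apply, add_mul, Finset.sum_add_distrib]
        rw [hs, hs, one_mul]
      rw [e2]
    rw [e1]
    exact Submodule.sub_mem _ (Submodule.sub_mem _ (hN _) (hN _)) (hN _)
  have hd : (4 * (m : ℚ) - t ^ 2) ≠ 0 := by
    intro h0
    apply h.disc_ne
    have : ((t ^ 2 - 4 * m : ℤ) : ℚ) = 0 := by
      push_cast
      linear_combination -h0
    exact_mod_cast this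
  have h1 : ∀ i j, (fun v : ι → K => 2 * fn hK h (Sum.inl (i, j)) v +
      t * fn hK h (Sum.inr (i, j)) v) ∈
      Submodule.span ℚ (Set.range (normFn : (ι → K) → (ι → K) → ℚ)) := by
    intro i j
    convert hpol i j 1 using 1
    funext v
    rw [one_mul, norm_eq hK h, norm_eq hK h, norm_eq hK h, re_add, im_add, fn_inl, fn_inr]
    ring
  have h2 : ∀ i j, (fun v : ι → K => t * fn hK h (Sum.inl (i, j)) v +
      2 * m * fn hK h (Sum.inr (i, j)) v) ∈
      Submodule.span ℚ (Set.range (normFn : (ι → K) → (ι → K) → ℚ)) := by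
    intro i j
    convert hpol i j ω using 1
    funext v
    rw [norm_eq hK h, norm_eq hK h, norm_eq hK h, re_add, im_add, re_mul, im_mul, re_gen,
      im_gen, fn_inl, fn_inr]
    ring
  rcases s with ⟨i, j⟩ | ⟨i, j⟩
  · have e : fn hK h (Sum.inl (i, j)) = ((2 * m) / (4 * (m : ℚ) - t ^ 2)) •
        (fun v : ι → K => 2 * fn hK h (Sum.inl (i, j)) v + t * fn hK h (Sum.inr (i, j)) v) -
        (t / (4 * (m : ℚ) - t ^ 2)) • (fun v : ι → K => t * fn hK h (Sum.inl (i, j)) v +
          2 * m * fn hK h (Sum.inr (i, j)) v) := by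
      funext v
      simp only [Pi.sub_apply, Pi.smul_apply, smul_eq_mul]
      rw [div_mul_eq_mul_div, div_mul_eq_mul_div, ← sub_div, eq_div_iff hd]
      ring
    rw [e]
    exact Submodule.sub_mem _ (Submodule.smul_mem _ _ (h1 i j)) (Submodule.smul_mem _ _ (h2 i j))
  · have e : fn hK h (Sum.inr (i, j)) = (2 / (4 * (m : ℚ) - t ^ 2)) •
        (fun v : ι → K => t * fn hK h (Sum.inl (i, j)) v + 2 * m * fn hK h (Sum.inr (i, j)) v) -
        (t / (4 * (m : ℚ) - t ^ 2)) • (fun v : ι → K => 2 * fn hK h (Sum.inl (i, j)) v +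
          t * fn hK h (Sum.inr (i, j)) v) := by
      funext v
      simp only [Pi.sub_apply, Pi.smul_apply, smul_eq_mul]
      rw [div_mul_eq_mul_div, div_mul_eq_mul_div, ← sub_div, eq_div_iff hd]
      ring
    rw [e]
    exact Submodule.sub_mem _ (Submodule.smul_mem _ _ (h2 i j)) (Submodule.smul_mem _ _ (h1 i j))

theorem span_eq : Submodule.span ℚ (Set.range (normFn : (ι → K) → (ι → K) → ℚ)) =
    Submodule.span ℚ (Set.range (fn (ι := ι) hK h)) := by
  apply le_antisymm
  · rw [Submodule.span_le]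
    rintro _ ⟨u, rfl⟩
    exact normFn_mem hK h u
  · rw [Submodule.span_le]
    rintro _ ⟨s, rfl⟩
    exact fn_mem hK h s

end Functions

/-- The model for the Weil restriction of projective space along a quadratic field. -/
theorem hasModel {K : Type} [Field K] [Algebra ℚ K] (hK : Module.finrank ℚ K = 2)
    {ι : Type} [Fintype ι] [Nonempty ι]
    (B : Type) [CommRing B] [Algebra ℚ B] (ℬ : ℕ → Submodule ℚ B) [GradedAlgebra ℬ]
    (j : B →ₐ[ℚ] ((ι → K) → ℚ)) (hj : Function.Injective j)
    (hgen : Algebra.adjoin ℚ (ℬ 1 : Set B) = ⊤)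
    (hspan : Submodule.map j.toLinearMap (ℬ 1) = Submodule.span ℚ
      (Set.range (normFn : (ι → K) → (ι → K) → ℚ)))
    (Z : Scheme) (e : Nonempty (Z ≅ Proj ℬ)) : HasModel Z := by
  classical
  obtain ⟨t, m, ω, h, hnice⟩ := exists_nice hK
  refine model_of_param (phi (ι := ι) t m) (e := 2) (by norm_num) (phi_homogeneous t m) ?_
    (ch (ι := ι)) (cover_px t m) ?_ (coord (ι := ι) hK h) (coord_surjective hK h) B ℬ j hj
    hgen ?_ Z e
  · obtain ⟨i⟩ := (inferInstance : Nonempty ι)
    refine ⟨Sum.inl (i, i), ?_⟩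
    intro h0
    have h1 := phi_px t m i i
    rw [px] at h1
    rw [h0] at h1
    have h2 := congrArg (eval (Sum.elim (fun _ => 1) (fun _ => 0) : Par ι → ℤ)) h1
    simp [pa, pb] at h2
  · rintro (i | ⟨⟨i, k⟩, hik⟩)
    · exact regularA t m i
    · exact regularB t m hnice hik
  · rw [hspan, span_eq hK h]
    rfl

/-- The coordinate ring in `hasModel` exists. -/
theorem exists_ring {K : Type} [Field K] [Algebra ℚ K] (hK : Module.finrank ℚ K = 2)
    (ι : Type) [Fintype ι] :
    ∃ (B : Type) (_ : CommRing B) (_ : Algebra ℚ B) (ℬ : ℕ → Submodule ℚ B) (_ : GradedAlgebra ℬ)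
      (j : B →ₐ[ℚ] ((ι → K) → ℚ)), Function.Injective j ∧
      Algebra.adjoin ℚ (ℬ 1 : Set B) = ⊤ ∧
      Submodule.map j.toLinearMap (ℬ 1) = Submodule.span ℚ
        (Set.range (normFn : (ι → K) → (ι → K) → ℚ)) := by
  obtain ⟨t, m, ω, h, _⟩ := exists_nice hK
  obtain ⟨B, i1, i2, ℬ, i3, j, h1, h2, h3⟩ := exists_coordinate_ring (phi (ι := ι) t m) (e := 2)
    (by norm_num) (phi_homogeneous t m) (coord (ι := ι) hK h) (coord_surjective hK h)
  refine ⟨B, i1, i2, ℬ, i3, j, h1, h2, ?_⟩
  rw [span_eq hK h]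
  exact h3

end WeilQuad

end Pool.MP_602153_ag
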