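import Mathlib
import Pool.Agent.MP_602153_ag.Quad
import Pool.Agent.MP_602153_ag.Hyper

set_option autoImplicit false

/-!
# Module A: minimal integral forms (helper25)

Every nondegenerate rational quadratic form in an odd number of variables is similar to an
integral form which is good at every prime.
-/

namespace Pool.MP_602153_ag

namespace Arith

open Matrix Module

variable {n : ℕ}

/-- dividing a quadratic form all of whose values are divisible by `m` -/
theorem exists_div (C : Matrix (Fin n) (Fin n) ℤ) (m : ℤ)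
    (h : ∀ y : Fin n → ℤ, m ∣ y ⬝ᵥ C *ᵥ y) :
    ∃ B' : Matrix (Fin n) (Fin n) ℤ, m • (B' + B'ᵀ) = C + Cᵀ := by
  have h1 : ∀ i, m ∣ C i i := by
    intro i
    have := h (Pi.single i 1)
    simpa using this
  have h2 : ∀ i j, i ≠ j → m ∣ C i j + C j i := by
    intro i j hij
    have h3 := h (Pi.single i 1 + Pi.single j 1)
    have h4 : (Pi.single i 1 + Pi.single j 1 : Fin n → ℤ) ⬝ᵥ C *ᵥ (Pi.single i 1 + Pi.single j 1)
        = C i i + C j j + (C i j + C j i) := by
      simp only [mulVec_add, dotProduct_add, add_dotProduct, mulVec_single, single_dotProduct]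
      simp
      ring
    rw [h4] at h3
    exact (dvd_add_right (dvd_add (h1 i) (h1 j))).mp h3
  refine ⟨Matrix.of fun i j => if i = j then C i i / m else if i < j then
    (C i j + C j i) / m else 0, ?_⟩
  ext i j
  simp only [Matrix.smul_apply, Matrix.add_apply, Matrix.transpose_apply, Matrix.of_apply,
    smul_eq_mul]
  rcases lt_trichotomy i j with hij | hij | hij
  · have e1 : i ≠ j := ne_of_lt hij
    have e2 : ¬ j < i := not_lt.mpr hij.le
    rw [if_neg e1, if_pos hij, if_neg e1.symm, if_neg e2, add_zero]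
    exact Int.mul_ediv_cancel' (h2 i j e1)
  · subst hij
    rw [if_pos rfl, mul_add]
    rw [Int.mul_ediv_cancel' (h1 i)]
  · have e1 : i ≠ j := (ne_of_lt hij).symm
    have e2 : ¬ i < j := not_lt.mpr hij.le
    rw [if_neg e1, if_neg e2, if_neg e1.symm, if_pos hij, zero_add]
    rw [Int.mul_ediv_cancel' (h2 j i e1.symm), add_comm]

/-- reduction modulo `p` -/
def red (n p : ℕ) : (Fin n → ℤ) →+ (Fin n → ZMod p) where
  toFun x i := (x i : ZMod p)
  map_zero' := by ext i; simp
  map_add' x y := by ext i; simp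

theorem red_surjective (n p : ℕ) : Function.Surjective (red n p) := by
  intro x
  choose f hf using fun i => ZMod.intCast_surjective (x i)
  exact ⟨f, funext hf⟩

theorem red_zsmul (n p : ℕ) (a : ℤ) (x : Fin n → ℤ) : red n p (a • x) = (a : ZMod p) • red n p x := by
  ext i
  simp [red]

/-- a basis matrix for the preimage of a subspace of `F_p^n` -/
theorem exists_basis_matrix (p : ℕ) [hp : Fact p.Prime] (S : Submodule (ZMod p) (Fin n → ZMod p)) :
    ∃ P : Matrix (Fin n) (Fin n) ℤ, P.det.natAbs = p ^ (n - finrank (ZMod p) S) ∧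
      ∀ y : Fin n → ℤ, red n p (P *ᵥ y) ∈ S := by
  let N : Submodule ℤ (Fin n → ℤ) := AddSubgroup.toIntSubmodule (S.toAddSubgroup.comap (red n p))
  have hN : ∀ x, x ∈ N ↔ red n p x ∈ S := fun x => Iff.rfl
  -- the index
  have hcard : Nat.card ((Fin n → ℤ) ⧸ N) = p ^ (n - finrank (ZMod p) S) := by
    let φ : (Fin n → ℤ) →+ ((Fin n → ZMod p) ⧸ S) :=
      (S.mkQ.toAddMonoidHom).comp (red n p)
    have hφs : Function.Surjective φ := by
      intro y
      obtain ⟨z, rfl⟩ := S.mkQ_surjective y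
      obtain ⟨x, rfl⟩ := red_surjective n p z
      exact ⟨x, rfl⟩
    have hker : LinearMap.ker φ.toIntLinearMap = N := by
      ext x
      rw [LinearMap.mem_ker, hN]
      change S.mkQ (red n p x) = 0 ↔ _
      rw [Submodule.mkQ_apply, Submodule.Quotient.mk_eq_zero]
    have e := LinearMap.quotKerEquivOfSurjective φ.toIntLinearMap hφs
    rw [hker] at e
    rw [Nat.card_congr e.toEquiv, Module.natCard_eq_pow_finrank (K := ZMod p)]
    rw [Nat.card_zmod]
    congr 1
    rw [Submodule.finrank_quotient]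
    simp
  -- the rank
  have hrank : finrank ℤ N = n := by
    apply le_antisymm
    · have := Submodule.finrank_le N
      simpa using this
    · have hinj : Function.Injective (LinearMap.codRestrict N
          ((p : ℤ) • (LinearMap.id : (Fin n → ℤ) →ₗ[ℤ] (Fin n → ℤ))) (by
            intro x
            rw [hN]
            simp only [LinearMap.smul_apply, LinearMap.id_coe, id_eq]
            rw [red_zsmul]
            simp)) := by
        intro x y hxy
        have := congrArg Subtype.val hxy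
        simp only [LinearMap.codRestrict_apply, LinearMap.smul_apply, LinearMap.id_coe,
          id_eq] at this
        have hp0 : (p : ℤ) ≠ 0 := by exact_mod_cast hp.out.ne_zero
        exact smul_right_injective _ hp0 this
      have := LinearMap.finrank_le_finrank_of_injective hinj
      simpa using this
  let bN : Basis (Fin n) ℤ N := Module.finBasisOfFinrankEq ℤ N hrank
  refine ⟨Matrix.of fun i j => (bN j : Fin n → ℤ) i, ?_, ?_⟩
  · rw [← hcard, ← Submodule.natAbs_det_basis_change (Pi.basisFun ℤ (Fin n)) N bN]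
    rw [Basis.det_apply]
    rfl
  · intro y
    rw [← hN]
    have : (Matrix.of fun i j => (bN j : Fin n → ℤ) i) *ᵥ y = ∑ j, y j • (bN j : Fin n → ℤ) := by
      ext i
      simp only [mulVec, dotProduct, of_apply, Finset.sum_apply, Pi.smul_apply, smul_eq_mul]
      exact Finset.sum_congr rfl fun j _ => mul_comm _ _
    rw [this]
    exact Submodule.sum_mem _ fun j _ => Submodule.smul_mem _ _ (bN j).2

/-- `B` is an integral form similar to `M`. -/
def Sim (M : Matrix (Fin n) (Fin n) ℚ) (B : Matrix (Fin n) (Fin n) ℤ) : Prop :=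
  ∃ (c : ℚ) (T : Matrix (Fin n) (Fin n) ℚ), c ≠ 0 ∧ T.det ≠ 0 ∧
    Tᵀ * (B + Bᵀ).map (Int.castRingHom ℚ) * T = c • (M + Mᵀ)

theorem sim_det_ne (M : Matrix (Fin n) (Fin n) ℚ) (hM : (M + Mᵀ).det ≠ 0)
    (B : Matrix (Fin n) (Fin n) ℤ) (hB : Sim M B) : (B + Bᵀ).det ≠ 0 := by
  obtain ⟨c, T, hc, hT, h⟩ := hB
  intro h0
  have h1 := congrArg Matrix.det h
  rw [det_mul, det_mul, det_smul] at h1
  have h2 : ((B + Bᵀ).map (Int.castRingHom ℚ)).det = 0 := by
    rw [← RingHom.mapMatrix_apply, ← RingHom.map_det, h0, map_zero]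
  rw [h2] at h1
  have h3 : c ^ Fintype.card (Fin n) * (M + Mᵀ).det ≠ 0 :=
    mul_ne_zero (pow_ne_zero _ hc) hM
  apply h3
  rw [← h1]
  ring

theorem exists_sim (M : Matrix (Fin n) (Fin n) ℚ) : ∃ B, Sim M B := by
  classical
  -- common denominator
  obtain ⟨b, hb⟩ := IsLocalization.exist_integer_multiples_of_finset (nonZeroDivisors ℤ)
    (Finset.univ.image (fun q : Fin n × Fin n => M q.1 q.2))
  have hb' : ∀ i j, ∃ y : ℤ, algebraMap ℤ ℚ y = (b : ℤ) • M i j := by
    intro i j
    exact hb (M i j) (Finset.mem_image_of_mem (fun q : Fin n × Fin n => M q.1 q.2)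
      (Finset.mem_univ (i, j)))
  choose y hy using hb'
  refine ⟨Matrix.of y, ((b : ℤ) : ℚ), 1, ?_, by simp, ?_⟩
  · have : (b : ℤ) ≠ 0 := nonZeroDivisors.ne_zero b.2
    exact_mod_cast this
  · rw [transpose_one, one_mul, mul_one]
    ext i j
    have h1 := hy i j
    have h2 := hy j i
    simp only [eq_intCast, zsmul_eq_mul] at h1 h2
    simp only [map_apply, Matrix.add_apply, of_apply, transpose_apply, Matrix.smul_apply,
      smul_eq_mul, map_add, eq_intCast]
    rw [h1, h2]
    ring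

/-- the move lemma -/
theorem move (M : Matrix (Fin n) (Fin n) ℚ) (hM : (M + Mᵀ).det ≠ 0)
    (B : Matrix (Fin n) (Fin n) ℤ) (hB : Sim M B)
    (hmin : ∀ B', Sim M B' → (B + Bᵀ).det.natAbs ≤ (B' + B'ᵀ).det.natAbs)
    (p : ℕ) [hp : Fact p.Prime] (S : Submodule (ZMod p) (Fin n → ZMod p)) (k : ℕ)
    (hS : ∀ x : Fin n → ℤ, red n p x ∈ S → ((p : ℤ) ^ k) ∣ x ⬝ᵥ B *ᵥ x) :
    k * n ≤ 2 * (n - finrank (ZMod p) S) := by
  obtain ⟨P, hP1, hP2⟩ := exists_basis_matrix p S
  have hpk : ((p : ℤ) ^ k) ≠ 0 := pow_ne_zero _ (by exact_mod_cast hp.out.ne_zero)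
  obtain ⟨B', hB'⟩ := exists_div (Pᵀ * B * P) ((p : ℤ) ^ k) (by
    intro y
    have h1 := hS (P *ᵥ y) (hP2 y)
    have h2 : y ⬝ᵥ (Pᵀ * B * P) *ᵥ y = (P *ᵥ y) ⬝ᵥ B *ᵥ (P *ᵥ y) := by
      rw [← mulVec_mulVec, ← mulVec_mulVec, dotProduct_mulVec, vecMul_transpose]
    rw [h2]
    exact h1)
  have hG : ((p : ℤ) ^ k) • (B' + B'ᵀ) = Pᵀ * (B + Bᵀ) * P := by
    rw [hB', transpose_mul, transpose_mul, transpose_transpose, Matrix.mul_add, Matrix.add_mul]
    rw [Matrix.mul_assoc Pᵀ Bᵀ P]
  have hPdet : P.det ≠ 0 := by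
    intro h0
    rw [h0] at hP1
    have : 0 < p ^ (n - finrank (ZMod p) S) := pow_pos hp.out.pos _
    simp at hP1
    omega
  -- similarity
  have hsim : Sim M B' := by
    obtain ⟨c, T, hc, hT, h⟩ := hB
    let Pq : Matrix (Fin n) (Fin n) ℚ := P.map (Int.castRingHom ℚ)
    have hPq : IsUnit Pq.det := by
      rw [isUnit_iff_ne_zero]
      change ((Int.castRingHom ℚ).mapMatrix P).det ≠ 0
      rw [← RingHom.map_det]
      simpa using hPdet
    have hGq : ((p : ℚ) ^ k) • (B' + B'ᵀ).map (Int.castRingHom ℚ) =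
        Pqᵀ * (B + Bᵀ).map (Int.castRingHom ℚ) * Pq := by
      have h1 := congrArg (fun A : Matrix (Fin n) (Fin n) ℤ => A.map (Int.castRingHom ℚ)) hG
      rw [Matrix.map_mul, Matrix.map_mul] at h1
      rw [← transpose_map, ← h1]
      ext i j
      simp only [map_apply, Matrix.smul_apply, Matrix.add_apply, transpose_apply, smul_eq_mul,
        map_mul, map_pow, map_add, map_natCast]
    refine ⟨c / (p : ℚ) ^ k, Pq⁻¹ * T, ?_, ?_, ?_⟩
    · apply div_ne_zero hc
      apply pow_ne_zero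
      exact_mod_cast hp.out.ne_zero
    · rw [det_mul]
      apply mul_ne_zero _ hT
      exact (Matrix.isUnit_nonsing_inv_det _ hPq).ne_zero
    · have hpk' : (p : ℚ) ^ k ≠ 0 := pow_ne_zero _ (by exact_mod_cast hp.out.ne_zero)
      have h2 : (B' + B'ᵀ).map (Int.castRingHom ℚ) = (1 / (p : ℚ) ^ k) •
          (Pqᵀ * (B + Bᵀ).map (Int.castRingHom ℚ) * Pq) := by
        rw [← hGq, smul_smul, one_div, inv_mul_cancel₀ hpk', one_smul]
      rw [h2, transpose_mul]
      have h3 : (Pq⁻¹)ᵀ * Pqᵀ = 1 := by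
        rw [← transpose_mul, mul_nonsing_inv _ hPq, transpose_one]
      have h4 : Pq * Pq⁻¹ = 1 := mul_nonsing_inv _ hPq
      calc Tᵀ * (Pq⁻¹)ᵀ * ((1 / (p : ℚ) ^ k) • (Pqᵀ * (B + Bᵀ).map (Int.castRingHom ℚ) * Pq)) *
            (Pq⁻¹ * T)
          = (1 / (p : ℚ) ^ k) • (Tᵀ * ((Pq⁻¹)ᵀ * Pqᵀ) * (B + Bᵀ).map (Int.castRingHom ℚ) *
            (Pq * Pq⁻¹) * T) := by
            rw [Matrix.mul_smul, Matrix.smul_mul]
            simp only [Matrix.mul_assoc]
        _ = (1 / (p : ℚ) ^ k) • (Tᵀ * (B + Bᵀ).map (Int.castRingHom ℚ) * T) := by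
            rw [h3, h4, Matrix.mul_one, Matrix.mul_one]
        _ = (c / (p : ℚ) ^ k) • (M + Mᵀ) := by
            rw [h, smul_smul]
            congr 1
            ring
  -- determinants
  have h1 := congrArg (fun A : Matrix (Fin n) (Fin n) ℤ => A.det.natAbs) hG
  simp only [det_smul, det_mul, det_transpose, Int.natAbs_mul, Int.natAbs_pow, Int.natAbs_natCast,
    Fintype.card_fin] at h1
  have h2 := hmin B' hsim
  have h3 : 0 < (B + Bᵀ).det.natAbs := Int.natAbs_pos.mpr (sim_det_ne M hM B hB)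
  have h4 : (p ^ k) ^ n * (B + Bᵀ).det.natAbs ≤
      p ^ (2 * (n - finrank (ZMod p) S)) * (B + Bᵀ).det.natAbs := by
    calc (p ^ k) ^ n * (B + Bᵀ).det.natAbs ≤ (p ^ k) ^ n * (B' + B'ᵀ).det.natAbs :=
          Nat.mul_le_mul_left _ h2
      _ = P.det.natAbs * (B + Bᵀ).det.natAbs * P.det.natAbs := h1
      _ = p ^ (2 * (n - finrank (ZMod p) S)) * (B + Bᵀ).det.natAbs := by
          rw [hP1]
          ring
  have h5 := Nat.le_of_mul_le_mul_right h4 h3
  rw [← pow_mul] at h5
  exact (Nat.pow_le_pow_iff_right hp.out.one_lt).mp h5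

/-! ### Geometry over a finite prime field -/

section finite

variable (p : ℕ) [hp : Fact p.Prime]

/-- the value of the quadratic form -/
def Qv (A : Matrix (Fin n) (Fin n) (ZMod p)) (x : Fin n → ZMod p) : ZMod p := x ⬝ᵥ A *ᵥ x

/-- the polar form -/
noncomputable def pol (A : Matrix (Fin n) (Fin n) (ZMod p)) :
    LinearMap.BilinForm (ZMod p) (Fin n → ZMod p) :=
  Matrix.toBilin' (A + Aᵀ)

theorem pol_apply (A : Matrix (Fin n) (Fin n) (ZMod p)) (x y : Fin n → ZMod p) :
    pol p A x y = x ⬝ᵥ (A + Aᵀ) *ᵥ y := by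
  rw [pol, Matrix.toBilin'_apply']

theorem pol_symm (A : Matrix (Fin n) (Fin n) (ZMod p)) (x y : Fin n → ZMod p) :
    pol p A x y = pol p A y x := by
  rw [pol_apply, pol_apply, dotProduct_mulVec, ← mulVec_transpose, transpose_add,
    transpose_transpose, add_comm Aᵀ A, dotProduct_comm]

theorem Qv_add (A : Matrix (Fin n) (Fin n) (ZMod p)) (x y : Fin n → ZMod p) :
    Qv p A (x + y) = Qv p A x + Qv p A y + pol p A x y := by
  rw [pol_apply, Qv, Qv, Qv, add_mulVec, mulVec_add, dotProduct_add, dotProduct_add,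
    add_dotProduct, add_dotProduct]
  have : x ⬝ᵥ Aᵀ *ᵥ y = y ⬝ᵥ A *ᵥ x := by
    rw [dotProduct_mulVec, vecMul_transpose, dotProduct_comm]
  rw [this]
  ring

theorem Qv_smul (A : Matrix (Fin n) (Fin n) (ZMod p)) (a : ZMod p) (x : Fin n → ZMod p) :
    Qv p A (a • x) = a * a * Qv p A x := by
  rw [Qv, Qv, mulVec_smul, dotProduct_smul, smul_dotProduct, smul_eq_mul, smul_eq_mul]
  ring

/-- totally singular subspaces -/
def TS (A : Matrix (Fin n) (Fin n) (ZMod p)) (S : Submodule (ZMod p) (Fin n → ZMod p)) : Prop :=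
  ∀ x ∈ S, Qv p A x = 0

theorem TS.pol_eq_zero {A : Matrix (Fin n) (Fin n) (ZMod p)}
    {S : Submodule (ZMod p) (Fin n → ZMod p)} (hS : TS p A S) {x y : Fin n → ZMod p}
    (hx : x ∈ S) (hy : y ∈ S) : pol p A x y = 0 := by
  have h1 := hS _ (S.add_mem hx hy)
  rw [Qv_add, hS x hx, hS y hy] at h1
  simpa using h1

/-- the singular radical -/
def R0 (A : Matrix (Fin n) (Fin n) (ZMod p)) : Submodule (ZMod p) (Fin n → ZMod p) where
  carrier := {x | (∀ y, pol p A x y = 0) ∧ Qv p A x = 0}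
  zero_mem' := by
    refine ⟨fun y => by simp, ?_⟩
    simp [Qv]
  add_mem' := by
    rintro x y ⟨hx1, hx2⟩ ⟨hy1, hy2⟩
    refine ⟨fun z => ?_, ?_⟩
    · rw [map_add, LinearMap.add_apply, hx1, hy1, add_zero]
    · rw [Qv_add, hx2, hy2, hx1]
      simp
  smul_mem' := by
    rintro a x ⟨hx1, hx2⟩
    refine ⟨fun z => ?_, ?_⟩
    · rw [map_smul, LinearMap.smul_apply, hx1, smul_zero]
    · rw [Qv_smul, hx2, mul_zero]

/-- a ternary quadratic form over `F_p` has a nontrivial zero (Chevalley-Warning) -/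
theorem exists_zero (A : Matrix (Fin n) (Fin n) (ZMod p)) (u : Fin 3 → Fin n → ZMod p) :
    ∃ a : Fin 3 → ZMod p, a ≠ 0 ∧ Qv p A (∑ i, a i • u i) = 0 := by
  classical
  let f : MvPolynomial (Fin 3) (ZMod p) :=
    ∑ i, ∑ j, MvPolynomial.C (u i ⬝ᵥ A *ᵥ u j) * (MvPolynomial.X i * MvPolynomial.X j)
  have hf : ∀ a : Fin 3 → ZMod p, MvPolynomial.eval a f = Qv p A (∑ i, a i • u i) := by
    intro a
    simp only [f, map_sum, map_mul, MvPolynomial.eval_C, MvPolynomial.eval_X, Qv]
    rw [sum_dotProduct]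
    refine Finset.sum_congr rfl fun i _ => ?_
    rw [mulVec_sum, dotProduct_sum]
    refine Finset.sum_congr rfl fun j _ => ?_
    rw [mulVec_smul, dotProduct_smul, smul_dotProduct, smul_eq_mul, smul_eq_mul]
    ring
  have hdeg : f.totalDegree < Fintype.card (Fin 3) := by
    rw [Fintype.card_fin]
    have : f.totalDegree ≤ 2 := by
      apply MvPolynomial.totalDegree_finsetSum_le
      intro i _
      apply MvPolynomial.totalDegree_finsetSum_le
      intro j _
      refine (MvPolynomial.totalDegree_mul _ _).trans ?_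
      rw [MvPolynomial.totalDegree_C, zero_add]
      refine (MvPolynomial.totalDegree_mul _ _).trans ?_
      rw [MvPolynomial.totalDegree_X, MvPolynomial.totalDegree_X]
    omega
  have hcw := char_dvd_card_solutions p hdeg
  by_contra hcon
  push Not at hcon
  have : Fintype.card {x : Fin 3 → ZMod p // MvPolynomial.eval x f = 0} = 1 := by
    rw [Fintype.card_eq_one_iff]
    refine ⟨⟨0, ?_⟩, ?_⟩
    · rw [hf]; simp [Qv]
    · rintro ⟨y, hy⟩
      apply Subtype.ext
      by_contra hy0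
      exact hcon y hy0 (by rw [← hf]; exact hy)
  rw [this] at hcw
  exact hp.out.one_lt.ne' (Nat.dvd_one.mp hcw)

/-- there is a totally singular subspace `S` with `n - 2 dim S + dim R0 ≤ 2` -/
theorem exists_TS (A : Matrix (Fin n) (Fin n) (ZMod p)) :
    ∃ S : Submodule (ZMod p) (Fin n → ZMod p), TS p A S ∧
      n + finrank (ZMod p) (R0 p A) ≤ 2 * finrank (ZMod p) S + 2 := by
  classical
  have hR0 : TS p A (R0 p A) := fun x hx => hx.2
  obtain ⟨S, ⟨hS1, hS2⟩, hmax⟩ : ∃ S ∈ {S : Submodule (ZMod p) (Fin n → ZMod p) |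
      R0 p A ≤ S ∧ TS p A S}, ∀ I ∈ {S : Submodule (ZMod p) (Fin n → ZMod p) |
      R0 p A ≤ S ∧ TS p A S}, ¬ S < I :=
    set_has_maximal_iff_noetherian.mpr inferInstance _ ⟨R0 p A, le_rfl, hR0⟩
  refine ⟨S, hS2, ?_⟩
  set So := (pol p A).orthogonal S with hSo
  have hrefl : (pol p A).IsRefl := by
    intro x y hxy
    rw [pol_symm]; exact hxy
  have h1 := LinearMap.BilinForm.finrank_add_finrank_orthogonal hrefl S
  have h2 : finrank (ZMod p) (R0 p A) ≤
      finrank (ZMod p) (S ⊓ (pol p A).orthogonal ⊤ : Submodule (ZMod p) (Fin n → ZMod p)) := by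
    apply Submodule.finrank_mono
    intro x hx
    refine ⟨hS1 hx, ?_⟩
    change x ∈ (pol p A).orthogonal ⊤
    rw [LinearMap.BilinForm.mem_orthogonal_iff]
    intro y _
    change pol p A y x = 0
    rw [pol_symm]
    exact hx.1 y
  have h3 : S ≤ So := by
    intro x hx
    rw [hSo, LinearMap.BilinForm.mem_orthogonal_iff]
    intro y hy
    exact hS2.pol_eq_zero p hy hx
  have h4 : finrank (ZMod p) So ≤ finrank (ZMod p) S + 2 := by
    by_contra hcon
    push Not at hcon
    -- a complement of S in So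
    obtain ⟨W, hW⟩ := exists_isCompl S
    let U := W ⊓ So
    have hU1 : Disjoint S U := hW.disjoint.mono_right inf_le_left
    have hU2 : S ⊔ U = So := by
      change S ⊔ W ⊓ So = So
      rw [← sup_inf_assoc_of_le W h3, hW.sup_eq_top, top_inf_eq]
    have hU3 : finrank (ZMod p) S + finrank (ZMod p) U = finrank (ZMod p) So := by
      have := Submodule.finrank_sup_add_finrank_inf_eq S U
      rw [hU2, hU1.eq_bot, finrank_bot, add_zero] at this
      exact this.symm
    have hU4 : 3 ≤ finrank (ZMod p) U := by omega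
    obtain ⟨u, hu⟩ : ∃ u : Fin 3 → U, LinearIndependent (ZMod p) u := by
      have b := finBasis (ZMod p) U
      exact ⟨fun i => b (Fin.castLE hU4 i), b.linearIndependent.comp _
        (Fin.castLE_injective hU4)⟩
    obtain ⟨a, ha0, ha⟩ := exists_zero p A (fun i => (u i : Fin n → ZMod p))
    set w : Fin n → ZMod p := ∑ i, a i • (u i : Fin n → ZMod p) with hw
    have hwU : w ∈ U := Submodule.sum_mem _ fun i _ => Submodule.smul_mem _ _ (u i).2
    have hw0 : w ≠ 0 := by
      intro h0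
      apply ha0
      have h5 := Fintype.linearIndependent_iff.mp hu a (by
        apply Subtype.ext
        rw [Submodule.coe_sum]
        simp only [Submodule.coe_smul, ZeroMemClass.coe_zero]
        rw [← hw]
        exact h0)
      funext i
      exact h5 i
    have hwS : w ∉ S := by
      intro h5
      exact hw0 (Submodule.disjoint_def.mp hU1 w h5 hwU)
    have hTS : TS p A (S ⊔ Submodule.span (ZMod p) {w}) := by
      intro x hx
      obtain ⟨s, hs, t, ht, rfl⟩ := Submodule.mem_sup.mp hx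
      obtain ⟨c, rfl⟩ := Submodule.mem_span_singleton.mp ht
      have h6 : pol p A s (c • w) = 0 := by
        rw [map_smul]
        have h7 : w ∈ So := hwU.2
        rw [hSo, LinearMap.BilinForm.mem_orthogonal_iff] at h7
        have h8 : pol p A s w = 0 := h7 s hs
        rw [h8, smul_zero]
      rw [Qv_add, hS2 s hs, Qv_smul, ha, h6]
      simp
    refine hmax (S ⊔ Submodule.span (ZMod p) {w}) ⟨hS1.trans le_sup_left, hTS⟩ ?_
    refine lt_of_le_of_ne le_sup_left ?_
    intro h9
    apply hwS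
    rw [h9]
    exact Submodule.mem_sup_right (Submodule.mem_span_singleton_self w)
  have h5 : finrank (ZMod p) (Fin n → ZMod p) = n := by simp
  rw [h5, ← hSo] at h1
  omega

end finite

/-! ### The minimal form is good -/

theorem red_eq_zero (n p : ℕ) (x : Fin n → ℤ) : red n p x = 0 ↔ ∀ i, (p : ℤ) ∣ x i := by
  constructor
  · intro h i
    have := congrFun h i
    exact (ZMod.intCast_zmod_eq_zero_iff_dvd _ _).mp this
  · intro h
    funext i
    exact (ZMod.intCast_zmod_eq_zero_iff_dvd _ _).mpr (h i)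

theorem Qv_red (p : ℕ) [Fact p.Prime] (B : Matrix (Fin n) (Fin n) ℤ) (x : Fin n → ℤ) :
    Qv p (B.map (Int.castRingHom (ZMod p))) (red n p x) = ((x ⬝ᵥ B *ᵥ x : ℤ) : ZMod p) := by
  simp [Qv, red, dotProduct, mulVec]

theorem pol_red (p : ℕ) [Fact p.Prime] (B : Matrix (Fin n) (Fin n) ℤ) (x : Fin n → ℤ)
    (h : ∀ i, (p : ℤ) ∣ ((B + Bᵀ) *ᵥ x) i) (y : Fin n → ZMod p) :
    pol p (B.map (Int.castRingHom (ZMod p))) (red n p x) y = 0 := by
  rw [pol_symm, pol_apply]
  have h1 : (B.map (Int.castRingHom (ZMod p)) + (B.map (Int.castRingHom (ZMod p)))ᵀ) *ᵥ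
      (red n p x) = 0 := by
    funext i
    have h2 := (ZMod.intCast_zmod_eq_zero_iff_dvd _ _).mpr (h i)
    rw [Pi.zero_apply, ← h2]
    simp [mulVec, dotProduct, red]
  rw [h1, dotProduct_zero]

theorem exists_relation (p : ℕ) [hp : Fact p.Prime]
    (W : Submodule (ZMod p) (Fin n → ZMod p)) (hW : finrank (ZMod p) W ≤ 1) (v w : Fin n → ℤ)
    (hv : red n p v ∈ W) (hw : red n p w ∈ W) :
    ∃ a b : ℤ, (¬ (p : ℤ) ∣ a ∨ ¬ (p : ℤ) ∣ b) ∧ ∀ i, (p : ℤ) ∣ a * v i + b * w i := by
  obtain ⟨⟨v0, hv0⟩, h⟩ := finrank_le_one_iff.mp hW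
  obtain ⟨α, hα⟩ := h ⟨_, hv⟩
  obtain ⟨β, hβ⟩ := h ⟨_, hw⟩
  have hα' : α • v0 = red n p v := congrArg Subtype.val hα
  have hβ' : β • v0 = red n p w := congrArg Subtype.val hβ
  by_cases hβ0 : β = 0
  · refine ⟨0, 1, Or.inr ?_, ?_⟩
    · intro h1
      have := Int.isUnit_iff.mp (isUnit_of_dvd_one h1)
      have h2 := hp.out.one_lt
      omega
    · rw [hβ0, zero_smul] at hβ'
      intro i
      have := (red_eq_zero n p w).mp hβ'.symm i
      simpa using this
  · obtain ⟨a, ha⟩ := ZMod.intCast_surjective β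
    obtain ⟨b, hb⟩ := ZMod.intCast_surjective (-α)
    refine ⟨a, b, Or.inl ?_, ?_⟩
    · intro h1
      apply hβ0
      rw [← ha]
      exact (ZMod.intCast_zmod_eq_zero_iff_dvd _ _).mpr h1
    · intro i
      rw [← ZMod.intCast_zmod_eq_zero_iff_dvd]
      push_cast
      rw [ha, hb]
      have e1 : ((v i : ℤ) : ZMod p) = α * v0 i := by
        have := congrFun hα' i
        simpa [red] using this.symm
      have e2 : ((w i : ℤ) : ZMod p) = β * v0 i := by
        have := congrFun hβ' i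
        simpa [red] using this.symm
      rw [e1, e2]
      ring

theorem good_of_min (hn : Odd n) (M : Matrix (Fin n) (Fin n) ℚ) (hM : (M + Mᵀ).det ≠ 0)
    (B : Matrix (Fin n) (Fin n) ℤ) (hB : Sim M B)
    (hmin : ∀ B', Sim M B' → (B + Bᵀ).det.natAbs ≤ (B' + B'ᵀ).det.natAbs) : Good B where
  det_ne := sim_det_ne M hM B hB
  nosq := by
    intro p hp w hi hw hsq
    have : Fact p.Prime := ⟨hp⟩
    have hw0 : red n p w ≠ 0 := by
      intro h0
      obtain ⟨i, hi⟩ := hi
      exact hi ((red_eq_zero n p w).mp h0 i)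
    have h1 := move M hM B hB hmin p (Submodule.span (ZMod p) {red n p w}) 2 (by
      intro x hx
      obtain ⟨c, hc⟩ := Submodule.mem_span_singleton.mp hx
      obtain ⟨a, rfl⟩ := ZMod.intCast_surjective c
      have h2 : red n p (x - a • w) = 0 := by
        rw [map_sub, red_zsmul, hc, sub_self]
      have h3 := (red_eq_zero n p _).mp h2
      choose z hz using h3
      have h4 : x = a • w + (p : ℤ) • z := by
        funext i
        have := hz i
        simp only [Pi.sub_apply, Pi.smul_apply, smul_eq_mul, Pi.add_apply] at this ⊢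
        linarith
      have h5 : x ⬝ᵥ B *ᵥ x = a * a * (w ⬝ᵥ B *ᵥ w) + (p : ℤ) * (a * (z ⬝ᵥ ((B + Bᵀ) *ᵥ w)))
          + (p : ℤ) ^ 2 * (z ⬝ᵥ B *ᵥ z) := by
        have h6 : w ⬝ᵥ B *ᵥ z = z ⬝ᵥ Bᵀ *ᵥ w := by
          rw [dotProduct_mulVec z, vecMul_transpose, dotProduct_comm]
        rw [h4]
        simp only [mulVec_add, dotProduct_add, add_dotProduct, mulVec_smul, dotProduct_smul,
          smul_dotProduct, smul_eq_mul, add_mulVec]
        rw [h6]
        ring
      rw [h5]
      refine dvd_add (dvd_add (Dvd.dvd.mul_left hsq _) ?_) (dvd_mul_right _ _)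
      rw [pow_two]
      refine mul_dvd_mul_left _ (Dvd.dvd.mul_left ?_ _)
      unfold dotProduct
      exact Finset.dvd_sum fun i _ => Dvd.dvd.mul_left (hw i) _)
    rw [finrank_span_singleton hw0] at h1
    obtain ⟨m, hm⟩ := hn
    omega
  rad_le := by
    intro p hp v w hv1 hv2 hw1 hw2
    have : Fact p.Prime := ⟨hp⟩
    obtain ⟨S, hS1, hS2⟩ := exists_TS p (B.map (Int.castRingHom (ZMod p)))
    have h1 := move M hM B hB hmin p S 1 (by
      intro x hx
      have h2 := hS1 _ hx
      rw [Qv_red] at h2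
      rw [pow_one]
      exact (ZMod.intCast_zmod_eq_zero_iff_dvd _ _).mp h2)
    have h2 : finrank (ZMod p) S ≤ n := by
      have := Submodule.finrank_le S
      simpa using this
    have h3 : finrank (ZMod p) (R0 p (B.map (Int.castRingHom (ZMod p)))) ≤ 1 := by
      obtain ⟨m, hm⟩ := hn
      omega
    refine exists_relation p _ h3 v w ⟨fun y => pol_red p B v hv1 y, ?_⟩
      ⟨fun y => pol_red p B w hw1 y, ?_⟩
    · rw [Qv_red]
      exact (ZMod.intCast_zmod_eq_zero_iff_dvd _ _).mpr hv2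
    · rw [Qv_red]
      exact (ZMod.intCast_zmod_eq_zero_iff_dvd _ _).mpr hw2

end Arith

open MvPolynomial Matrix

theorem quad_transpose {R : Type} [CommRing R] {n : ℕ} (A : Matrix (Fin n) (Fin n) R) :
    quad Aᵀ = quad A := by
  unfold quad
  rw [Finset.sum_comm]
  refine Finset.sum_congr rfl fun i _ => Finset.sum_congr rfl fun j _ => ?_
  rw [transpose_apply]
  ring

theorem quad_add {R : Type} [CommRing R] {n : ℕ} (A A' : Matrix (Fin n) (Fin n) R) :
    quad (A + A') = quad A + quad A' := by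
  unfold quad
  rw [← Finset.sum_add_distrib]
  refine Finset.sum_congr rfl fun i _ => ?_
  rw [← Finset.sum_add_distrib]
  refine Finset.sum_congr rfl fun j _ => ?_
  rw [Matrix.add_apply, map_add]
  ring

theorem quad_smul {R : Type} [CommRing R] {n : ℕ} (c : R) (A : Matrix (Fin n) (Fin n) R) :
    quad (c • A) = C c * quad A := by
  unfold quad
  rw [Finset.mul_sum]
  refine Finset.sum_congr rfl fun i _ => ?_
  rw [Finset.mul_sum]
  refine Finset.sum_congr rfl fun j _ => ?_
  rw [Matrix.smul_apply, smul_eq_mul, map_mul]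
  ring

theorem map_quad {R R' : Type} [CommRing R] [CommRing R'] {n : ℕ} (f : R →+* R')
    (A : Matrix (Fin n) (Fin n) R) : MvPolynomial.map f (quad A) = quad (A.map f) := by
  simp [quad]

theorem lin_quad {R : Type} [CommRing R] {n : ℕ} (T A : Matrix (Fin n) (Fin n) R) :
    lin T (quad A) = quad (Tᵀ * A * T) := by
  unfold quad
  simp only [map_sum, map_mul, lin_X]
  have hC : ∀ r : R, lin T (C r) = C r := fun r => by simp [lin]
  simp only [hC, Matrix.mul_apply, transpose_apply, map_sum, map_mul]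
  simp only [Finset.sum_mul, Finset.mul_sum]
  -- both sides are fourfold sums
  have e1 : ∀ i j : Fin n, ∑ k, ∑ l, C (A i j) * (C (T i l) * X l) * (C (T j k) * X k) =
      ∑ l, ∑ k, C (T i l) * C (A i j) * C (T j k) * X l * X k := by
    intro i j
    rw [Finset.sum_comm]
    refine Finset.sum_congr rfl fun l _ => Finset.sum_congr rfl fun k _ => ?_
    ring
  calc _ = ∑ i, ∑ j, ∑ l, ∑ k, C (T i l) * C (A i j) * C (T j k) * X l * X k := by
        refine Finset.sum_congr rfl fun i _ => Finset.sum_congr rfl fun j _ => ?_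
        exact e1 i j
    _ = ∑ l, ∑ k, ∑ j, ∑ i, C (T i l) * C (A i j) * C (T j k) * X l * X k := by
        have h1 : ∀ i, ∑ j, ∑ l, ∑ k, C (T i l) * C (A i j) * C (T j k) * X l * X k =
            ∑ l, ∑ k, ∑ j, (C (T i l) * C (A i j) * C (T j k) * X l * X k :
              MvPolynomial (Fin n) R) := by
          intro i
          rw [Finset.sum_comm]
          refine Finset.sum_congr rfl fun l _ => ?_
          rw [Finset.sum_comm]
        rw [Finset.sum_congr rfl fun i _ => h1 i, Finset.sum_comm]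
        refine Finset.sum_congr rfl fun l _ => ?_
        rw [Finset.sum_comm]
        refine Finset.sum_congr rfl fun k _ => ?_
        rw [Finset.sum_comm]
    _ = _ := rfl

/-- Module A: every nondegenerate rational quadratic form in an odd number of variables is
similar to a good integral form. -/
theorem exists_good {n : ℕ} (hn : Odd n) (_h3 : 3 ≤ n) (M : Matrix (Fin n) (Fin n) ℚ)
    (hM : M.IsSymm) (hdet : M.det ≠ 0) :
    ∃ (B : Matrix (Fin n) (Fin n) ℤ) (c : ℚ) (T : Matrix (Fin n) (Fin n) ℚ),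
      Good B ∧ c ≠ 0 ∧ T.det ≠ 0 ∧
      lin T (map (algebraMap ℤ ℚ) (quad B)) = C c * quad M := by
  classical
  have hM2 : (M + Mᵀ).det ≠ 0 := by
    rw [hM.eq, ← two_smul ℚ M, det_smul]
    exact mul_ne_zero (pow_ne_zero _ two_ne_zero) hdet
  have hex : ∃ m : ℕ, ∃ B, Arith.Sim M B ∧ (B + Bᵀ).det.natAbs = m := by
    obtain ⟨B, hB⟩ := Arith.exists_sim M
    exact ⟨_, B, hB, rfl⟩
  obtain ⟨B, hB, hm⟩ := Nat.find_spec hex
  have hmin : ∀ B', Arith.Sim M B' → (B + Bᵀ).det.natAbs ≤ (B' + B'ᵀ).det.natAbs := by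
    intro B' hB'
    rw [hm]
    exact Nat.find_min' hex ⟨B', hB', rfl⟩
  have hgood := Arith.good_of_min hn M hM2 B hB hmin
  obtain ⟨c, T, hc, hT, h⟩ := hB
  refine ⟨B, c, T, hgood, hc, hT, ?_⟩
  have h1 : map (algebraMap ℤ ℚ) (quad B) = quad (B.map (Int.castRingHom ℚ)) := by
    rw [map_quad]
    rfl
  rw [h1, lin_quad]
  have h2 : quad (Tᵀ * (B + Bᵀ).map (Int.castRingHom ℚ) * T) =
      2 * quad (Tᵀ * B.map (Int.castRingHom ℚ) * T) := by
    have h3 : (B + Bᵀ).map (Int.castRingHom ℚ) = B.map (Int.castRingHom ℚ) +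
        (B.map (Int.castRingHom ℚ))ᵀ := by
      ext i j
      simp
    have h4 : Tᵀ * (B.map (Int.castRingHom ℚ))ᵀ * T =
        (Tᵀ * B.map (Int.castRingHom ℚ) * T)ᵀ := by
      rw [transpose_mul, transpose_mul, transpose_transpose, Matrix.mul_assoc]
    rw [h3, Matrix.mul_add, Matrix.add_mul, quad_add, h4, quad_transpose]
    ring
  have h5 : quad (c • (M + Mᵀ)) = 2 * (C c * quad M) := by
    rw [quad_smul, quad_add, quad_transpose]
    ring
  rw [h, h5] at h2
  exact (mul_left_cancel₀ two_ne_zero h2).symm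

end Pool.MP_602153_ag
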