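import Mathlib

set_option autoImplicit false

/-!
# Explicit formulas in a cubic algebra

The cubic algebra attached to the binary cubic form `(a, b, c, d)` has a basis `1, ω, θ` with
`ω θ = -a d`, `ω² = -a c + b ω - a θ`, `θ² = -b d + d ω - c θ`.
-/

namespace Pool.MP_602153_ag

namespace WeilCubic

/-- Elements `x + y ω + z θ`. -/
@[ext]
structure Tri (A : Type) where
  /-- coordinate of `1` -/
  x : A
  /-- coordinate of `ω` -/
  y : A
  /-- coordinate of `θ` -/
  z : A

section

variable {A : Type} [CommRing A] (a b c d : A)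

/-- The product. -/
def tmul (u v : Tri A) : Tri A where
  x := u.x * v.x - a * c * (u.y * v.y) - b * d * (u.z * v.z) - a * d * (u.y * v.z + u.z * v.y)
  y := u.x * v.y + u.y * v.x + b * (u.y * v.y) + d * (u.z * v.z)
  z := u.x * v.z + u.z * v.x - a * (u.y * v.y) - c * (u.z * v.z)

/-- The adjugate. -/
def tadj (u : Tri A) : Tri A where
  x := (u.x + b * u.y) * (u.x - c * u.z) + a * d * (u.y * u.z)
  y := - (u.x * u.y) + c * (u.y * u.z) + d * u.z ^ 2
  z := - (a * u.y ^ 2) - u.x * u.z - b * (u.y * u.z)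

/-- The norm. -/
def tnorm (u : Tri A) : A :=
  u.x * (tadj a b c d u).x - a * c * (u.y * (tadj a b c d u).y) -
    b * d * (u.z * (tadj a b c d u).z) -
    a * d * (u.y * (tadj a b c d u).z + u.z * (tadj a b c d u).y)

/-- The trace. -/
def ttr (u : Tri A) : A := 3 * u.x + b * u.y - c * u.z

/-- scalar multiplication -/
def tsmul (r : A) (u : Tri A) : Tri A := ⟨r * u.x, r * u.y, r * u.z⟩

/-- sum -/
def tadd (u v : Tri A) : Tri A := ⟨u.x + v.x, u.y + v.y, u.z + v.z⟩

theorem tmul_comm (u v : Tri A) : tmul a b c d u v = tmul a b c d v u := by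
  ext <;> simp only [tmul] <;> ring

theorem tmul_assoc (u v w : Tri A) :
    tmul a b c d (tmul a b c d u v) w = tmul a b c d u (tmul a b c d v w) := by
  ext <;> simp only [tmul] <;> ring

theorem tmul_tadj (u : Tri A) : tmul a b c d u (tadj a b c d u) = ⟨tnorm a b c d u, 0, 0⟩ := by
  ext <;> simp only [tmul, tadj, tnorm] <;> ring

theorem tadj_tmul (u v : Tri A) : tadj a b c d (tmul a b c d u v) =
    tmul a b c d (tadj a b c d u) (tadj a b c d v) := by
  ext <;> simp only [tmul, tadj] <;> ring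

theorem tadj_tadj (u : Tri A) : tadj a b c d (tadj a b c d u) =
    tsmul (tnorm a b c d u) u := by
  ext <;> simp only [tadj, tnorm, tsmul] <;> ring

theorem tsmul_tmul (r : A) (u v : Tri A) :
    tmul a b c d (tsmul r u) v = tsmul r (tmul a b c d u v) := by
  ext <;> simp only [tmul, tsmul] <;> ring

theorem tmul_scalar (r : A) (u : Tri A) : tmul a b c d u ⟨r, 0, 0⟩ = tsmul r u := by
  ext <;> simp only [tmul, tsmul] <;> ring

theorem tadj_tsmul (r : A) (u : Tri A) :
    tadj a b c d (tsmul r u) = tsmul (r ^ 2) (tadj a b c d u) := by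
  ext <;> simp only [tadj, tsmul] <;> ring

theorem tnorm_tsmul (r : A) (u : Tri A) :
    tnorm a b c d (tsmul r u) = r ^ 3 * tnorm a b c d u := by
  simp only [tnorm, tadj, tsmul]
  ring

theorem tnorm_tmul (u v : Tri A) :
    tnorm a b c d (tmul a b c d u v) = tnorm a b c d u * tnorm a b c d v := by
  have h1 := tmul_tadj a b c d (tmul a b c d u v)
  have h2 : tmul a b c d (tmul a b c d u v) (tadj a b c d (tmul a b c d u v)) =
      ⟨tnorm a b c d u * tnorm a b c d v, 0, 0⟩ := by
    rw [tadj_tmul, tmul_assoc, tmul_comm a b c d v, tmul_assoc, tmul_comm a b c d _ v,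
      tmul_tadj, ← tmul_assoc, tmul_tadj]
    ext <;> simp only [tmul] <;> ring
  rw [h1] at h2
  exact congrArg Tri.x h2

theorem tnorm_tadj (u : Tri A) : tnorm a b c d (tadj a b c d u) = tnorm a b c d u ^ 2 := by
  simp only [tnorm, tadj]
  ring

/-- `adj s * t` -/
def cc (s t : Tri A) : Tri A := tmul a b c d (tadj a b c d s) t

theorem tadj_cc (s t : Tri A) : tadj a b c d (cc a b c d s t) =
    tsmul (tnorm a b c d s) (cc a b c d t s) := by
  rw [cc, tadj_tmul, tadj_tadj, tsmul_tmul, tmul_comm, cc]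

theorem tnorm_cc (s t : Tri A) : tnorm a b c d (cc a b c d s t) =
    tnorm a b c d s ^ 2 * tnorm a b c d t := by
  rw [cc, tnorm_tmul, tnorm_tadj]

theorem cc_mul (s t : Tri A) : tmul a b c d (cc a b c d s t) (cc a b c d t s) =
    ⟨tnorm a b c d s * tnorm a b c d t, 0, 0⟩ := by
  rw [cc, cc, tmul_assoc, ← tmul_assoc a b c d t, tmul_tadj, tmul_comm a b c d _ s,
    ← tmul_assoc, tmul_comm a b c d _ s, tmul_tadj]
  ext <;> simp only [tmul] <;> ring

theorem tnorm_add (u v : Tri A) : tnorm a b c d (tadd u v) =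
    tnorm a b c d u + ttr b c (tmul a b c d (tadj a b c d u) v) +
      ttr b c (tmul a b c d u (tadj a b c d v)) + tnorm a b c d v := by
  simp only [tnorm, ttr, tmul, tadj, tadd]
  ring

end

end WeilCubic

end Pool.MP_602153_ag
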