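import Pool.Agent.MP_602153_ag.CubicReg
import Pool.Agent.QuadAll.PresReg

set_option autoImplicit false

/-!
# A chart of the model of `R_{K/ℚ} ℙ¹`
-/

namespace Pool.Agent.MP_602153_ag.Cubic

open Pool.Agent.QuadAll

variable {K : Type} [Field K] [NumberField K] (B : DF K)

/-- Elimination of the second variable up to powers of the first one. -/
theorem exists_elim (t : MvPolynomial (Fin 4) ℤ) : ∃ (n : ℕ) (q : MvPolynomial (Fin 3) ℤ),
    MvPolynomial.X 0 ^ n * t - MvPolynomial.rename ![0, 2, 3] q ∈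
      Ideal.span {(MvPolynomial.X 0 * MvPolynomial.X 1 - B.F (MvPolynomial.X 2) :
        MvPolynomial (Fin 4) ℤ)} := by
  set I := Ideal.span {(MvPolynomial.X 0 * MvPolynomial.X 1 - B.F (MvPolynomial.X 2) :
        MvPolynomial (Fin 4) ℤ)} with hI
  have hg : (MvPolynomial.X 0 * MvPolynomial.X 1 - B.F (MvPolynomial.X 2) :
        MvPolynomial (Fin 4) ℤ) ∈ I := Ideal.mem_span_singleton_self _
  induction t using MvPolynomial.induction_on with
  | C a => exact ⟨0, MvPolynomial.C a, by simp⟩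
  | add p q hp hq =>
    obtain ⟨n, p', hp⟩ := hp
    obtain ⟨m, q', hq⟩ := hq
    refine ⟨n + m, MvPolynomial.X 0 ^ m * p' + MvPolynomial.X 0 ^ n * q', ?_⟩
    have h : (MvPolynomial.X 0 : MvPolynomial (Fin 4) ℤ) ^ (n + m) * (p + q) -
        MvPolynomial.rename ![0, 2, 3] (MvPolynomial.X 0 ^ m * p' + MvPolynomial.X 0 ^ n * q') =
        MvPolynomial.X 0 ^ m * (MvPolynomial.X 0 ^ n * p - MvPolynomial.rename ![0, 2, 3] p') +
        MvPolynomial.X 0 ^ n * (MvPolynomial.X 0 ^ m * q - MvPolynomial.rename ![0, 2, 3] q') := by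
      simp only [map_add, map_mul, map_pow, MvPolynomial.rename_X, Matrix.cons_val_zero]
      ring
    rw [h]
    exact I.add_mem (I.mul_mem_left _ hp) (I.mul_mem_left _ hq)
  | mul_X p i hp =>
    obtain ⟨n, p', hp⟩ := hp
    have key : ∀ (j : Fin 3) (i : Fin 4), (![0, 2, 3] : Fin 3 → Fin 4) j = i →
        ∃ (n : ℕ) (q : MvPolynomial (Fin 3) ℤ),
          MvPolynomial.X 0 ^ n * (p * MvPolynomial.X i) - MvPolynomial.rename ![0, 2, 3] q ∈
            I := by
      rintro j i rfl
      refine ⟨n, p' * MvPolynomial.X j, ?_⟩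
      have h : (MvPolynomial.X 0 : MvPolynomial (Fin 4) ℤ) ^ n *
          (p * MvPolynomial.X ((![0, 2, 3] : Fin 3 → Fin 4) j)) -
          MvPolynomial.rename ![0, 2, 3] (p' * MvPolynomial.X j) =
          MvPolynomial.X ((![0, 2, 3] : Fin 3 → Fin 4) j) *
            (MvPolynomial.X 0 ^ n * p - MvPolynomial.rename ![0, 2, 3] p') := by
        rw [map_mul, MvPolynomial.rename_X]
        ring
      rw [h]
      exact I.mul_mem_left _ hp
    by_cases hi : i = 1
    · subst hi
      refine ⟨n + 1, p' * B.F (MvPolynomial.X 1), ?_⟩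
      have h : (MvPolynomial.X 0 : MvPolynomial (Fin 4) ℤ) ^ (n + 1) * (p * MvPolynomial.X 1) -
          MvPolynomial.rename ![0, 2, 3] (p' * B.F (MvPolynomial.X 1)) =
          MvPolynomial.X 0 ^ n * p * (MvPolynomial.X 0 * MvPolynomial.X 1 -
            B.F (MvPolynomial.X 2)) + B.F (MvPolynomial.X 2) *
            (MvPolynomial.X 0 ^ n * p - MvPolynomial.rename ![0, 2, 3] p') := by
        have e : MvPolynomial.rename ![0, 2, 3] (B.F (MvPolynomial.X 1 : MvPolynomial (Fin 3) ℤ)) =
            (B.F (MvPolynomial.X 2) : MvPolynomial (Fin 4) ℤ) := by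
          have := map_F B (MvPolynomial.rename (R := ℤ)
            (![0, 2, 3] : Fin 3 → Fin 4)).toRingHom (MvPolynomial.X 1)
          simpa using this
        rw [map_mul, e]
        ring
      rw [h]
      exact I.add_mem (I.mul_mem_left _ hg) (I.mul_mem_left _ hp)
    · have : i = 0 ∨ i = 2 ∨ i = 3 := by
        fin_cases i <;> simp_all
      rcases this with rfl | rfl | rfl
      · exact key 0 0 rfl
      · exact key 1 2 rfl
      · exact key 2 3 rfl

/-- The chart where the last coordinate of `x` is invertible. -/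
theorem regular_chart {F : Type} [Field F] (v : Fin 8 → F) (hx : v 3 ≠ 0)
    (rx1 : v 0 * v 5 = -(v 1 * v 2) + B.d * v 3 ^ 2 + B.c * (v 2 * v 3))
    (rx2 : v 0 * v 6 = -(v 1 * v 3) - B.a * v 2 ^ 2 - B.b * (v 2 * v 3))
    (ry2 : v 7 * v 3 = -(v 4 * v 6) - B.a * v 5 ^ 2 - B.b * (v 5 * v 6))
    (rxy : v 1 * v 6 + v 3 * v 4 - B.a * (v 2 * v 5) - B.c * (v 3 * v 6) = 0)
    (hind : ∀ q : MvPolynomial (Fin 3) ℤ,
      MvPolynomial.aeval ![v 0 / v 3, v 2 / v 3, v 6 / v 3] q = 0 → q = 0) :
    IsRegularRing (Algebra.adjoin ℤ (Set.range fun s ↦ v s / v 3)) := by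
  set H := v 0 / v 3 with hH
  set G := v 2 / v 3 with hG
  set Y := v 6 / v 3 with hY
  set E := v 5 / v 3 - G * Y with hE
  let w : Fin 4 → F := ![H, E, G, Y]
  have hrel : H * E = B.F G := by
    rw [hE, hH, hG, hY]
    unfold DF.F
    field_simp
    linear_combination (v 3) * rx1 - (v 2) * rx2
  have h1 : v 1 / v 3 = -B.a * G ^ 2 - B.b * G - H * Y := by
    rw [hH, hG, hY]
    field_simp
    linear_combination rx2
  have h5 : v 5 / v 3 = E + G * Y := by rw [hE]; ring
  have h4 : v 4 / v 3 = -(v 1 / v 3) * Y + B.a * G * (v 5 / v 3) + B.c * Y := by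
    rw [hG, hY]
    field_simp
    linear_combination rxy
  have h7 : v 7 / v 3 = -(v 4 / v 3) * Y - B.a * (v 5 / v 3) ^ 2 - B.b * (v 5 / v 3) * Y := by
    rw [hY]
    field_simp
    linear_combination ry2
  have hrange : Algebra.adjoin ℤ (Set.range fun s ↦ v s / v 3) =
      (MvPolynomial.aeval w : MvPolynomial (Fin 4) ℤ →ₐ[ℤ] F).range := by
    apply le_antisymm
    · rw [Algebra.adjoin_le_iff]
      rintro _ ⟨s, rfl⟩
      have mw : ∀ i, w i ∈ (MvPolynomial.aeval w : MvPolynomial (Fin 4) ℤ →ₐ[ℤ] F).range :=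
        fun i ↦ ⟨MvPolynomial.X i, MvPolynomial.aeval_X w i⟩
      set R := (MvPolynomial.aeval w : MvPolynomial (Fin 4) ℤ →ₐ[ℤ] F).range with hR
      have mH : H ∈ R := mw 0
      have mE : E ∈ R := mw 1
      have mG : G ∈ R := mw 2
      have mY : Y ∈ R := mw 3
      have mZ : ∀ n : ℤ, (n : F) ∈ R := fun n ↦ intCast_mem R n
      have m1 : v 1 / v 3 ∈ R := by
        rw [h1]
        exact R.sub_mem (R.sub_mem (R.mul_mem (R.neg_mem (mZ _)) (R.pow_mem mG 2))
          (R.mul_mem (mZ _) mG)) (R.mul_mem mH mY)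
      have m5 : v 5 / v 3 ∈ R := by
        rw [h5]
        exact R.add_mem mE (R.mul_mem mG mY)
      have m4 : v 4 / v 3 ∈ R := by
        rw [h4]
        exact R.add_mem (R.add_mem (R.mul_mem (R.neg_mem m1) mY)
          (R.mul_mem (R.mul_mem (mZ _) mG) m5)) (R.mul_mem (mZ _) mY)
      have m7 : v 7 / v 3 ∈ R := by
        rw [h7]
        exact R.sub_mem (R.sub_mem (R.mul_mem (R.neg_mem m4) mY)
          (R.mul_mem (mZ _) (R.pow_mem m5 2))) (R.mul_mem (R.mul_mem (mZ _) m5) mY)
      have m3 : v 3 / v 3 ∈ R := by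
        rw [div_self hx]
        exact R.one_mem
      fin_cases s
      · exact mH
      · exact m1
      · exact mG
      · exact m3
      · exact m4
      · exact m5
      · exact mY
      · exact m7
    · rw [← Algebra.adjoin_range_eq_range_aeval, Algebra.adjoin_le_iff]
      set R := Algebra.adjoin ℤ (Set.range fun s ↦ v s / v 3) with hR
      have mv : ∀ s, v s / v 3 ∈ R := fun s ↦ Algebra.subset_adjoin ⟨s, rfl⟩
      rintro _ ⟨s, rfl⟩
      fin_cases s
      · exact mv 0
      · exact R.sub_mem (mv 5) (R.mul_mem (mv 2) (mv 6))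
      · exact mv 2
      · exact mv 6
  rw [hrange]
  set C := (MvPolynomial.aeval w : MvPolynomial (Fin 4) ℤ →ₐ[ℤ] F).range with hC
  let π : MvPolynomial (Fin 4) ℤ →+* C := (MvPolynomial.aeval w).rangeRestrict.toRingHom
  have hπ : Function.Surjective π := (MvPolynomial.aeval w).rangeRestrict_surjective
  have hπv : ∀ t, ((π t : C) : F) = MvPolynomial.aeval w t := fun t ↦ rfl
  have hnoeth : IsNoetherianRing C := isNoetherianRing_of_surjective _ _ π hπ
  have hH0 : H ≠ 0 := by
    intro h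
    have := hind (MvPolynomial.X 0) (by simpa using h)
    exact MvPolynomial.X_ne_zero _ this
  have hwX : ∀ i, MvPolynomial.aeval w (MvPolynomial.X i : MvPolynomial (Fin 4) ℤ) = w i :=
    fun i ↦ MvPolynomial.aeval_X w i
  have hg0 : MvPolynomial.aeval w (MvPolynomial.X 0 * MvPolynomial.X 1 -
      B.F (MvPolynomial.X 2) : MvPolynomial (Fin 4) ℤ) = 0 := by
    have e := map_F B (MvPolynomial.aeval w : MvPolynomial (Fin 4) ℤ →ₐ[ℤ] F).toRingHom
      (MvPolynomial.X 2)
    have e' : MvPolynomial.aeval w (B.F (MvPolynomial.X 2) : MvPolynomial (Fin 4) ℤ) =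
        B.F G := by
      refine Eq.trans e ?_
      congr 1
      exact hwX 2
    rw [map_sub, map_mul, hwX, hwX, e']
    change H * E - _ = 0
    rw [hrel, sub_self]
  refine { toIsNoetherian := hnoeth, isRegularLocalRing_localization := ?_ }
  intro Q hQ
  refine isRegularLocalRing_of_presentation π hπ (r := 1)
    (fun _ ↦ MvPolynomial.X 0 * MvPolynomial.X 1 - B.F (MvPolynomial.X 2)) ?_
    (MvPolynomial.X 0) ?_ ?_ Q ?_
  · intro _
    apply Subtype.ext
    rw [hπv, hg0]
    rfl
  · intro h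
    have := congrArg (fun z : C ↦ (z : F)) h
    simp only [hπv, hwX] at this
    exact hH0 this
  · intro t ht
    obtain ⟨n, q, hq⟩ := exists_elim B t
    have ht' : MvPolynomial.aeval w t = 0 := by
      rw [← hπv, ht]
      rfl
    have hq0 : q = 0 := by
      apply hind
      have h1 : MvPolynomial.aeval w (MvPolynomial.X 0 ^ n * t -
          MvPolynomial.rename ![0, 2, 3] q) = 0 := by
        obtain ⟨c, hc⟩ := Ideal.mem_span_singleton'.mp hq
        rw [← hc, map_mul, hg0, mul_zero]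
      rw [map_sub, map_mul, ht', mul_zero, zero_sub, neg_eq_zero,
        MvPolynomial.aeval_rename] at h1
      rw [← h1]
      congr 2
      ext i
      fin_cases i <;> rfl
    refine ⟨n, ?_⟩
    rw [hq0, map_zero, sub_zero] at hq
    have : Set.range (fun _ : Fin 1 ↦ (MvPolynomial.X 0 * MvPolynomial.X 1 -
        B.F (MvPolynomial.X 2) : MvPolynomial (Fin 4) ℤ)) =
        {MvPolynomial.X 0 * MvPolynomial.X 1 - B.F (MvPolynomial.X 2)} := by
      simp
    rw [this]
    exact hq
  · intro a ha i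
    rw [Fin.sum_univ_one] at ha
    have hi : i = 0 := Subsingleton.elim _ _
    subst hi
    refine mem_of_mul_mem_sq B (Q.comap π) (a 0) ?_ ha
    rw [Ideal.mem_comap]
    have : π (MvPolynomial.X 0 * MvPolynomial.X 1 - B.F (MvPolynomial.X 2)) = 0 := by
      apply Subtype.ext
      rw [hπv, hg0]
      rfl
    rw [this]
    exact Q.zero_mem

end Pool.Agent.MP_602153_ag.Cubic
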