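import Pool.Agent.MP_602153_ag.CubicDF

set_option autoImplicit false

/-!
# Coordinates, norm and adjoint in a cubic field
-/

namespace Pool.Agent.MP_602153_ag.Cubic

open Module

/-- The adjoint `N(x) / x` of an element of a number field. -/
noncomputable def sharp {K : Type} [Field K] [NumberField K] (x : K) : K :=
  (Algebra.norm ℚ x : K) * x⁻¹

section Sharp

variable {K : Type} [Field K] [NumberField K]

theorem sharp_mul (x y : K) : sharp (x * y) = sharp x * sharp y := by
  unfold sharp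
  rw [map_mul, mul_inv]
  push_cast
  ring

theorem mul_sharp (x : K) : x * sharp x = (Algebra.norm ℚ x : K) := by
  unfold sharp
  by_cases hx : x = 0
  · subst hx
    rw [Algebra.norm_zero]
    simp
  · field_simp

theorem sharp_ne_zero {x : K} (hx : x ≠ 0) : sharp x ≠ 0 := by
  intro h
  have := mul_sharp x
  rw [h, mul_zero] at this
  have h2 : Algebra.norm ℚ x = 0 := by exact_mod_cast this.symm
  exact hx (Algebra.norm_eq_zero_iff.mp h2)

theorem sharp_zero : sharp (0 : K) = 0 := by simp [sharp]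

variable (h3 : finrank ℚ K = 3)

include h3 in
theorem norm_rat (q : ℚ) : Algebra.norm ℚ (q : K) = q ^ 3 := by
  have := Algebra.norm_algebraMap (S := K) q
  rw [h3] at this
  exact this

include h3 in
theorem sharp_rat (q : ℚ) : sharp (q : K) = (q ^ 2 : ℚ) := by
  by_cases hq : q = 0
  · subst hq
    simp [sharp]
  · have hq' : (q : K) ≠ 0 := by exact_mod_cast hq
    unfold sharp
    rw [norm_rat h3]
    push_cast
    field_simp

include h3 in
theorem norm_sharp (x : K) : Algebra.norm ℚ (sharp x) = Algebra.norm ℚ x ^ 2 := by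
  by_cases hx : x = 0
  · subst hx
    rw [sharp_zero, Algebra.norm_zero]
    simp
  · have hN : Algebra.norm ℚ x ≠ 0 := Algebra.norm_ne_zero_iff.mpr hx
    have h := congrArg (Algebra.norm ℚ) (mul_sharp x)
    rw [map_mul, norm_rat h3] at h
    have : Algebra.norm ℚ x * Algebra.norm ℚ (sharp x) =
        Algebra.norm ℚ x * Algebra.norm ℚ x ^ 2 := by
      rw [h]; ring
    exact mul_left_cancel₀ hN this

include h3 in
theorem sharp_sharp (x : K) : sharp (sharp x) = (Algebra.norm ℚ x : K) * x := by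
  by_cases hx : x = 0
  · subst hx
    rw [sharp_zero, sharp_zero, mul_zero]
  · have h := mul_sharp (sharp x)
    rw [norm_sharp h3] at h
    have h2 := mul_sharp x
    have h4 : sharp x * sharp (sharp x) = sharp x * ((Algebra.norm ℚ x : K) * x) := by
      rw [h]
      push_cast
      rw [← h2]
      ring
    exact mul_left_cancel₀ (sharp_ne_zero hx) h4

end Sharp

namespace DF

variable {K : Type} [Field K] [NumberField K] (B : DF K)

theorem linearIndependent : LinearIndependent ℚ ![(1 : K), B.w, B.t] := by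
  rw [Fintype.linearIndependent_iff]
  intro g hg
  rw [Fin.sum_univ_three] at hg
  have h := B.indep (g 0) (g 1) (g 2) (by
    rw [← hg]
    simp [Algebra.smul_def])
  intro i
  fin_cases i
  · exact h.1
  · exact h.2.1
  · exact h.2.2

/-- The basis `1, w, t` of `K`. -/
noncomputable def basis (h3 : finrank ℚ K = 3) : Basis (Fin 3) ℚ K :=
  basisOfLinearIndependentOfCardEqFinrank B.linearIndependent (by rw [h3]; rfl)

theorem basis_apply (h3 : finrank ℚ K = 3) (i : Fin 3) :
    B.basis h3 i = ![(1 : K), B.w, B.t] i := by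
  unfold basis
  rw [coe_basisOfLinearIndependentOfCardEqFinrank]

/-- The element with given coordinates. -/
def el (c : Fin 3 → ℚ) : K := c 0 + c 1 * B.w + c 2 * B.t

theorem exists_coord (h3 : finrank ℚ K = 3) (x : K) : ∃ c, B.el c = x := by
  refine ⟨(B.basis h3).repr x, ?_⟩
  have := (B.basis h3).sum_repr x
  rw [Fin.sum_univ_three] at this
  refine Eq.trans ?_ this
  simp [el, basis_apply, Algebra.smul_def]

theorem el_injective : Function.Injective B.el := by
  intro c c' h
  have := B.indep (c 0 - c' 0) (c 1 - c' 1) (c 2 - c' 2) (by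
    unfold el at h
    push_cast
    linear_combination h)
  ext i
  fin_cases i
  · exact sub_eq_zero.mp this.1
  · exact sub_eq_zero.mp this.2.1
  · exact sub_eq_zero.mp this.2.2

/-- The coordinates of an element. -/
noncomputable def co (h3 : finrank ℚ K = 3) (x : K) : Fin 3 → ℚ := (B.exists_coord h3 x).choose

theorem el_co (h3 : finrank ℚ K = 3) (x : K) : B.el (B.co h3 x) = x :=
  (B.exists_coord h3 x).choose_spec

theorem co_el (h3 : finrank ℚ K = 3) (c : Fin 3 → ℚ) : B.co h3 (B.el c) = c :=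
  B.el_injective (B.el_co h3 _)

section General

variable {R : Type*} [CommRing R]

/-- Multiplication in coordinates. -/
def cmul (x y : Fin 3 → R) : Fin 3 → R :=
  ![x 0 * y 0 - B.a * B.c * (x 1 * y 1) - B.a * B.d * (x 1 * y 2 + x 2 * y 1)
      - B.b * B.d * (x 2 * y 2),
    x 0 * y 1 + x 1 * y 0 + B.b * (x 1 * y 1) + B.d * (x 2 * y 2),
    x 0 * y 2 + x 2 * y 0 - B.a * (x 1 * y 1) - B.c * (x 2 * y 2)]

/-- The adjoint in coordinates. -/
def csh (x : Fin 3 → R) : Fin 3 → R :=
  ![x 0 ^ 2 + B.b * (x 0 * x 1) - B.c * (x 0 * x 2) + (B.a * B.d - B.b * B.c) * (x 1 * x 2),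
    -(x 0 * x 1) + B.d * x 2 ^ 2 + B.c * (x 1 * x 2),
    -(x 0 * x 2) - B.a * x 1 ^ 2 - B.b * (x 1 * x 2)]

/-- The norm in coordinates. -/
def cno (x : Fin 3 → R) : R :=
  x 0 * B.csh x 0 - B.a * B.c * (x 1 * B.csh x 1) - B.a * B.d * (x 1 * B.csh x 2 + x 2 * B.csh x 1)
      - B.b * B.d * (x 2 * B.csh x 2)

/-- The trace in coordinates. -/
def ctr (x : Fin 3 → R) : R := 3 * x 0 + B.b * x 1 - B.c * x 2

theorem cmul_csh (x : Fin 3 → R) : B.cmul x (B.csh x) = ![B.cno x, 0, 0] := by
  ext i
  fin_cases i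
  · rfl
  · simp only [cmul, csh, Matrix.cons_val_zero, Matrix.cons_val_one, Matrix.cons_val]
    simp
    ring
  · simp only [cmul, csh, Matrix.cons_val_zero, Matrix.cons_val_one, Matrix.cons_val]
    simp
    ring

theorem cmul_comm (x y : Fin 3 → R) : B.cmul x y = B.cmul y x := by
  ext i
  fin_cases i <;> simp [cmul] <;> ring

theorem cmul_assoc (x y z : Fin 3 → R) : B.cmul (B.cmul x y) z = B.cmul x (B.cmul y z) := by
  ext i
  fin_cases i <;> simp [cmul] <;> ring

theorem csh_cmul (x y : Fin 3 → R) : B.csh (B.cmul x y) = B.cmul (B.csh x) (B.csh y) := by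
  ext i
  fin_cases i <;> simp [cmul, csh] <;> ring

theorem csh_csh (x : Fin 3 → R) : B.csh (B.csh x) = B.cno x • x := by
  ext i
  fin_cases i <;> simp [cno, csh] <;> ring

theorem cmul_smul (q : R) (x y : Fin 3 → R) : B.cmul x (q • y) = q • B.cmul x y := by
  ext i
  fin_cases i <;> simp [cmul] <;> ring

theorem cno_add (x y : Fin 3 → R) : B.cno (x + y) = B.cno x + B.ctr (B.cmul (B.csh x) y) +
    B.ctr (B.cmul x (B.csh y)) + B.cno y := by
  simp only [cmul, cno, csh, ctr, Pi.add_apply, Matrix.cons_val_zero, Matrix.cons_val_one,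
    Matrix.cons_val]
  ring

theorem map_cmul {S : Type*} [CommRing S] (f : R →+* S) (x y : Fin 3 → R) (i : Fin 3) :
    f (B.cmul x y i) = B.cmul (fun i ↦ f (x i)) (fun i ↦ f (y i)) i := by
  fin_cases i <;> simp [cmul]

theorem map_csh {S : Type*} [CommRing S] (f : R →+* S) (x : Fin 3 → R) (i : Fin 3) :
    f (B.csh x i) = B.csh (fun i ↦ f (x i)) i := by
  fin_cases i <;> simp [csh]

theorem map_cno {S : Type*} [CommRing S] (f : R →+* S) (x : Fin 3 → R) :
    f (B.cno x) = B.cno (fun i ↦ f (x i)) := by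
  simp [cno, csh]

/-- The eight forms. -/
def forms (z s : Fin 3 → R) : Fin 8 → R :=
  ![B.cno s, B.cmul z (B.csh s) 0, B.cmul z (B.csh s) 1, B.cmul z (B.csh s) 2,
    B.cmul (B.csh z) s 0, B.cmul (B.csh z) s 1, B.cmul (B.csh z) s 2, B.cno z]

theorem map_forms {S : Type*} [CommRing S] (f : R →+* S) (z s : Fin 3 → R) (i : Fin 8) :
    f (B.forms z s i) = B.forms (fun i ↦ f (z i)) (fun i ↦ f (s i)) i := by
  have h1 : (fun i ↦ f (B.csh s i)) = B.csh (fun i ↦ f (s i)) := funext fun i ↦ map_csh B f s i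
  have h2 : (fun i ↦ f (B.csh z i)) = B.csh (fun i ↦ f (z i)) := funext fun i ↦ map_csh B f z i
  have hx : ∀ i, f (B.cmul z (B.csh s) i) =
      B.cmul (fun i ↦ f (z i)) (B.csh fun i ↦ f (s i)) i := fun i ↦ by rw [map_cmul, h1]
  have hy : ∀ i, f (B.cmul (B.csh z) s i) =
      B.cmul (B.csh fun i ↦ f (z i)) (fun i ↦ f (s i)) i := fun i ↦ by rw [map_cmul, h2]
  fin_cases i
  · exact map_cno B f s
  · exact hx 0
  · exact hx 1
  · exact hx 2
  · exact hy 0
  · exact hy 1
  · exact hy 2
  · exact map_cno B f z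

/-- Relations between the forms, first part. -/
theorem csh_x (z s : Fin 3 → R) : B.csh (B.cmul z (B.csh s)) = B.cno s • B.cmul (B.csh z) s := by
  rw [csh_cmul, csh_csh, cmul_smul]

/-- Relations between the forms, second part. -/
theorem csh_y (z s : Fin 3 → R) : B.csh (B.cmul (B.csh z) s) = B.cno z • B.cmul z (B.csh s) := by
  rw [cmul_comm, csh_cmul, csh_csh, cmul_smul, cmul_comm]

/-- Relations between the forms, third part. -/
theorem cmul_xy (z s : Fin 3 → R) : B.cmul (B.cmul z (B.csh s)) (B.cmul (B.csh z) s) =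
    ![B.cno s * B.cno z, 0, 0] := by
  have h1 : B.cmul (B.cmul z (B.csh s)) (B.cmul (B.csh z) s) =
      B.cmul (B.cmul z (B.csh z)) (B.cmul s (B.csh s)) := by
    rw [B.cmul_comm (B.csh z) s, B.cmul_assoc, ← B.cmul_assoc (B.csh s), B.cmul_comm (B.csh s) s,
      B.cmul_comm (B.cmul s (B.csh s)), ← B.cmul_assoc]
  rw [h1, cmul_csh, cmul_csh]
  ext i
  fin_cases i <;> simp [cmul, mul_comm]

end General

theorem el_mul (x y : Fin 3 → ℚ) : B.el x * B.el y = B.el (B.cmul x y) := by
  have e1 := B.hwt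
  have e2 := B.hww
  have e3 := B.htt
  simp only [el, cmul, Matrix.cons_val_zero, Matrix.cons_val_one, Matrix.cons_val]
  push_cast at e1 e2 e3 ⊢
  linear_combination ((x 1 : K) * y 2 + x 2 * y 1) * e1 + (x 1 : K) * y 1 * e2
    + (x 2 : K) * y 2 * e3

theorem el_rat (q : ℚ) : B.el ![q, 0, 0] = (q : K) := by simp [el]

/-- The matrix of multiplication. -/
theorem norm_el (h3 : finrank ℚ K = 3) (x : Fin 3 → ℚ) : Algebra.norm ℚ (B.el x) = B.cno x := by
  rw [Algebra.norm_eq_matrix_det (B.basis h3)]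
  have hrep : ∀ (c : Fin 3 → ℚ) (i : Fin 3), (B.basis h3).repr (B.el c) i = c i := by
    intro c i
    have : B.el c = ∑ j, c j • B.basis h3 j := by
      rw [Fin.sum_univ_three]
      simp [el, basis_apply, Algebra.smul_def]
    rw [this, Basis.repr_sum_self]
  have hb : ∀ j, B.basis h3 j = B.el (Pi.single j 1) := by
    intro j
    rw [basis_apply]
    fin_cases j <;> simp [el]
  have hent : ∀ i j, Algebra.leftMulMatrix (B.basis h3) (B.el x) i j =
      B.cmul x (Pi.single j 1) i := by
    intro i j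
    rw [Algebra.leftMulMatrix_eq_repr_mul, hb, el_mul, hrep]
  rw [Matrix.det_fin_three]
  simp only [hent]
  simp [cmul, cno, csh]
  ring

theorem sharp_el (h3 : finrank ℚ K = 3) (x : Fin 3 → ℚ) : sharp (B.el x) = B.el (B.csh x) := by
  by_cases hx : B.el x = 0
  · have : x = 0 := B.el_injective (by rw [hx]; simp [el])
    subst this
    rw [show B.el (0 : Fin 3 → ℚ) = 0 by simp [el], sharp_zero]
    simp [el, csh]
  · have h1 := mul_sharp (B.el x)
    rw [norm_el B h3] at h1
    have h2 : B.el x * B.el (B.csh x) = ((B.cno x : ℚ) : K) := by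
      rw [el_mul, cmul_csh, el_rat]
    exact mul_left_cancel₀ hx (h1.trans h2.symm)

end DF

end Pool.Agent.MP_602153_ag.Cubic
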