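import Pool.Agent.MP_602153_ag.CubicChart
import Pool.Agent.MP_602153_ag.CubicCoord
import Pool.Agent.MP_602153_ag.ParamModel

set_option autoImplicit false

/-!
# The charts of the model
-/

namespace Pool.Agent.MP_602153_ag.Cubic

open MvPolynomial

theorem map_aeval_int {R S κ : Type} [CommRing R] [CommRing S] [Algebra ℤ R] [Algebra ℤ S]
    (g : R →+* S) (e : κ → R) (q : MvPolynomial κ ℤ) :
    g (aeval e q) = aeval (fun i ↦ g (e i)) q := by
  have h : g.comp ((aeval e : MvPolynomial κ ℤ →ₐ[ℤ] R) : MvPolynomial κ ℤ →+* R) =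
      ((aeval fun i ↦ g (e i) : MvPolynomial κ ℤ →ₐ[ℤ] S) : MvPolynomial κ ℤ →+* S) := by
    apply MvPolynomial.ringHom_ext
    · intro r
      simp
    · intro i
      simp
  exact RingHom.congr_fun h q

/-- Ratios in a fraction field can be specialised. -/
theorem aeval_ratio {A F : Type} [CommRing A] [IsDomain A] [Field F] [Algebra A F]
    [IsFractionRing A F] (ρ : A →+* ℚ) {b : A} (hb : ρ b ≠ 0)
    {κ : Type} (c : κ → A) (q : MvPolynomial κ ℤ)
    (h : aeval (fun i ↦ algebraMap A F (c i) / algebraMap A F b) q = 0) :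
    aeval (fun i ↦ ρ (c i) / ρ b) q = 0 := by
  have hb0 : b ≠ 0 := by
    rintro rfl
    exact hb (map_zero ρ)
  have hbF : algebraMap A F b ≠ 0 := fun h0 ↦
    hb0 ((map_eq_zero_iff _ (IsFractionRing.injective A F)).mp h0)
  let Loc := Localization.Away b
  let j : Loc →+* F := IsLocalization.Away.lift b (isUnit_iff_ne_zero.mpr hbF)
  let ρ' : Loc →+* ℚ := IsLocalization.Away.lift b (isUnit_iff_ne_zero.mpr hb)
  have hj : ∀ a, j (algebraMap A Loc a) = algebraMap A F a := fun a ↦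
    IsLocalization.Away.lift_eq b _ a
  have hρ : ∀ a, ρ' (algebraMap A Loc a) = ρ a := fun a ↦
    IsLocalization.Away.lift_eq b _ a
  have hjinj : Function.Injective j := by
    rw [injective_iff_map_eq_zero]
    intro z hz
    obtain ⟨a, y, rfl⟩ := IsLocalization.exists_mk'_eq (Submonoid.powers b) z
    have h1 : algebraMap A F a = 0 := by
      rw [← hj, ← IsLocalization.mk'_spec Loc a y, map_mul, hz, zero_mul]
    rw [(map_eq_zero_iff _ (IsFractionRing.injective A F)).mp h1, IsLocalization.mk'_zero]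
  let e : κ → Loc := fun i ↦ IsLocalization.mk' Loc (c i)
    (⟨b, 1, pow_one b⟩ : Submonoid.powers b)
  have he : ∀ i, e i * algebraMap A Loc b = algebraMap A Loc (c i) := fun i ↦
    IsLocalization.mk'_spec Loc (c i) (⟨b, 1, pow_one b⟩ : Submonoid.powers b)
  have hje : ∀ i, j (e i) = algebraMap A F (c i) / algebraMap A F b := fun i ↦ by
    rw [eq_div_iff hbF, ← hj, ← hj, ← map_mul, he]
  have hρe : ∀ i, ρ' (e i) = ρ (c i) / ρ b := fun i ↦ by
    rw [eq_div_iff hb, ← hρ, ← hρ, ← map_mul, he]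
  have h1 : j (aeval e q) = 0 := by
    rw [map_aeval_int]
    have : (fun i ↦ j (e i)) = fun i ↦ algebraMap A F (c i) / algebraMap A F b :=
      funext hje
    rw [this]
    exact h
  have h2 : aeval e q = 0 := hjinj (h1.trans (map_zero j).symm)
  have h3 : ρ' (aeval e q) = 0 := by rw [h2, map_zero]
  rw [map_aeval_int] at h3
  have : (fun i ↦ ρ' (e i)) = fun i ↦ ρ (c i) / ρ b := funext hρe
  rwa [this] at h3

/-- The chart ring of a parametrised variety is generated by ratios. -/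
theorem chart_regular_of_adjoin {σ τ F : Type} {e : ℕ} [Field F]
    [Algebra (MvPolynomial τ ℤ) F] [IsFractionRing (MvPolynomial τ ℤ) F]
    (φ : MvPolynomial σ ℤ →ₐ[ℤ] MvPolynomial τ ℤ)
    (he : 0 < e) (hφ : ∀ s, (φ (X s)).IsHomogeneous e) (s : σ) (hs : φ (X s) ≠ 0)
    (h : IsRegularRing (Algebra.adjoin ℤ (Set.range fun t ↦
      algebraMap (MvPolynomial τ ℤ) F (φ (X t)) / algebraMap (MvPolynomial τ ℤ) F (φ (X s))))) :
    IsRegularRing (Pool.MP_602153_ag.ChartRing (RingHom.ker φ) s) := by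
  set ι : MvPolynomial τ ℤ →+* F := algebraMap (MvPolynomial τ ℤ) F with hι
  have hιinj : Function.Injective ι := IsFractionRing.injective (MvPolynomial τ ℤ) F
  have hβ : ι (φ (X s)) ≠ 0 := fun h0 ↦ hs ((map_eq_zero_iff _ hιinj).mp h0)
  let w : σ → F := fun t ↦ ι (φ (X t)) / ι (φ (X s))
  let θ : MvPolynomial σ ℤ →+* F := (aeval w : MvPolynomial σ ℤ →ₐ[ℤ] F)
  have hθX : ∀ t, θ (X t) = w t := fun t ↦ aeval_X w t
  have hmul : ∀ t, ι (φ (X s)) * θ (X t) = ι (φ (X t)) := fun t ↦ by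
    rw [hθX]
    exact mul_div_cancel₀ _ hβ
  have hI : RingHom.ker φ ≤ RingHom.ker θ :=
    Pool.MP_602153_ag.ker_le_ker φ he hφ θ ι (ι (φ (X s)))
      (mem_nonZeroDivisors_of_ne_zero hβ) hmul
  have h1 : θ (X s) = 1 := by
    rw [hθX]
    exact div_self hβ
  let D := Pool.MP_602153_ag.cdesc s θ hI h1
  have hD : ∀ f, D (Pool.MP_602153_ag.cmk (RingHom.ker φ) s f) = θ f := fun f ↦ rfl
  have hDinj : Function.Injective D := by
    rw [injective_iff_map_eq_zero]
    intro z hz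
    obtain ⟨f, rfl⟩ := Pool.MP_602153_ag.cmk_surjective s z
    rw [hD] at hz
    set N := f.totalDegree
    set g : MvPolynomial σ ℤ := ∑ i ∈ Finset.range (N + 1),
      X s ^ (N - i) * homogeneousComponent i f with hg
    have hghom : g.IsHomogeneous N := by
      refine IsHomogeneous.sum _ _ _ fun i hi ↦ ?_
      have hi' : N - i + i = N := Nat.sub_add_cancel (Nat.lt_succ_iff.mp (Finset.mem_range.mp hi))
      have := ((isHomogeneous_X ℤ s).pow (N - i)).mul (homogeneousComponent_isHomogeneous i f)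
      rw [one_mul, hi'] at this
      exact this
    have hcg : Pool.MP_602153_ag.cmk (RingHom.ker φ) s g =
        Pool.MP_602153_ag.cmk (RingHom.ker φ) s f := by
      conv_rhs => rw [← sum_homogeneousComponent f]
      rw [hg, map_sum, map_sum]
      refine Finset.sum_congr rfl fun i _ ↦ ?_
      rw [map_mul, map_pow, Pool.MP_602153_ag.cmk_self, one_pow, one_mul]
    have hθg : θ g = 0 := by
      rw [← hz, ← hD g, hcg, hD]
    have h2 := Pool.MP_602153_ag.scale_hom θ (ι.comp (φ : MvPolynomial σ ℤ →+* MvPolynomial τ ℤ))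
      (ι (φ (X s))) hmul hghom
    rw [hθg, mul_zero] at h2
    have h3 : φ g = 0 := hιinj (h2.symm.trans (map_zero ι).symm)
    rw [← hcg]
    exact Pool.MP_602153_ag.cmk_eq_zero s h3
  have hrange : ∀ z, D z ∈ Algebra.adjoin ℤ (Set.range w) := by
    intro z
    obtain ⟨f, rfl⟩ := Pool.MP_602153_ag.cmk_surjective s z
    rw [hD, Algebra.adjoin_range_eq_range_aeval]
    exact ⟨f, rfl⟩
  let D' : Pool.MP_602153_ag.ChartRing (RingHom.ker φ) s →+* Algebra.adjoin ℤ (Set.range w) :=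
    D.codRestrict _ hrange
  have hbij : Function.Bijective D' := by
    constructor
    · intro a b hab
      apply hDinj
      exact congrArg (fun z : Algebra.adjoin ℤ (Set.range w) ↦ (z : F)) hab
    · rintro ⟨y, hy⟩
      have hy' := hy
      rw [Algebra.adjoin_range_eq_range_aeval] at hy'
      obtain ⟨f, hf⟩ := hy'
      refine ⟨Pool.MP_602153_ag.cmk (RingHom.ker φ) s f, Subtype.ext ?_⟩
      exact hf
  exact IsRegularRing.of_ringEquiv (RingEquiv.ofBijective D' hbij).symm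

variable {K : Type} [Field K] [NumberField K] (B : DF K)

section Rel

variable {R : Type*} [CommRing R] (z s : Fin 3 → R)

theorem rel1 : B.forms z s 0 * B.forms z s 4 = B.forms z s 1 ^ 2 +
    B.b * (B.forms z s 1 * B.forms z s 2) - B.c * (B.forms z s 1 * B.forms z s 3) +
    (B.a * B.d - B.b * B.c) * (B.forms z s 2 * B.forms z s 3) :=
  (congrFun (B.csh_x z s) 0).symm

theorem rel2 : B.forms z s 0 * B.forms z s 5 = -(B.forms z s 1 * B.forms z s 2) +
    B.d * B.forms z s 3 ^ 2 + B.c * (B.forms z s 2 * B.forms z s 3) :=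
  (congrFun (B.csh_x z s) 1).symm

theorem rel3 : B.forms z s 0 * B.forms z s 6 = -(B.forms z s 1 * B.forms z s 3) -
    B.a * B.forms z s 2 ^ 2 - B.b * (B.forms z s 2 * B.forms z s 3) :=
  (congrFun (B.csh_x z s) 2).symm

theorem rel4 : B.forms z s 7 * B.forms z s 1 = B.forms z s 4 ^ 2 +
    B.b * (B.forms z s 4 * B.forms z s 5) - B.c * (B.forms z s 4 * B.forms z s 6) +
    (B.a * B.d - B.b * B.c) * (B.forms z s 5 * B.forms z s 6) :=
  (congrFun (B.csh_y z s) 0).symm

theorem rel5 : B.forms z s 7 * B.forms z s 2 = -(B.forms z s 4 * B.forms z s 5) +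
    B.d * B.forms z s 6 ^ 2 + B.c * (B.forms z s 5 * B.forms z s 6) :=
  (congrFun (B.csh_y z s) 1).symm

theorem rel6 : B.forms z s 7 * B.forms z s 3 = -(B.forms z s 4 * B.forms z s 6) -
    B.a * B.forms z s 5 ^ 2 - B.b * (B.forms z s 5 * B.forms z s 6) :=
  (congrFun (B.csh_y z s) 2).symm

theorem rel7 : B.forms z s 0 * B.forms z s 7 = B.forms z s 1 * B.forms z s 4 -
    B.a * B.c * (B.forms z s 2 * B.forms z s 5) - B.a * B.d * (B.forms z s 2 * B.forms z s 6 +
    B.forms z s 3 * B.forms z s 5) - B.b * B.d * (B.forms z s 3 * B.forms z s 6) :=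
  (congrFun (B.cmul_xy z s) 0).symm

theorem rel8 : B.forms z s 1 * B.forms z s 5 + B.forms z s 2 * B.forms z s 4 +
    B.b * (B.forms z s 2 * B.forms z s 5) + B.d * (B.forms z s 3 * B.forms z s 6) = 0 :=
  (congrFun (B.cmul_xy z s) 1)

theorem rel9 : B.forms z s 1 * B.forms z s 6 + B.forms z s 3 * B.forms z s 4 -
    B.a * (B.forms z s 2 * B.forms z s 5) - B.c * (B.forms z s 3 * B.forms z s 6) = 0 :=
  (congrFun (B.cmul_xy z s) 2)

end Rel

/-- The polynomial charts. -/
theorem regular_chart_poly {F : Type} [Field F] (v : Fin 8 → F) (hx : v 0 ≠ 0)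
    (r1 : v 0 * v 4 = v 1 ^ 2 + B.b * (v 1 * v 2) - B.c * (v 1 * v 3) +
      (B.a * B.d - B.b * B.c) * (v 2 * v 3))
    (r2 : v 0 * v 5 = -(v 1 * v 2) + B.d * v 3 ^ 2 + B.c * (v 2 * v 3))
    (r3 : v 0 * v 6 = -(v 1 * v 3) - B.a * v 2 ^ 2 - B.b * (v 2 * v 3))
    (r7 : v 0 * v 7 = v 1 * v 4 - B.a * B.c * (v 2 * v 5) - B.a * B.d * (v 2 * v 6 + v 3 * v 5) -
      B.b * B.d * (v 3 * v 6))
    (hind : ∀ q : MvPolynomial (Fin 3) ℤ,
      MvPolynomial.aeval ![v 1 / v 0, v 2 / v 0, v 3 / v 0] q = 0 → q = 0) :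
    IsRegularRing (Algebra.adjoin ℤ (Set.range fun s ↦ v s / v 0)) := by
  let w : Fin 3 → F := ![v 1 / v 0, v 2 / v 0, v 3 / v 0]
  have h4 : v 4 / v 0 = (v 1 / v 0) ^ 2 + B.b * ((v 1 / v 0) * (v 2 / v 0)) -
      B.c * ((v 1 / v 0) * (v 3 / v 0)) +
      (B.a * B.d - B.b * B.c) * ((v 2 / v 0) * (v 3 / v 0)) := by
    field_simp
    linear_combination r1
  have h5 : v 5 / v 0 = -((v 1 / v 0) * (v 2 / v 0)) + B.d * (v 3 / v 0) ^ 2 +
      B.c * ((v 2 / v 0) * (v 3 / v 0)) := by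
    field_simp
    linear_combination r2
  have h6 : v 6 / v 0 = -((v 1 / v 0) * (v 3 / v 0)) - B.a * (v 2 / v 0) ^ 2 -
      B.b * ((v 2 / v 0) * (v 3 / v 0)) := by
    field_simp
    linear_combination r3
  have h7 : v 7 / v 0 = (v 1 / v 0) * (v 4 / v 0) - B.a * B.c * ((v 2 / v 0) * (v 5 / v 0)) -
      B.a * B.d * ((v 2 / v 0) * (v 6 / v 0) + (v 3 / v 0) * (v 5 / v 0)) -
      B.b * B.d * ((v 3 / v 0) * (v 6 / v 0)) := by
    field_simp
    linear_combination r7
  have hrange : Algebra.adjoin ℤ (Set.range fun s ↦ v s / v 0) =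
      (MvPolynomial.aeval w : MvPolynomial (Fin 3) ℤ →ₐ[ℤ] F).range := by
    apply le_antisymm
    · rw [Algebra.adjoin_le_iff]
      rintro _ ⟨s, rfl⟩
      have mw : ∀ i, w i ∈ (MvPolynomial.aeval w : MvPolynomial (Fin 3) ℤ →ₐ[ℤ] F).range :=
        fun i ↦ ⟨MvPolynomial.X i, MvPolynomial.aeval_X w i⟩
      set R := (MvPolynomial.aeval w : MvPolynomial (Fin 3) ℤ →ₐ[ℤ] F).range with hR
      have m1 : v 1 / v 0 ∈ R := mw 0
      have m2 : v 2 / v 0 ∈ R := mw 1
      have m3 : v 3 / v 0 ∈ R := mw 2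
      have mZ : ∀ n : ℤ, (n : F) ∈ R := fun n ↦ intCast_mem R n
      have m0 : v 0 / v 0 ∈ R := by
        rw [div_self hx]
        exact R.one_mem
      have mad : ((B.a * B.d - B.b * B.c : ℤ) : F) ∈ R := mZ _
      push_cast at mad
      have m4 : v 4 / v 0 ∈ R := by
        rw [h4]
        exact R.add_mem (R.sub_mem (R.add_mem (R.pow_mem m1 2) (R.mul_mem (mZ _)
          (R.mul_mem m1 m2))) (R.mul_mem (mZ _) (R.mul_mem m1 m3))) (R.mul_mem mad
          (R.mul_mem m2 m3))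
      have m5 : v 5 / v 0 ∈ R := by
        rw [h5]
        exact R.add_mem (R.add_mem (R.neg_mem (R.mul_mem m1 m2)) (R.mul_mem (mZ _)
          (R.pow_mem m3 2))) (R.mul_mem (mZ _) (R.mul_mem m2 m3))
      have m6 : v 6 / v 0 ∈ R := by
        rw [h6]
        exact R.sub_mem (R.sub_mem (R.neg_mem (R.mul_mem m1 m3)) (R.mul_mem (mZ _)
          (R.pow_mem m2 2))) (R.mul_mem (mZ _) (R.mul_mem m2 m3))
      have m7 : v 7 / v 0 ∈ R := by
        rw [h7]
        exact R.sub_mem (R.sub_mem (R.sub_mem (R.mul_mem m1 m4) (R.mul_mem (R.mul_mem (mZ _)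
          (mZ _)) (R.mul_mem m2 m5))) (R.mul_mem (R.mul_mem (mZ _) (mZ _)) (R.add_mem
          (R.mul_mem m2 m6) (R.mul_mem m3 m5)))) (R.mul_mem (R.mul_mem (mZ _) (mZ _))
          (R.mul_mem m3 m6))
      fin_cases s
      · exact m0
      · exact m1
      · exact m2
      · exact m3
      · exact m4
      · exact m5
      · exact m6
      · exact m7
    · rw [← Algebra.adjoin_range_eq_range_aeval, Algebra.adjoin_le_iff]
      set R := Algebra.adjoin ℤ (Set.range fun s ↦ v s / v 0) with hR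
      have mv : ∀ s, v s / v 0 ∈ R := fun s ↦ Algebra.subset_adjoin ⟨s, rfl⟩
      rintro _ ⟨s, rfl⟩
      fin_cases s
      · exact mv 1
      · exact mv 2
      · exact mv 3
  rw [hrange]
  have hinj : Function.Injective (MvPolynomial.aeval w : MvPolynomial (Fin 3) ℤ →ₐ[ℤ] F) := by
    rw [injective_iff_map_eq_zero]
    exact hind
  exact IsRegularRing.of_ringEquiv (AlgEquiv.ofInjective _ hinj).toRingEquiv

end Pool.Agent.MP_602153_ag.Cubic
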