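import Mathlib

set_option autoImplicit false

/-!
# Delone-Faddeev bases of the ring of integers of a cubic field
-/

namespace Pool.Agent.MP_602153_ag.Cubic

/-- A basis `1, w, t` of the ring of integers of a cubic number field with `w * t` in `ℤ`, and its
binary cubic form `(a, b, c, d)`. -/
structure DF (K : Type) [Field K] [NumberField K] where
  a : ℤ
  b : ℤ
  c : ℤ
  d : ℤ
  w : K
  t : K
  hwt : w * t = -(a * d : ℤ)
  hww : w * w = -(a * c : ℤ) + b * w - a * t
  htt : t * t = -(b * d : ℤ) + d * w - c * t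
  intw : IsIntegral ℤ w
  intt : IsIntegral ℤ t
  span : ∀ x : K, IsIntegral ℤ x → ∃ m n k : ℤ, x = m + n * w + k * t
  indep : ∀ m n k : ℚ, (m : K) + n * w + k * t = 0 → m = 0 ∧ n = 0 ∧ k = 0

/-- The ring of integers of a number field has a basis containing `1`; cubic case. -/
theorem exists_basis_one (K : Type) [Field K] [NumberField K] (h3 : Module.finrank ℚ K = 3) :
    ∃ e f : K, IsIntegral ℤ e ∧ IsIntegral ℤ f ∧
      (∀ x : K, IsIntegral ℤ x → ∃ m n k : ℤ, x = m + n * e + k * f) ∧
      (∀ m n k : ℚ, (m : K) + n * e + k * f = 0 → m = 0 ∧ n = 0 ∧ k = 0) := by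
  classical
  let O := NumberField.RingOfIntegers K
  let N : Submodule ℤ O := Submodule.span ℤ {(1 : O)}
  have hN : ∀ x : O, x ∈ N ↔ ∃ m : ℤ, (x : K) = m := by
    intro x
    rw [Submodule.mem_span_singleton]
    constructor
    · rintro ⟨m, rfl⟩
      exact ⟨m, by simp⟩
    · rintro ⟨m, hm⟩
      refine ⟨m, ?_⟩
      apply NumberField.RingOfIntegers.ext
      rw [hm]
      simp
  have htf : Module.IsTorsionFree ℤ (O ⧸ N) := by
    rw [Module.isTorsionFree_iff_smul_eq_zero]
    intro r m h
    obtain ⟨x, rfl⟩ := N.mkQ_surjective m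
    by_cases hr : r = 0
    · exact Or.inl hr
    right
    rw [← map_smul] at h
    have h1 : r • x ∈ N := by
      rwa [Submodule.mkQ_apply, Submodule.Quotient.mk_eq_zero] at h
    rw [hN] at h1
    obtain ⟨m, hm⟩ := h1
    rw [Submodule.mkQ_apply, Submodule.Quotient.mk_eq_zero, hN]
    have hm' : (r : K) * (x : K) = m := by
      rw [← hm]
      simp
    have hr' : (r : K) ≠ 0 := by exact_mod_cast hr
    have hx : (x : K) = algebraMap ℚ K (m / r : ℚ) := by
      rw [map_div₀, eq_div_iff (by simpa using hr)]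
      rw [mul_comm]
      simpa using hm'
    have hint : IsIntegral ℤ (m / r : ℚ) := by
      have := x.2
      have h2 : IsIntegral ℤ (algebraMap ℚ K (m / r : ℚ)) := by
        rw [← hx]
        exact NumberField.RingOfIntegers.isIntegral_coe x
      exact (isIntegral_algebraMap_iff (algebraMap ℚ K).injective).mp h2
    obtain ⟨y, hy⟩ := IsIntegrallyClosed.isIntegral_iff.mp hint
    refine ⟨y, ?_⟩
    rw [hx, ← hy]
    simp
  have hfree : Module.Free ℤ (O ⧸ N) := Module.free_of_finite_type_torsion_free'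
  have hrankN : Module.finrank ℤ N = 1 := by
    have h1 := (LinearEquiv.toSpanNonzeroSingleton ℤ O (1 : O) one_ne_zero).finrank_eq
    rw [Module.finrank_self] at h1
    exact h1.symm
  have hrank : Module.finrank ℤ (O ⧸ N) = 2 := by
    have h1 := Submodule.finrank_quotient_add_finrank N
    have h2 : Module.finrank ℤ O = 3 := by
      rw [NumberField.RingOfIntegers.rank, h3]
    omega
  let q := Module.finBasisOfFinrankEq ℤ (O ⧸ N) hrank
  obtain ⟨e, he⟩ := N.mkQ_surjective (q 0)
  obtain ⟨f, hf⟩ := N.mkQ_surjective (q 1)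
  refine ⟨e, f, NumberField.RingOfIntegers.isIntegral_coe e,
    NumberField.RingOfIntegers.isIntegral_coe f, ?_, ?_⟩
  · intro x hx
    let x' : O := ⟨x, hx⟩
    have h1 := q.sum_repr (N.mkQ x')
    rw [Fin.sum_univ_two, ← he, ← hf, ← map_smul, ← map_smul, ← map_add] at h1
    have h2 : x' - (q.repr (N.mkQ x') 0 • e + q.repr (N.mkQ x') 1 • f) ∈ N := by
      rw [← Submodule.Quotient.mk_eq_zero, ← Submodule.mkQ_apply, map_sub, h1, sub_self]
    rw [hN] at h2
    obtain ⟨m, hm⟩ := h2
    refine ⟨m, q.repr (N.mkQ x') 0, q.repr (N.mkQ x') 1, ?_⟩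
    have h3 : (x' : K) = x := rfl
    rw [← h3, ← hm]
    simp only [map_sub, map_add, zsmul_eq_mul, map_mul, map_intCast]
    ring
  · intro m n k h
    -- clear denominators
    obtain ⟨D, hD, M, N', K', hM, hN', hK'⟩ : ∃ D : ℤ, D ≠ 0 ∧ ∃ M N' K' : ℤ,
        (D : ℚ) * m = M ∧ (D : ℚ) * n = N' ∧ (D : ℚ) * k = K' := by
      refine ⟨m.den * n.den * k.den, by
        have := m.den_nz; have := n.den_nz; have := k.den_nz
        positivity, m.num * n.den * k.den, n.num * m.den * k.den, k.num * m.den * n.den, ?_, ?_, ?_⟩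
      · have := Rat.mul_den_eq_num m
        push_cast
        linear_combination (n.den * k.den : ℚ) * this
      · have := Rat.mul_den_eq_num n
        push_cast
        linear_combination (m.den * k.den : ℚ) * this
      · have := Rat.mul_den_eq_num k
        push_cast
        linear_combination (m.den * n.den : ℚ) * this
    have h1 : (M : K) + N' * (e : K) + K' * (f : K) = 0 := by
      have e1 : (M : K) = D * m := by exact_mod_cast congrArg (fun q : ℚ ↦ (q : K)) hM.symm
      have e2 : (N' : K) = D * n := by exact_mod_cast congrArg (fun q : ℚ ↦ (q : K)) hN'.symm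
      have e3 : (K' : K) = D * k := by exact_mod_cast congrArg (fun q : ℚ ↦ (q : K)) hK'.symm
      rw [e1, e2, e3]
      linear_combination (D : K) * h
    have h2 : N' • e + K' • f ∈ N := by
      rw [hN]
      refine ⟨-M, ?_⟩
      simp only [map_add, zsmul_eq_mul, map_mul, map_intCast]
      push_cast
      linear_combination h1
    have h3 : N' • q 0 + K' • q 1 = 0 := by
      rw [← he, ← hf, ← map_smul, ← map_smul, ← map_add, Submodule.mkQ_apply,
        Submodule.Quotient.mk_eq_zero]
      exact h2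
    have h4 := Fintype.linearIndependent_iff.mp q.linearIndependent ![N', K'] (by
      rw [Fin.sum_univ_two]
      simpa using h3)
    have h5 : N' = 0 := by simpa using h4 0
    have h6 : K' = 0 := by simpa using h4 1
    have hD' : (D : ℚ) ≠ 0 := by exact_mod_cast hD
    rw [h5] at hN'
    rw [h6] at hK'
    have hn : n = 0 := by simpa [hD'] using hN'
    have hk : k = 0 := by simpa [hD'] using hK'
    refine ⟨?_, hn, hk⟩
    rw [hn, hk] at h
    simpa using h

/-- Delone-Faddeev bases exist. -/
theorem exists_df (K : Type) [Field K] [NumberField K] (h3 : Module.finrank ℚ K = 3) :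
    Nonempty (DF K) := by
  obtain ⟨e, f, he, hf, hspan, hind⟩ := exists_basis_one K h3
  obtain ⟨A, B, C, hABC⟩ := hspan (e * f) (he.mul hf)
  set w : K := e - C with hw
  set t : K := f - B with ht
  have hintw : IsIntegral ℤ w := he.sub (isIntegral_algebraMap (x := C))
  have hintt : IsIntegral ℤ t := hf.sub (isIntegral_algebraMap (x := B))
  have hspan' : ∀ x : K, IsIntegral ℤ x → ∃ m n k : ℤ, x = m + n * w + k * t := by
    intro x hx
    obtain ⟨m, n, k, h⟩ := hspan x hx
    refine ⟨m + n * C + k * B, n, k, ?_⟩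
    rw [h, hw, ht]
    push_cast
    ring
  have hind' : ∀ m n k : ℚ, (m : K) + n * w + k * t = 0 → m = 0 ∧ n = 0 ∧ k = 0 := by
    intro m n k h
    have := hind (m - n * C - k * B) n k (by
      rw [← h, hw, ht]
      push_cast
      ring)
    obtain ⟨h1, h2, h3⟩ := this
    subst h2 h3
    refine ⟨by simpa using h1, rfl, rfl⟩
  have hwt : w * t = ((A + B * C : ℤ) : K) := by
    rw [hw, ht]
    push_cast
    linear_combination hABC
  obtain ⟨a0, a1, a2, ha⟩ := hspan' (w * w) (hintw.mul hintw)
  obtain ⟨c0, c1, c2, hc⟩ := hspan' (t * t) (hintt.mul hintt)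
  set n : ℤ := A + B * C with hn
  have hindZ : ∀ m n k : ℤ, (m : K) + n * w + k * t = 0 → m = 0 ∧ n = 0 ∧ k = 0 := by
    intro m n k h
    have := hind' m n k (by push_cast; exact h)
    exact_mod_cast this
  -- w^2 t = n w
  have e1 := hindZ (a1 * n + a2 * c0) (a2 * c1 - n) (a0 + a2 * c2) (by
    push_cast
    linear_combination (-(a1 : K)) * hwt + (-(a2 : K)) * hc - t * ha + w * hwt)
  have e2 := hindZ (c1 * a0 + c2 * n) (c0 + c1 * a1) (c1 * a2 - n) (by
    push_cast
    linear_combination (-(c2 : K)) * hwt + (-(c1 : K)) * ha - w * hc + t * hwt)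
  refine ⟨⟨-a2, a1, -c2, c1, w, t, ?_, ?_, ?_, hintw, hintt, hspan', hind'⟩⟩
  · rw [hwt, ← sub_eq_zero]
    have h : n - a2 * c1 = 0 := by linarith [e1.2.1]
    have := congrArg (fun z : ℤ ↦ (z : K)) h
    push_cast at this ⊢
    linear_combination this
  · have h : a0 + a2 * c2 = 0 := e1.2.2
    have := congrArg (fun z : ℤ ↦ (z : K)) h
    push_cast at this ⊢
    linear_combination ha + this
  · have h : c0 + c1 * a1 = 0 := e2.2.1
    have := congrArg (fun z : ℤ ↦ (z : K)) h
    push_cast at this ⊢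
    linear_combination hc + this

namespace DF

variable {K : Type} [Field K] [NumberField K] (B : DF K)

/-- Exchange of `w` and `t`. -/
def swap : DF K where
  a := -B.d
  b := -B.c
  c := -B.b
  d := -B.a
  w := B.t
  t := B.w
  hwt := by
    have := B.hwt
    push_cast at this ⊢
    linear_combination this
  hww := by
    have := B.htt
    push_cast at this ⊢
    linear_combination this
  htt := by
    have := B.hww
    push_cast at this ⊢
    linear_combination this
  intw := B.intt
  intt := B.intw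
  span := fun x hx ↦ by
    obtain ⟨m, n, k, h⟩ := B.span x hx
    exact ⟨m, k, n, by rw [h]; ring⟩
  indep := fun m n k h ↦ by
    have := B.indep m k n (by rw [← h]; ring)
    exact ⟨this.1, this.2.2, this.2.1⟩

/-- The cubic polynomial of a Delone-Faddeev basis. -/
def F (B : DF K) {R : Type*} [CommRing R] (x : R) : R := B.a * x ^ 3 + B.b * x ^ 2 + B.c * x + B.d

/-- Its derivative. -/
def F' (B : DF K) {R : Type*} [CommRing R] (x : R) : R := 3 * B.a * x ^ 2 + 2 * B.b * x + B.c

theorem w_ne_zero : B.w ≠ 0 := fun h ↦ by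
  have := (B.indep 0 1 0 (by simp [h])).2.1
  norm_num at this

/-- The cubic form has no rational root. -/
theorem no_root (r : ℚ) : B.F r ≠ 0 := by
  intro h
  have hF : ((B.F r : ℚ) : K) = 0 := by rw [h]; simp
  have key : (B.w + B.a * r) * (B.t + r * B.w - (B.a * r ^ 2 + B.b * r)) = 0 := by
    have h1 := B.hwt
    have h2 := B.hww
    unfold F at hF
    push_cast at hF h1 h2 ⊢
    linear_combination h1 + (r : K) * h2 - (B.a : K) * hF
  rcases mul_eq_zero.mp key with h1 | h1
  · have := (B.indep (B.a * r) 1 0 (by push_cast; linear_combination h1)).2.1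
    norm_num at this
  · have := (B.indep (-(B.a * r ^ 2 + B.b * r)) r 1 (by
      push_cast
      linear_combination h1)).2.2
    norm_num at this

/-- The cubic form is primitive. -/
theorem primitive (p : ℕ) (hp : p.Prime) (ha : (p : ℤ) ∣ B.a) (hb : (p : ℤ) ∣ B.b)
    (hc : (p : ℤ) ∣ B.c) (hd : (p : ℤ) ∣ B.d) : False := by
  obtain ⟨a', ha⟩ := ha
  obtain ⟨b', hb⟩ := hb
  obtain ⟨c', hc⟩ := hc
  obtain ⟨d', hd⟩ := hd
  have hp0 : (p : K) ≠ 0 := by exact_mod_cast hp.ne_zero
  have h1 := B.hwt
  have h2 := B.hww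
  rw [ha, hd] at h1
  rw [ha, hb, hc] at h2
  push_cast at h1 h2
  have hcub : (B.w / p) ^ 3 - (b' : K) * (B.w / p) ^ 2 + (a' * c' : K) * (B.w / p)
      - (a' ^ 2 * d' : K) = 0 := by
    field_simp
    linear_combination B.w * h2 - (p : K) * a' * h1
  have hint : IsIntegral ℤ (B.w / p) := by
    refine ⟨Polynomial.X ^ 3 - Polynomial.C b' * Polynomial.X ^ 2
      + Polynomial.C (a' * c') * Polynomial.X - Polynomial.C (a' ^ 2 * d'), ?_, ?_⟩
    · monicity!
    · simp only [Polynomial.eval₂_sub, Polynomial.eval₂_add, Polynomial.eval₂_mul,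
        Polynomial.eval₂_pow, Polynomial.eval₂_X, Polynomial.eval₂_C]
      simpa using hcub
  obtain ⟨m, n, k, h⟩ := B.span _ hint
  have := (B.indep (m * p) (n * p - 1) (k * p) (by
    have h' : B.w = p * (m + n * B.w + k * B.t) := by
      rw [← h]; field_simp
    push_cast
    linear_combination -h')).2.1
  have h3 : (n : ℤ) * p = 1 := by
    have : (n * p : ℚ) = 1 := by linarith
    exact_mod_cast this
  have h4 : (p : ℤ) ∣ 1 := ⟨n, by rw [← h3]; ring⟩
  have h5 := Int.natAbs_dvd_natAbs.mpr h4
  simp at h5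
  exact hp.one_lt.ne' h5

/-- Maximality of the ring of integers, in terms of the cubic form. -/
theorem maximal (p : ℕ) (hp : p.Prime) (r : ℤ) (h1 : (p : ℤ) ^ 2 ∣ B.F r)
    (h2 : (p : ℤ) ∣ B.F' r) : False := by
  obtain ⟨d', hd⟩ := h1
  obtain ⟨c', hc⟩ := h2
  have hp0 : (p : K) ≠ 0 := by exact_mod_cast hp.ne_zero
  have e1 := B.hwt
  have e2 := B.hww
  have e3 := B.htt
  have hd' := congrArg (fun z : ℤ ↦ (z : K)) hd
  have hc' := congrArg (fun z : ℤ ↦ (z : K)) hc
  unfold F at hd'
  unfold F' at hc'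
  push_cast at e1 e2 e3 hd' hc'
  set y : K := B.t + r * B.w - (B.a * r ^ 2 + B.b * r) with hy
  set v : K := B.w + B.a * r with hv
  -- y v = - a F(r),  y^2 = -b' F(r) + F(r) v - F'(r) y with b' = b + 3 a r
  have k1 : v * y = -(B.a * (p ^ 2 * d')) := by
    rw [hy, hv]
    linear_combination e1 + (r : K) * e2 - (B.a : K) * hd'
  have k2 : y * y = -((B.b + 3 * B.a * r) * (p ^ 2 * d')) + (p ^ 2 * d') * v - (p * c') * y := by
    rw [← hd', ← hc', hy, hv]
    linear_combination e3 + 2 * (r : K) * e1 + (r : K) ^ 2 * e2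
  have hcub : (y / p) ^ 3 + (c' : K) * (y / p) ^ 2 + ((B.b + 3 * B.a * r) * d' : K) * (y / p)
      + (p * B.a * d' ^ 2 : K) = 0 := by
    field_simp
    linear_combination y * k2 + (p : K) ^ 2 * d' * k1
  have hint : IsIntegral ℤ (y / p) := by
    refine ⟨Polynomial.X ^ 3 + Polynomial.C c' * Polynomial.X ^ 2
      + Polynomial.C ((B.b + 3 * B.a * r) * d') * Polynomial.X
      + Polynomial.C (p * B.a * d' ^ 2), ?_, ?_⟩
    · monicity!
    · simp only [Polynomial.eval₂_add, Polynomial.eval₂_mul,
        Polynomial.eval₂_pow, Polynomial.eval₂_X, Polynomial.eval₂_C]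
      simpa using hcub
  obtain ⟨m, n, k, h⟩ := B.span _ hint
  have := (B.indep (m * p + (B.a * r ^ 2 + B.b * r)) (n * p - r) (k * p - 1) (by
    have h' : y = p * (m + n * B.w + k * B.t) := by
      rw [← h]; field_simp
    push_cast
    rw [hy] at h'
    linear_combination -h')).2.2
  have h3 : (k : ℤ) * p = 1 := by
    have : (k * p : ℚ) = 1 := by linarith
    exact_mod_cast this
  have h4 : (p : ℤ) ∣ 1 := ⟨k, by rw [← h3]; ring⟩
  have h5 := Int.natAbs_dvd_natAbs.mpr h4
  simp at h5
  exact hp.one_lt.ne' h5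

end DF

end Pool.Agent.MP_602153_ag.Cubic
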