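import Mathlib
import Pool.Agent.MP_602153_ag.ParamModel
import Pool.Agent.MP_602153_ag.SurfReg
import Pool.Agent.MP_602153_ag.CubicAlg

set_option autoImplicit false

/-!
# The model of the Weil restriction of the projective line along a cubic extension
-/

namespace Pool.MP_602153_ag

section Transport

open MvPolynomial

variable {σ σ' : Type} {I : Ideal (MvPolynomial σ ℤ)} {I' : Ideal (MvPolynomial σ' ℤ)}

/-- Transport of charts along a permutation of the coordinates. -/
theorem chart_transport (π : σ ≃ σ') (h : ∀ f, f ∈ I ↔ rename π f ∈ I') (s : σ)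
    (hreg : IsRegularRing (ChartRing I s)) : IsRegularRing (ChartRing I' (π s)) := by
  let ren : MvPolynomial σ ℤ →+* MvPolynomial σ' ℤ :=
    (rename π : MvPolynomial σ ℤ →ₐ[ℤ] MvPolynomial σ' ℤ)
  let ren' : MvPolynomial σ' ℤ →+* MvPolynomial σ ℤ :=
    (rename π.symm : MvPolynomial σ' ℤ →ₐ[ℤ] MvPolynomial σ ℤ)
  have hren : ∀ t, ren (X t) = X (π t) := fun t => rename_X _ _
  have hren' : ∀ t, ren' (X t) = X (π.symm t) := fun t => rename_X _ _
  have hrr : ∀ f, ren (ren' f) = f := by
    intro f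
    change rename π (rename π.symm f) = f
    rw [rename_rename]
    simp
  let θ : MvPolynomial σ' ℤ →+* ChartRing I s := (cmk I s).comp ren'
  have hI' : I' ≤ RingHom.ker θ := by
    intro f hf
    rw [RingHom.mem_ker]
    apply cmk_eq_zero
    rw [h]
    change ren (ren' f) ∈ I'
    rw [hrr]
    exact hf
  have h1 : θ (X (π s)) = 1 := by
    change cmk I s (ren' (X (π s))) = 1
    rw [hren', π.symm_apply_apply]
    exact cmk_self s
  have hI : I ≤ RingHom.ker ((cmk I' (π s)).comp ren) := by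
    intro f hf
    rw [RingHom.mem_ker]
    apply cmk_eq_zero
    exact (h f).1 hf
  have h2 : ((cmk I' (π s)).comp ren) (X s) = 1 := by
    change cmk I' (π s) (ren (X s)) = 1
    rw [hren]
    exact cmk_self _
  refine chart_regular (T := ChartRing I s) (π s) θ hI' h1
    (cdesc s ((cmk I' (π s)).comp ren) hI h2) ?_ ?_
  · intro t
    change cdesc s _ _ _ (cmk I s (ren' (X t))) = _
    rw [cdesc_cmk]
    change cmk I' (π s) (ren (ren' (X t))) = _
    rw [hrr]
  · intro D hD
    apply cmk_hom_ext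
    intro t
    rw [RingHom.comp_apply, cdesc_cmk]
    change D (cmk I' (π s) (ren (X t))) = _
    rw [hD, hren]
    change cmk I s (ren' (X (π t))) = _
    rw [hren', π.symm_apply_apply]
    rfl

end Transport

namespace WeilCubic

open MvPolynomial

section Gen

/-- The coordinates `N(s), adj(s) t, adj(t) s, N(t)`. -/
def gen {A : Type} [CommRing A] (a b c d : ℤ) (s t : Tri A) : Fin 8 → A
  | 0 => tnorm (a : A) b c d s
  | 1 => (cc (a : A) b c d s t).x
  | 2 => (cc (a : A) b c d s t).y
  | 3 => (cc (a : A) b c d s t).z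
  | 4 => (cc (a : A) b c d t s).x
  | 5 => (cc (a : A) b c d t s).y
  | 6 => (cc (a : A) b c d t s).z
  | 7 => tnorm (a : A) b c d t

/-- image of a triple under a map -/
def tmap {A B : Type} (f : A → B) (u : Tri A) : Tri B := ⟨f u.x, f u.y, f u.z⟩

variable {A B : Type} [CommRing A] [CommRing B] (f : A →+* B)

theorem tmap_tmul (a b c d : A) (u v : Tri A) : tmap f (tmul a b c d u v) =
    tmul (f a) (f b) (f c) (f d) (tmap f u) (tmap f v) := by
  ext <;> simp only [tmap, tmul, map_add, map_sub, map_mul]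

theorem tmap_tadj (a b c d : A) (u : Tri A) : tmap f (tadj a b c d u) =
    tadj (f a) (f b) (f c) (f d) (tmap f u) := by
  ext <;> simp only [tmap, tadj, map_add, map_sub, map_mul, map_neg, map_pow]

theorem map_tnorm (a b c d : A) (u : Tri A) : f (tnorm a b c d u) =
    tnorm (f a) (f b) (f c) (f d) (tmap f u) := by
  simp only [tmap, tnorm, tadj, map_add, map_sub, map_mul, map_neg, map_pow]

theorem tmap_cc (a b c d : A) (u v : Tri A) : tmap f (cc a b c d u v) =
    cc (f a) (f b) (f c) (f d) (tmap f u) (tmap f v) := by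
  rw [cc, tmap_tmul, tmap_tadj, cc]

theorem map_gen (a b c d : ℤ) (s t : Tri A) (i : Fin 8) :
    f (gen a b c d s t i) = gen a b c d (tmap f s) (tmap f t) i := by
  have h0 : ∀ u, f (tnorm (a : A) b c d u) = tnorm (a : B) b c d (tmap f u) := by
    intro u
    rw [map_tnorm]
    simp only [map_intCast]
  have h1 : ∀ u v, tmap f (cc (a : A) b c d u v) = cc (a : B) b c d (tmap f u) (tmap f v) := by
    intro u v
    rw [tmap_cc]
    simp only [map_intCast]
  match i with
  | 0 => exact h0 s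
  | 1 => exact congrArg Tri.x (h1 s t)
  | 2 => exact congrArg Tri.y (h1 s t)
  | 3 => exact congrArg Tri.z (h1 s t)
  | 4 => exact congrArg Tri.x (h1 t s)
  | 5 => exact congrArg Tri.y (h1 t s)
  | 6 => exact congrArg Tri.z (h1 t s)
  | 7 => exact h0 t

end Gen

section Phi

variable (a b c d : ℤ)

/-- the generic `s` -/
noncomputable def ps : Tri (MvPolynomial (Fin 6) ℤ) := ⟨X 0, X 1, X 2⟩
/-- the generic `t` -/
noncomputable def pt : Tri (MvPolynomial (Fin 6) ℤ) := ⟨X 3, X 4, X 5⟩

/-- The parametrisation. -/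
noncomputable def phi : MvPolynomial (Fin 8) ℤ →ₐ[ℤ] MvPolynomial (Fin 6) ℤ :=
  aeval (gen a b c d ps pt)

theorem phi_X (i : Fin 8) : phi a b c d (X i) = gen a b c d ps pt i := by
  rw [phi, aeval_X]

theorem phi_homogeneous (i : Fin 8) : (phi a b c d (X i)).IsHomogeneous 3 := by
  have hC : ∀ z : ℤ, (z : MvPolynomial (Fin 6) ℤ).IsHomogeneous 0 := by
    intro z
    have := isHomogeneous_C (Fin 6) z
    simpa using this
  have hadj : ∀ u : Tri (MvPolynomial (Fin 6) ℤ), u.x.IsHomogeneous 1 → u.y.IsHomogeneous 1 →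
      u.z.IsHomogeneous 1 →
      (tadj (a : MvPolynomial (Fin 6) ℤ) b c d u).x.IsHomogeneous 2 ∧
      (tadj (a : MvPolynomial (Fin 6) ℤ) b c d u).y.IsHomogeneous 2 ∧
      (tadj (a : MvPolynomial (Fin 6) ℤ) b c d u).z.IsHomogeneous 2 := by
    intro u hx hy hz
    refine ⟨?_, ?_, ?_⟩
    · have e1 : (u.x + (b : MvPolynomial (Fin 6) ℤ) * u.y).IsHomogeneous 1 :=
        hx.add (by simpa using (hC b).mul hy)
      have e2 : (u.x - (c : MvPolynomial (Fin 6) ℤ) * u.z).IsHomogeneous 1 :=
        hx.sub (by simpa using (hC c).mul hz)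
      exact (e1.mul e2).add (by simpa using ((hC a).mul (hC d)).mul (hy.mul hz))
    · refine ((hx.mul hy).neg.add ?_).add ?_
      · simpa using (hC c).mul (hy.mul hz)
      · simpa using (hC d).mul (hz.pow 2)
    · refine (IsHomogeneous.sub ?_ (hx.mul hz)).sub ?_
      · simpa using ((hC a).mul (hy.pow 2)).neg
      · simpa using (hC b).mul (hy.mul hz)
  have hmul : ∀ (u v : Tri (MvPolynomial (Fin 6) ℤ)), u.x.IsHomogeneous 2 →
      u.y.IsHomogeneous 2 → u.z.IsHomogeneous 2 → v.x.IsHomogeneous 1 → v.y.IsHomogeneous 1 →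
      v.z.IsHomogeneous 1 →
      (tmul (a : MvPolynomial (Fin 6) ℤ) b c d u v).x.IsHomogeneous 3 ∧
      (tmul (a : MvPolynomial (Fin 6) ℤ) b c d u v).y.IsHomogeneous 3 ∧
      (tmul (a : MvPolynomial (Fin 6) ℤ) b c d u v).z.IsHomogeneous 3 := by
    intro u v ux uy uz vx vy vz
    refine ⟨?_, ?_, ?_⟩
    · refine (((ux.mul vx).sub ?_).sub ?_).sub ?_
      · simpa using ((hC a).mul (hC c)).mul (uy.mul vy)
      · simpa using ((hC b).mul (hC d)).mul (uz.mul vz)
      · simpa using ((hC a).mul (hC d)).mul ((uy.mul vz).add (uz.mul vy))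
    · refine (((ux.mul vy).add (uy.mul vx)).add ?_).add ?_
      · simpa using (hC b).mul (uy.mul vy)
      · simpa using (hC d).mul (uz.mul vz)
    · refine (((ux.mul vz).add (uz.mul vx)).sub ?_).sub ?_
      · simpa using (hC a).mul (uy.mul vy)
      · simpa using (hC c).mul (uz.mul vz)
  have hX : ∀ i : Fin 6, (X i : MvPolynomial (Fin 6) ℤ).IsHomogeneous 1 :=
    fun i => isHomogeneous_X _ _
  have hs := hadj ps (hX 0) (hX 1) (hX 2)
  have ht := hadj pt (hX 3) (hX 4) (hX 5)
  have hst := hmul _ pt hs.1 hs.2.1 hs.2.2 (hX 3) (hX 4) (hX 5)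
  have hts := hmul _ ps ht.1 ht.2.1 ht.2.2 (hX 0) (hX 1) (hX 2)
  have hnorm : ∀ u : Tri (MvPolynomial (Fin 6) ℤ), tnorm (a : MvPolynomial (Fin 6) ℤ) b c d u =
      (tmul (a : MvPolynomial (Fin 6) ℤ) b c d (tadj (a : MvPolynomial (Fin 6) ℤ) b c d u) u).x := by
    intro u
    rw [tmul_comm, tmul_tadj]
  rw [phi_X]
  match i with
  | 0 =>
    change (tnorm (a : MvPolynomial (Fin 6) ℤ) b c d ps).IsHomogeneous 3
    rw [hnorm]
    exact (hmul _ ps hs.1 hs.2.1 hs.2.2 (hX 0) (hX 1) (hX 2)).1
  | 1 => exact hst.1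
  | 2 => exact hst.2.1
  | 3 => exact hst.2.2
  | 4 => exact hts.1
  | 5 => exact hts.2.1
  | 6 => exact hts.2.2
  | 7 =>
    change (tnorm (a : MvPolynomial (Fin 6) ℤ) b c d pt).IsHomogeneous 3
    rw [hnorm]
    exact (hmul _ pt ht.1 ht.2.1 ht.2.2 (hX 3) (hX 4) (hX 5)).1

end Phi

section Relations

variable (a b c d : ℤ)

/-- The chart ring of the `k`-th coordinate. -/
abbrev CR (a b c d : ℤ) (k : Fin 8) : Type := ChartRing (RingHom.ker (phi a b c d)) k

/-- coordinates on the chart -/
noncomputable def cm (k : Fin 8) : MvPolynomial (Fin 8) ℤ →+* CR a b c d k :=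
  cmk (RingHom.ker (phi a b c d)) k

theorem cm_self (k : Fin 8) : cm a b c d k (X k) = 1 := cmk_self k

/-- the triple `c` -/
noncomputable def uC : Tri (MvPolynomial (Fin 8) ℤ) := ⟨X 1, X 2, X 3⟩
/-- the triple `e` -/
noncomputable def uE : Tri (MvPolynomial (Fin 8) ℤ) := ⟨X 4, X 5, X 6⟩

theorem phi_uC : tmap (phi a b c d) uC = cc (a : MvPolynomial (Fin 6) ℤ) b c d ps pt := by
  ext
  · exact congrArg _ (phi_X a b c d 1)
  · exact congrArg _ (phi_X a b c d 2)
  · exact congrArg _ (phi_X a b c d 3)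

theorem phi_uE : tmap (phi a b c d) uE = cc (a : MvPolynomial (Fin 6) ℤ) b c d pt ps := by
  ext
  · exact congrArg _ (phi_X a b c d 4)
  · exact congrArg _ (phi_X a b c d 5)
  · exact congrArg _ (phi_X a b c d 6)

theorem cm_eq (k : Fin 8) {f g : MvPolynomial (Fin 8) ℤ} (h : phi a b c d f = phi a b c d g) :
    cm a b c d k f = cm a b c d k g :=
  cmk_eq _ (by rw [RingHom.mem_ker, map_sub, h, sub_self])

theorem cm_tri_eq (k : Fin 8) {u v : Tri (MvPolynomial (Fin 8) ℤ)}
    (h : tmap (phi a b c d) u = tmap (phi a b c d) v) :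
    tmap (cm a b c d k) u = tmap (cm a b c d k) v := by
  ext
  · exact cm_eq a b c d k (congrArg Tri.x h)
  · exact cm_eq a b c d k (congrArg Tri.y h)
  · exact cm_eq a b c d k (congrArg Tri.z h)

theorem phi_tadj (u : Tri (MvPolynomial (Fin 8) ℤ)) :
    tmap (phi a b c d) (tadj (a : MvPolynomial (Fin 8) ℤ) b c d u) =
      tadj (a : MvPolynomial (Fin 6) ℤ) b c d (tmap (phi a b c d) u) := by
  have := tmap_tadj (phi a b c d : MvPolynomial (Fin 8) ℤ →+* MvPolynomial (Fin 6) ℤ) a b c d u
  simpa using this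

theorem phi_tmul (u v : Tri (MvPolynomial (Fin 8) ℤ)) :
    tmap (phi a b c d) (tmul (a : MvPolynomial (Fin 8) ℤ) b c d u v) =
      tmul (a : MvPolynomial (Fin 6) ℤ) b c d (tmap (phi a b c d) u) (tmap (phi a b c d) v) := by
  have := tmap_tmul (phi a b c d : MvPolynomial (Fin 8) ℤ →+* MvPolynomial (Fin 6) ℤ) a b c d u v
  simpa using this

theorem phi_tnorm (u : Tri (MvPolynomial (Fin 8) ℤ)) :
    phi a b c d (tnorm (a : MvPolynomial (Fin 8) ℤ) b c d u) =
      tnorm (a : MvPolynomial (Fin 6) ℤ) b c d (tmap (phi a b c d) u) := by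
  have := map_tnorm (phi a b c d : MvPolynomial (Fin 8) ℤ →+* MvPolynomial (Fin 6) ℤ) a b c d u
  simpa using this

theorem cm_tadj (k : Fin 8) (u : Tri (MvPolynomial (Fin 8) ℤ)) :
    tmap (cm a b c d k) (tadj (a : MvPolynomial (Fin 8) ℤ) b c d u) =
      tadj (a : CR a b c d k) b c d (tmap (cm a b c d k) u) := by
  rw [tmap_tadj]
  simp only [map_intCast]

theorem cm_tmul (k : Fin 8) (u v : Tri (MvPolynomial (Fin 8) ℤ)) :
    tmap (cm a b c d k) (tmul (a : MvPolynomial (Fin 8) ℤ) b c d u v) =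
      tmul (a : CR a b c d k) b c d (tmap (cm a b c d k) u) (tmap (cm a b c d k) v) := by
  rw [tmap_tmul]
  simp only [map_intCast]

theorem cm_tnorm (k : Fin 8) (u : Tri (MvPolynomial (Fin 8) ℤ)) :
    cm a b c d k (tnorm (a : MvPolynomial (Fin 8) ℤ) b c d u) =
      tnorm (a : CR a b c d k) b c d (tmap (cm a b c d k) u) := by
  rw [map_tnorm]
  simp only [map_intCast]

/-- the triple `c` on the chart -/
noncomputable def tC (k : Fin 8) : Tri (CR a b c d k) :=
  ⟨cm a b c d k (X 1), cm a b c d k (X 2), cm a b c d k (X 3)⟩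
/-- the triple `e` on the chart -/
noncomputable def tE (k : Fin 8) : Tri (CR a b c d k) :=
  ⟨cm a b c d k (X 4), cm a b c d k (X 5), cm a b c d k (X 6)⟩

theorem relC (k : Fin 8) : tadj (a : CR a b c d k) b c d (tC a b c d k) =
    tsmul (cm a b c d k (X 0)) (tE a b c d k) := by
  have h := cm_tri_eq a b c d k (u := tadj (a : MvPolynomial (Fin 8) ℤ) b c d uC)
    (v := tsmul (X 0) uE) (by
    rw [phi_tadj, phi_uC, tadj_cc, ← phi_uE]
    ext
    · simp only [tmap, tsmul, map_mul, phi_X, gen]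
    · simp only [tmap, tsmul, map_mul, phi_X, gen]
    · simp only [tmap, tsmul, map_mul, phi_X, gen])
  rw [cm_tadj] at h
  refine h.trans ?_
  ext
  · exact map_mul _ _ _
  · exact map_mul _ _ _
  · exact map_mul _ _ _

theorem relE (k : Fin 8) : tadj (a : CR a b c d k) b c d (tE a b c d k) =
    tsmul (cm a b c d k (X 7)) (tC a b c d k) := by
  have h := cm_tri_eq a b c d k (u := tadj (a : MvPolynomial (Fin 8) ℤ) b c d uE)
    (v := tsmul (X 7) uC) (by
    rw [phi_tadj, phi_uE, tadj_cc, ← phi_uC]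
    ext
    · simp only [tmap, tsmul, map_mul, phi_X, gen]
    · simp only [tmap, tsmul, map_mul, phi_X, gen]
    · simp only [tmap, tsmul, map_mul, phi_X, gen])
  rw [cm_tadj] at h
  refine h.trans ?_
  ext
  · exact map_mul _ _ _
  · exact map_mul _ _ _
  · exact map_mul _ _ _

theorem relN (k : Fin 8) : tnorm (a : CR a b c d k) b c d (tC a b c d k) =
    cm a b c d k (X 0) ^ 2 * cm a b c d k (X 7) := by
  have h := cm_eq a b c d k (f := tnorm (a : MvPolynomial (Fin 8) ℤ) b c d uC)
    (g := X 0 ^ 2 * X 7) (by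
    rw [phi_tnorm, phi_uC, tnorm_cc]
    simp only [map_mul, map_pow, phi_X, gen])
  rw [cm_tnorm, map_mul, map_pow] at h
  exact h

theorem relM (k : Fin 8) : tmul (a : CR a b c d k) b c d (tC a b c d k) (tE a b c d k) =
    ⟨cm a b c d k (X 0) * cm a b c d k (X 7), 0, 0⟩ := by
  have h := cm_tri_eq a b c d k (u := tmul (a : MvPolynomial (Fin 8) ℤ) b c d uC uE)
    (v := ⟨X 0 * X 7, 0, 0⟩) (by
    rw [phi_tmul, phi_uC, phi_uE, cc_mul]
    ext
    · simp only [tmap, map_mul, phi_X, gen]
    · simp only [tmap, map_zero]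
    · simp only [tmap, map_zero])
  rw [cm_tmul] at h
  refine h.trans ?_
  ext
  · exact map_mul _ _ _
  · exact map_zero _
  · exact map_zero _

end Relations

section ChartX

variable (a b c d : ℤ)

/-- one -/
def tone {A : Type} [CommRing A] : Tri A := ⟨1, 0, 0⟩

theorem cc_one_left {A : Type} [CommRing A] (a b c d : A) (u : Tri A) :
    cc a b c d tone u = u := by
  ext <;> simp only [cc, tmul, tadj, tone] <;> ring

theorem cc_one_right {A : Type} [CommRing A] (a b c d : A) (u : Tri A) :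
    cc a b c d u tone = tadj a b c d u := by
  ext <;> simp only [cc, tmul, tadj, tone] <;> ring

theorem tnorm_one {A : Type} [CommRing A] (a b c d : A) : tnorm a b c d tone = 1 := by
  simp only [tnorm, tadj, tone]
  ring

/-- The ring of the chart `x_0 = 1`. -/
abbrev TX : Type := MvPolynomial (Fin 3) ℤ

/-- the generic element -/
noncomputable def zX : Tri TX := ⟨X 0, X 1, X 2⟩

/-- The map to the chart. -/
noncomputable def thetaX : MvPolynomial (Fin 8) ℤ →+* TX :=
  eval₂Hom (Int.castRingHom TX) (gen a b c d tone zX)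

/-- The comparison map. -/
noncomputable def epsX : MvPolynomial (Fin 6) ℤ →+* TX :=
  eval₂Hom (Int.castRingHom TX) ![1, 0, 0, X 0, X 1, X 2]

theorem thetaX_X (i : Fin 8) : thetaX a b c d (X i) = gen a b c d tone zX i := by
  rw [thetaX, coe_eval₂Hom, eval₂_X]

theorem epsX_ps : tmap epsX ps = tone := by
  ext <;> simp [tmap, ps, epsX, tone]

theorem epsX_pt : tmap epsX pt = zX := by
  ext <;> simp [tmap, pt, epsX, zX]

theorem kerX : RingHom.ker (phi a b c d) ≤ RingHom.ker (thetaX a b c d) := by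
  refine ker_le_ker (phi a b c d) (e := 3) (by norm_num) (phi_homogeneous a b c d)
    (thetaX a b c d) epsX 1 (Submonoid.one_mem _) ?_
  intro i
  rw [one_mul, thetaX_X, phi_X, map_gen, epsX_ps, epsX_pt]

/-- The inverse map. -/
noncomputable def etaX : TX →+* CR a b c d 0 :=
  eval₂Hom (Int.castRingHom _)
    ![cm a b c d 0 (X 1), cm a b c d 0 (X 2), cm a b c d 0 (X 3)]

theorem etaX_zX : tmap (etaX a b c d) zX = tC a b c d 0 := by
  ext <;> simp [tmap, etaX, zX, tC]

theorem regularX : IsRegularRing (CR a b c d 0) := by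
  have h1 : thetaX a b c d (X 0) = 1 := by
    rw [thetaX_X]
    exact tnorm_one _ _ _ _
  have hM := cm_self a b c d 0
  refine chart_regular (T := TX) 0 (thetaX a b c d) (kerX a b c d) h1 (etaX a b c d) ?_ ?_
  · intro i
    have hone : tmap (etaX a b c d) tone = tone := by
      ext <;> simp [tmap, tone]
    rw [thetaX_X, map_gen, hone, etaX_zX]
    change _ = cm a b c d 0 (X i)
    have hE : tadj (a : CR a b c d 0) b c d (tC a b c d 0) = tE a b c d 0 := by
      rw [relC, hM]
      ext <;> simp [tsmul]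
    match i with
    | 0 => exact (tnorm_one _ _ _ _).trans hM.symm
    | 1 => exact congrArg Tri.x (cc_one_left _ _ _ _ _)
    | 2 => exact congrArg Tri.y (cc_one_left _ _ _ _ _)
    | 3 => exact congrArg Tri.z (cc_one_left _ _ _ _ _)
    | 4 => exact congrArg Tri.x ((cc_one_right _ _ _ _ _).trans hE)
    | 5 => exact congrArg Tri.y ((cc_one_right _ _ _ _ _).trans hE)
    | 6 => exact congrArg Tri.z ((cc_one_right _ _ _ _ _).trans hE)
    | 7 =>
      change tnorm (a : CR a b c d 0) b c d (tC a b c d 0) = _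
      rw [relN, hM, one_pow, one_mul]
  · intro D hD
    have hD' : ∀ f, D (cm a b c d 0 f) = thetaX a b c d f := hD
    have hcc : cc ((a : ℤ) : TX) b c d tone zX = zX := cc_one_left _ _ _ _ _
    apply MvPolynomial.ringHom_ext
    · intro z
      simp
    · intro k
      rw [RingHom.comp_apply, RingHom.id_apply]
      fin_cases k
      · have h2 : etaX a b c d (X 0) = cm a b c d 0 (X 1) := by simp [etaX]
        change D (etaX a b c d (X 0)) = X 0
        rw [h2, hD', thetaX_X]
        exact congrArg Tri.x hcc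
      · have h2 : etaX a b c d (X 1) = cm a b c d 0 (X 2) := by simp [etaX]
        change D (etaX a b c d (X 1)) = X 1
        rw [h2, hD', thetaX_X]
        exact congrArg Tri.y hcc
      · have h2 : etaX a b c d (X 2) = cm a b c d 0 (X 3) := by simp [etaX]
        change D (etaX a b c d (X 2)) = X 2
        rw [h2, hD', thetaX_X]
        exact congrArg Tri.z hcc

end ChartX

end WeilCubic

end Pool.MP_602153_ag
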