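import Mathlib
import Pool.Agent.MP_602153_ag.WeilCubic

set_option autoImplicit false

/-!
# The singular charts of the cubic model, and all charts by symmetry
-/

namespace Pool.MP_602153_ag

namespace WeilCubic

open MvPolynomial

section Generic

variable {A : Type} [CommRing A] (a b c d G H B C : A)

/-- the value of `E` -/
def gE : A := - (a * G ^ 2) - b * G - H * C

/-- the triple `c` -/
def gc : Tri A :=
  ⟨- (C * gE a b G H C) + a * (B + C * G) * G + c * C, B + C * G, C⟩

theorem adj_gen (hrel : B * H = a * G ^ 3 + b * G ^ 2 + c * G + d) :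
    tadj a b c d ⟨gE a b G H C, G, 1⟩ = tsmul H (gc a b c G H B C) := by
  ext
  · simp only [tadj, tsmul, gc, gE]
    linear_combination (- a * G) * hrel
  · simp only [tadj, tsmul, gc, gE]
    linear_combination (-1 : A) * hrel
  · simp only [tadj, tsmul, gc, gE]
    ring

theorem tadj_scalar (r : A) : tadj a b c d ⟨r, 0, 0⟩ = ⟨r ^ 2, 0, 0⟩ := by
  ext <;> simp only [tadj] <;> ring

theorem tnorm_scalar (r : A) : tnorm a b c d ⟨r, 0, 0⟩ = r ^ 3 := by
  simp only [tnorm, tadj]
  ring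

theorem tsmul_tsmul (r s : A) (u : Tri A) : tsmul r (tsmul s u) = tsmul (r * s) u := by
  ext <;> simp only [tsmul] <;> ring

end Generic

section ChartE

variable (a b c d : ℤ)

/-- The polynomial `a x^3 + b x^2 + c x + d`. -/
noncomputable def gcub : Polynomial ℤ :=
  Polynomial.C a * Polynomial.X ^ 3 + Polynomial.C b * Polynomial.X ^ 2 +
    Polynomial.C c * Polynomial.X + Polynomial.C d

theorem zev_gcub {A : Type} [CommRing A] (x : A) :
    zev x (gcub a b c d) = (a : A) * x ^ 3 + (b : A) * x ^ 2 + (c : A) * x + (d : A) := by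
  rw [gcub]
  simp only [map_add, map_mul, map_pow, zev_X, zev_C]

/-- The ring of the chart. -/
abbrev TE : Type := MvPolynomial (Fin 1) (Surf (gcub a b c d))

/-- `H` -/
noncomputable def hH : TE a b c d := C (sB (gcub a b c d))
/-- `G` -/
noncomputable def hG : TE a b c d := C (sX (gcub a b c d))
/-- the other factor -/
noncomputable def hB : TE a b c d := C (sA (gcub a b c d))
/-- the free variable -/
noncomputable def hC : TE a b c d := X 0

theorem h_rel : hB a b c d * hH a b c d = (a : TE a b c d) * hG a b c d ^ 3 +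
    (b : TE a b c d) * hG a b c d ^ 2 + (c : TE a b c d) * hG a b c d + (d : TE a b c d) := by
  rw [← zev_gcub, hB, hH, hG, ← zev_map, ← s_rel, map_mul]

/-- `E` -/
noncomputable def hE : TE a b c d :=
  gE (a : TE a b c d) (b : TE a b c d) (hG a b c d) (hH a b c d) (hC a b c d)

/-- the triple `e` on the chart -/
noncomputable def eT : Tri (TE a b c d) := ⟨hE a b c d, hG a b c d, 1⟩

/-- the triple `c` on the chart -/
noncomputable def cT : Tri (TE a b c d) :=
  gc (a : TE a b c d) (b : TE a b c d) (c : TE a b c d) (hG a b c d) (hH a b c d) (hB a b c d)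
    (hC a b c d)

/-- images of the coordinates -/
noncomputable def genE : Fin 8 → TE a b c d
  | 0 => (tadj (a : TE a b c d) b c d (cT a b c d)).z
  | 1 => (cT a b c d).x
  | 2 => (cT a b c d).y
  | 3 => (cT a b c d).z
  | 4 => (eT a b c d).x
  | 5 => (eT a b c d).y
  | 6 => (eT a b c d).z
  | 7 => hH a b c d

/-- The map to the chart. -/
noncomputable def thetaE : MvPolynomial (Fin 8) ℤ →+* TE a b c d :=
  eval₂Hom (Int.castRingHom (TE a b c d)) (genE a b c d)

theorem thetaE_X (i : Fin 8) : thetaE a b c d (X i) = genE a b c d i := by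
  rw [thetaE, coe_eval₂Hom, eval₂_X]

/-- The comparison map. -/
noncomputable def epsE : MvPolynomial (Fin 6) ℤ →+* TE a b c d :=
  eval₂Hom (Int.castRingHom (TE a b c d)) ![hE a b c d, hG a b c d, 1, hH a b c d, 0, 0]

theorem epsE_ps : tmap (epsE a b c d) ps = eT a b c d := by
  ext <;> simp only [tmap, ps, epsE, coe_eval₂Hom, eval₂_X] <;> rfl

theorem epsE_pt : tmap (epsE a b c d) pt = ⟨hH a b c d, 0, 0⟩ := by
  ext <;> simp only [tmap, pt, epsE, coe_eval₂Hom, eval₂_X] <;> rfl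

theorem adj_eT : tadj (a : TE a b c d) b c d (eT a b c d) =
    tsmul (hH a b c d) (cT a b c d) :=
  adj_gen _ _ _ _ _ _ _ _ (h_rel a b c d)

theorem kerE (hg : gcub a b c d ≠ 0) :
    RingHom.ker (phi a b c d) ≤ RingHom.ker (thetaE a b c d) := by
  refine ker_le_ker (phi a b c d) (e := 3) (by norm_num) (phi_homogeneous a b c d)
    (thetaE a b c d) (epsE a b c d) (hH a b c d ^ 2)
    (pow_mem (surf_nonZeroDivisor' hg _) 2) ?_
  intro i
  rw [thetaE_X, phi_X, map_gen, epsE_ps, epsE_pt]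
  have hcE : cc (a : TE a b c d) b c d (eT a b c d) ⟨hH a b c d, 0, 0⟩ =
      tsmul (hH a b c d ^ 2) (cT a b c d) := by
    rw [cc, adj_eT, tmul_scalar, tsmul_tsmul, pow_two]
  have hcH : cc (a : TE a b c d) b c d ⟨hH a b c d, 0, 0⟩ (eT a b c d) =
      tsmul (hH a b c d ^ 2) (eT a b c d) := by
    rw [cc, tadj_scalar, tmul_comm, tmul_scalar]
  match i with
  | 0 =>
    have h1 := tadj_tadj (a : TE a b c d) b c d (eT a b c d)
    rw [adj_eT, tadj_tsmul] at h1
    have h2 := congrArg Tri.z h1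
    simp only [tsmul] at h2
    change hH a b c d ^ 2 * (tadj (a : TE a b c d) b c d (cT a b c d)).z =
      tnorm (a : TE a b c d) b c d (eT a b c d)
    rw [h2]
    change _ * 1 = _
    rw [mul_one]
  | 1 => exact (congrArg Tri.x hcE).symm
  | 2 => exact (congrArg Tri.y hcE).symm
  | 3 => exact (congrArg Tri.z hcE).symm
  | 4 => exact (congrArg Tri.x hcH).symm
  | 5 => exact (congrArg Tri.y hcH).symm
  | 6 => exact (congrArg Tri.z hcH).symm
  | 7 =>
    change hH a b c d ^ 2 * hH a b c d = tnorm (a : TE a b c d) b c d ⟨hH a b c d, 0, 0⟩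
    rw [tnorm_scalar, ← pow_succ]

theorem relE_y : - (cm a b c d 6 (X 4) * cm a b c d 6 (X 5)) +
    (c : CR a b c d 6) * cm a b c d 6 (X 5) + (d : CR a b c d 6) =
      cm a b c d 6 (X 7) * cm a b c d 6 (X 2) := by
  have h := congrArg Tri.y (relE a b c d 6)
  have h1 := cm_self a b c d 6
  simp only [tadj, tsmul, tE, tC, h1] at h
  linear_combination h

theorem relE_z : - ((a : CR a b c d 6) * cm a b c d 6 (X 5) ^ 2) - cm a b c d 6 (X 4) -
    (b : CR a b c d 6) * cm a b c d 6 (X 5) =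
      cm a b c d 6 (X 7) * cm a b c d 6 (X 3) := by
  have h := congrArg Tri.z (relE a b c d 6)
  have h1 := cm_self a b c d 6
  simp only [tadj, tsmul, tE, tC, h1] at h
  linear_combination h

theorem relM_z : cm a b c d 6 (X 1) + cm a b c d 6 (X 3) * cm a b c d 6 (X 4) -
    (a : CR a b c d 6) * (cm a b c d 6 (X 2) * cm a b c d 6 (X 5)) -
    (c : CR a b c d 6) * cm a b c d 6 (X 3) = 0 := by
  have h := congrArg Tri.z (relM a b c d 6)
  have h1 := cm_self a b c d 6
  simp only [tmul, tE, tC, h1] at h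
  linear_combination h

theorem relC_z : (tadj (a : CR a b c d 6) b c d (tC a b c d 6)).z = cm a b c d 6 (X 0) := by
  have h := congrArg Tri.z (relC a b c d 6)
  have h1 := cm_self a b c d 6
  rw [h]
  simp only [tsmul, tE, h1]
  ring

theorem cm_rel : (cm a b c d 6 (X 2) - cm a b c d 6 (X 3) * cm a b c d 6 (X 5)) *
    cm a b c d 6 (X 7) = zev (cm a b c d 6 (X 5)) (gcub a b c d) := by
  rw [zev_gcub]
  linear_combination (- relE_y a b c d) + cm a b c d 6 (X 5) * relE_z a b c d

/-- The inverse map. -/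
noncomputable def etaE : TE a b c d →+* CR a b c d 6 :=
  eval₂Hom (slift (cm a b c d 6 (X 2) - cm a b c d 6 (X 3) * cm a b c d 6 (X 5))
    (cm a b c d 6 (X 7)) (cm a b c d 6 (X 5)) (cm_rel a b c d)) (fun _ => cm a b c d 6 (X 3))

theorem etaE_B : etaE a b c d (hB a b c d) =
    cm a b c d 6 (X 2) - cm a b c d 6 (X 3) * cm a b c d 6 (X 5) := by
  rw [etaE, hB, coe_eval₂Hom, eval₂_C, slift_A]

theorem etaE_H : etaE a b c d (hH a b c d) = cm a b c d 6 (X 7) := by
  rw [etaE, hH, coe_eval₂Hom, eval₂_C, slift_B]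

theorem etaE_G : etaE a b c d (hG a b c d) = cm a b c d 6 (X 5) := by
  rw [etaE, hG, coe_eval₂Hom, eval₂_C, slift_X]

theorem etaE_C : etaE a b c d (hC a b c d) = cm a b c d 6 (X 3) := by
  rw [etaE, hC, coe_eval₂Hom, eval₂_X]

theorem etaE_E : etaE a b c d (hE a b c d) = cm a b c d 6 (X 4) := by
  rw [hE, gE]
  simp only [map_sub, map_neg, map_mul, map_pow, map_intCast, etaE_G, etaE_H, etaE_C]
  linear_combination relE_z a b c d

theorem etaE_eT : tmap (etaE a b c d) (eT a b c d) = tE a b c d 6 := by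
  ext
  · exact etaE_E a b c d
  · exact etaE_G a b c d
  · change etaE a b c d 1 = cm a b c d 6 (X 6)
    rw [map_one, cm_self]

theorem etaE_cT : tmap (etaE a b c d) (cT a b c d) = tC a b c d 6 := by
  ext
  · have h1 := etaE_E a b c d
    rw [hE] at h1
    simp only [tmap, cT, gc, tC, map_add, map_neg, map_mul, map_intCast, etaE_G, etaE_C, h1,
      etaE_B]
    linear_combination - relM_z a b c d
  · simp only [tmap, cT, gc, tC, map_add, map_mul, etaE_G, etaE_C, etaE_B]
    ring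
  · exact etaE_C a b c d

theorem regularE (hg : Nice (gcub a b c d)) (hg0 : gcub a b c d ≠ 0) :
    IsRegularRing (CR a b c d 6) := by
  have h1 : thetaE a b c d (X 6) = 1 := by
    rw [thetaE_X]
    rfl
  have hsurf := surf_regular hg
  refine chart_regular (T := TE a b c d) 6 (thetaE a b c d) (kerE a b c d hg0) h1
    (etaE a b c d) ?_ ?_
  · intro i
    rw [thetaE_X]
    change _ = cm a b c d 6 (X i)
    match i with
    | 0 =>
      have h2 := congrArg Tri.z (tmap_tadj (etaE a b c d) (a : TE a b c d) b c d (cT a b c d))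
      simp only [map_intCast, etaE_cT] at h2
      exact h2.trans (relC_z a b c d)
    | 1 => exact congrArg Tri.x (etaE_cT a b c d)
    | 2 => exact congrArg Tri.y (etaE_cT a b c d)
    | 3 => exact congrArg Tri.z (etaE_cT a b c d)
    | 4 => exact congrArg Tri.x (etaE_eT a b c d)
    | 5 => exact congrArg Tri.y (etaE_eT a b c d)
    | 6 => exact congrArg Tri.z (etaE_eT a b c d)
    | 7 => exact etaE_H a b c d
  · intro D hD
    have hD' : ∀ i, D (cm a b c d 6 (X i)) = genE a b c d i := by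
      intro i
      rw [← thetaE_X]
      exact hD _
    apply mvSurf_hom_ext
    · change D (etaE a b c d (hB a b c d)) = hB a b c d
      rw [etaE_B, map_sub, map_mul, hD', hD', hD']
      change (hB a b c d + hC a b c d * hG a b c d) - hC a b c d * hG a b c d = _
      ring
    · change D (etaE a b c d (hH a b c d)) = hH a b c d
      rw [etaE_H, hD']
      rfl
    · change D (etaE a b c d (hG a b c d)) = hG a b c d
      rw [etaE_G, hD']
      rfl
    · intro k
      fin_cases k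
      change D (etaE a b c d (hC a b c d)) = hC a b c d
      rw [etaE_C, hD']
      rfl

end ChartE

section Symmetry

variable (a b c d : ℤ)

/-- swapping `s` and `t` -/
def pi1 : Fin 8 ≃ Fin 8 where
  toFun := ![7, 4, 5, 6, 1, 2, 3, 0]
  invFun := ![7, 4, 5, 6, 1, 2, 3, 0]
  left_inv := by decide
  right_inv := by decide

/-- swapping `s` and `t` on the parameters -/
def rho1 : Fin 6 ≃ Fin 6 where
  toFun := ![3, 4, 5, 0, 1, 2]
  invFun := ![3, 4, 5, 0, 1, 2]
  left_inv := by decide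
  right_inv := by decide

/-- swapping `ω` and `θ` -/
def pi2 : Fin 8 ≃ Fin 8 where
  toFun := ![0, 1, 3, 2, 4, 6, 5, 7]
  invFun := ![0, 1, 3, 2, 4, 6, 5, 7]
  left_inv := by decide
  right_inv := by decide

/-- swapping `ω` and `θ` on the parameters -/
def rho2 : Fin 6 ≃ Fin 6 where
  toFun := ![0, 2, 1, 3, 5, 4]
  invFun := ![0, 2, 1, 3, 5, 4]
  left_inv := by decide
  right_inv := by decide

theorem mem_ker_of {a b c d a' b' c' d' : ℤ} (π : Fin 8 ≃ Fin 8) (ρ : Fin 6 ≃ Fin 6)
    (h : ∀ i, phi a' b' c' d' (X (π i)) = rename ρ (phi a b c d (X i)))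
    (f : MvPolynomial (Fin 8) ℤ) :
    f ∈ RingHom.ker (phi a b c d) ↔ rename π f ∈ RingHom.ker (phi a' b' c' d') := by
  have h1 : (phi a' b' c' d').comp (rename π) = (rename ρ).comp (phi a b c d) := by
    apply MvPolynomial.algHom_ext
    intro i
    rw [AlgHom.comp_apply, AlgHom.comp_apply, rename_X, h]
  have h2 : phi a' b' c' d' (rename π f) = rename ρ (phi a b c d f) := by
    rw [← AlgHom.comp_apply, h1, AlgHom.comp_apply]
  rw [RingHom.mem_ker, RingHom.mem_ker, h2, map_eq_zero_iff _ (rename_injective _ ρ.injective)]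

theorem sym1 (i : Fin 8) : phi a b c d (X (pi1 i)) = rename rho1 (phi a b c d (X i)) := by
  have hm := map_gen ((rename rho1 : MvPolynomial (Fin 6) ℤ →ₐ[ℤ] MvPolynomial (Fin 6) ℤ) :
    MvPolynomial (Fin 6) ℤ →+* MvPolynomial (Fin 6) ℤ) a b c d ps pt i
  have hs : tmap ((rename rho1 : MvPolynomial (Fin 6) ℤ →ₐ[ℤ] MvPolynomial (Fin 6) ℤ) :
    MvPolynomial (Fin 6) ℤ →+* MvPolynomial (Fin 6) ℤ) ps = pt := by
    ext1
    · exact rename_X _ _
    · exact rename_X _ _
    · exact rename_X _ _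
  have ht : tmap ((rename rho1 : MvPolynomial (Fin 6) ℤ →ₐ[ℤ] MvPolynomial (Fin 6) ℤ) :
    MvPolynomial (Fin 6) ℤ →+* MvPolynomial (Fin 6) ℤ) pt = ps := by
    ext1
    · exact rename_X _ _
    · exact rename_X _ _
    · exact rename_X _ _
  rw [hs, ht] at hm
  rw [phi_X, phi_X]
  refine Eq.trans ?_ hm.symm
  match i with
  | 0 => rfl
  | 1 => rfl
  | 2 => rfl
  | 3 => rfl
  | 4 => rfl
  | 5 => rfl
  | 6 => rfl
  | 7 => rfl

/-- swap of the last two coordinates -/
def tswap {A : Type} (u : Tri A) : Tri A := ⟨u.x, u.z, u.y⟩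

theorem tadj_swap {A : Type} [CommRing A] (a b c d : A) (u : Tri A) :
    tadj (-d) (-c) (-b) (-a) (tswap u) = tswap (tadj a b c d u) := by
  ext <;> simp only [tadj, tswap] <;> ring

theorem tmul_swap {A : Type} [CommRing A] (a b c d : A) (u v : Tri A) :
    tmul (-d) (-c) (-b) (-a) (tswap u) (tswap v) = tswap (tmul a b c d u v) := by
  ext <;> simp only [tmul, tswap] <;> ring

theorem tnorm_swap {A : Type} [CommRing A] (a b c d : A) (u : Tri A) :
    tnorm (-d) (-c) (-b) (-a) (tswap u) = tnorm a b c d u := by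
  simp only [tnorm, tadj, tswap]
  ring

theorem cc_swap {A : Type} [CommRing A] (a b c d : A) (u v : Tri A) :
    cc (-d) (-c) (-b) (-a) (tswap u) (tswap v) = tswap (cc a b c d u v) := by
  rw [cc, tadj_swap, tmul_swap, cc]

theorem sym2 (i : Fin 8) : phi (-d) (-c) (-b) (-a) (X (pi2 i)) =
    rename rho2 (phi a b c d (X i)) := by
  have hm := map_gen ((rename rho2 : MvPolynomial (Fin 6) ℤ →ₐ[ℤ] MvPolynomial (Fin 6) ℤ) :
    MvPolynomial (Fin 6) ℤ →+* MvPolynomial (Fin 6) ℤ) a b c d ps pt i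
  have hs : tmap ((rename rho2 : MvPolynomial (Fin 6) ℤ →ₐ[ℤ] MvPolynomial (Fin 6) ℤ) :
    MvPolynomial (Fin 6) ℤ →+* MvPolynomial (Fin 6) ℤ) ps = tswap ps := by
    ext1
    · exact rename_X _ _
    · exact rename_X _ _
    · exact rename_X _ _
  have ht : tmap ((rename rho2 : MvPolynomial (Fin 6) ℤ →ₐ[ℤ] MvPolynomial (Fin 6) ℤ) :
    MvPolynomial (Fin 6) ℤ →+* MvPolynomial (Fin 6) ℤ) pt = tswap pt := by
    ext1
    · exact rename_X _ _
    · exact rename_X _ _
    · exact rename_X _ _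
  rw [hs, ht] at hm
  rw [phi_X, phi_X]
  refine Eq.trans ?_ hm.symm
  have hN : ∀ u : Tri (MvPolynomial (Fin 6) ℤ),
      tnorm ((-d : ℤ) : MvPolynomial (Fin 6) ℤ) ((-c : ℤ) : MvPolynomial (Fin 6) ℤ)
        ((-b : ℤ) : MvPolynomial (Fin 6) ℤ) ((-a : ℤ) : MvPolynomial (Fin 6) ℤ) u =
      tnorm (a : MvPolynomial (Fin 6) ℤ) b c d (tswap u) := by
    intro u
    have := tnorm_swap (a : MvPolynomial (Fin 6) ℤ) b c d (tswap u)
    push_cast
    exact this
  have hc : ∀ u v : Tri (MvPolynomial (Fin 6) ℤ),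
      cc ((-d : ℤ) : MvPolynomial (Fin 6) ℤ) ((-c : ℤ) : MvPolynomial (Fin 6) ℤ)
        ((-b : ℤ) : MvPolynomial (Fin 6) ℤ) ((-a : ℤ) : MvPolynomial (Fin 6) ℤ) u v =
      tswap (cc (a : MvPolynomial (Fin 6) ℤ) b c d (tswap u) (tswap v)) := by
    intro u v
    have := cc_swap (a : MvPolynomial (Fin 6) ℤ) b c d (tswap u) (tswap v)
    push_cast
    exact this
  match i with
  | 0 => exact hN ps
  | 1 => have h := congrArg Tri.x (hc ps pt); exact h
  | 2 => have h := congrArg Tri.z (hc ps pt); exact h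
  | 3 => have h := congrArg Tri.y (hc ps pt); exact h
  | 4 => have h := congrArg Tri.x (hc pt ps); exact h
  | 5 => have h := congrArg Tri.z (hc pt ps); exact h
  | 6 => have h := congrArg Tri.y (hc pt ps); exact h
  | 7 => exact hN pt

/-- The charts used. -/
def ch : Fin 6 → Fin 8 := ![0, 7, 2, 3, 5, 6]

theorem regular_all (h1 : Nice (gcub a b c d)) (h2 : Nice (gcub (-d) (-c) (-b) (-a)))
    (h1' : gcub a b c d ≠ 0) (h2' : gcub (-d) (-c) (-b) (-a) ≠ 0) (i : Fin 6) :
    IsRegularRing (CR a b c d (ch i)) := by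
  have e6 := regularE a b c d h1 h1'
  have e0 := regularX a b c d
  have e7 : IsRegularRing (CR a b c d 7) :=
    chart_transport pi1 (mem_ker_of pi1 rho1 (sym1 a b c d)) 0 e0
  have e3 : IsRegularRing (CR a b c d 3) :=
    chart_transport pi1 (mem_ker_of pi1 rho1 (sym1 a b c d)) 6 e6
  have e5 : IsRegularRing (CR a b c d 5) := by
    have h := regularE (-d) (-c) (-b) (-a) h2 h2'
    have h3 := sym2 (-d) (-c) (-b) (-a)
    simp only [neg_neg] at h3
    exact chart_transport pi2 (mem_ker_of pi2 rho2 h3) 6 h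
  have e2 : IsRegularRing (CR a b c d 2) :=
    chart_transport pi1 (mem_ker_of pi1 rho1 (sym1 a b c d)) 5 e5
  fin_cases i
  · exact e0
  · exact e7
  · exact e2
  · exact e3
  · exact e5
  · exact e6

end Symmetry

section Cover

variable (a b c d : ℤ)

theorem cover (s : Fin 8) : ∃ k : ℕ, (X s : MvPolynomial (Fin 8) ℤ) ^ k ∈
    Ideal.span (Set.range ((X : Fin 8 → MvPolynomial (Fin 8) ℤ) ∘ ch)) ⊔
      RingHom.ker (phi a b c d) := by
  have hc : ∀ i : Fin 6, (X (ch i) : MvPolynomial (Fin 8) ℤ) ∈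
      Ideal.span (Set.range ((X : Fin 8 → MvPolynomial (Fin 8) ℤ) ∘ ch)) ⊔
      RingHom.ker (phi a b c d) := by
    intro i
    exact Ideal.mem_sup_left (Ideal.subset_span ⟨i, rfl⟩)
  have h0 := hc 0
  have h7 := hc 1
  have h2 := hc 2
  have h3 := hc 3
  have h5 := hc 4
  have h6 := hc 5
  change (X 0 : MvPolynomial (Fin 8) ℤ) ∈ _ at h0
  change (X 7 : MvPolynomial (Fin 8) ℤ) ∈ _ at h7
  change (X 2 : MvPolynomial (Fin 8) ℤ) ∈ _ at h2
  change (X 3 : MvPolynomial (Fin 8) ℤ) ∈ _ at h3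
  change (X 5 : MvPolynomial (Fin 8) ℤ) ∈ _ at h5
  change (X 6 : MvPolynomial (Fin 8) ℤ) ∈ _ at h6
  have key1 : (X 1 : MvPolynomial (Fin 8) ℤ) ^ 2 ∈
      Ideal.span (Set.range ((X : Fin 8 → MvPolynomial (Fin 8) ℤ) ∘ ch)) ⊔
      RingHom.ker (phi a b c d) := by
    have e : (X 1 : MvPolynomial (Fin 8) ℤ) ^ 2 =
        ((tadj (a : MvPolynomial (Fin 8) ℤ) b c d uC).x - X 4 * X 0) + X 4 * X 0 +
        ((c : MvPolynomial (Fin 8) ℤ) * (X 1) * X 3 - (b : MvPolynomial (Fin 8) ℤ) * X 1 * X 2 +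
        ((b : MvPolynomial (Fin 8) ℤ) * (c : MvPolynomial (Fin 8) ℤ) -
          (a : MvPolynomial (Fin 8) ℤ) * (d : MvPolynomial (Fin 8) ℤ)) * X 3 * X 2) := by
      simp only [tadj, uC]
      ring
    rw [e]
    refine Ideal.add_mem _ (Ideal.add_mem _ ?_ (Ideal.mul_mem_left _ _ h0))
      (Ideal.add_mem _ (Ideal.sub_mem _ (Ideal.mul_mem_left _ _ h3) (Ideal.mul_mem_left _ _ h2))
        (Ideal.mul_mem_left _ _ h2))
    apply Ideal.mem_sup_right
    rw [RingHom.mem_ker, map_sub, map_mul]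
    have h := congrArg Tri.x (phi_tadj a b c d uC)
    rw [phi_uC, tadj_cc] at h
    change phi a b c d (tadj (a : MvPolynomial (Fin 8) ℤ) b c d uC).x = _ at h
    rw [h, phi_X, phi_X]
    simp only [tsmul, gen]
    ring
  have key4 : (X 4 : MvPolynomial (Fin 8) ℤ) ^ 2 ∈
      Ideal.span (Set.range ((X : Fin 8 → MvPolynomial (Fin 8) ℤ) ∘ ch)) ⊔
      RingHom.ker (phi a b c d) := by
    have e : (X 4 : MvPolynomial (Fin 8) ℤ) ^ 2 =
        ((tadj (a : MvPolynomial (Fin 8) ℤ) b c d uE).x - X 1 * X 7) + X 1 * X 7 +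
        ((c : MvPolynomial (Fin 8) ℤ) * (X 4) * X 6 - (b : MvPolynomial (Fin 8) ℤ) * X 4 * X 5 +
        ((b : MvPolynomial (Fin 8) ℤ) * (c : MvPolynomial (Fin 8) ℤ) -
          (a : MvPolynomial (Fin 8) ℤ) * (d : MvPolynomial (Fin 8) ℤ)) * X 6 * X 5) := by
      simp only [tadj, uE]
      ring
    rw [e]
    refine Ideal.add_mem _ (Ideal.add_mem _ ?_ (Ideal.mul_mem_left _ _ h7))
      (Ideal.add_mem _ (Ideal.sub_mem _ (Ideal.mul_mem_left _ _ h6) (Ideal.mul_mem_left _ _ h5))
        (Ideal.mul_mem_left _ _ h5))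
    apply Ideal.mem_sup_right
    rw [RingHom.mem_ker, map_sub, map_mul]
    have h := congrArg Tri.x (phi_tadj a b c d uE)
    rw [phi_uE, tadj_cc] at h
    change phi a b c d (tadj (a : MvPolynomial (Fin 8) ℤ) b c d uE).x = _ at h
    rw [h, phi_X, phi_X]
    simp only [tsmul, gen]
    ring
  match s with
  | 0 => exact ⟨1, by rw [pow_one]; exact h0⟩
  | 1 => exact ⟨2, key1⟩
  | 2 => exact ⟨1, by rw [pow_one]; exact h2⟩
  | 3 => exact ⟨1, by rw [pow_one]; exact h3⟩
  | 4 => exact ⟨2, key4⟩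
  | 5 => exact ⟨1, by rw [pow_one]; exact h5⟩
  | 6 => exact ⟨1, by rw [pow_one]; exact h6⟩
  | 7 => exact ⟨1, by rw [pow_one]; exact h7⟩

end Cover

end WeilCubic

end Pool.MP_602153_ag
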