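import Mathlib
import Pool.Agent.MP_602153_ag.WeilCubicE
import Pool.Agent.MP_602153_ag.QuadField

set_option autoImplicit false

/-!
# Cubic fields: normalised bases, minimal discriminant, norm and trace
-/

namespace Pool.MP_602153_ag

namespace WeilCubic

section Disc

/-- The discriminant of a binary cubic form. -/
def cdisc {A : Type} [CommRing A] (a b c d : A) : A :=
  b ^ 2 * c ^ 2 - 4 * a * c ^ 3 - 4 * b ^ 3 * d - 27 * a ^ 2 * d ^ 2 + 18 * a * b * c * d

end Disc

section Field

variable (K : Type) [Field K] [Algebra ℚ K]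

/-- A normalised basis `1, ω, θ` of a cubic field. -/
structure IsCub (a b c d : ℤ) (ω θ : K) : Prop where
  li : ∀ x y z : ℚ, algebraMap ℚ K x + algebraMap ℚ K y * ω + algebraMap ℚ K z * θ = 0 →
    x = 0 ∧ y = 0 ∧ z = 0
  r1 : ω * θ = - ((a : K) * (d : K))
  r2 : ω ^ 2 = - ((a : K) * (c : K)) + (b : K) * ω - (a : K) * θ
  r3 : θ ^ 2 = - ((b : K) * (d : K)) + (d : K) * ω - (c : K) * θ

variable {K}

theorem exists_isCub (hK : Module.finrank ℚ K = 3) :
    ∃ (a b c d : ℤ) (ω θ : K), IsCub K a b c d ω θ := by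
  have hfin : FiniteDimensional ℚ K := Module.finite_of_finrank_pos (by omega)
  obtain ⟨α, hint, hα⟩ := WeilQuad.exists_integral (K := K) (by omega)
  have h1 : minpoly ℚ α = (minpoly ℤ α).map (algebraMap ℤ ℚ) :=
    minpoly.isIntegrallyClosed_eq_field_fractions' ℚ hint
  have h2 : (minpoly ℤ α).natDegree = (minpoly ℚ α).natDegree := by
    rw [h1, Polynomial.natDegree_map_eq_of_injective (RingHom.injective_int _)]
  have hintQ : IsIntegral ℚ α := Algebra.IsIntegral.isIntegral (R := ℚ) α
  have h3 : (minpoly ℚ α).natDegree ∣ 3 := by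
    rw [← hK]
    exact minpoly.degree_dvd hintQ
  have h4 : (minpoly ℚ α).natDegree ≠ 1 := by
    intro h
    obtain ⟨q, hq⟩ := minpoly.natDegree_eq_one_iff.1 h
    exact hα q hq
  have h5 : (minpoly ℚ α).natDegree = 3 := by
    rcases (Nat.dvd_prime Nat.prime_three).1 h3 with h | h
    · exact absurd h h4
    · exact h
  have h6 : (minpoly ℤ α).natDegree = 3 := by omega
  have h7 : (minpoly ℤ α).Monic := minpoly.monic hint
  have h8 := minpoly.aeval ℤ α
  rw [Polynomial.aeval_eq_sum_range, h6] at h8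
  have h9 : (minpoly ℤ α).coeff 3 = 1 := by
    have := h7.coeff_natDegree
    rwa [h6] at this
  rw [Finset.sum_range_succ, Finset.sum_range_succ, Finset.sum_range_succ,
    Finset.sum_range_one, h9] at h8
  simp only [zsmul_eq_mul, pow_zero, mul_one, pow_one, Int.cast_one, one_mul] at h8
  set r := (minpoly ℤ α).coeff 0 with hr
  set q := (minpoly ℤ α).coeff 1 with hq
  set p := (minpoly ℤ α).coeff 2 with hp
  refine ⟨1, -p, q, -r, α, - α ^ 2 - p * α - q, ?_, ?_, ?_, ?_⟩
  · intro x y z hxyz
    let f : Polynomial ℚ := Polynomial.C (x - z * q) + Polynomial.C (y - z * p) * Polynomial.X +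
      Polynomial.C (-z) * Polynomial.X ^ 2
    have hf : Polynomial.aeval α f = 0 := by
      simp only [f, map_add, map_mul, map_sub, map_neg, Polynomial.aeval_C, Polynomial.aeval_X,
        map_pow, map_intCast]
      linear_combination hxyz
    have hdeg : f.natDegree < (minpoly ℚ α).natDegree := by
      rw [h5]
      have : f.natDegree ≤ 2 := by
        simp only [f]
        compute_degree
      omega
    have hf0 : f = 0 := by
      by_contra hne
      have := Polynomial.natDegree_le_natDegree (minpoly.degree_le_of_ne_zero ℚ α hne hf)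
      omega
    have c0 : x - z * q = 0 := by
      have := congrArg (fun g => Polynomial.coeff g 0) hf0
      simpa [f] using this
    have c1 : y - z * p = 0 := by
      have := congrArg (fun g => Polynomial.coeff g 1) hf0
      simpa [f, Polynomial.coeff_X, Polynomial.coeff_C] using this
    have c2 : z = 0 := by
      have := congrArg (fun g => Polynomial.coeff g 2) hf0
      simpa [f, Polynomial.coeff_X, Polynomial.coeff_C] using this
    refine ⟨?_, ?_, c2⟩
    · rw [c2] at c0; linarith
    · rw [c2] at c1; linarith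
  · push_cast
    linear_combination - h8
  · push_cast
    ring
  · push_cast
    linear_combination (α + p) * h8

namespace IsCub

variable {a b c d : ℤ} {ω θ : K} (h : IsCub K a b c d ω θ)

include h

theorem swap : IsCub K (-d) (-c) (-b) (-a) θ ω := by
  refine ⟨?_, ?_, ?_, ?_⟩
  · intro x y z hxyz
    obtain ⟨h1, h2, h3⟩ := h.li x z y (by linear_combination hxyz)
    exact ⟨h1, h3, h2⟩
  · push_cast
    linear_combination h.r1
  · push_cast
    linear_combination h.r3
  · push_cast
    linear_combination h.r2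

theorem a_ne : a ≠ 0 := by
  intro ha
  have h1 := h.r1
  rw [ha] at h1
  simp only [Int.cast_zero, zero_mul, neg_zero, mul_eq_zero] at h1
  rcases h1 with h1 | h1
  · have := (h.li 0 1 0 (by rw [h1]; simp)).2.1
    norm_num at this
  · have := (h.li 0 0 1 (by rw [h1]; simp)).2.2
    norm_num at this

/-- The translated and rescaled basis. -/
theorem rescale {p : ℤ} (hp : p ≠ 0) (x a' b' c' d' : ℤ) (ha : a' = p * a)
    (hb : b' = b + 3 * a * x) (hc : p * c' = 3 * a * x ^ 2 + 2 * b * x + c)
    (hd : p ^ 2 * d' = a * x ^ 3 + b * x ^ 2 + c * x + d) :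
    IsCub K a' b' c' d' (ω + a * x) ((θ + x * ω - (b * x + a * x ^ 2)) / p) := by
  have : CharZero K := algebraRat.charZero K
  have hpK : (p : K) ≠ 0 := by exact_mod_cast hp
  have haK : (a' : K) = p * a := by exact_mod_cast ha
  have hbK : (b' : K) = b + 3 * a * x := by exact_mod_cast hb
  have hcK : (p : K) * c' = 3 * a * x ^ 2 + 2 * b * x + c := by exact_mod_cast hc
  have hdK : (p : K) ^ 2 * d' = a * x ^ 3 + b * x ^ 2 + c * x + d := by exact_mod_cast hd
  have hpQ : (p : ℚ) ≠ 0 := by exact_mod_cast hp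
  refine ⟨?_, ?_, ?_, ?_⟩
  · intro u v w huvw
    have e1 : ∀ n : ℤ, algebraMap ℚ K (n : ℚ) = (n : K) := fun n => map_intCast _ _
    obtain ⟨h1, h2, h3⟩ := h.li (u + v * a * x - w * (b * x + a * x ^ 2) / p) (v + w * x / p)
      (w / p) (by
        simp only [map_add, map_sub, map_mul, map_pow, map_div₀, e1]
        rw [← huvw]
        field_simp
        ring)
    have hw : w = 0 := by
      rcases div_eq_zero_iff.1 h3 with h4 | h4
      · exact h4
      · exact absurd h4 hpQ
    subst hw
    simp only [zero_mul, zero_div, add_zero, sub_zero] at h1 h2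
    subst h2
    simp only [zero_mul, add_zero] at h1
    exact ⟨h1, rfl, rfl⟩
  · rw [mul_div_assoc', div_eq_iff hpK, haK]
    linear_combination h.r1 + x * h.r2 + a * hdK
  · rw [haK, hbK]
    have e : (p : K) * a * ((θ + x * ω - (b * x + a * x ^ 2)) / p) =
        a * (θ + x * ω - (b * x + a * x ^ 2)) := by
      field_simp
    rw [e]
    linear_combination h.r2 + a * hcK
  · rw [div_pow, div_eq_iff (pow_ne_zero 2 hpK), hbK]
    have e : (-((b + 3 * a * x) * (d' : K)) + d' * (ω + a * x) -
        c' * ((θ + x * ω - (b * x + a * x ^ 2)) / p)) * (p : K) ^ 2 =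
        -((b + 3 * a * x) * ((p : K) ^ 2 * d')) + ((p : K) ^ 2 * d') * (ω + a * x) -
        ((p : K) * c') * (θ + x * ω - (b * x + a * x ^ 2)) := by
      field_simp
    rw [e, hdK, hcK]
    linear_combination h.r3 + x ^ 2 * h.r2 + 2 * x * h.r1

/-- Dividing the form by an integer. -/
theorem divide {p : ℤ} (hp : p ≠ 0) (a' b' c' d' : ℤ) (ha : a = p * a')
    (hb : b = p * b') (hc : c = p * c') (hd : d = p * d') :
    IsCub K a' b' c' d' (ω / p) (θ / p) := by
  have : CharZero K := algebraRat.charZero K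
  have hpK : (p : K) ≠ 0 := by exact_mod_cast hp
  have hpQ : (p : ℚ) ≠ 0 := by exact_mod_cast hp
  have haK : (a : K) = p * a' := by exact_mod_cast ha
  have hbK : (b : K) = p * b' := by exact_mod_cast hb
  have hcK : (c : K) = p * c' := by exact_mod_cast hc
  have hdK : (d : K) = p * d' := by exact_mod_cast hd
  have h1 := h.r1
  have h2 := h.r2
  have h3 := h.r3
  rw [haK, hdK] at h1
  rw [haK, hbK, hcK] at h2
  rw [hbK, hcK, hdK] at h3
  refine ⟨?_, ?_, ?_, ?_⟩
  · intro u v w huvw
    have e1 : ∀ n : ℤ, algebraMap ℚ K (n : ℚ) = (n : K) := fun n => map_intCast _ _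
    obtain ⟨g1, g2, g3⟩ := h.li u (v / p) (w / p) (by
        simp only [map_div₀, e1]
        rw [← huvw]
        ring)
    refine ⟨g1, ?_, ?_⟩
    · rcases div_eq_zero_iff.1 g2 with h4 | h4
      · exact h4
      · exact absurd h4 hpQ
    · rcases div_eq_zero_iff.1 g3 with h4 | h4
      · exact h4
      · exact absurd h4 hpQ
  · field_simp
    linear_combination h1
  · field_simp
    linear_combination h2
  · field_simp
    linear_combination h3

end IsCub

end Field

section Coord

variable {K : Type} [Field K] [Algebra ℚ K] (hK : Module.finrank ℚ K = 3) {a b c d : ℤ}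
  {ω θ : K} (h : IsCub K a b c d ω θ)

theorem linInd (h : IsCub K a b c d ω θ) : LinearIndependent ℚ ![(1 : K), ω, θ] := by
  rw [Fintype.linearIndependent_iff]
  intro g hg
  rw [Fin.sum_univ_three] at hg
  have h1 := h.li (g 0) (g 1) (g 2) (by
    rw [← hg]
    simp [Algebra.smul_def])
  intro i
  fin_cases i
  · exact h1.1
  · exact h1.2.1
  · exact h1.2.2

/-- The basis `1, ω, θ`. -/
noncomputable def bas (hK : Module.finrank ℚ K = 3) (h : IsCub K a b c d ω θ) :
    Module.Basis (Fin 3) ℚ K :=
  basisOfLinearIndependentOfCardEqFinrank (linInd h) (by rw [hK]; rfl)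

theorem bas_zero : bas hK h 0 = 1 := by
  rw [bas, coe_basisOfLinearIndependentOfCardEqFinrank]
  rfl

theorem bas_one : bas hK h 1 = ω := by
  rw [bas, coe_basisOfLinearIndependentOfCardEqFinrank]
  rfl

theorem bas_two : bas hK h 2 = θ := by
  rw [bas, coe_basisOfLinearIndependentOfCardEqFinrank]
  rfl

/-- coordinates -/
noncomputable def co (hK : Module.finrank ℚ K = 3) (h : IsCub K a b c d ω θ) (z : K) : Tri ℚ :=
  ⟨(bas hK h).repr z 0, (bas hK h).repr z 1, (bas hK h).repr z 2⟩

/-- the element with given coordinates -/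
noncomputable def el (ω θ : K) (u : Tri ℚ) : K :=
  algebraMap ℚ K u.x + algebraMap ℚ K u.y * ω + algebraMap ℚ K u.z * θ

theorem el_co (z : K) : el ω θ (co hK h z) = z := by
  have h1 := (bas hK h).sum_repr z
  rw [Fin.sum_univ_three, bas_zero, bas_one, bas_two, Algebra.smul_def, Algebra.smul_def,
    Algebra.smul_def, mul_one] at h1
  exact h1

theorem co_el (u : Tri ℚ) : co hK h (el ω θ u) = u := by
  have e : el ω θ u = u.x • bas hK h 0 + u.y • bas hK h 1 + u.z • bas hK h 2 := by
    rw [bas_zero, bas_one, bas_two, Algebra.smul_def, Algebra.smul_def, Algebra.smul_def, mul_one]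
    rfl
  ext
  · simp [e, co]
  · simp [e, co]
  · simp [e, co]

theorem el_mul (u v : Tri ℚ) (h : IsCub K a b c d ω θ) : el ω θ u * el ω θ v =
    el ω θ (tmul (a : ℚ) b c d u v) := by
  have e1 : ∀ n : ℤ, algebraMap ℚ K (n : ℚ) = (n : K) := fun n => map_intCast _ _
  simp only [el, tmul, map_add, map_sub, map_mul, e1]
  linear_combination (algebraMap ℚ K u.y * algebraMap ℚ K v.z +
    algebraMap ℚ K u.z * algebraMap ℚ K v.y) * h.r1 +
    algebraMap ℚ K u.y * algebraMap ℚ K v.y * h.r2 +
    algebraMap ℚ K u.z * algebraMap ℚ K v.z * h.r3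

theorem co_mul (z w : K) : co hK h (z * w) =
    tmul (a : ℚ) b c d (co hK h z) (co hK h w) := by
  conv_lhs => rw [← el_co hK h z, ← el_co hK h w, el_mul _ _ h, co_el]

theorem co_add (z w : K) : co hK h (z + w) = tadd (co hK h z) (co hK h w) := by
  ext <;> simp [co, tadd]

theorem co_neg (z : K) : co hK h (-z) = tsmul (-1) (co hK h z) := by
  ext <;> simp [co, tsmul]

theorem co_one : co hK h 1 = ⟨1, 0, 0⟩ := by
  have := co_el hK h ⟨1, 0, 0⟩
  simpa [el] using this

theorem co_gen1 : co hK h ω = ⟨0, 1, 0⟩ := by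
  have := co_el hK h ⟨0, 1, 0⟩
  simpa [el] using this

theorem co_gen2 : co hK h θ = ⟨0, 0, 1⟩ := by
  have := co_el hK h ⟨0, 0, 1⟩
  simpa [el] using this

theorem norm_eq (z : K) : Algebra.norm ℚ z = tnorm (a : ℚ) b c d (co hK h z) := by
  rw [Algebra.norm_eq_matrix_det (bas hK h) z, Matrix.det_fin_three]
  have e1 : ∀ i j, Algebra.leftMulMatrix (bas hK h) z i j = (bas hK h).repr (z * bas hK h j) i :=
    fun i j => Algebra.leftMulMatrix_eq_repr_mul _ _ _ _
  simp only [e1, bas_zero, bas_one, bas_two]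
  have ex : ∀ w, (bas hK h).repr w 0 = (co hK h w).x := fun w => rfl
  have ey : ∀ w, (bas hK h).repr w 1 = (co hK h w).y := fun w => rfl
  have ez : ∀ w, (bas hK h).repr w 2 = (co hK h w).z := fun w => rfl
  simp only [ex, ey, ez, co_mul, co_one, co_gen1, co_gen2]
  simp only [tmul, tnorm, tadj]
  ring

theorem trace_eq (z : K) : Algebra.trace ℚ K z = ttr (b : ℚ) c (co hK h z) := by
  rw [Algebra.trace_eq_matrix_trace (bas hK h) z, Matrix.trace_fin_three]
  have e1 : ∀ i j, Algebra.leftMulMatrix (bas hK h) z i j = (bas hK h).repr (z * bas hK h j) i :=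
    fun i j => Algebra.leftMulMatrix_eq_repr_mul _ _ _ _
  simp only [e1, bas_zero, bas_one, bas_two]
  have ex : ∀ w, (bas hK h).repr w 0 = (co hK h w).x := fun w => rfl
  have ey : ∀ w, (bas hK h).repr w 1 = (co hK h w).y := fun w => rfl
  have ez : ∀ w, (bas hK h).repr w 2 = (co hK h w).z := fun w => rfl
  simp only [ex, ey, ez, co_mul, co_one, co_gen1, co_gen2]
  simp only [tmul, ttr]
  ring

include hK h in
theorem disc_ne : cdisc a b c d ≠ 0 := by
  have hfin : FiniteDimensional ℚ K := Module.finite_of_finrank_pos (by omega)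
  have : CharZero K := algebraRat.charZero K
  have h1 := Algebra.discr_not_zero_of_basis ℚ (bas hK h)
  intro h0
  apply h1
  have e2 : ∀ i j, Algebra.traceMatrix ℚ (bas hK h) i j =
      ttr (b : ℚ) c (tmul (a : ℚ) b c d (co hK h (bas hK h i)) (co hK h (bas hK h j))) := by
    intro i j
    rw [Algebra.traceMatrix_apply, Algebra.traceForm_apply, trace_eq hK h, co_mul]
  rw [Algebra.discr_def, Matrix.det_fin_three]
  simp only [e2, bas_zero, bas_one, bas_two, co_one, co_gen1, co_gen2]
  have h2 : ((cdisc a b c d : ℤ) : ℚ) = 0 := by rw [h0]; simp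
  simp only [cdisc] at h2
  push_cast at h2
  simp only [tmul, ttr]
  linear_combination h2

end Coord

section Nice

variable {K : Type} [Field K] [Algebra ℚ K] (hK : Module.finrank ℚ K = 3)

theorem gcub_ne_zero {a b c d : ℤ} (ha : a ≠ 0) : gcub a b c d ≠ 0 := by
  intro h0
  have h1 := Polynomial.natDegree_cubic (R := ℤ) (a := a) (b := b) (c := c) (d := d) ha
  have h2 : gcub a b c d = Polynomial.C a * Polynomial.X ^ 3 + Polynomial.C b * Polynomial.X ^ 2 +
    Polynomial.C c * Polynomial.X + Polynomial.C d := rfl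
  rw [← h2, h0] at h1
  simp at h1

include hK in
theorem nice_of_min {a b c d : ℤ} {ω θ : K} (h : IsCub K a b c d ω θ)
    (hmin : ∀ (a' b' c' d' : ℤ) (ω' θ' : K), IsCub K a' b' c' d' ω' θ' →
      (cdisc a b c d).natAbs ≤ (cdisc a' b' c' d').natAbs) : Nice (gcub a b c d) := by
  have hder : Polynomial.derivative (gcub a b c d) =
      Polynomial.C (3 * a) * Polynomial.X ^ 2 + Polynomial.C (2 * b) * Polynomial.X +
        Polynomial.C c := by
    rw [gcub]
    simp only [Polynomial.derivative_add, Polynomial.derivative_mul, Polynomial.derivative_C,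
      Polynomial.derivative_X_pow, Polynomial.derivative_X, map_mul]
    simp
    ring
  constructor
  · exact Polynomial.natDegree_cubic_le
  · intro p hp h0
    have : Fact p.Prime := ⟨hp⟩
    have hco : ∀ n, (p : ℤ) ∣ (gcub a b c d).coeff n := by
      intro n
      have h1 := congrArg (fun g => Polynomial.coeff g n) h0
      simp only [Polynomial.coeff_map, Polynomial.coeff_zero] at h1
      rw [← ZMod.intCast_zmod_eq_zero_iff_dvd]
      exact h1
    have hd : (gcub a b c d).coeff 0 = d := by
      rw [gcub]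
      simp only [Polynomial.coeff_add, Polynomial.coeff_C_mul, Polynomial.coeff_X_pow,
        Polynomial.coeff_X, Polynomial.coeff_C]
      norm_num
    have hc : (gcub a b c d).coeff 1 = c := by
      rw [gcub]
      simp only [Polynomial.coeff_add, Polynomial.coeff_C_mul, Polynomial.coeff_X_pow,
        Polynomial.coeff_X, Polynomial.coeff_C]
      norm_num
    have hb : (gcub a b c d).coeff 2 = b := by
      rw [gcub]
      simp only [Polynomial.coeff_add, Polynomial.coeff_C_mul, Polynomial.coeff_X_pow,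
        Polynomial.coeff_X, Polynomial.coeff_C]
      norm_num
    have ha : (gcub a b c d).coeff 3 = a := by
      rw [gcub]
      simp only [Polynomial.coeff_add, Polynomial.coeff_C_mul, Polynomial.coeff_X_pow,
        Polynomial.coeff_X, Polynomial.coeff_C]
      norm_num
    obtain ⟨d', hd'⟩ := hd ▸ hco 0
    obtain ⟨c', hc'⟩ := hc ▸ hco 1
    obtain ⟨b', hb'⟩ := hb ▸ hco 2
    obtain ⟨a', ha'⟩ := ha ▸ hco 3
    have hnew := h.divide (p := (p : ℤ)) (by exact_mod_cast hp.ne_zero) a' b' c' d' ha' hb' hc' hd'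
    have hle := hmin _ _ _ _ _ _ hnew
    have hne := disc_ne hK hnew
    have hdisc : cdisc a b c d = (p : ℤ) ^ 4 * cdisc a' b' c' d' := by
      rw [ha', hb', hc', hd']
      simp only [cdisc]
      ring
    rw [hdisc, Int.natAbs_mul] at hle
    have hpos : 0 < (cdisc a' b' c' d').natAbs := Int.natAbs_pos.2 hne
    have hp2 : 2 ≤ ((p : ℤ) ^ 4).natAbs := by
      rw [Int.natAbs_pow, Int.natAbs_natCast]
      calc 2 ≤ p := hp.two_le
        _ = p ^ 1 := (pow_one p).symm
        _ ≤ p ^ 4 := Nat.pow_le_pow_right hp.pos (by norm_num)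
    nlinarith
  · refine ⟨-3 * cdisc a b c d, ?_, ?_⟩
    · have := disc_ne hK h
      intro h0
      apply this
      have h3 : (-3 : ℤ) ≠ 0 := by norm_num
      exact (mul_eq_zero.1 h0).resolve_left h3
    · refine ⟨Polynomial.C (9 * a) * (Polynomial.C (6 * a * c - 2 * b ^ 2) * Polynomial.X +
          Polynomial.C (9 * a * d - b * c)) + Polynomial.C (12 * (b ^ 2 - 3 * a * c)) *
          (Polynomial.C (3 * a) * Polynomial.X + Polynomial.C b),
        -((Polynomial.C (3 * a) * Polynomial.X + Polynomial.C b) *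
          (Polynomial.C (6 * a * c - 2 * b ^ 2) * Polynomial.X +
          Polynomial.C (9 * a * d - b * c))) - Polynomial.C (4 * (b ^ 2 - 3 * a * c)) *
          Polynomial.derivative (gcub a b c d), ?_⟩
      rw [hder, gcub]
      simp only [cdisc, map_mul, map_sub, map_add, map_pow, map_neg, eq_intCast, Int.cast_ofNat]
      ring
  · intro p hp x h1 h2
    have hg1 : (gcub a b c d).eval x = a * x ^ 3 + b * x ^ 2 + c * x + d := by
      rw [gcub]
      simp
    have hg2 : (Polynomial.derivative (gcub a b c d)).eval x =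
        3 * a * x ^ 2 + 2 * b * x + c := by
      rw [hder]
      simp
    rw [hg1] at h1
    rw [hg2] at h2
    obtain ⟨d', hd'⟩ := h1
    obtain ⟨c', hc'⟩ := h2
    have hnew := h.rescale (p := (p : ℤ)) (by exact_mod_cast hp.ne_zero) x (p * a)
      (b + 3 * a * x) c' d' rfl rfl hc'.symm hd'.symm
    have hle := hmin _ _ _ _ _ _ hnew
    have hne := disc_ne hK hnew
    have hp0 : (p : ℤ) ≠ 0 := by exact_mod_cast hp.ne_zero
    have hdisc : cdisc a b c d = (p : ℤ) ^ 2 * cdisc ((p : ℤ) * a) (b + 3 * a * x) c' d' := by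
      have e1 : cdisc a b c d = cdisc a (b + 3 * a * x) (3 * a * x ^ 2 + 2 * b * x + c)
          (a * x ^ 3 + b * x ^ 2 + c * x + d) := by
        simp only [cdisc]
        ring
      rw [e1, hd', hc']
      simp only [cdisc]
      ring
    rw [hdisc, Int.natAbs_mul] at hle
    have hpos : 0 < (cdisc ((p : ℤ) * a) (b + 3 * a * x) c' d').natAbs := Int.natAbs_pos.2 hne
    have hp2 : 2 ≤ ((p : ℤ) ^ 2).natAbs := by
      rw [Int.natAbs_pow, Int.natAbs_natCast]
      calc 2 ≤ p := hp.two_le
        _ = p ^ 1 := (pow_one p).symm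
        _ ≤ p ^ 2 := Nat.pow_le_pow_right hp.pos (by norm_num)
    nlinarith

include hK in
theorem exists_nice : ∃ (a b c d : ℤ) (ω θ : K), IsCub K a b c d ω θ ∧ Nice (gcub a b c d) ∧
    Nice (gcub (-d) (-c) (-b) (-a)) := by
  classical
  have hex : ∃ N : ℕ, ∃ (a b c d : ℤ) (ω θ : K), IsCub K a b c d ω θ ∧
      (cdisc a b c d).natAbs = N := by
    obtain ⟨a, b, c, d, ω, θ, h⟩ := exists_isCub hK
    exact ⟨_, a, b, c, d, ω, θ, h, rfl⟩
  obtain ⟨a, b, c, d, ω, θ, h, hN⟩ := Nat.find_spec hex
  have hmin : ∀ (a' b' c' d' : ℤ) (ω' θ' : K), IsCub K a' b' c' d' ω' θ' →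
      (cdisc a b c d).natAbs ≤ (cdisc a' b' c' d').natAbs := by
    intro a' b' c' d' ω' θ' h'
    rw [hN]
    exact Nat.find_min' hex ⟨a', b', c', d', ω', θ', h', rfl⟩
  refine ⟨a, b, c, d, ω, θ, h, nice_of_min hK h hmin, nice_of_min hK h.swap ?_⟩
  have e : cdisc (-d) (-c) (-b) (-a) = cdisc a b c d := by
    simp only [cdisc]
    ring
  rw [e]
  exact hmin

end Nice

end WeilCubic

end Pool.MP_602153_ag
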