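import Pool.Agent.MP_602153_ag.CubicCharts

set_option autoImplicit false

/-!
# The model of the Weil restriction of the projective line along a cubic field
-/

namespace Pool.Agent.MP_602153_ag.Cubic

open MvPolynomial

variable {K : Type} [Field K] [NumberField K] (B : DF K)

/-- The ring of polynomials in the coordinates of two elements of the ring of integers. -/
abbrev PR : Type := MvPolynomial (Fin 2 × Fin 3) ℤ

/-- The generic element. -/
noncomputable def gen (i : Fin 2) : Fin 3 → PR := fun k ↦ X (i, k)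

/-- The parametrisation. -/
noncomputable def phi : MvPolynomial (Fin 8) ℤ →ₐ[ℤ] PR := aeval (B.forms (gen 0) (gen 1))

theorem phi_X (s : Fin 8) : phi B (X s) = B.forms (gen 0) (gen 1) s := aeval_X _ _

section Homogeneous

variable {τ : Type}

theorem hom_int (n : ℤ) {p : MvPolynomial τ ℤ} {k : ℕ} (hp : p.IsHomogeneous k) :
    ((n : MvPolynomial τ ℤ) * p).IsHomogeneous k := by
  have h1 : (n : MvPolynomial τ ℤ).IsHomogeneous 0 := by
    rw [show (n : MvPolynomial τ ℤ) = C n by simp]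
    exact isHomogeneous_C _ _
  have := h1.mul hp
  rwa [zero_add] at this

theorem hom_cmul {x y : Fin 3 → MvPolynomial τ ℤ} {m n : ℕ} (hx : ∀ i, (x i).IsHomogeneous m)
    (hy : ∀ i, (y i).IsHomogeneous n) (i : Fin 3) : (B.cmul x y i).IsHomogeneous (m + n) := by
  have h : ∀ i j, (x i * y j).IsHomogeneous (m + n) := fun i j ↦ (hx i).mul (hy j)
  have h2 : ∀ (a b : ℤ) {p : MvPolynomial τ ℤ} {k : ℕ}, p.IsHomogeneous k →
      ((a : MvPolynomial τ ℤ) * b * p).IsHomogeneous k := fun a b p k hp ↦ by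
    rw [mul_assoc]
    exact hom_int a (hom_int b hp)
  fin_cases i
  · exact (((h 0 0).sub (h2 _ _ (h 1 1))).sub (h2 _ _ ((h 1 2).add (h 2 1)))).sub
      (h2 _ _ (h 2 2))
  · exact (((h 0 1).add (h 1 0)).add (hom_int _ (h 1 1))).add (hom_int _ (h 2 2))
  · exact (((h 0 2).add (h 2 0)).sub (hom_int _ (h 1 1))).sub (hom_int _ (h 2 2))

theorem hom_csh {x : Fin 3 → MvPolynomial τ ℤ} {m : ℕ} (hx : ∀ i, (x i).IsHomogeneous m)
    (i : Fin 3) : (B.csh x i).IsHomogeneous (m * 2) := by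
  have h : ∀ i j, (x i * x j).IsHomogeneous (m * 2) := fun i j ↦ by
    rw [mul_two]
    exact (hx i).mul (hx j)
  have hs : ∀ i, (x i ^ 2).IsHomogeneous (m * 2) := fun i ↦ (hx i).pow 2
  have h2 : ∀ {p : MvPolynomial τ ℤ} {k : ℕ}, p.IsHomogeneous k →
      (((B.a : MvPolynomial τ ℤ) * B.d - B.b * B.c) * p).IsHomogeneous k := fun {p k} hp ↦ by
    have := hom_int (B.a * B.d - B.b * B.c) hp
    push_cast at this
    exact this
  fin_cases i
  · exact (((hs 0).add (hom_int _ (h 0 1))).sub (hom_int _ (h 0 2))).add (h2 (h 1 2))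
  · exact (((h 0 1).neg).add (hom_int _ (hs 2))).add (hom_int _ (h 1 2))
  · exact (((h 0 2).neg).sub (hom_int _ (hs 1))).sub (hom_int _ (h 1 2))

theorem hom_cno {x : Fin 3 → MvPolynomial τ ℤ} {m : ℕ} (hx : ∀ i, (x i).IsHomogeneous m) :
    (B.cno x).IsHomogeneous (m + m * 2) :=
  hom_cmul B hx (hom_csh B hx) 0

end Homogeneous

theorem forms_ind {R : Type*} [CommRing R] (z s : Fin 3 → R) (P : R → Prop)
    (h0 : P (B.cno s)) (hx : ∀ i, P (B.cmul z (B.csh s) i)) (hy : ∀ i, P (B.cmul (B.csh z) s i))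
    (h7 : P (B.cno z)) (i : Fin 8) : P (B.forms z s i) := by
  fin_cases i
  · exact h0
  · exact hx 0
  · exact hx 1
  · exact hx 2
  · exact hy 0
  · exact hy 1
  · exact hy 2
  · exact h7

theorem phi_homogeneous (s : Fin 8) : (phi B (X s)).IsHomogeneous 3 := by
  rw [phi_X]
  have h : ∀ i k, (gen i k).IsHomogeneous 1 := fun i k ↦ isHomogeneous_X _ _
  exact forms_ind B (gen 0) (gen 1) (fun p ↦ p.IsHomogeneous 3) (hom_cno B (h 1))
    (fun i ↦ hom_cmul B (h 0) (hom_csh B (h 1)) i) (fun i ↦ hom_cmul B (hom_csh B (h 0)) (h 1) i)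
    (hom_cno B (h 0)) s

/-- The charts. -/
def ch : Fin 6 → Fin 8 := ![0, 7, 3, 2, 6, 5]

/-- The polynomial ring in eight variables. -/
abbrev P8 : Type := MvPolynomial (Fin 8) ℤ

theorem cover (s : Fin 8) : ∃ k : ℕ, (X s : P8) ^ k ∈
    Ideal.span (Set.range (X ∘ ch)) ⊔ RingHom.ker (phi B) := by
  set I : Ideal (P8) := Ideal.span (Set.range (X ∘ ch)) ⊔
    RingHom.ker (phi B) with hI
  have hm : ∀ i, (X (ch i) : P8) ∈ I := fun i ↦
    Ideal.mem_sup_left (Ideal.subset_span ⟨i, rfl⟩)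
  have h0 : (X 0 : P8) ∈ I := hm 0
  have h7 : (X 7 : P8) ∈ I := hm 1
  have h3 : (X 3 : P8) ∈ I := hm 2
  have h2 : (X 2 : P8) ∈ I := hm 3
  have h6 : (X 6 : P8) ∈ I := hm 4
  have h5 : (X 5 : P8) ∈ I := hm 5
  have k1 : (X 0 * X 4 - (X 1 ^ 2 + (B.b : P8) * (X 1 * X 2) -
      (B.c : P8) * (X 1 * X 3) + ((B.a : P8) * (B.d : P8) - (B.b : P8) * (B.c : P8)) * (X 2 * X 3))) ∈ I := by
    refine Ideal.mem_sup_right ?_
    rw [RingHom.mem_ker]
    have := rel1 B (gen 0) (gen 1)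
    simp only [map_sub, map_add, map_mul, map_pow, phi_X, map_intCast]
    linear_combination this
  have k4 : (X 7 * X 1 - (X 4 ^ 2 + (B.b : P8) * (X 4 * X 5) -
      (B.c : P8) * (X 4 * X 6) + ((B.a : P8) * (B.d : P8) - (B.b : P8) * (B.c : P8)) * (X 5 * X 6))) ∈ I := by
    refine Ideal.mem_sup_right ?_
    rw [RingHom.mem_ker]
    have := rel4 B (gen 0) (gen 1)
    simp only [map_sub, map_add, map_mul, map_pow, phi_X, map_intCast]
    linear_combination this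
  fin_cases s
  · exact ⟨1, by rw [pow_one]; exact h0⟩
  · refine ⟨2, ?_⟩
    have e : (X 1 : P8) ^ 2 = X 4 * X 0 - ((B.b : P8) * X 1) * X 2 +
        ((B.c : P8) * X 1) * X 3 - (((B.a : P8) * (B.d : P8) - (B.b : P8) * (B.c : P8)) * X 2) * X 3 -
        (X 0 * X 4 - (X 1 ^ 2 + (B.b : P8) * (X 1 * X 2) -
          (B.c : P8) * (X 1 * X 3) + ((B.a : P8) * (B.d : P8) - (B.b : P8) * (B.c : P8)) *
            (X 2 * X 3))) := by ring
    change (X 1 : P8) ^ 2 ∈ I
    rw [e]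
    exact I.sub_mem (I.sub_mem (I.add_mem (I.sub_mem (I.mul_mem_left _ h0) (I.mul_mem_left _ h2))
      (I.mul_mem_left _ h3)) (I.mul_mem_left _ h3)) k1
  · exact ⟨1, by rw [pow_one]; exact h2⟩
  · exact ⟨1, by rw [pow_one]; exact h3⟩
  · refine ⟨2, ?_⟩
    have e : (X 4 : P8) ^ 2 = X 1 * X 7 - ((B.b : P8) * X 4) * X 5 +
        ((B.c : P8) * X 4) * X 6 - (((B.a : P8) * (B.d : P8) - (B.b : P8) * (B.c : P8)) * X 5) * X 6 -
        (X 7 * X 1 - (X 4 ^ 2 + (B.b : P8) * (X 4 * X 5) -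
          (B.c : P8) * (X 4 * X 6) + ((B.a : P8) * (B.d : P8) - (B.b : P8) * (B.c : P8)) *
            (X 5 * X 6))) := by ring
    change (X 4 : P8) ^ 2 ∈ I
    rw [e]
    exact I.sub_mem (I.sub_mem (I.add_mem (I.sub_mem (I.mul_mem_left _ h7) (I.mul_mem_left _ h5))
      (I.mul_mem_left _ h6)) (I.mul_mem_left _ h6)) k4
  · exact ⟨1, by rw [pow_one]; exact h5⟩
  · exact ⟨1, by rw [pow_one]; exact h6⟩
  · exact ⟨1, by rw [pow_one]; exact h7⟩

section Regular

variable (F : Type) [Field F] [Algebra PR F] [IsFractionRing PR F]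

/-- The forms in the fraction field. -/
noncomputable def V (s : Fin 8) : F := algebraMap PR F (phi B (X s))

omit [IsFractionRing PR F] in
theorem V_eq (s : Fin 8) : V B F s = B.forms (fun k ↦ algebraMap PR F (gen 0 k))
    (fun k ↦ algebraMap PR F (gen 1 k)) s := by
  rw [V, phi_X]
  exact B.map_forms (algebraMap PR F) _ _ s

theorem hind_of_real (j i0 i1 i2 : Fin 8) (S : Fin 3 → Set ℚ) (hS : ∀ i, (S i).Infinite)
    (hreal : ∀ x : Fin 3 → ℚ, (∀ i, x i ∈ S i) → ∃ z s : Fin 3 → ℚ, B.forms z s j ≠ 0 ∧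
      B.forms z s i0 = x 0 * B.forms z s j ∧ B.forms z s i1 = x 1 * B.forms z s j ∧
      B.forms z s i2 = x 2 * B.forms z s j) (q : MvPolynomial (Fin 3) ℤ)
    (hq : aeval ![V B F i0 / V B F j, V B F i1 / V B F j, V B F i2 / V B F j] q = 0) : q = 0 := by
  apply map_injective (Int.castRingHom ℚ) Int.cast_injective
  rw [map_zero]
  refine funext_set S hS fun x hx ↦ ?_
  rw [map_zero]
  obtain ⟨z, s, hj, h0, h1, h2⟩ := hreal x fun i ↦ hx i (Set.mem_univ i)
  let ρ : PR →+* ℚ := ((aeval fun p : Fin 2 × Fin 3 ↦ (![z, s] : Fin 2 → Fin 3 → ℚ) p.1 p.2 :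
    PR →ₐ[ℤ] ℚ) : PR →+* ℚ)
  have hρ : ∀ i, ρ (phi B (X i)) = B.forms z s i := by
    intro i
    rw [phi_X, B.map_forms]
    congr 1
    · ext k
      exact aeval_X _ _
    · ext k
      exact aeval_X _ _
  have key := aeval_ratio ρ (b := phi B (X j)) (by rw [hρ]; exact hj)
    (![phi B (X i0), phi B (X i1), phi B (X i2)]) q (by
      have e : (fun i ↦ algebraMap PR F (![phi B (X i0), phi B (X i1),
          phi B (X i2)] i) / algebraMap PR F (phi B (X j))) =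
          ![V B F i0 / V B F j, V B F i1 / V B F j, V B F i2 / V B F j] := by
        ext i
        fin_cases i <;> rfl
      rw [e]
      exact hq)
  have e : (fun i ↦ ρ (![phi B (X i0), phi B (X i1), phi B (X i2)] i) / ρ (phi B (X j))) =
      x := by
    ext i
    rw [hρ]
    fin_cases i
    · change ρ (phi B (X i0)) / _ = x 0
      rw [hρ, h0, mul_div_cancel_right₀ _ hj]
    · change ρ (phi B (X i1)) / _ = x 1
      rw [hρ, h1, mul_div_cancel_right₀ _ hj]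
    · change ρ (phi B (X i2)) / _ = x 2
      rw [hρ, h2, mul_div_cancel_right₀ _ hj]
  rw [e] at key
  rw [eval_map]
  exact key

theorem V_ne_zero (j : Fin 8) (h : ∃ z s : Fin 3 → ℚ, B.forms z s j ≠ 0) : V B F j ≠ 0 := by
  obtain ⟨z, s, hj⟩ := h
  intro h0
  have h1 : phi B (X j) = 0 := (map_eq_zero_iff _ (IsFractionRing.injective PR F)).mp h0
  let ρ : PR →+* ℚ := ((aeval fun p : Fin 2 × Fin 3 ↦ (![z, s] : Fin 2 → Fin 3 → ℚ) p.1 p.2 :
    PR →ₐ[ℤ] ℚ) : PR →+* ℚ)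
  have hρ : ρ (phi B (X j)) = B.forms z s j := by
    rw [phi_X, B.map_forms]
    congr 1
    · ext k
      exact aeval_X _ _
    · ext k
      exact aeval_X _ _
  rw [h1, map_zero] at hρ
  exact hj hρ.symm

/-- Reduction of a chart to ratios. -/
theorem regular_of_ratio (s : Fin 8) (hs : V B F s ≠ 0)
    (h : IsRegularRing (Algebra.adjoin ℤ (Set.range fun t ↦ V B F t / V B F s))) :
    IsRegularRing (Pool.MP_602153_ag.ChartRing (RingHom.ker (phi B)) s) := by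
  refine chart_regular_of_adjoin (phi B) (e := 3) (by norm_num) (phi_homogeneous B) s ?_ h
  intro h0
  apply hs
  rw [V, h0, map_zero]

theorem infinite_ne_zero : ({0}ᶜ : Set ℚ).Infinite := (Set.finite_singleton 0).infinite_compl

/-- The boxes for the realisation. -/
def box : Fin 3 → Set ℚ := ![{0}ᶜ, Set.univ, Set.univ]

theorem box_infinite (i : Fin 3) : (box i).Infinite := by
  fin_cases i
  · exact infinite_ne_zero
  · exact Set.infinite_univ
  · exact Set.infinite_univ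

theorem real3 (h g y : ℚ) (hh : h ≠ 0) : ∃ z s : Fin 3 → ℚ, B.forms z s 3 ≠ 0 ∧
    B.forms z s 0 = h * B.forms z s 3 ∧ B.forms z s 2 = g * B.forms z s 3 ∧
    B.forms z s 6 = y * B.forms z s 3 := by
  refine ⟨![-(y * h + B.a * g ^ 2 + B.b * g), g, 1], ![h, 0, 0], ?_, ?_, ?_, ?_⟩
  · simp [DF.forms, DF.cmul, DF.csh, DF.cno]
    exact hh
  · simp [DF.forms, DF.cmul, DF.csh, DF.cno]; try ring
  · simp [DF.forms, DF.cmul, DF.csh, DF.cno]; try ring
  · simp [DF.forms, DF.cmul, DF.csh, DF.cno]; try ring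

theorem real2 (h g y : ℚ) (hh : h ≠ 0) : ∃ z s : Fin 3 → ℚ, B.forms z s 2 ≠ 0 ∧
    B.forms z s 0 = h * B.forms z s 2 ∧ B.forms z s 3 = g * B.forms z s 2 ∧
    B.forms z s 5 = y * B.forms z s 2 := by
  refine ⟨![B.d * g ^ 2 + B.c * g - y * h, 1, g], ![h, 0, 0], ?_, ?_, ?_, ?_⟩
  · simp [DF.forms, DF.cmul, DF.csh, DF.cno]
    exact hh
  · simp [DF.forms, DF.cmul, DF.csh, DF.cno]; try ring
  · simp [DF.forms, DF.cmul, DF.csh, DF.cno]; try ring
  · simp [DF.forms, DF.cmul, DF.csh, DF.cno]; try ring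

theorem real6 (h g y : ℚ) (hh : h ≠ 0) : ∃ z s : Fin 3 → ℚ, B.forms z s 6 ≠ 0 ∧
    B.forms z s 7 = h * B.forms z s 6 ∧ B.forms z s 5 = g * B.forms z s 6 ∧
    B.forms z s 3 = y * B.forms z s 6 := by
  refine ⟨![h, 0, 0], ![-(y * h + B.a * g ^ 2 + B.b * g), g, 1], ?_, ?_, ?_, ?_⟩
  · simp [DF.forms, DF.cmul, DF.csh, DF.cno]
    exact hh
  · simp [DF.forms, DF.cmul, DF.csh, DF.cno]; try ring
  · simp [DF.forms, DF.cmul, DF.csh, DF.cno]; try ring
  · simp [DF.forms, DF.cmul, DF.csh, DF.cno]; try ring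

theorem real5 (h g y : ℚ) (hh : h ≠ 0) : ∃ z s : Fin 3 → ℚ, B.forms z s 5 ≠ 0 ∧
    B.forms z s 7 = h * B.forms z s 5 ∧ B.forms z s 6 = g * B.forms z s 5 ∧
    B.forms z s 2 = y * B.forms z s 5 := by
  refine ⟨![h, 0, 0], ![B.d * g ^ 2 + B.c * g - y * h, 1, g], ?_, ?_, ?_, ?_⟩
  · simp [DF.forms, DF.cmul, DF.csh, DF.cno]
    exact hh
  · simp [DF.forms, DF.cmul, DF.csh, DF.cno]; try ring
  · simp [DF.forms, DF.cmul, DF.csh, DF.cno]; try ring
  · simp [DF.forms, DF.cmul, DF.csh, DF.cno]; try ring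

theorem real0 (p q r : ℚ) : ∃ z s : Fin 3 → ℚ, B.forms z s 0 ≠ 0 ∧
    B.forms z s 1 = p * B.forms z s 0 ∧ B.forms z s 2 = q * B.forms z s 0 ∧
    B.forms z s 3 = r * B.forms z s 0 := by
  refine ⟨![p, q, r], ![1, 0, 0], ?_⟩
  simp [DF.forms, DF.cmul, DF.csh, DF.cno]

theorem real7 (p q r : ℚ) : ∃ z s : Fin 3 → ℚ, B.forms z s 7 ≠ 0 ∧
    B.forms z s 4 = p * B.forms z s 7 ∧ B.forms z s 5 = q * B.forms z s 7 ∧
    B.forms z s 6 = r * B.forms z s 7 := by
  refine ⟨![1, 0, 0], ![p, q, r], ?_⟩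
  simp [DF.forms, DF.cmul, DF.csh, DF.cno]

theorem regular_perm (σ : Fin 8 → Fin 8) (hσ : Function.Surjective σ) (k : Fin 8)
    (hs : V B F (σ k) ≠ 0)
    (h : IsRegularRing (Algebra.adjoin ℤ (Set.range fun s ↦ V B F (σ s) / V B F (σ k)))) :
    IsRegularRing (Pool.MP_602153_ag.ChartRing (RingHom.ker (phi B)) (σ k)) := by
  refine regular_of_ratio B F (σ k) hs ?_
  have : Set.range (fun s ↦ V B F (σ s) / V B F (σ k)) = Set.range (fun t ↦ V B F t / V B F (σ k)) :=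
    hσ.range_comp (fun t ↦ V B F t / V B F (σ k))
  rw [← this]
  exact h

omit [IsFractionRing PR F] in
theorem hV : V B F = B.forms (fun k ↦ algebraMap PR F (gen 0 k))
    (fun k ↦ algebraMap PR F (gen 1 k)) := funext (V_eq B F)

include F in
theorem regular0 : IsRegularRing (Pool.MP_602153_ag.ChartRing (RingHom.ker (phi B)) 0) := by
  have r1 := rel1 B (fun k ↦ algebraMap PR F (gen 0 k)) (fun k ↦ algebraMap PR F (gen 1 k))
  have r2 := rel2 B (fun k ↦ algebraMap PR F (gen 0 k)) (fun k ↦ algebraMap PR F (gen 1 k))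
  have r3 := rel3 B (fun k ↦ algebraMap PR F (gen 0 k)) (fun k ↦ algebraMap PR F (gen 1 k))
  have r7 := rel7 B (fun k ↦ algebraMap PR F (gen 0 k)) (fun k ↦ algebraMap PR F (gen 1 k))
  rw [← hV] at r1 r2 r3 r7
  have hne : V B F 0 ≠ 0 := V_ne_zero B F 0 (by
    obtain ⟨z, s, h, -⟩ := real0 B 0 0 0
    exact ⟨z, s, h⟩)
  refine regular_of_ratio B F 0 hne (regular_chart_poly B (V B F) hne r1 r2 r3 r7 ?_)
  exact hind_of_real B F 0 1 2 3 (fun _ ↦ Set.univ) (fun _ ↦ Set.infinite_univ)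
    (fun x _ ↦ real0 B (x 0) (x 1) (x 2))

include F in
theorem regular7 : IsRegularRing (Pool.MP_602153_ag.ChartRing (RingHom.ker (phi B)) 7) := by
  have r4 := rel4 B (fun k ↦ algebraMap PR F (gen 0 k)) (fun k ↦ algebraMap PR F (gen 1 k))
  have r5 := rel5 B (fun k ↦ algebraMap PR F (gen 0 k)) (fun k ↦ algebraMap PR F (gen 1 k))
  have r6 := rel6 B (fun k ↦ algebraMap PR F (gen 0 k)) (fun k ↦ algebraMap PR F (gen 1 k))
  have r7 := rel7 B (fun k ↦ algebraMap PR F (gen 0 k)) (fun k ↦ algebraMap PR F (gen 1 k))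
  rw [← hV] at r4 r5 r6 r7
  have hne : V B F 7 ≠ 0 := V_ne_zero B F 7 (by
    obtain ⟨z, s, h, -⟩ := real7 B 0 0 0
    exact ⟨z, s, h⟩)
  refine regular_perm B F ![7, 4, 5, 6, 1, 2, 3, 0] (by decide) 0 hne
    (regular_chart_poly B (fun s ↦ V B F (![7, 4, 5, 6, 1, 2, 3, 0] s)) hne r4 r5 r6 ?_ ?_)
  · change V B F 7 * V B F 0 = V B F 4 * V B F 1 - B.a * B.c * (V B F 5 * V B F 2) -
      B.a * B.d * (V B F 5 * V B F 3 + V B F 6 * V B F 2) - B.b * B.d * (V B F 6 * V B F 3)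
    linear_combination r7
  · exact hind_of_real B F 7 4 5 6 (fun _ ↦ Set.univ) (fun _ ↦ Set.infinite_univ)
      (fun x _ ↦ real7 B (x 0) (x 1) (x 2))

include F in
theorem regular3 : IsRegularRing (Pool.MP_602153_ag.ChartRing (RingHom.ker (phi B)) 3) := by
  have r2 := rel2 B (fun k ↦ algebraMap PR F (gen 0 k)) (fun k ↦ algebraMap PR F (gen 1 k))
  have r3 := rel3 B (fun k ↦ algebraMap PR F (gen 0 k)) (fun k ↦ algebraMap PR F (gen 1 k))
  have r6 := rel6 B (fun k ↦ algebraMap PR F (gen 0 k)) (fun k ↦ algebraMap PR F (gen 1 k))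
  have r9 := rel9 B (fun k ↦ algebraMap PR F (gen 0 k)) (fun k ↦ algebraMap PR F (gen 1 k))
  rw [← hV] at r2 r3 r6 r9
  have hne : V B F 3 ≠ 0 := V_ne_zero B F 3 (by
    obtain ⟨z, s, h, -⟩ := real3 B 1 0 0 one_ne_zero
    exact ⟨z, s, h⟩)
  refine regular_of_ratio B F 3 hne (regular_chart B (V B F) hne r2 r3 r6 r9 ?_)
  exact hind_of_real B F 3 0 2 6 box box_infinite
    (fun x hx ↦ real3 B (x 0) (x 1) (x 2) (hx 0))

include F in
theorem regular2 : IsRegularRing (Pool.MP_602153_ag.ChartRing (RingHom.ker (phi B)) 2) := by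
  have r2 := rel2 B (fun k ↦ algebraMap PR F (gen 0 k)) (fun k ↦ algebraMap PR F (gen 1 k))
  have r3 := rel3 B (fun k ↦ algebraMap PR F (gen 0 k)) (fun k ↦ algebraMap PR F (gen 1 k))
  have r5 := rel5 B (fun k ↦ algebraMap PR F (gen 0 k)) (fun k ↦ algebraMap PR F (gen 1 k))
  have r8 := rel8 B (fun k ↦ algebraMap PR F (gen 0 k)) (fun k ↦ algebraMap PR F (gen 1 k))
  rw [← hV] at r2 r3 r5 r8
  have hne : V B F 2 ≠ 0 := V_ne_zero B F 2 (by
    obtain ⟨z, s, h, -⟩ := real2 B 1 0 0 one_ne_zero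
    exact ⟨z, s, h⟩)
  refine regular_perm B F ![0, 1, 3, 2, 4, 6, 5, 7] (by decide) 3 hne
    (regular_chart B.swap (fun s ↦ V B F (![0, 1, 3, 2, 4, 6, 5, 7] s)) hne ?_ ?_ ?_ ?_ ?_)
  · change V B F 0 * V B F 6 = -(V B F 1 * V B F 3) + ((-B.a : ℤ) : F) * V B F 2 ^ 2 +
      ((-B.b : ℤ) : F) * (V B F 3 * V B F 2)
    push_cast
    linear_combination r3
  · change V B F 0 * V B F 5 = -(V B F 1 * V B F 2) - ((-B.d : ℤ) : F) * V B F 3 ^ 2 -
      ((-B.c : ℤ) : F) * (V B F 3 * V B F 2)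
    push_cast
    linear_combination r2
  · change V B F 7 * V B F 2 = -(V B F 4 * V B F 5) - ((-B.d : ℤ) : F) * V B F 6 ^ 2 -
      ((-B.c : ℤ) : F) * (V B F 6 * V B F 5)
    push_cast
    linear_combination r5
  · change V B F 1 * V B F 5 + V B F 2 * V B F 4 - ((-B.d : ℤ) : F) * (V B F 3 * V B F 6) -
      ((-B.b : ℤ) : F) * (V B F 2 * V B F 5) = 0
    push_cast
    linear_combination r8
  · exact hind_of_real B F 2 0 3 5 box box_infinite
      (fun x hx ↦ real2 B (x 0) (x 1) (x 2) (hx 0))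

include F in
theorem regular6 : IsRegularRing (Pool.MP_602153_ag.ChartRing (RingHom.ker (phi B)) 6) := by
  have r3 := rel3 B (fun k ↦ algebraMap PR F (gen 0 k)) (fun k ↦ algebraMap PR F (gen 1 k))
  have r5 := rel5 B (fun k ↦ algebraMap PR F (gen 0 k)) (fun k ↦ algebraMap PR F (gen 1 k))
  have r6 := rel6 B (fun k ↦ algebraMap PR F (gen 0 k)) (fun k ↦ algebraMap PR F (gen 1 k))
  have r9 := rel9 B (fun k ↦ algebraMap PR F (gen 0 k)) (fun k ↦ algebraMap PR F (gen 1 k))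
  rw [← hV] at r3 r5 r6 r9
  have hne : V B F 6 ≠ 0 := V_ne_zero B F 6 (by
    obtain ⟨z, s, h, -⟩ := real6 B 1 0 0 one_ne_zero
    exact ⟨z, s, h⟩)
  refine regular_perm B F ![7, 4, 5, 6, 1, 2, 3, 0] (by decide) 3 hne
    (regular_chart B (fun s ↦ V B F (![7, 4, 5, 6, 1, 2, 3, 0] s)) hne r5 r6 r3 ?_ ?_)
  · change V B F 4 * V B F 3 + V B F 6 * V B F 1 - B.a * (V B F 5 * V B F 2) - B.c * (V B F 6 * V B F 3) = 0
    linear_combination r9
  · exact hind_of_real B F 6 7 5 3 box box_infinite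
      (fun x hx ↦ real6 B (x 0) (x 1) (x 2) (hx 0))

include F in
theorem regular5 : IsRegularRing (Pool.MP_602153_ag.ChartRing (RingHom.ker (phi B)) 5) := by
  have r2 := rel2 B (fun k ↦ algebraMap PR F (gen 0 k)) (fun k ↦ algebraMap PR F (gen 1 k))
  have r5 := rel5 B (fun k ↦ algebraMap PR F (gen 0 k)) (fun k ↦ algebraMap PR F (gen 1 k))
  have r6 := rel6 B (fun k ↦ algebraMap PR F (gen 0 k)) (fun k ↦ algebraMap PR F (gen 1 k))
  have r8 := rel8 B (fun k ↦ algebraMap PR F (gen 0 k)) (fun k ↦ algebraMap PR F (gen 1 k))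
  rw [← hV] at r2 r5 r6 r8
  have hne : V B F 5 ≠ 0 := V_ne_zero B F 5 (by
    obtain ⟨z, s, h, -⟩ := real5 B 1 0 0 one_ne_zero
    exact ⟨z, s, h⟩)
  refine regular_perm B F ![7, 4, 6, 5, 1, 3, 2, 0] (by decide) 3 hne
    (regular_chart B.swap (fun s ↦ V B F (![7, 4, 6, 5, 1, 3, 2, 0] s)) hne ?_ ?_ ?_ ?_ ?_)
  · change V B F 7 * V B F 3 = -(V B F 4 * V B F 6) + ((-B.a : ℤ) : F) * V B F 5 ^ 2 +
      ((-B.b : ℤ) : F) * (V B F 6 * V B F 5)
    push_cast
    linear_combination r6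
  · change V B F 7 * V B F 2 = -(V B F 4 * V B F 5) - ((-B.d : ℤ) : F) * V B F 6 ^ 2 -
      ((-B.c : ℤ) : F) * (V B F 6 * V B F 5)
    push_cast
    linear_combination r5
  · change V B F 0 * V B F 5 = -(V B F 1 * V B F 2) - ((-B.d : ℤ) : F) * V B F 3 ^ 2 -
      ((-B.c : ℤ) : F) * (V B F 3 * V B F 2)
    push_cast
    linear_combination r2
  · change V B F 4 * V B F 2 + V B F 5 * V B F 1 - ((-B.d : ℤ) : F) * (V B F 6 * V B F 3) -
      ((-B.b : ℤ) : F) * (V B F 5 * V B F 2) = 0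
    push_cast
    linear_combination r8
  · exact hind_of_real B F 5 7 6 2 box box_infinite
      (fun x hx ↦ real5 B (x 0) (x 1) (x 2) (hx 0))

theorem hreg (i : Fin 6) :
    IsRegularRing (Pool.MP_602153_ag.ChartRing (RingHom.ker (phi B)) (ch i)) := by
  fin_cases i
  · exact regular0 B (FractionRing PR)
  · exact regular7 B (FractionRing PR)
  · exact regular3 B (FractionRing PR)
  · exact regular2 B (FractionRing PR)
  · exact regular6 B (FractionRing PR)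
  · exact regular5 B (FractionRing PR)

end Regular

end Pool.Agent.MP_602153_ag.Cubic
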