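import Pool.Agent.MP_602153_ag.CubicDF
import Pool.Agent.QuadAll.PNotSq

set_option autoImplicit false

/-!
# The hypersurface `H B = F(G)` is regular
-/

namespace Pool.Agent.MP_602153_ag.Cubic

open Pool.Agent.QuadAll

/-- A multiple root of a polynomial of degree at most three over a perfect field lies in the
field. -/
theorem exists_root_of_double {k L : Type*} [Field k] [PerfectField k] [Field L] [Algebra k L]
    (f : Polynomial k) (hf : f ≠ 0) (hdeg : f.natDegree ≤ 3) (g : L)
    (h0 : Polynomial.aeval g f = 0) (h1 : Polynomial.aeval g (Polynomial.derivative f) = 0) :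
    ∃ r : k, algebraMap k L r = g := by
  have hint : IsIntegral k g := by
    rw [← isAlgebraic_iff_isIntegral]
    exact ⟨f, hf, h0⟩
  have hirr := minpoly.irreducible hint
  have hsep : (minpoly k g).Separable := PerfectField.separable_of_irreducible hirr
  obtain ⟨h, hh⟩ := minpoly.dvd k g h0
  have h2 : Polynomial.aeval g h = 0 := by
    rw [hh, Polynomial.derivative_mul, map_add, map_mul, map_mul, minpoly.aeval, zero_mul,
      add_zero] at h1
    refine (mul_eq_zero.mp h1).resolve_left ?_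
    exact hsep.aeval_derivative_ne_zero (minpoly.aeval k g)
  obtain ⟨u, hu⟩ := minpoly.dvd k g h2
  have hμ : minpoly k g ≠ 0 := minpoly.ne_zero hint
  have hh0 : h ≠ 0 := by
    rintro rfl
    simp at hh
    exact hf hh
  have hu0 : u ≠ 0 := by
    rintro rfl
    simp at hu
    exact hh0 hu
  have hd : f.natDegree = (minpoly k g).natDegree + ((minpoly k g).natDegree + u.natDegree) := by
    rw [hh, Polynomial.natDegree_mul hμ hh0, hu, Polynomial.natDegree_mul hμ hu0]
  have hpos := minpoly.natDegree_pos hint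
  have h3 : (minpoly k g).natDegree = 1 := by omega
  obtain ⟨r, hr⟩ := minpoly.natDegree_eq_one_iff.mp h3
  exact ⟨r, hr⟩

/-- Derivations map `P ^ 2` to `P`. -/
theorem derivation_mem {R T : Type*} [CommRing R] [CommRing T] [Algebra R T]
    (D : Derivation R T T) (P : Ideal T) {x : T}
    (hx : x ∈ P ^ 2) : D x ∈ P := by
  rw [pow_two] at hx
  refine Submodule.mul_induction_on hx (fun a ha b hb ↦ ?_) fun a b ha hb ↦ ?_
  · rw [Derivation.leibniz]
    exact P.add_mem (P.mul_mem_right _ ha) (P.mul_mem_right _ hb)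
  · rw [map_add]
    exact P.add_mem ha hb

variable {K : Type} [Field K] [NumberField K] (B : DF K)

theorem map_F {R S : Type*} [CommRing R] [CommRing S] (φ : R →+* S) (x : R) :
    φ (B.F x) = B.F (φ x) := by
  simp [DF.F]

theorem map_F' {R S : Type*} [CommRing R] [CommRing S] (φ : R →+* S) (x : R) :
    φ (B.F' x) = B.F' (φ x) := by
  simp [DF.F', map_ofNat]

/-- The cubic polynomial over a field. -/
noncomputable def poly (k : Type*) [Field k] : Polynomial k :=
  Polynomial.C (B.a : k) * Polynomial.X ^ 3 + Polynomial.C (B.b : k) * Polynomial.X ^ 2 +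
    Polynomial.C (B.c : k) * Polynomial.X + Polynomial.C (B.d : k)

theorem aeval_poly {k L : Type*} [Field k] [Field L] [Algebra k L] (g : L) :
    Polynomial.aeval g (poly B k) = B.F g := by
  simp [poly, DF.F]

theorem aeval_derivative_poly {k L : Type*} [Field k] [Field L] [Algebra k L] (g : L) :
    Polynomial.aeval g (Polynomial.derivative (poly B k)) = B.F' g := by
  simp [poly, DF.F', Polynomial.derivative_pow, map_ofNat]
  ring

theorem natDegree_poly (k : Type*) [Field k] : (poly B k).natDegree ≤ 3 :=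
  Polynomial.natDegree_cubic_le

theorem coeff_poly (k : Type*) [Field k] : (poly B k).coeff 0 = B.d ∧ (poly B k).coeff 1 = B.c ∧
    (poly B k).coeff 2 = B.b ∧ (poly B k).coeff 3 = B.a := by
  refine ⟨?_, ?_, ?_, ?_⟩ <;>
    simp only [poly, Polynomial.coeff_add, Polynomial.coeff_C_mul, Polynomial.coeff_X_pow,
      Polynomial.coeff_X, Polynomial.coeff_C] <;> norm_num

/-- The key regularity statement. -/
theorem mem_of_mul_mem_sq (P : Ideal (MvPolynomial (Fin 4) ℤ)) [P.IsPrime]
    (b : MvPolynomial (Fin 4) ℤ)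
    (hg : MvPolynomial.X 0 * MvPolynomial.X 1 - B.F (MvPolynomial.X 2) ∈ P)
    (hb : b * (MvPolynomial.X 0 * MvPolynomial.X 1 - B.F (MvPolynomial.X 2)) ∈ P ^ 2) :
    b ∈ P := by
  by_contra hbP
  have hP : P.IsPrime := inferInstance
  have key : ∀ i, MvPolynomial.pderiv i
      (MvPolynomial.X 0 * MvPolynomial.X 1 - B.F (MvPolynomial.X 2) :
        MvPolynomial (Fin 4) ℤ) ∈ P := by
    intro i
    have h1 := derivation_mem (MvPolynomial.pderiv i) P hb
    rw [MvPolynomial.pderiv_mul] at h1
    have h2 := (P.add_mem_iff_right (P.mul_mem_left _ hg)).mp h1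
    exact (hP.mem_or_mem h2).resolve_left hbP
  have hX1 : (MvPolynomial.X 1 : MvPolynomial (Fin 4) ℤ) ∈ P := by
    have := key 0
    simpa [DF.F, MvPolynomial.pderiv_X, Pi.single_apply] using this
  have hX0 : (MvPolynomial.X 0 : MvPolynomial (Fin 4) ℤ) ∈ P := by
    have := key 1
    simpa [DF.F, MvPolynomial.pderiv_X, Pi.single_apply] using this
  have hF' : B.F' (MvPolynomial.X 2 : MvPolynomial (Fin 4) ℤ) ∈ P := by
    have h1 := key 2
    have h2 : MvPolynomial.pderiv 2 (MvPolynomial.X 0 * MvPolynomial.X 1 -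
        B.F (MvPolynomial.X 2) : MvPolynomial (Fin 4) ℤ) = - B.F' (MvPolynomial.X 2) := by
      have e1 : ∀ n : ℤ, MvPolynomial.pderiv (2 : Fin 4) (n : MvPolynomial (Fin 4) ℤ) = 0 :=
        fun n ↦ by
          rw [show (n : MvPolynomial (Fin 4) ℤ) = MvPolynomial.C n by simp]
          exact MvPolynomial.pderiv_C
      simp [DF.F, DF.F', MvPolynomial.pderiv_X, e1, Derivation.leibniz_pow]
      ring
    rw [h2] at h1
    exact neg_mem_iff.mp h1
  have hF : B.F (MvPolynomial.X 2 : MvPolynomial (Fin 4) ℤ) ∈ P := by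
    have h1 := P.sub_mem (P.mul_mem_right (MvPolynomial.X 1) hX0) hg
    simpa using h1
  -- the residue field
  let Q := MvPolynomial (Fin 4) ℤ ⧸ P
  let L := FractionRing Q
  let φ : MvPolynomial (Fin 4) ℤ →+* L := (algebraMap Q L).comp (Ideal.Quotient.mk P)
  have hφ : ∀ x, φ x = 0 ↔ x ∈ P := fun x ↦ by
    change algebraMap Q L (Ideal.Quotient.mk P x) = 0 ↔ _
    rw [map_eq_zero_iff _ (IsFractionRing.injective Q L), Ideal.Quotient.eq_zero_iff_mem]
  have hF0 : B.F (φ (MvPolynomial.X 2)) = 0 := by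
    rw [← map_F, hφ]
    exact hF
  have hF0' : B.F' (φ (MvPolynomial.X 2)) = 0 := by
    rw [← map_F', hφ]
    exact hF'
  obtain ⟨p, hp⟩ := CharP.exists L
  rcases CharP.char_is_prime_or_zero L p with hpp | hp0
  · -- positive characteristic
    have : Fact p.Prime := ⟨hpp⟩
    let _ : Algebra (ZMod p) L := ZMod.algebra L p
    have hcast : ∀ n : ℤ, (MvPolynomial.C n : MvPolynomial (Fin 4) ℤ) ∈ P ↔ (p : ℤ) ∣ n := by
      intro n
      rw [← hφ, ← CharP.intCast_eq_zero_iff L p]
      simp
    have hpoly : poly B (ZMod p) ≠ 0 := by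
      intro h
      obtain ⟨h0, h1, h2, h3⟩ := coeff_poly B (ZMod p)
      rw [h] at h0 h1 h2 h3
      simp only [Polynomial.coeff_zero] at h0 h1 h2 h3
      refine B.primitive p hpp ?_ ?_ ?_ ?_
      · rw [← ZMod.intCast_zmod_eq_zero_iff_dvd]; exact h3.symm
      · rw [← ZMod.intCast_zmod_eq_zero_iff_dvd]; exact h2.symm
      · rw [← ZMod.intCast_zmod_eq_zero_iff_dvd]; exact h1.symm
      · rw [← ZMod.intCast_zmod_eq_zero_iff_dvd]; exact h0.symm
    obtain ⟨r, hr⟩ := exists_root_of_double (L := L) (poly B (ZMod p)) hpoly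
      (natDegree_poly B _) (φ (MvPolynomial.X 2)) (by rw [aeval_poly]; exact hF0)
      (by rw [aeval_derivative_poly]; exact hF0')
    obtain ⟨s, rfl⟩ := ZMod.intCast_surjective r
    have hs : (MvPolynomial.X 2 - MvPolynomial.C s : MvPolynomial (Fin 4) ℤ) ∈ P := by
      rw [← hφ, map_sub, ← hr]
      simp
    have hFs' : (p : ℤ) ∣ B.F' s := by
      rw [← hcast, ← hφ, map_F', ]
      have h1 : φ (MvPolynomial.C s) = φ (MvPolynomial.X 2) := by
        have := (hφ _).mpr hs
        rw [map_sub] at this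
        exact (sub_eq_zero.mp this).symm
      rw [map_F', h1]
      exact hF0'
    have hFs : (p : ℤ) ∣ B.F s := by
      rw [← hcast, ← hφ, map_F]
      have h1 : φ (MvPolynomial.C s) = φ (MvPolynomial.X 2) := by
        have := (hφ _).mpr hs
        rw [map_sub] at this
        exact (sub_eq_zero.mp this).symm
      rw [map_F, h1]
      exact hF0
    have hpP : (MvPolynomial.C (p : ℤ) : MvPolynomial (Fin 4) ℤ) ∈ P := (hcast _).mpr dvd_rfl
    -- the square
    have hsq : b * MvPolynomial.C (B.F s) ∈ P ^ 2 := by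
      have e1 : (MvPolynomial.X 0 * MvPolynomial.X 1 : MvPolynomial (Fin 4) ℤ) ∈ P ^ 2 := by
        rw [pow_two]
        exact Ideal.mul_mem_mul hX0 hX1
      have e2 : ((MvPolynomial.X 2 - MvPolynomial.C s) * MvPolynomial.C (B.F' s) :
          MvPolynomial (Fin 4) ℤ) ∈ P ^ 2 := by
        rw [pow_two]
        exact Ideal.mul_mem_mul hs ((hcast _).mpr hFs')
      have e3 : ((MvPolynomial.X 2 - MvPolynomial.C s) ^ 2 : MvPolynomial (Fin 4) ℤ) ∈ P ^ 2 :=
        Ideal.pow_mem_pow hs 2
      have e4 : b * MvPolynomial.C (B.F s) = b * (MvPolynomial.X 0 * MvPolynomial.X 1)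
          - b * (MvPolynomial.X 0 * MvPolynomial.X 1 - B.F (MvPolynomial.X 2))
          - b * ((MvPolynomial.X 2 - MvPolynomial.C s) * MvPolynomial.C (B.F' s))
          - b * (MvPolynomial.C B.a * (MvPolynomial.X 2 + 2 * MvPolynomial.C s) +
            MvPolynomial.C B.b) * (MvPolynomial.X 2 - MvPolynomial.C s) ^ 2 := by
        have h1 : (MvPolynomial.C (B.F s) : MvPolynomial (Fin 4) ℤ) =
            B.F (MvPolynomial.C s : MvPolynomial (Fin 4) ℤ) := map_F B MvPolynomial.C s
        have h2 : (MvPolynomial.C (B.F' s) : MvPolynomial (Fin 4) ℤ) =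
            B.F' (MvPolynomial.C s : MvPolynomial (Fin 4) ℤ) := map_F' B MvPolynomial.C s
        have h3 : ∀ n : ℤ, (MvPolynomial.C n : MvPolynomial (Fin 4) ℤ) = (n : ℤ) := fun n ↦ by simp
        rw [h1, h2, h3 B.a, h3 B.b]
        unfold DF.F DF.F'
        ring
      rw [e4]
      exact Ideal.sub_mem _ (Ideal.sub_mem _ (Ideal.sub_mem _ (Ideal.mul_mem_left _ _ e1) hb)
        (Ideal.mul_mem_left _ _ e2)) (Ideal.mul_mem_left _ _ e3)
    obtain ⟨m, hm⟩ := hFs
    have h1 : b * MvPolynomial.C m ∈ P := by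
      refine mem_of_prime_mul_mem_sq p hpp P hpP _ ?_
      rw [hm, map_mul] at hsq
      have : MvPolynomial.C (p : ℤ) * (b * MvPolynomial.C m) =
          b * (MvPolynomial.C (p : ℤ) * MvPolynomial.C m) := by ring
      rw [this]
      exact hsq
    have h2 := (hP.mem_or_mem h1).resolve_left hbP
    obtain ⟨m', hm'⟩ := (hcast m).mp h2
    exact B.maximal p hpp s ⟨m', by rw [hm, hm']; ring⟩ hFs'
  · subst hp0
    have : CharZero L := CharP.charP_to_charZero L
    have hpoly : poly B ℚ ≠ 0 := by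
      intro h
      obtain ⟨h0, -, -, -⟩ := coeff_poly B ℚ
      rw [h] at h0
      simp only [Polynomial.coeff_zero] at h0
      refine B.no_root 0 ?_
      simp [DF.F, ← h0]
    obtain ⟨r, hr⟩ := exists_root_of_double (L := L) (poly B ℚ) hpoly
      (natDegree_poly B _) (φ (MvPolynomial.X 2)) (by rw [aeval_poly]; exact hF0)
      (by rw [aeval_derivative_poly]; exact hF0')
    refine B.no_root r ?_
    apply (algebraMap ℚ L).injective
    rw [map_F, hr, hF0, map_zero]

end Pool.Agent.MP_602153_ag.Cubic
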