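import Pool.Agent.MP_602153_ag.CubicMain

set_option autoImplicit false

/-!
# The norm forms span the same space of functions as the eight forms
-/

namespace Pool.Agent.MP_602153_ag.Cubic

open MvPolynomial

variable {K : Type} [Field K] [NumberField K] (B : DF K) (h3 : Module.finrank ℚ K = 3)

/-- Coordinates on `K ^ 2`. -/
noncomputable def coord (v : Fin 2 → K) : Fin 2 × Fin 3 → ℚ := fun p ↦ B.co h3 (v p.1) p.2

theorem coord_surjective : Function.Surjective (coord B h3) := by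
  intro f
  refine ⟨fun i ↦ B.el fun k ↦ f (i, k), ?_⟩
  ext ⟨i, k⟩
  simp only [coord]
  rw [B.co_el]

/-- The eight functions. -/
noncomputable def fn (s : Fin 8) (v : Fin 2 → K) : ℚ := B.forms (B.co h3 (v 0)) (B.co h3 (v 1)) s

theorem aeval_coord (s : Fin 8) (v : Fin 2 → K) :
    aeval (coord B h3 v) (phi B (X s)) = fn B h3 s v := by
  rw [phi_X]
  have := B.map_forms ((aeval (coord B h3 v) : PR →ₐ[ℤ] ℚ) : PR →+* ℚ) (gen 0) (gen 1) s
  refine Eq.trans this ?_
  rw [fn]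
  congr 1
  · ext k
    exact aeval_X _ _
  · ext k
    exact aeval_X _ _

/-- The norm forms. -/
noncomputable def normFn (u v : Fin 2 → K) : ℚ := Algebra.norm ℚ (∑ i, u i * v i)

theorem co_mul (x y : K) : B.co h3 (x * y) = B.cmul (B.co h3 x) (B.co h3 y) := by
  apply B.el_injective
  rw [← B.el_mul, B.el_co, B.el_co, B.el_co]

theorem co_add (x y : K) : B.co h3 (x + y) = B.co h3 x + B.co h3 y := by
  apply B.el_injective
  rw [B.el_co]
  have h1 := B.el_co h3 x
  have h2 := B.el_co h3 y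
  simp only [DF.el, Pi.add_apply] at h1 h2 ⊢
  push_cast
  linear_combination -h1 - h2

theorem norm_co (x : K) : Algebra.norm ℚ x = B.cno (B.co h3 x) := by
  rw [← B.norm_el h3, B.el_co]

include h3 in
theorem cno_cmul (x y : Fin 3 → ℚ) : B.cno (B.cmul x y) = B.cno x * B.cno y := by
  rw [← B.norm_el h3, ← B.norm_el h3, ← B.norm_el h3, ← B.el_mul, map_mul]

/-- The linear functional attached to `κ`. -/
def tau (κ : Fin 3 → ℚ) (i : Fin 3) : ℚ := B.ctr (B.cmul κ (Pi.single i 1))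

theorem ctr_cmul (κ y : Fin 3 → ℚ) : B.ctr (B.cmul κ y) = ∑ i, tau B κ i * y i := by
  rw [Fin.sum_univ_three]
  simp [tau, DF.ctr, DF.cmul]
  ring

/-- The norm form in terms of the eight functions. -/
theorem normFn_eq (u v : Fin 2 → K) : normFn u v =
    Algebra.norm ℚ (u 0) * fn B h3 7 v +
    B.ctr (B.cmul (B.cmul (B.csh (B.co h3 (u 0))) (B.co h3 (u 1)))
      (B.cmul (B.csh (B.co h3 (v 0))) (B.co h3 (v 1)))) +
    B.ctr (B.cmul (B.cmul (B.co h3 (u 0)) (B.csh (B.co h3 (u 1))))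
      (B.cmul (B.co h3 (v 0)) (B.csh (B.co h3 (v 1))))) +
    Algebra.norm ℚ (u 1) * fn B h3 0 v := by
  rw [normFn, Fin.sum_univ_two, norm_co B h3, co_add, B.cno_add, co_mul, co_mul, B.csh_cmul,
    B.csh_cmul, cno_cmul B h3, cno_cmul B h3, norm_co B h3, norm_co B h3]
  have e : ∀ p q r s : Fin 3 → ℚ, B.cmul (B.cmul p q) (B.cmul r s) =
      B.cmul (B.cmul p r) (B.cmul q s) := by
    intro p q r s
    rw [B.cmul_assoc, ← B.cmul_assoc q, B.cmul_comm q r, B.cmul_assoc r, ← B.cmul_assoc]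
  rw [e (B.csh (B.co h3 (u 0))), e (B.co h3 (u 0))]
  rfl

/-- The span of the eight functions. -/
def spanF : Submodule ℚ ((Fin 2 → K) → ℚ) := Submodule.span ℚ (Set.range (fn B h3))

theorem normFn_mem (u : Fin 2 → K) : normFn u ∈ spanF B h3 := by
  have hm : ∀ s, fn B h3 s ∈ spanF B h3 := fun s ↦ Submodule.subset_span ⟨s, rfl⟩
  have h : normFn u = Algebra.norm ℚ (u 0) • fn B h3 7 +
      (tau B (B.cmul (B.csh (B.co h3 (u 0))) (B.co h3 (u 1))) 0 • fn B h3 4 +
       tau B (B.cmul (B.csh (B.co h3 (u 0))) (B.co h3 (u 1))) 1 • fn B h3 5 +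
       tau B (B.cmul (B.csh (B.co h3 (u 0))) (B.co h3 (u 1))) 2 • fn B h3 6) +
      (tau B (B.cmul (B.co h3 (u 0)) (B.csh (B.co h3 (u 1)))) 0 • fn B h3 1 +
       tau B (B.cmul (B.co h3 (u 0)) (B.csh (B.co h3 (u 1)))) 1 • fn B h3 2 +
       tau B (B.cmul (B.co h3 (u 0)) (B.csh (B.co h3 (u 1)))) 2 • fn B h3 3) +
      Algebra.norm ℚ (u 1) • fn B h3 0 := by
    ext v
    rw [normFn_eq B h3, ctr_cmul, ctr_cmul, Fin.sum_univ_three, Fin.sum_univ_three]
    rfl
  rw [h]
  exact add_mem (add_mem (add_mem (Submodule.smul_mem _ _ (hm 7))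
    (add_mem (add_mem (Submodule.smul_mem _ _ (hm 4)) (Submodule.smul_mem _ _ (hm 5)))
      (Submodule.smul_mem _ _ (hm 6))))
    (add_mem (add_mem (Submodule.smul_mem _ _ (hm 1)) (Submodule.smul_mem _ _ (hm 2)))
      (Submodule.smul_mem _ _ (hm 3)))) (Submodule.smul_mem _ _ (hm 0))

/-- The span of the norm forms. -/
def spanN (K : Type) [Field K] [NumberField K] : Submodule ℚ ((Fin 2 → K) → ℚ) :=
  Submodule.span ℚ (Set.range (normFn : (Fin 2 → K) → (Fin 2 → K) → ℚ))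

theorem co_zero : B.co h3 0 = 0 := by
  apply B.el_injective
  rw [B.el_co]
  simp [DF.el]

theorem co_one : B.co h3 1 = ![1, 0, 0] := by
  apply B.el_injective
  rw [B.el_co]
  simp [DF.el]

theorem co_neg (x : K) : B.co h3 (-x) = - B.co h3 x := by
  have h := co_add B h3 x (-x)
  rw [add_neg_cancel, co_zero] at h
  exact (neg_eq_of_add_eq_zero_right h.symm).symm

theorem fn0_mem : fn B h3 0 ∈ spanN K := by
  refine Submodule.subset_span ⟨![0, 1], ?_⟩
  ext v
  rw [normFn, fn, Fin.sum_univ_two]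
  simp only [Matrix.cons_val_zero, Matrix.cons_val_one, zero_mul, one_mul, zero_add]
  exact norm_co B h3 (v 1)

theorem fn7_mem : fn B h3 7 ∈ spanN K := by
  refine Submodule.subset_span ⟨![1, 0], ?_⟩
  ext v
  rw [normFn, fn, Fin.sum_univ_two]
  simp only [Matrix.cons_val_zero, Matrix.cons_val_one, zero_mul, one_mul, add_zero]
  exact norm_co B h3 (v 0)

theorem normFn_mem' (u : Fin 2 → K) : normFn u ∈ spanN K := Submodule.subset_span ⟨u, rfl⟩

theorem csh_one : B.csh (![1, 0, 0] : Fin 3 → ℚ) = ![1, 0, 0] := by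
  ext i
  fin_cases i <;> simp [DF.csh]

theorem cmul_one (x : Fin 3 → ℚ) : B.cmul x ![1, 0, 0] = x := by
  ext i
  fin_cases i <;> simp [DF.cmul]

theorem csh_neg (x : Fin 3 → ℚ) : B.csh (-x) = B.csh x := by
  ext i
  fin_cases i <;> simp [DF.csh]

theorem cno_neg (x : Fin 3 → ℚ) : B.cno (-x) = -B.cno x := by
  simp [DF.cno, DF.csh]
  ring

theorem cmul_neg_left (x y : Fin 3 → ℚ) : B.cmul (-x) y = -B.cmul x y := by
  ext i
  fin_cases i <;> simp [DF.cmul] <;> ring

theorem ctr_neg (x : Fin 3 → ℚ) : B.ctr (-x) = -B.ctr x := by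
  simp [DF.ctr]
  ring

theorem normFn_one (l : K) (v : Fin 2 → K) : normFn ![l, 1] v =
    B.cno (B.co h3 l) * fn B h3 7 v +
    B.ctr (B.cmul (B.csh (B.co h3 l)) (B.cmul (B.csh (B.co h3 (v 0))) (B.co h3 (v 1)))) +
    B.ctr (B.cmul (B.co h3 l) (B.cmul (B.co h3 (v 0)) (B.csh (B.co h3 (v 1))))) +
    fn B h3 0 v := by
  rw [normFn_eq B h3]
  simp only [Matrix.cons_val_zero, Matrix.cons_val_one]
  rw [co_one, csh_one, cmul_one, cmul_one, map_one, norm_co B h3, one_mul]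

theorem x_mem (κ : Fin 3 → ℚ) : (fun v : Fin 2 → K ↦
    B.ctr (B.cmul κ (B.cmul (B.co h3 (v 0)) (B.csh (B.co h3 (v 1)))))) ∈ spanN K := by
  have h : (fun v : Fin 2 → K ↦
      B.ctr (B.cmul κ (B.cmul (B.co h3 (v 0)) (B.csh (B.co h3 (v 1)))))) =
      (1 / 2 : ℚ) • (normFn ![B.el κ, 1] - normFn ![-B.el κ, 1]) - B.cno κ • fn B h3 7 := by
    ext v
    simp only [Pi.sub_apply, Pi.smul_apply, smul_eq_mul]
    rw [normFn_one B h3, normFn_one B h3, co_neg, B.co_el, csh_neg, cno_neg, cmul_neg_left,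
      ctr_neg]
    ring
  rw [h]
  exact sub_mem (Submodule.smul_mem _ _ (sub_mem (normFn_mem' _) (normFn_mem' _)))
    (Submodule.smul_mem _ _ (fn7_mem B h3))

theorem y_mem (κ : Fin 3 → ℚ) : (fun v : Fin 2 → K ↦
    B.ctr (B.cmul κ (B.cmul (B.csh (B.co h3 (v 0))) (B.co h3 (v 1))))) ∈ spanN K := by
  by_cases hκ : κ = 0
  · have h : (fun v : Fin 2 → K ↦
        B.ctr (B.cmul κ (B.cmul (B.csh (B.co h3 (v 0))) (B.co h3 (v 1))))) = 0 := by
      ext v
      subst hκ
      simp [DF.ctr, DF.cmul]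
    rw [h]
    exact zero_mem _
  have hκ' : B.el κ ≠ 0 := fun h0 ↦ hκ (B.el_injective (by rw [h0]; simp [DF.el]))
  set l : K := (B.el κ)⁻¹ with hl
  have hl0 : l ≠ 0 := inv_ne_zero hκ'
  set n : ℚ := B.cno (B.co h3 l) with hn
  have hn0 : n ≠ 0 := by
    rw [hn, ← norm_co B h3]
    exact Algebra.norm_ne_zero_iff.mpr hl0
  have hsh : B.csh (B.co h3 l) = n • κ := by
    apply B.el_injective
    rw [← B.sharp_el h3, B.el_co]
    have h1 : B.el (n • κ) = (n : K) * B.el κ := by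
      simp only [DF.el, Pi.smul_apply, smul_eq_mul]
      push_cast
      ring
    rw [h1, sharp, hl, inv_inv, hn, ← norm_co B h3]
  have h : (fun v : Fin 2 → K ↦
      B.ctr (B.cmul κ (B.cmul (B.csh (B.co h3 (v 0))) (B.co h3 (v 1))))) =
      (1 / (2 * n) : ℚ) • (normFn ![l, 1] + normFn ![-l, 1] - (2 : ℚ) • fn B h3 0) := by
    ext v
    simp only [Pi.sub_apply, Pi.add_apply, Pi.smul_apply, smul_eq_mul]
    rw [normFn_one B h3, normFn_one B h3, co_neg, csh_neg, cno_neg, cmul_neg_left,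
      ctr_neg, hsh]
    have h1 : ∀ y : Fin 3 → ℚ, B.ctr (B.cmul (n • κ) y) = n * B.ctr (B.cmul κ y) := by
      intro y
      simp [DF.ctr, DF.cmul]
      ring
    rw [h1]
    field_simp
    ring
  rw [h]
  exact Submodule.smul_mem _ _ (sub_mem (add_mem (normFn_mem' _) (normFn_mem' _))
    (Submodule.smul_mem _ _ (fn0_mem B h3)))

include h3 in
/-- The trace form is nondegenerate. -/
theorem exists_tau (i : Fin 3) : ∃ κ : Fin 3 → ℚ, ∀ y, B.ctr (B.cmul κ y) = y i := by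
  let T : (Fin 3 → ℚ) →ₗ[ℚ] (Fin 3 → ℚ) :=
    { toFun := tau B
      map_add' := fun x y ↦ by
        ext j
        simp [tau, DF.ctr, DF.cmul]
        ring
      map_smul' := fun c x ↦ by
        ext j
        simp [tau, DF.ctr, DF.cmul]
        ring }
  have hT : Function.Injective T := by
    rw [injective_iff_map_eq_zero]
    intro κ hκ
    by_contra hne
    have hκ' : B.el κ ≠ 0 := fun h0 ↦ hne (B.el_injective (by rw [h0]; simp [DF.el]))
    have h1 : B.ctr (B.cmul κ (B.co h3 (B.el κ)⁻¹)) = 0 := by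
      rw [ctr_cmul]
      refine Finset.sum_eq_zero fun j _ ↦ ?_
      have : tau B κ j = 0 := congrFun hκ j
      rw [this, zero_mul]
    have h2 : B.cmul κ (B.co h3 (B.el κ)⁻¹) = ![1, 0, 0] := by
      apply B.el_injective
      rw [← B.el_mul, B.el_co, mul_inv_cancel₀ hκ']
      simp [DF.el]
    rw [h2] at h1
    simp [DF.ctr] at h1
  obtain ⟨κ, hκ⟩ := (LinearMap.injective_iff_surjective.mp hT) (Pi.single i 1)
  refine ⟨κ, fun y ↦ ?_⟩
  rw [ctr_cmul]
  have : tau B κ = Pi.single i 1 := hκ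
  rw [this]
  simp [Pi.single_apply]

theorem fn_mem (s : Fin 8) : fn B h3 s ∈ spanN K := by
  have hx : ∀ i : Fin 3, (fun v : Fin 2 → K ↦
      B.cmul (B.co h3 (v 0)) (B.csh (B.co h3 (v 1))) i) ∈ spanN K := fun i ↦ by
    obtain ⟨κ, hκ⟩ := exists_tau B h3 i
    have := x_mem B h3 κ
    simp only [hκ] at this
    exact this
  have hy : ∀ i : Fin 3, (fun v : Fin 2 → K ↦
      B.cmul (B.csh (B.co h3 (v 0))) (B.co h3 (v 1)) i) ∈ spanN K := fun i ↦ by
    obtain ⟨κ, hκ⟩ := exists_tau B h3 i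
    have := y_mem B h3 κ
    simp only [hκ] at this
    exact this
  fin_cases s
  · exact fn0_mem B h3
  · exact hx 0
  · exact hx 1
  · exact hx 2
  · exact hy 0
  · exact hy 1
  · exact hy 2
  · exact fn7_mem B h3

theorem span_eq : spanN K = spanF B h3 := by
  apply le_antisymm
  · rw [spanN, Submodule.span_le]
    rintro _ ⟨u, rfl⟩
    exact normFn_mem B h3 u
  · rw [spanF, Submodule.span_le]
    rintro _ ⟨s, rfl⟩
    exact fn_mem B h3 s

open AlgebraicGeometry in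
/-- The model. -/
theorem hasModel {K : Type} [Field K] [NumberField K] (h3 : Module.finrank ℚ K = 3)
    (B : Type) [CommRing B] [Algebra ℚ B] (ℬ : ℕ → Submodule ℚ B) [GradedAlgebra ℬ]
    (j : B →ₐ[ℚ] ((Fin 2 → K) → ℚ)) (hj : Function.Injective j)
    (hgen : Algebra.adjoin ℚ (ℬ 1 : Set B) = ⊤)
    (hspan : Submodule.map j.toLinearMap (ℬ 1) = spanN K)
    (Z : Scheme) (e : Nonempty (Z ≅ Proj ℬ)) : Pool.MP_602153_ag.HasModel Z := by
  obtain ⟨D⟩ := exists_df K h3
  refine Pool.MP_602153_ag.model_of_param (phi D) (e := 3) (by norm_num) (phi_homogeneous D) ?_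
    ch (cover D) (hreg D) (coord D h3) (coord_surjective D h3) B ℬ j hj hgen ?_ Z e
  · refine ⟨0, ?_⟩
    intro h0
    have hne : V D (FractionRing PR) 0 ≠ 0 := V_ne_zero D (FractionRing PR) 0 (by
      obtain ⟨z, s, h, -⟩ := real0 D 0 0 0
      exact ⟨z, s, h⟩)
    apply hne
    rw [V, h0, map_zero]
  · rw [hspan, span_eq D h3, spanF]
    congr 1
    congr 1
    ext s v
    exact (aeval_coord D h3 s v).symm

/-- The coordinate ring exists. -/
theorem exists_ring {K : Type} [Field K] [NumberField K] (h3 : Module.finrank ℚ K = 3) :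
    ∃ (B : Type) (_ : CommRing B) (_ : Algebra ℚ B) (ℬ : ℕ → Submodule ℚ B) (_ : GradedAlgebra ℬ)
      (j : B →ₐ[ℚ] ((Fin 2 → K) → ℚ)), Function.Injective j ∧
      Algebra.adjoin ℚ (ℬ 1 : Set B) = ⊤ ∧
      Submodule.map j.toLinearMap (ℬ 1) = spanN K := by
  obtain ⟨D⟩ := exists_df K h3
  obtain ⟨B, i1, i2, ℬ, i3, j, h1, h2, h3'⟩ := Pool.MP_602153_ag.exists_coordinate_ring (phi D)
    (e := 3) (by norm_num) (phi_homogeneous D) (coord D h3) (coord_surjective D h3)
  refine ⟨B, i1, i2, ℬ, i3, j, h1, h2, ?_⟩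
  rw [h3', span_eq D h3, spanF]
  congr 1
  congr 1
  ext s v
  exact aeval_coord D h3 s v

end Pool.Agent.MP_602153_ag.Cubic
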