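import Pool.Agent.EvM.ExMain
import Pool.Agent.EvM.ExTl
import Pool.Agent.MP_602153_ag.IdealModel

set_option autoImplicit false

/-!
# Every member: complete families of hypersurfaces with regular models

The notions of the statement are defined in `Pool/Agent/NodHyp/Stmt.lean` and
`Pool/Agent/EvM/Stmt.lean`:

* `SmoothQ F`: the hypersurface `F = 0` over the rational numbers is smooth;
* `Box n d H`: the integral forms of degree `d` in `n + 1` variables with coefficients of
  absolute value at most `H` (a finite set, `NH.box_finite`);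
* `HasRegularModel F`: the hypersurface `Proj (ℚ[x_0, ..., x_n] / (F))` is the generic fibre of an
  integral, locally Noetherian, regular scheme, projective and flat over `ℤ`;
* `MildAt F p`: the singular points of `F = 0` modulo `p` (over any field of characteristic `p`)
  are isolated and the affine Hessian matrix has corank at most `1` there (used in `mild` and `tail`
  only).

`result`: for a positive proportion of all integral forms `F` of degree `d` EVERY smooth member of
the family `F + a x_0 ^ d + b x_0 ^ (d - 1) x_1`, `a, b ∈ ℤ`, has a regular projective flat model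
over `ℤ`.

Beside it: `mild`, a smooth hypersurface over `ℚ` with an equation whose reductions modulo all
primes have only isolated singular points of corank at most `1` has a regular projective flat model
over `ℤ`; `tail`, almost all forms with this property at the small primes have it at all
primes and are smooth over `ℚ`.
-/

open AlgebraicGeometry CategoryTheory CategoryTheory.Limits

namespace Pool.Agent.Results.MP_602153_ag.EveryMember

open MvPolynomial Pool.Agent.NH Pool.Agent.EvM

theorem result (n d : ℕ) (hn : 2 ≤ n) (hd : 3 ≤ d) :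
    ∃ c : ℝ, 0 < c ∧ ∃ H₀ : ℕ, ∀ H : ℕ, H₀ ≤ H → c * ((Box n d H).ncard : ℝ) ≤
      ({F ∈ Box n d H | SmoothQ F ∧ ∀ a b : ℤ,
        SmoothQ (F + C a * X 0 ^ d + C b * (X 0 ^ (d - 1) * X 1)) →
        HasRegularModel (F + C a * X 0 ^ d + C b * (X 0 ^ (d - 1) * X 1))}.ncard : ℝ) :=
  every_member hn hd

/-- Smooth hypersurfaces whose reductions have only isolated singular points of corank at most
`1`. -/
theorem mild (n d : ℕ) (hn : 2 ≤ n) (hd : 3 ≤ d) (F : MvPolynomial (Fin (n + 1)) ℤ)
    (hF : F.IsHomogeneous d) (hsm : SmoothQ F) (h : ∀ p : ℕ, p.Prime → MildAt F p) :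
    HasRegularModel F :=
  mild_model hn (by omega) hF hsm h

/-- Almost all forms which are mild at the small primes are mild at all primes. -/
theorem tail (n d : ℕ) (hd : 3 ≤ d) :
    ∀ ε : ℝ, 0 < ε → ∃ M₀ : ℕ, ∀ M : ℕ, M₀ ≤ M → ∃ H₀ : ℕ, ∀ H : ℕ, H₀ ≤ H →
      ({F ∈ Box n d H | (∀ p : ℕ, p ≤ M → p.Prime → MildAt F p) ∧
        ¬ (SmoothQ F ∧ ∀ p : ℕ, p.Prime → MildAt F p)}.ncard : ℝ) ≤
        ε * ({F ∈ Box n d H | ∀ p : ℕ, p ≤ M → p.Prime → MildAt F p}.ncard : ℝ) :=
  mild_tail hd

/-- Nodal reductions are a special case of mild ones. -/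
theorem mildAt_of_nodalAt {n d p : ℕ} (hp : p.Prime) {F : MvPolynomial (Fin (n + 1)) ℤ}
    (hF : F.IsHomogeneous d) (h : NodalAt F p) : MildAt F p :=
  mild_of_nodal hp hF h

attribute [local instance] MvPolynomial.gradedAlgebra in
/-- A graded ring as in the definition of `HasRegularModel` exists, so that this notion is not
vacuous. -/
theorem exists_coordinate_ring {n d : ℕ} (F : MvPolynomial (Fin (n + 1)) ℤ)
    (hF : F.IsHomogeneous d) :
    ∃ (B : Type) (_ : CommRing B) (_ : Algebra ℚ B) (ℬ : ℕ → Submodule ℚ B) (_ : GradedAlgebra ℬ)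
      (y : Fin (n + 1) → B), (∀ i, y i ∈ ℬ 1) ∧
      Function.Surjective (aeval y : MvPolynomial (Fin (n + 1)) ℚ →ₐ[ℚ] B) ∧
      RingHom.ker (aeval y : MvPolynomial (Fin (n + 1)) ℚ →ₐ[ℚ] B) =
        Ideal.span {map (algebraMap ℤ ℚ) F} := by
  classical
  let I : Ideal (MvPolynomial (Fin (n + 1)) ℚ) := Ideal.span {map (algebraMap ℤ ℚ) F}
  have hI : I.IsHomogeneous (homogeneousSubmodule (Fin (n + 1)) ℚ) := by
    refine Ideal.homogeneous_span _ _ ?_
    rintro _ rfl
    exact ⟨d, hF.map _⟩
  have hy : aeval (Pool.MP_602153_ag.icoord (I := I)) =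
      (Ideal.Quotient.mkₐ ℚ I : MvPolynomial (Fin (n + 1)) ℚ →ₐ[ℚ] _) := by
    apply MvPolynomial.algHom_ext
    intro i
    rw [aeval_X]
    rfl
  refine ⟨MvPolynomial (Fin (n + 1)) ℚ ⧸ I, inferInstance, inferInstance,
    Pool.MP_602153_ag.igrad I, Pool.MP_602153_ag.iGraded I hI,
    Pool.MP_602153_ag.icoord (I := I), Pool.MP_602153_ag.icoord_mem (I := I), ?_, ?_⟩
  · rw [hy]
    exact Ideal.Quotient.mkₐ_surjective ℚ I
  · rw [hy]
    exact Ideal.Quotient.mkₐ_ker ℚ I

end Pool.Agent.Results.MP_602153_ag.EveryMember
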