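import Pool.Agent.MP_602153_ag.WeilQuadMain

set_option autoImplicit false

/-!
# Weil restrictions of projective spaces along quadratic fields

Let `K` be a quadratic field.  The Weil restriction `R_{K/ℚ} P^n` is embedded by the norm of
`O(1)`: its homogeneous coordinate ring `B` is generated in degree one, and its degree one part is
spanned by the norm forms `v ↦ N_{K/ℚ}(u_0 v_0 + ... + u_n v_n)` on `K^(n+1)`.

We show that `R_{K/ℚ} P^n` has a regular projective flat model over `ℤ`, for every quadratic
field `K` (any ramification, the prime `2` included) and every `n`.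

The model is the closure of the generic fibre in the projective space given by the integral
coordinates of the products `v_i * conj v_j` with respect to `1, ω`, where `ω` is an integral
generator of `K` of minimal discriminant.  Its charts are affine spaces over `ℤ` and products
of affine spaces with the threefold `α β = x^2 + t x + m`.
-/

open AlgebraicGeometry CategoryTheory CategoryTheory.Limits

namespace Pool.Agent.MP_602153_ag.QuadraticWeilRestriction

theorem result (K : Type) [Field K] [Algebra ℚ K] (hK : Module.finrank ℚ K = 2) (n : ℕ)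
    (B : Type) [CommRing B] [Algebra ℚ B] (ℬ : ℕ → Submodule ℚ B) [GradedAlgebra ℬ]
    (hgen : Algebra.adjoin ℚ (ℬ 1 : Set B) = ⊤)
    (j : B →ₐ[ℚ] ((Fin (n + 1) → K) → ℚ)) (hj : Function.Injective j)
    (hone : Submodule.map j.toLinearMap (ℬ 1) = Submodule.span ℚ
      (Set.range fun (u : Fin (n + 1) → K) (v : Fin (n + 1) → K) =>
        Algebra.norm ℚ (∑ i, u i * v i)))
    (X : Scheme) (hX : Nonempty (X ≅ Proj ℬ)) :
    ∃ (Y : Scheme),
        IsIntegral Y ∧
        IsLocallyNoetherian Y ∧
        (∀ (U : Y.affineOpens) (p : PrimeSpectrum (Y.presheaf.obj (Opposite.op U.1))),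
          ringKrullDim (Localization.AtPrime p.asIdeal) =
            (((Module.finrank (IsLocalRing.ResidueField (Localization.AtPrime p.asIdeal))
              (IsLocalRing.CotangentSpace (Localization.AtPrime p.asIdeal)) : ℕ) : ℕ∞) :
                WithBot ℕ∞)) ∧
        (∃ (A : Type) (_ : CommRing A) (𝒜 : ℕ → Submodule ℤ A) (_ : GradedAlgebra 𝒜),
          (∀ a ∈ 𝒜 0, ∃ n : ℤ, (n : A) = a) ∧
          (∃ s : Finset A, (∀ a ∈ s, a ∈ 𝒜 1) ∧ Algebra.adjoin ℤ (s : Set A) = ⊤) ∧
          Nonempty (Y ≅ Proj 𝒜)) ∧
        Flat (specZIsTerminal.from Y) ∧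
        Nonempty (pullback (specZIsTerminal.from Y)
            (specZIsTerminal.from (Spec (CommRingCat.of ℚ))) ≅ X) :=
  Pool.MP_602153_ag.WeilQuad.hasModel hK B ℬ j hj hgen hone X hX

/-- A graded ring as in `result` exists, so that the statement is not vacuous. -/
theorem exists_coordinate_ring (K : Type) [Field K] [Algebra ℚ K]
    (hK : Module.finrank ℚ K = 2) (n : ℕ) :
    ∃ (B : Type) (_ : CommRing B) (_ : Algebra ℚ B) (ℬ : ℕ → Submodule ℚ B) (_ : GradedAlgebra ℬ)
      (j : B →ₐ[ℚ] ((Fin (n + 1) → K) → ℚ)), Function.Injective j ∧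
      Algebra.adjoin ℚ (ℬ 1 : Set B) = ⊤ ∧
      Submodule.map j.toLinearMap (ℬ 1) = Submodule.span ℚ
        (Set.range fun (u : Fin (n + 1) → K) (v : Fin (n + 1) → K) =>
          Algebra.norm ℚ (∑ i, u i * v i)) :=
  Pool.MP_602153_ag.WeilQuad.exists_ring hK (Fin (n + 1))

end Pool.Agent.MP_602153_ag.QuadraticWeilRestriction
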