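import Mathlib
import Pool.Agent.MP_602153_ag.CubicField

set_option autoImplicit false

/-!
# Models of Weil restrictions of the projective line along cubic fields
-/

namespace Pool.MP_602153_ag

namespace WeilCubic

open MvPolynomial AlgebraicGeometry

section Functions

variable {K : Type} [Field K] [Algebra ℚ K] (hK : Module.finrank ℚ K = 3) {a b c d : ℤ}
  {ω θ : K} (h : IsCub K a b c d ω θ)

/-- The rational coordinates of a pair of elements of `K`. -/
noncomputable def coord (hK : Module.finrank ℚ K = 3) (h : IsCub K a b c d ω θ)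
    (v : Fin 2 → K) : Fin 6 → ℚ :=
  ![(co hK h (v 0)).x, (co hK h (v 0)).y, (co hK h (v 0)).z,
    (co hK h (v 1)).x, (co hK h (v 1)).y, (co hK h (v 1)).z]

theorem coord_surjective : Function.Surjective (coord hK h) := by
  intro x
  refine ⟨![el ω θ ⟨x 0, x 1, x 2⟩, el ω θ ⟨x 3, x 4, x 5⟩], ?_⟩
  have e0 : co hK h ((![el ω θ ⟨x 0, x 1, x 2⟩, el ω θ ⟨x 3, x 4, x 5⟩] : Fin 2 → K) 0) =
      ⟨x 0, x 1, x 2⟩ := co_el hK h _
  have e1 : co hK h ((![el ω θ ⟨x 0, x 1, x 2⟩, el ω θ ⟨x 3, x 4, x 5⟩] : Fin 2 → K) 1) =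
      ⟨x 3, x 4, x 5⟩ := co_el hK h _
  funext i
  rw [coord, e0, e1]
  fin_cases i <;> rfl

/-- The coordinate functions. -/
noncomputable def fn (hK : Module.finrank ℚ K = 3) (h : IsCub K a b c d ω θ) (i : Fin 8)
    (v : Fin 2 → K) : ℚ := aeval (coord hK h v) (phi a b c d (X i))

theorem fn_eq (i : Fin 8) (v : Fin 2 → K) :
    fn hK h i v = gen a b c d (co hK h (v 0)) (co hK h (v 1)) i := by
  rw [fn, phi_X]
  have h1 := map_gen ((aeval (coord hK h v) : MvPolynomial (Fin 6) ℤ →ₐ[ℤ] ℚ) :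
    MvPolynomial (Fin 6) ℤ →+* ℚ) a b c d ps pt i
  have h2 : tmap ((aeval (coord hK h v) : MvPolynomial (Fin 6) ℤ →ₐ[ℤ] ℚ) :
      MvPolynomial (Fin 6) ℤ →+* ℚ) ps = co hK h (v 0) := by
    ext1
    · exact aeval_X _ _
    · exact aeval_X _ _
    · exact aeval_X _ _
  have h3 : tmap ((aeval (coord hK h v) : MvPolynomial (Fin 6) ℤ →ₐ[ℤ] ℚ) :
      MvPolynomial (Fin 6) ℤ →+* ℚ) pt = co hK h (v 1) := by
    ext1
    · exact aeval_X _ _
    · exact aeval_X _ _
    · exact aeval_X _ _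
  rw [h2, h3] at h1
  exact h1

/-- The norm of a linear form, as a function. -/
noncomputable def normFn (u v : Fin 2 → K) : ℚ := Algebra.norm ℚ (∑ i, u i * v i)

/-- the coefficients of the functional `z ↦ tr (w z)` -/
noncomputable def kap (a b c d : ℚ) (w z : Tri ℚ) : ℚ := ttr b c (tmul a b c d w z)

theorem kap_eq (a b c d : ℚ) (w z : Tri ℚ) : kap a b c d w z =
    kap a b c d w ⟨1, 0, 0⟩ * z.x + kap a b c d w ⟨0, 1, 0⟩ * z.y +
      kap a b c d w ⟨0, 0, 1⟩ * z.z := by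
  simp only [kap, ttr, tmul]
  ring

theorem normFn_eq (u v : Fin 2 → K) : normFn u v =
    tnorm (a : ℚ) b c d (co hK h (u 0)) * tnorm (a : ℚ) b c d (co hK h (v 0)) +
    kap a b c d (cc (a : ℚ) b c d (co hK h (u 0)) (co hK h (u 1)))
      (cc (a : ℚ) b c d (co hK h (v 0)) (co hK h (v 1))) +
    kap a b c d (cc (a : ℚ) b c d (co hK h (u 1)) (co hK h (u 0)))
      (cc (a : ℚ) b c d (co hK h (v 1)) (co hK h (v 0))) +
    tnorm (a : ℚ) b c d (co hK h (u 1)) * tnorm (a : ℚ) b c d (co hK h (v 1)) := by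
  rw [normFn, Fin.sum_univ_two, norm_eq hK h, co_add, tnorm_add, co_mul, co_mul, tnorm_tmul,
    tnorm_tmul]
  have e1 : ∀ p q r s : Tri ℚ, tmul (a : ℚ) b c d (tadj (a : ℚ) b c d (tmul (a : ℚ) b c d p q))
      (tmul (a : ℚ) b c d r s) = tmul (a : ℚ) b c d (cc (a : ℚ) b c d p r)
        (cc (a : ℚ) b c d q s) := by
    intro p q r s
    rw [tadj_tmul, cc, cc, tmul_assoc, tmul_assoc]
    congr 1
    rw [← tmul_assoc, tmul_comm _ _ _ _ _ r, tmul_assoc]
  have e2 : tmul (a : ℚ) b c d (tmul (a : ℚ) b c d (co hK h (u 0)) (co hK h (v 0)))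
      (tadj (a : ℚ) b c d (tmul (a : ℚ) b c d (co hK h (u 1)) (co hK h (v 1)))) =
      tmul (a : ℚ) b c d (cc (a : ℚ) b c d (co hK h (u 1)) (co hK h (u 0)))
        (cc (a : ℚ) b c d (co hK h (v 1)) (co hK h (v 0))) := by
    rw [tmul_comm, e1]
  rw [e1, e2]
  rfl

theorem normFn_mem (u : Fin 2 → K) : normFn u ∈
    Submodule.span ℚ (Set.range (fn hK h)) := by
  let w := cc (a : ℚ) b c d (co hK h (u 0)) (co hK h (u 1))
  let w' := cc (a : ℚ) b c d (co hK h (u 1)) (co hK h (u 0))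
  have hsum : normFn u = tnorm (a : ℚ) b c d (co hK h (u 0)) • fn hK h 0 +
      (kap a b c d w ⟨1, 0, 0⟩ • fn hK h 1 + kap a b c d w ⟨0, 1, 0⟩ • fn hK h 2 +
        kap a b c d w ⟨0, 0, 1⟩ • fn hK h 3) +
      (kap a b c d w' ⟨1, 0, 0⟩ • fn hK h 4 + kap a b c d w' ⟨0, 1, 0⟩ • fn hK h 5 +
        kap a b c d w' ⟨0, 0, 1⟩ • fn hK h 6) +
      tnorm (a : ℚ) b c d (co hK h (u 1)) • fn hK h 7 := by
    funext v
    rw [normFn_eq hK h, kap_eq, kap_eq (a : ℚ) b c d (cc (a : ℚ) b c d (co hK h (u 1))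
      (co hK h (u 0)))]
    simp only [Pi.add_apply, Pi.smul_apply, smul_eq_mul, fn_eq]
    rfl
  rw [hsum]
  have hm : ∀ i, fn hK h i ∈ Submodule.span ℚ (Set.range (fn hK h)) :=
    fun i => Submodule.subset_span ⟨i, rfl⟩
  refine Submodule.add_mem _ (Submodule.add_mem _ (Submodule.add_mem _ ?_ ?_) ?_) ?_
  · exact Submodule.smul_mem _ _ (hm 0)
  · exact Submodule.add_mem _ (Submodule.add_mem _ (Submodule.smul_mem _ _ (hm 1))
      (Submodule.smul_mem _ _ (hm 2))) (Submodule.smul_mem _ _ (hm 3))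
  · exact Submodule.add_mem _ (Submodule.add_mem _ (Submodule.smul_mem _ _ (hm 4))
      (Submodule.smul_mem _ _ (hm 5))) (Submodule.smul_mem _ _ (hm 6))
  · exact Submodule.smul_mem _ _ (hm 7)

theorem exists_dual (hK : Module.finrank ℚ K = 3) (ℓ : K →ₗ[ℚ] ℚ) :
    ∃ w : K, ∀ z, Algebra.trace ℚ K (w * z) = ℓ z := by
  have hfin : FiniteDimensional ℚ K := Module.finite_of_finrank_pos (by omega)
  have : CharZero K := algebraRat.charZero K
  refine ⟨(LinearMap.BilinForm.toDual (Algebra.traceForm ℚ K)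
    (traceForm_nondegenerate ℚ K)).symm ℓ, ?_⟩
  intro z
  have := LinearMap.BilinForm.apply_toDual_symm_apply
    (hB := traceForm_nondegenerate ℚ K) (f := ℓ) (v := z)
  rw [Algebra.traceForm_apply] at this
  exact this

/-- For each `w` the function `tr (w * adj s * t)` is a combination of norms. -/
theorem trace_mem (w : K) : (fun v : Fin 2 → K => kap a b c d (co hK h w)
    (cc (a : ℚ) b c d (co hK h (v 0)) (co hK h (v 1)))) ∈
    Submodule.span ℚ (Set.range (normFn : (Fin 2 → K) → (Fin 2 → K) → ℚ)) := by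
  have hN : ∀ u : Fin 2 → K, normFn u ∈
      Submodule.span ℚ (Set.range (normFn : (Fin 2 → K) → (Fin 2 → K) → ℚ)) :=
    fun u => Submodule.subset_span ⟨u, rfl⟩
  have e : (fun v : Fin 2 → K => kap a b c d (co hK h w)
    (cc (a : ℚ) b c d (co hK h (v 0)) (co hK h (v 1)))) =
      (1 / 2 : ℚ) • (normFn ![1, w] + normFn ![-1, w]) - normFn ![0, w] := by
    funext v
    simp only [Pi.sub_apply, Pi.smul_apply, Pi.add_apply, smul_eq_mul]
    rw [normFn_eq hK h, normFn_eq hK h, normFn_eq hK h]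
    have f0 : ∀ p q : K, (![p, q] : Fin 2 → K) 0 = p := fun _ _ => rfl
    have f1 : ∀ p q : K, (![p, q] : Fin 2 → K) 1 = q := fun _ _ => rfl
    simp only [f0, f1]
    have g0 : co hK h 0 = ⟨0, 0, 0⟩ := by ext <;> simp [co]
    have g1 : co hK h 1 = ⟨1, 0, 0⟩ := co_one hK h
    have g2 : co hK h (-1) = ⟨-1, 0, 0⟩ := by
      rw [co_neg, g1]
      ext <;> simp [tsmul]
    rw [g0, g1, g2]
    generalize co hK h w = W
    generalize co hK h (v 0) = S
    generalize co hK h (v 1) = T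
    have k1 : cc (a : ℚ) b c d ⟨1, 0, 0⟩ W = W := by
      ext <;> simp only [cc, tmul, tadj] <;> ring
    have k2 : cc (a : ℚ) b c d ⟨-1, 0, 0⟩ W = W := by
      ext <;> simp only [cc, tmul, tadj] <;> ring
    have k3 : cc (a : ℚ) b c d ⟨0, 0, 0⟩ W = ⟨0, 0, 0⟩ := by
      ext <;> simp only [cc, tmul, tadj] <;> ring
    have k4 : cc (a : ℚ) b c d W ⟨0, 0, 0⟩ = ⟨0, 0, 0⟩ := by
      ext <;> simp only [cc, tmul, tadj] <;> ring
    have k5 : cc (a : ℚ) b c d W ⟨-1, 0, 0⟩ = tsmul (-1) (cc (a : ℚ) b c d W ⟨1, 0, 0⟩) := by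
      ext <;> simp only [cc, tmul, tadj, tsmul] <;> ring
    have k6 : ∀ P Q : Tri ℚ, kap a b c d (tsmul (-1) P) Q = - kap a b c d P Q := by
      intro P Q
      simp only [kap, ttr, tmul, tsmul]
      ring
    have k7 : ∀ Q : Tri ℚ, kap a b c d ⟨0, 0, 0⟩ Q = 0 := by
      intro Q
      simp only [kap, ttr, tmul]
      ring
    have n1 : tnorm (a : ℚ) b c d ⟨1, 0, 0⟩ = 1 := by simp only [tnorm, tadj]; ring
    have n2 : tnorm (a : ℚ) b c d ⟨-1, 0, 0⟩ = -1 := by simp only [tnorm, tadj]; ring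
    have n3 : tnorm (a : ℚ) b c d ⟨0, 0, 0⟩ = 0 := by simp only [tnorm, tadj]; ring
    rw [k1, k2, k3, k4, k5, k6, k7, k7, n1, n2, n3]
    ring
  rw [e]
  exact Submodule.sub_mem _ (Submodule.smul_mem _ _ (Submodule.add_mem _ (hN _) (hN _))) (hN _)

theorem trace_mem' (w : K) : (fun v : Fin 2 → K => kap a b c d (co hK h w)
    (cc (a : ℚ) b c d (co hK h (v 1)) (co hK h (v 0)))) ∈
    Submodule.span ℚ (Set.range (normFn : (Fin 2 → K) → (Fin 2 → K) → ℚ)) := by
  have hN : ∀ u : Fin 2 → K, normFn u ∈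
      Submodule.span ℚ (Set.range (normFn : (Fin 2 → K) → (Fin 2 → K) → ℚ)) :=
    fun u => Submodule.subset_span ⟨u, rfl⟩
  have e : (fun v : Fin 2 → K => kap a b c d (co hK h w)
    (cc (a : ℚ) b c d (co hK h (v 1)) (co hK h (v 0)))) =
      (1 / 2 : ℚ) • (normFn ![w, 1] + normFn ![w, -1]) - normFn ![w, 0] := by
    funext v
    simp only [Pi.sub_apply, Pi.smul_apply, Pi.add_apply, smul_eq_mul]
    rw [normFn_eq hK h, normFn_eq hK h, normFn_eq hK h]
    have f0 : ∀ p q : K, (![p, q] : Fin 2 → K) 0 = p := fun _ _ => rfl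
    have f1 : ∀ p q : K, (![p, q] : Fin 2 → K) 1 = q := fun _ _ => rfl
    simp only [f0, f1]
    have g0 : co hK h 0 = ⟨0, 0, 0⟩ := by ext <;> simp [co]
    have g1 : co hK h 1 = ⟨1, 0, 0⟩ := co_one hK h
    have g2 : co hK h (-1) = ⟨-1, 0, 0⟩ := by
      rw [co_neg, g1]
      ext <;> simp [tsmul]
    rw [g0, g1, g2]
    generalize co hK h w = W
    generalize co hK h (v 0) = S
    generalize co hK h (v 1) = T
    have k1 : cc (a : ℚ) b c d ⟨1, 0, 0⟩ W = W := by
      ext <;> simp only [cc, tmul, tadj] <;> ring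
    have k2 : cc (a : ℚ) b c d ⟨-1, 0, 0⟩ W = W := by
      ext <;> simp only [cc, tmul, tadj] <;> ring
    have k3 : cc (a : ℚ) b c d ⟨0, 0, 0⟩ W = ⟨0, 0, 0⟩ := by
      ext <;> simp only [cc, tmul, tadj] <;> ring
    have k4 : cc (a : ℚ) b c d W ⟨0, 0, 0⟩ = ⟨0, 0, 0⟩ := by
      ext <;> simp only [cc, tmul, tadj] <;> ring
    have k5 : cc (a : ℚ) b c d W ⟨-1, 0, 0⟩ = tsmul (-1) (cc (a : ℚ) b c d W ⟨1, 0, 0⟩) := by
      ext <;> simp only [cc, tmul, tadj, tsmul] <;> ring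
    have k6 : ∀ P Q : Tri ℚ, kap a b c d (tsmul (-1) P) Q = - kap a b c d P Q := by
      intro P Q
      simp only [kap, ttr, tmul, tsmul]
      ring
    have k7 : ∀ Q : Tri ℚ, kap a b c d ⟨0, 0, 0⟩ Q = 0 := by
      intro Q
      simp only [kap, ttr, tmul]
      ring
    have n1 : tnorm (a : ℚ) b c d ⟨1, 0, 0⟩ = 1 := by simp only [tnorm, tadj]; ring
    have n2 : tnorm (a : ℚ) b c d ⟨-1, 0, 0⟩ = -1 := by simp only [tnorm, tadj]; ring
    have n3 : tnorm (a : ℚ) b c d ⟨0, 0, 0⟩ = 0 := by simp only [tnorm, tadj]; ring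
    rw [k1, k2, k3, k4, k5, k6, k7, k7, n1, n2, n3]
    ring
  rw [e]
  exact Submodule.sub_mem _ (Submodule.smul_mem _ _ (Submodule.add_mem _ (hN _) (hN _))) (hN _)

theorem fn_mem (i : Fin 8) : fn hK h i ∈
    Submodule.span ℚ (Set.range (normFn : (Fin 2 → K) → (Fin 2 → K) → ℚ)) := by
  have hN : ∀ u : Fin 2 → K, normFn u ∈
      Submodule.span ℚ (Set.range (normFn : (Fin 2 → K) → (Fin 2 → K) → ℚ)) :=
    fun u => Submodule.subset_span ⟨u, rfl⟩
  -- the coordinate functionals are traces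
  have hdual : ∀ k : Fin 3, ∃ w : K, ∀ z : K, kap a b c d (co hK h w) (co hK h z) =
      (bas hK h).repr z k := by
    intro k
    obtain ⟨w, hw⟩ := exists_dual hK ((bas hK h).coord k)
    refine ⟨w, fun z => ?_⟩
    have h1 := hw z
    rw [trace_eq hK h, co_mul] at h1
    exact h1
  have hdual' : ∀ k : Fin 3, ∃ w : K, ∀ Z : Tri ℚ, kap a b c d (co hK h w) Z =
      (bas hK h).repr (el ω θ Z) k := by
    intro k
    obtain ⟨w, hw⟩ := hdual k
    refine ⟨w, fun Z => ?_⟩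
    rw [← hw, co_el]
  have ex : ∀ Z : Tri ℚ, (bas hK h).repr (el ω θ Z) 0 = Z.x := fun Z =>
    congrArg Tri.x (co_el hK h Z)
  have ey : ∀ Z : Tri ℚ, (bas hK h).repr (el ω θ Z) 1 = Z.y := fun Z =>
    congrArg Tri.y (co_el hK h Z)
  have ez : ∀ Z : Tri ℚ, (bas hK h).repr (el ω θ Z) 2 = Z.z := fun Z =>
    congrArg Tri.z (co_el hK h Z)
  obtain ⟨w0, h0⟩ := hdual' 0
  obtain ⟨w1, h1⟩ := hdual' 1
  obtain ⟨w2, h2⟩ := hdual' 2
  simp only [ex] at h0
  simp only [ey] at h1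
  simp only [ez] at h2
  match i with
  | 0 =>
    have e : fn hK h 0 = normFn ![1, 0] := by
      funext v
      rw [fn_eq, normFn, Fin.sum_univ_two]
      have : (![1, 0] : Fin 2 → K) 0 * v 0 + (![1, 0] : Fin 2 → K) 1 * v 1 = v 0 := by simp
      rw [this, norm_eq hK h]
      rfl
    rw [e]
    exact hN _
  | 1 =>
    have e : fn hK h 1 = fun v : Fin 2 → K => kap a b c d (co hK h w0)
        (cc (a : ℚ) b c d (co hK h (v 0)) (co hK h (v 1))) := by
      funext v
      rw [fn_eq, h0]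
      rfl
    rw [e]
    exact trace_mem hK h w0
  | 2 =>
    have e : fn hK h 2 = fun v : Fin 2 → K => kap a b c d (co hK h w1)
        (cc (a : ℚ) b c d (co hK h (v 0)) (co hK h (v 1))) := by
      funext v
      rw [fn_eq, h1]
      rfl
    rw [e]
    exact trace_mem hK h w1
  | 3 =>
    have e : fn hK h 3 = fun v : Fin 2 → K => kap a b c d (co hK h w2)
        (cc (a : ℚ) b c d (co hK h (v 0)) (co hK h (v 1))) := by
      funext v
      rw [fn_eq, h2]
      rfl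
    rw [e]
    exact trace_mem hK h w2
  | 4 =>
    have e : fn hK h 4 = fun v : Fin 2 → K => kap a b c d (co hK h w0)
        (cc (a : ℚ) b c d (co hK h (v 1)) (co hK h (v 0))) := by
      funext v
      rw [fn_eq, h0]
      rfl
    rw [e]
    exact trace_mem' hK h w0
  | 5 =>
    have e : fn hK h 5 = fun v : Fin 2 → K => kap a b c d (co hK h w1)
        (cc (a : ℚ) b c d (co hK h (v 1)) (co hK h (v 0))) := by
      funext v
      rw [fn_eq, h1]
      rfl
    rw [e]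
    exact trace_mem' hK h w1
  | 6 =>
    have e : fn hK h 6 = fun v : Fin 2 → K => kap a b c d (co hK h w2)
        (cc (a : ℚ) b c d (co hK h (v 1)) (co hK h (v 0))) := by
      funext v
      rw [fn_eq, h2]
      rfl
    rw [e]
    exact trace_mem' hK h w2
  | 7 =>
    have e : fn hK h 7 = normFn ![0, 1] := by
      funext v
      rw [fn_eq, normFn, Fin.sum_univ_two]
      have : (![0, 1] : Fin 2 → K) 0 * v 0 + (![0, 1] : Fin 2 → K) 1 * v 1 = v 1 := by simp
      rw [this, norm_eq hK h]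
      rfl
    rw [e]
    exact hN _

theorem span_eq : Submodule.span ℚ (Set.range (normFn : (Fin 2 → K) → (Fin 2 → K) → ℚ)) =
    Submodule.span ℚ (Set.range (fn hK h)) := by
  apply le_antisymm
  · rw [Submodule.span_le]
    rintro _ ⟨u, rfl⟩
    exact normFn_mem hK h u
  · rw [Submodule.span_le]
    rintro _ ⟨s, rfl⟩
    exact fn_mem hK h s

end Functions

/-- The model for the Weil restriction of the projective line along a cubic field. -/
theorem hasModel {K : Type} [Field K] [Algebra ℚ K] (hK : Module.finrank ℚ K = 3)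
    (B : Type) [CommRing B] [Algebra ℚ B] (ℬ : ℕ → Submodule ℚ B) [GradedAlgebra ℬ]
    (j : B →ₐ[ℚ] ((Fin 2 → K) → ℚ)) (hj : Function.Injective j)
    (hgen : Algebra.adjoin ℚ (ℬ 1 : Set B) = ⊤)
    (hspan : Submodule.map j.toLinearMap (ℬ 1) = Submodule.span ℚ
      (Set.range (normFn : (Fin 2 → K) → (Fin 2 → K) → ℚ)))
    (Z : Scheme) (e : Nonempty (Z ≅ Proj ℬ)) : HasModel Z := by
  obtain ⟨a, b, c, d, ω, θ, h, hn1, hn2⟩ := exists_nice hK
  have ha : gcub a b c d ≠ 0 := gcub_ne_zero h.a_ne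
  have hd : gcub (-d) (-c) (-b) (-a) ≠ 0 := gcub_ne_zero h.swap.a_ne
  refine model_of_param (phi a b c d) (e := 3) (by norm_num) (phi_homogeneous a b c d) ?_
    ch (cover a b c d) ?_ (coord hK h) (coord_surjective hK h) B ℬ j hj hgen ?_ Z e
  · refine ⟨0, ?_⟩
    intro h0
    have h1 := phi_X a b c d 0
    rw [h0] at h1
    have h2 := congrArg (eval ![1, 0, 0, 0, 0, 0]) h1
    rw [map_gen] at h2
    have h3 : tmap (eval ![1, 0, 0, 0, 0, 0] : MvPolynomial (Fin 6) ℤ →+* ℤ) ps = tone := by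
      ext1
      · exact eval_X _
      · exact eval_X _
      · exact eval_X _
    rw [h3] at h2
    have h4 : tnorm (a : ℤ) b c d tone = 1 := tnorm_one _ _ _ _
    have h5 : (0 : ℤ) = 1 := by
      rw [map_zero] at h2
      rw [← h4]
      exact h2
    exact absurd h5 (by norm_num)
  · intro i
    exact regular_all a b c d hn1 hn2 ha hd i
  · rw [hspan, span_eq hK h]
    rfl

/-- The coordinate ring in `hasModel` exists. -/
theorem exists_ring {K : Type} [Field K] [Algebra ℚ K] (hK : Module.finrank ℚ K = 3) :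
    ∃ (B : Type) (_ : CommRing B) (_ : Algebra ℚ B) (ℬ : ℕ → Submodule ℚ B) (_ : GradedAlgebra ℬ)
      (j : B →ₐ[ℚ] ((Fin 2 → K) → ℚ)), Function.Injective j ∧
      Algebra.adjoin ℚ (ℬ 1 : Set B) = ⊤ ∧
      Submodule.map j.toLinearMap (ℬ 1) = Submodule.span ℚ
        (Set.range (normFn : (Fin 2 → K) → (Fin 2 → K) → ℚ)) := by
  obtain ⟨a, b, c, d, ω, θ, h, _, _⟩ := exists_nice hK
  obtain ⟨B, i1, i2, ℬ, i3, j, h1, h2, h3⟩ := exists_coordinate_ring (phi a b c d) (e := 3)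
    (by norm_num) (phi_homogeneous a b c d) (coord hK h) (coord_surjective hK h)
  refine ⟨B, i1, i2, ℬ, i3, j, h1, h2, ?_⟩
  rw [span_eq hK h]
  exact h3

end WeilCubic

end Pool.MP_602153_ag
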